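import Pool.Agent.E8helper88.Mul.Desc

/-!
# Multipliers and critical heights: fixed points and preimages
-/

set_option linter.unusedSectionVars false
set_option linter.unusedVariables false

namespace Pool.Agent.E8helper88.Mul

open Polynomial Finset
open Pool.Agent.W277.UH Pool.Agent.Y706.CH Pool.Agent.Y195.CH Pool.Agent.Y676.CH

universe u v w

/-- the multiplier of a point -/
def IsMulAt {K : Type*} [CommRing K] (d : ℕ) (p q : K[X]) (n : ℕ) (lam : K) (Z : K × K) : Prop :=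
  ∃ μ : K, μ ≠ 0 ∧ (FH d p q)^[n] Z = μ • Z ∧
    lam * μ ^ 2 = ∏ j ∈ range n, WH d p q ((FH d p q)^[j] Z)

lemma isMul_iff {K : Type*} [CommRing K] (d : ℕ) (p q : K[X]) (n : ℕ) (lam : K) :
    IsMul d p q n lam ↔ ∃ Z, Z ≠ 0 ∧ IsMulAt d p q n lam Z := Iff.rfl

section
variable {K : Type u} [Field K]

lemma prod_smul (d : ℕ) (hd : 1 ≤ d) (p q : K[X]) (n : ℕ) (t : K) (Z : K × K) :
    t ^ 2 * ∏ j ∈ range n, WH d p q ((FH d p q)^[j] (t • Z)) =
      t ^ (2 * d ^ n) * ∏ j ∈ range n, WH d p q ((FH d p q)^[j] Z) := by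
  induction n with
  | zero => simp
  | succ n ih =>
    rw [Finset.prod_range_succ, Finset.prod_range_succ, ← mul_assoc, ih, FH_iter_smul, WH_smul]
    have h1 : t ^ (2 * d ^ (n + 1)) = t ^ (2 * d ^ n) * (t ^ d ^ n) ^ (2 * d - 2) := by
      rw [← pow_mul, ← pow_add]
      congr 1
      obtain ⟨e, rfl⟩ : ∃ e, d = e + 1 := ⟨d - 1, by omega⟩
      have : 2 * (e + 1) - 2 = 2 * e := by omega
      rw [this]
      ring
    rw [h1]
    ring

lemma IsMulAt_smul (d : ℕ) (hd : 1 ≤ d) (p q : K[X]) (n : ℕ) (lam : K) (Z : K × K) (t : K)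
    (ht : t ≠ 0) (h : IsMulAt d p q n lam Z) : IsMulAt d p q n lam (t • Z) := by
  obtain ⟨μ, hμ, h1, h2⟩ := h
  refine ⟨t ^ (d ^ n) * t⁻¹ * μ, mul_ne_zero (mul_ne_zero (pow_ne_zero _ ht) (inv_ne_zero ht)) hμ,
    ?_, ?_⟩
  · rw [FH_iter_smul, h1, smul_smul, smul_smul]
    congr 1
    field_simp
  · apply mul_left_cancel₀ (pow_ne_zero 2 ht)
    rw [prod_smul d hd, ← h2]
    have h3 : t ^ (2 * d ^ n) = (t ^ (d ^ n)) ^ 2 := by rw [← pow_mul, mul_comm]
    rw [h3]
    field_simp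

lemma IsMulAt_conj [CharZero K] (d : ℕ) (hd : 1 ≤ d) (p q u w : K[X]) (hp : p.natDegree ≤ d)
    (hq : q.natDegree ≤ d) (hu : u.natDegree ≤ d) (hw : w.natDegree ≤ d)
    (hmax : max p.natDegree q.natDegree = d) (hco : IsCoprime p q) (a b c e s : K)
    (hdet : a * e - b * c ≠ 0) (hs : s ≠ 0)
    (h : ∀ Z, FH d u w (Ph a b c e Z) = s • Ph a b c e (FH d p q Z)) (n : ℕ) (lam : K)
    (Z : K × K) (hZ : Z ≠ 0)
    (hl : IsMulAt d p q n lam Z) : IsMulAt d u w n lam (Ph a b c e Z) := by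
  obtain ⟨t, ht0, ht1, ht2, ht3⟩ := FH_conj_iter d p q u w a b c e s hs h
  obtain ⟨μ, hμ, h1, h2⟩ := hl
  refine ⟨t n * μ, mul_ne_zero (ht2 n) hμ, ?_, ?_⟩
  · rw [ht3, h1, Ph_smul, smul_smul]
  · have h3 : ∀ m, ∏ j ∈ range m, WH d u w ((FH d u w)^[j] (Ph a b c e Z)) =
        t m ^ 2 * ∏ j ∈ range m, WH d p q ((FH d p q)^[j] Z) := by
      intro m
      induction m with
      | zero => simp [ht0]
      | succ m ih =>
        rw [Finset.prod_range_succ, Finset.prod_range_succ, ih, ht3, WH_smul,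
          WH_conj d hd p q u w hp hq hu hw a b c e s hdet h _
            (FH_iter_nz d hd p q hmax hco m Z hZ), ht1]
        have h4 : t m ^ (2 * d - 2) * t m ^ 2 = (t m ^ d) ^ 2 := by
          rw [← pow_add, ← pow_mul]
          congr 1
          omega
        linear_combination (s ^ 2 * WH d p q ((FH d p q)^[m] Z) *
          ∏ j ∈ range m, WH d p q ((FH d p q)^[j] Z)) * h4
    rw [h3, ← h2]
    ring

/-- transport of relations between points -/
lemma wd_conj (d : ℕ) (p q u w : K[X]) (a b c e s : K) (hdet : a * e - b * c ≠ 0) (hs : s ≠ 0)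
    (h : ∀ Z, FH d u w (Ph a b c e Z) = s • Ph a b c e (FH d p q Z)) (n₁ n₂ : ℕ)
    (Z V Z' V' : K × K) (t t' : K) (ht : t ≠ 0) (ht' : t' ≠ 0) (hZ : Ph a b c e Z = t • Z')
    (hV : Ph a b c e V = t' • V') :
    wd ((FH d u w)^[n₁] Z') ((FH d u w)^[n₂] V') = 0 ↔
      wd ((FH d p q)^[n₁] Z) ((FH d p q)^[n₂] V) = 0 := by
  obtain ⟨T, -, -, hT, hTT⟩ := FH_conj_iter d p q u w a b c e s hs h
  have h1 := hTT n₁ Z
  have h2 := hTT n₂ V
  rw [hZ, FH_iter_smul] at h1
  rw [hV, FH_iter_smul] at h2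
  have h3 : wd (t ^ d ^ n₁ • (FH d u w)^[n₁] Z') (t' ^ d ^ n₂ • (FH d u w)^[n₂] V') =
      wd (T n₁ • Ph a b c e ((FH d p q)^[n₁] Z)) (T n₂ • Ph a b c e ((FH d p q)^[n₂] V)) := by
    rw [h1, h2]
  rw [wd_smul_left', wd_smul_right', wd_smul_left', wd_smul_right', wd_Ph] at h3
  constructor
  · intro h4
    rw [h4, mul_zero, mul_zero] at h3
    exact (mul_eq_zero.mp ((mul_eq_zero.mp ((mul_eq_zero.mp h3.symm).resolve_left
      (hT n₁))).resolve_left (hT n₂))).resolve_left hdet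
  · intro h4
    rw [h4, mul_zero, mul_zero, mul_zero] at h3
    exact (mul_eq_zero.mp ((mul_eq_zero.mp h3).resolve_left (pow_ne_zero _ ht))).resolve_left
      (pow_ne_zero _ ht')

/-- the multiplier at zero -/
lemma mul_at_zero [CharZero K] (d : ℕ) (hd : 1 ≤ d) (u w : K[X])
    (hmax : max u.natDegree w.natDegree = d) (hco : IsCoprime u w) (n : ℕ) (lam : K)
    (h : IsMulAt d u w n lam (0, 1)) :
    (itP d u w n).1.eval 0 = 0 ∧ (itP d u w n).2.eval 0 ≠ 0 ∧
      lam * (itP d u w n).2.eval 0 = (derivative (itP d u w n).1).eval 0 := by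
  have hp : u.natDegree ≤ d := hmax ▸ le_max_left _ _
  have hq : w.natDegree ≤ d := hmax ▸ le_max_right _ _
  obtain ⟨μ, hμ, h1, h2⟩ := h
  have e0 := itP_eval d u w n 0
  rw [h1] at e0
  have e1 := congrArg Prod.fst e0
  have e2 := congrArg Prod.snd e0
  simp only [Prod.smul_fst, Prod.smul_snd, smul_eq_mul, mul_zero, mul_one] at e1 e2
  refine ⟨e1, by rw [e2]; exact hμ, ?_⟩
  have h3 := itP_wr d hd u w hp hq n 0
  rw [← h2, wr_eval, e1, e2, zero_mul, sub_zero] at h3
  rw [e2]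
  apply mul_right_cancel₀ hμ
  linear_combination -h3

/-- another fixed point and another preimage, at zero -/
lemma pts_zero [CharZero K] [IsAlgClosed K] (d : ℕ) (hd : 2 ≤ d) (u w : K[X])
    (hmax : max u.natDegree w.natDegree = d) (hco : IsCoprime u w) (n : ℕ) (hn : 1 ≤ n) (lam : K)
    (h : IsMulAt d u w n lam (0, 1)) (h0 : lam ≠ 0) (h1 : lam ≠ 1) :
    (∃ be : K × K, wd be (0, 1) ≠ 0 ∧ wd ((FH d u w)^[n] be) be = 0) ∧
      ∃ ga : K × K, wd ga (0, 1) ≠ 0 ∧ wd ((FH d u w)^[n] ga) (0, 1) = 0 := by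
  obtain ⟨g1, g2, g3⟩ := mul_at_zero d (by omega) u w hmax hco n lam h
  have hdeg := itP_deg d u w n
  have htop := itP_top d u w n
  have hev := itP_eval d u w n
  set P := (itP d u w n).1 with hP
  set R := (itP d u w n).2 with hR
  have hD : 2 ≤ d ^ n := le_trans hd (Nat.le_self_pow (by omega) d)
  obtain ⟨P₁, hP₁⟩ : X ∣ P := by
    rw [X_dvd_iff, coeff_zero_eq_eval_zero]
    exact g1
  have hP₁0 : P₁.eval 0 = lam * R.eval 0 := by
    rw [g3, hP₁]
    simp
  have hwd : ∀ x : K, wd ((x, 1) : K × K) (0, 1) = x := by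
    intro x
    unfold wd
    simp
  constructor
  · by_cases hc : R.coeff (d ^ n) = 0
    · refine ⟨(1, 0), by unfold wd; simp, ?_⟩
      rw [← htop, hc]
      unfold wd
      simp
    · set G := P₁ - R with hG
      have h2 : P₁.coeff (d ^ n) = 0 := by
        have h3 : P.coeff (d ^ n + 1) = 0 := coeff_eq_zero_of_natDegree_lt (by omega)
        rw [hP₁, coeff_X_mul] at h3
        exact h3
      have h4 : G.coeff (d ^ n) ≠ 0 := by
        rw [hG, coeff_sub, h2, zero_sub]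
        exact neg_ne_zero.mpr hc
      have h5 : d ^ n ≤ G.natDegree := le_natDegree_of_ne_zero h4
      obtain ⟨x, hx⟩ := IsAlgClosed.exists_root G (by
        intro h6
        have h7 : _ = 0 := natDegree_eq_of_degree_eq_some (n := 0) h6
        omega)
      rw [IsRoot, hG, eval_sub] at hx
      have hx0 : x ≠ 0 := by
        rintro rfl
        rw [hP₁0] at hx
        have : (lam - 1) * R.eval 0 = 0 := by linear_combination hx
        rcases mul_eq_zero.mp this with h6 | h6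
        · exact h1 (sub_eq_zero.mp h6)
        · exact g2 h6
      refine ⟨(x, 1), by rw [hwd]; exact hx0, ?_⟩
      rw [← hev, hP₁]
      unfold wd
      simp only [eval_mul, eval_X, mul_one]
      linear_combination x * hx
  · by_cases hc : P.coeff (d ^ n) = 0
    · refine ⟨(1, 0), by unfold wd; simp, ?_⟩
      rw [← htop, hc]
      unfold wd
      simp
    · have h2 : P₁.coeff (d ^ n - 1) ≠ 0 := by
        have h3 : P.coeff (d ^ n - 1 + 1) = P₁.coeff (d ^ n - 1) := by rw [hP₁, coeff_X_mul]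
        rw [← h3, Nat.sub_add_cancel (by omega)]
        exact hc
      have h5 : d ^ n - 1 ≤ P₁.natDegree := le_natDegree_of_ne_zero h2
      obtain ⟨x, hx⟩ := IsAlgClosed.exists_root P₁ (by
        intro h6
        have h7 : _ = 0 := natDegree_eq_of_degree_eq_some (n := 0) h6
        omega)
      rw [IsRoot] at hx
      have hx0 : x ≠ 0 := by
        rintro rfl
        rw [hP₁0] at hx
        exact (mul_ne_zero h0 g2) hx
      refine ⟨(x, 1), by rw [hwd]; exact hx0, ?_⟩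
      rw [← hev, hP₁]
      unfold wd
      simp [hx]

/-- another fixed point and another preimage -/
lemma pts [CharZero K] [IsAlgClosed K] (d : ℕ) (hd : 2 ≤ d) (p q : K[X])
    (hmax : max p.natDegree q.natDegree = d) (hco : IsCoprime p q) (n : ℕ) (hn : 1 ≤ n) (lam : K)
    (al : K × K) (hal : al ≠ 0) (h : IsMulAt d p q n lam al) (h0 : lam ≠ 0) (h1 : lam ≠ 1) :
    (∃ be : K × K, wd be al ≠ 0 ∧ wd ((FH d p q)^[n] be) be = 0) ∧
      ∃ ga : K × K, wd ga al ≠ 0 ∧ wd ((FH d p q)^[n] ga) al = 0 := by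
  have hinf : Infinite K := inferInstance
  have hp : p.natDegree ≤ d := hmax ▸ le_max_left _ _
  have hq : q.natDegree ≤ d := hmax ▸ le_max_right _ _
  obtain ⟨V, hV⟩ : ∃ V : K × K, wd al V ≠ 0 := by
    by_cases h2 : al.2 = 0
    · have h1 : al.1 ≠ 0 := fun h1 => hal (Prod.ext h1 h2)
      exact ⟨(0, 1), by unfold wd; simpa [h2] using h1⟩
    · exact ⟨(1, 0), by unfold wd; simpa using h2⟩
  have hV2 : wd (al + V) al ≠ 0 := by
    have : wd (al + V) al = -wd al V := by
      unfold wd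
      simp only [Prod.fst_add, Prod.snd_add]
      ring
    rw [this]
    exact neg_ne_zero.mpr hV
  have hV3 : wd (al + V) V ≠ 0 := by
    have : wd (al + V) V = wd al V := by
      unfold wd
      simp only [Prod.fst_add, Prod.snd_add]
      ring
    rw [this]
    exact hV
  obtain ⟨u, w, a, b, c, e, s, hdet, hs, hconj, huw, humax, -, ⟨t, ht, hPal⟩, -, -⟩ :=
    exists_norm d (by omega) p q hmax hco al V (al + V) hV hV2 hV3
  have hu : u.natDegree ≤ d := humax ▸ le_max_left _ _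
  have hw : w.natDegree ≤ d := humax ▸ le_max_right _ _
  have hm := IsMulAt_conj d (by omega) p q u w hp hq hu hw hmax hco a b c e s hdet hs hconj n lam
    al hal h
  rw [hPal] at hm
  have hm' := IsMulAt_smul d (by omega) u w n lam _ t⁻¹ (inv_ne_zero ht) hm
  rw [smul_smul, inv_mul_cancel₀ ht, one_smul] at hm'
  obtain ⟨⟨be, hb1, hb2⟩, ⟨ga, hg1, hg2⟩⟩ := pts_zero d hd u w humax huw n hn lam hm' h0 h1
  have hadj : ∀ Y, Ph a b c e (Ph e (-b) (-c) a Y) = (a * e - b * c) • Y := fun Y => Ph_adj a b c e Y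
  have hwdal : ∀ Y : K × K, wd Y (0, 1) ≠ 0 → wd (Ph e (-b) (-c) a Y) al ≠ 0 := by
    intro Y hY h2
    have h3 := wd_Ph a b c e (Ph e (-b) (-c) a Y) al
    rw [h2, mul_zero, hadj, hPal, wd_smul_left', wd_smul_right'] at h3
    exact (mul_ne_zero hdet (mul_ne_zero ht hY)) h3
  refine ⟨⟨Ph e (-b) (-c) a be, hwdal be hb1, ?_⟩, ⟨Ph e (-b) (-c) a ga, hwdal ga hg1, ?_⟩⟩
  · have := (wd_conj d p q u w a b c e s hdet hs hconj n 0 (Ph e (-b) (-c) a be)
      (Ph e (-b) (-c) a be) be be _ _ hdet hdet (hadj be) (hadj be)).mp (by simpa using hb2)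
    simpa using this
  · have := (wd_conj d p q u w a b c e s hdet hs hconj n 0 (Ph e (-b) (-c) a ga)
      al ga (0, 1) _ t hdet ht (hadj ga) hPal).mp (by simpa using hg2)
    simpa using this

end

end Pool.Agent.E8helper88.Mul
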