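import Pool.Agent.E8helper88.Mul.Ult3
import Pool.Agent.E8helper88.Mul.Pts

/-!
# Multipliers and critical heights: flexible Lattes maps, the statement of the rigidity theorem,
descent for conjugate maps
-/

set_option linter.unusedSectionVars false
set_option linter.unusedVariables false

namespace Pool.Agent.E8helper88.Mul

open Polynomial Finset Filter
open Pool.Agent.W277.UH Pool.Agent.Y706.CH Pool.Agent.Y195.CH Pool.Agent.Y676.CH
open Pool.Agent.E8helper71.UB (UP mk mk_eq mk_eq_zero mk_surjective)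

universe u v w

/-- flexible Lattes maps: there is a quadratic differential `(A / B) (X dY - Y dX)²` whose pull-back
is `d` times itself -/
def LatF {K : Type*} [CommRing K] (d : ℕ) (p q : K[X]) : Prop :=
  ∃ (a : ℕ) (A B : K[X]), A ≠ 0 ∧ B ≠ 0 ∧ A.natDegree ≤ a ∧ B.natDegree ≤ a + 4 ∧
    ∀ Z : K × K, hev a A (FH d p q Z) * (WH d p q Z) ^ 2 * hev (a + 4) B Z =
      d * hev a A Z * hev (a + 4) B (FH d p q Z)

/-- flexible Lattes maps: for some rational function `R = A / B` we have `R(f) f'² = d R` -/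
def LatP {K : Type*} [Field K] (d : ℕ) (p q : K[X]) : Prop :=
  ∃ (e : ℕ) (A B : K[X]), A ≠ 0 ∧ B ≠ 0 ∧ A.natDegree ≤ e ∧ B.natDegree ≤ e ∧
    hc e A p q * (wr p q) ^ 2 * B = C (d : K) * A * q ^ 4 * hc e B p q

/-- the rigidity theorem -/
def S_MCM : Prop := ∀ (Om : Type u) [Field Om] [IsAlgClosed Om] [CharZero Om] (F : Subfield Om),
  (∀ x : Om, IsAlgebraic F x → x ∈ F) → ∀ d : ℕ, 2 ≤ d → ∀ p q : Om[X], IsCoprime p q →
  max p.natDegree q.natDegree = d → (∀ n, 1 ≤ n → ∀ lam, IsMul d p q n lam → lam ∈ F) →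
  (∃ u w : Om[X], (∀ i, u.coeff i ∈ F ∧ w.coeff i ∈ F) ∧ IsCoprime u w ∧
    max u.natDegree w.natDegree = d ∧ CjF d p q u w) ∨ LatP d p q

section
variable {K : Type u} [Field K]

lemma hev_top (a b : ℕ) (A : K[X]) (hA : A.natDegree ≤ a) (Z : K × K) :
    hev (a + b) A Z = Z.2 ^ b * hev a A Z := by
  unfold hev
  rw [Finset.mul_sum]
  have h1 : range (a + 1) ⊆ range (a + b + 1) := Finset.range_subset_range.mpr (by omega)
  rw [← Finset.sum_subset h1]
  · apply Finset.sum_congr rfl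
    intro i hi
    rw [Finset.mem_range] at hi
    have h2 : a + b - i = b + (a - i) := by omega
    rw [h2, pow_add]
    ring
  · intro i hi hni
    rw [Finset.mem_range, not_lt] at hni
    rw [coeff_eq_zero_of_natDegree_lt (by omega), zero_mul, zero_mul]

lemma latP_of_latF [Infinite K] (d : ℕ) (hd : 1 ≤ d) (p q : K[X]) (hp : p.natDegree ≤ d)
    (hq : q.natDegree ≤ d) (hwr : (wr p q).natDegree ≤ 2 * d - 2) (h : LatF d p q) :
    LatP d p q := by
  obtain ⟨a, A, B, hA, hB, hAd, hBd, h⟩ := h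
  refine ⟨a + 4, A, B, hA, hB, by omega, hBd, ?_⟩
  apply Polynomial.funext
  intro x
  have h1 := h (x, 1)
  have e1 : FH d p q (x, 1) = (p.eval x, q.eval x) := by
    unfold FH
    rw [hev_one d p hp, hev_one d q hq]
  have e2 : WH d p q (x, 1) = (wr p q).eval x := hev_one _ _ hwr _
  rw [e1, e2, hev_one (a + 4) B hBd, hev_one a A hAd] at h1
  simp only [eval_mul, eval_pow, eval_C, hc_eval]
  rw [hev_top a 4 A hAd]
  simp only
  linear_combination (q.eval x) ^ 4 * h1

/-- two forms which agree at the points `(x, 1)` agree -/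
lemma hev_ext [Infinite K] (N : ℕ) (P Q : K[X]) (h : ∀ x, P.eval x = Q.eval x) (Z : K × K) :
    hev N P Z = hev N Q Z := by
  rw [Polynomial.funext h]

lemma latF_of_latP [Infinite K] (d : ℕ) (hd : 1 ≤ d) (p q : K[X]) (hp : p.natDegree ≤ d)
    (hq : q.natDegree ≤ d) (hwr : (wr p q).natDegree ≤ 2 * d - 2) (h : LatP d p q) :
    LatF d p q := by
  obtain ⟨e, A, B, hA, hB, hAd, hBd, h⟩ := h
  refine ⟨e, A, B, hA, hB, hAd, by omega, ?_⟩
  intro Z
  -- both sides as forms
  have hcA : (hc e A p q).natDegree ≤ e * d := by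
    exact hc_degree e d A p q hp hq
  have hcB : (hc (e + 4) B p q).natDegree ≤ (e + 4) * d := hc_degree (e + 4) d B p q hp hq
  have hcomp : ∀ (N : ℕ) (f : K[X]), f.natDegree ≤ N →
      ∀ Z, hev N f (FH d p q Z) = hev (N * d) (hc N f p q) Z := by
    intro N f hf Z
    by_cases hZ : Z.2 = 0
    · have hZ' : Z = (Z.1, 0) := Prod.ext rfl hZ
      rw [hZ']
      unfold FH
      rw [hev_zero, hev_zero, hev_zero]
      have h3 := hc_coeff N d f p q hp hq
      rw [h3]
      have h4 : ((p.coeff d * Z.1 ^ d, q.coeff d * Z.1 ^ d) : K × K) =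
          (Z.1 ^ d) • ((p.coeff d, q.coeff d) : K × K) := by
        refine Prod.ext ?_ ?_
        · show p.coeff d * Z.1 ^ d = Z.1 ^ d * p.coeff d
          ring
        · show q.coeff d * Z.1 ^ d = Z.1 ^ d * q.coeff d
          ring
      rw [h4, hev_smul, ← pow_mul, mul_comm d N, mul_comm]
    · have h5 : (hc N f p q).natDegree ≤ N * d := hc_degree N d f p q hp hq
      rw [hev_eval (N * d) _ h5 Z hZ, hc_eval]
      unfold FH
      rw [hev_eval d p hp Z hZ, hev_eval d q hq Z hZ]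
      have h4 : ((Z.2 ^ d * p.eval (Z.1 / Z.2), Z.2 ^ d * q.eval (Z.1 / Z.2)) : K × K) =
          (Z.2 ^ d) • ((p.eval (Z.1 / Z.2), q.eval (Z.1 / Z.2)) : K × K) := rfl
      rw [h4, hev_smul, ← pow_mul, mul_comm d N]
  rw [hcomp e A hAd, hcomp (e + 4) B (by omega)]
  have hWH : (WH d p q Z) ^ 2 = hev (2 * (2 * d - 2)) ((wr p q) ^ 2) Z := by
    rw [pow_two, pow_two]
    unfold WH
    rw [← hev_mulF _ _ _ _ hwr hwr]
    congr 1
    ring
  have e1 : hev (e * d) (hc e A p q) Z * (WH d p q Z) ^ 2 * hev (e + 4) B Z =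
      hev (e * d + 2 * (2 * d - 2) + (e + 4)) (hc e A p q * (wr p q) ^ 2 * B) Z := by
    have hw2 : ((wr p q) ^ 2).natDegree ≤ 2 * (2 * d - 2) :=
      natDegree_pow_le.trans (Nat.mul_le_mul_left 2 hwr)
    rw [hWH, hev_mulF (e * d + 2 * (2 * d - 2)) (e + 4) _ B
      (natDegree_mul_le.trans (add_le_add hcA hw2)) (by omega), hev_mulF _ _ _ _ hcA hw2]
  have e2 : (d : K) * hev e A Z * hev ((e + 4) * d) (hc (e + 4) B p q) Z =
      hev (e + (e + 4) * d) (C (d : K) * A * hc (e + 4) B p q) Z := by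
    rw [hev_mulF e ((e + 4) * d) (C (d : K) * A) _ ((natDegree_C_mul_le _ _).trans hAd) hcB,
      hev_C_mul]
  rw [e1, e2]
  have e3 : e * d + 2 * (2 * d - 2) + (e + 4) = e + (e + 4) * d := by
    obtain ⟨d', rfl⟩ : ∃ d', d = d' + 1 := ⟨d - 1, by omega⟩
    have : 2 * (d' + 1) - 2 = 2 * d' := by omega
    rw [this]
    ring
  rw [e3]
  apply hev_ext
  intro x
  rw [h]
  simp only [eval_mul, eval_pow, eval_C, hc_eval]
  rw [hev_top e 4 B hBd]
  simp only
  ring

/-- flexible Lattes maps, conjugate maps -/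
lemma latF_conj [CharZero K] (d : ℕ) (hd : 2 ≤ d) (p q u w : K[X])
    (hmax : max p.natDegree q.natDegree = d) (humax : max u.natDegree w.natDegree = d)
    (h : CjF d p q u w) (hl : LatF d u w) : LatF d p q := by
  have hp : p.natDegree ≤ d := hmax ▸ le_max_left _ _
  have hq : q.natDegree ≤ d := hmax ▸ le_max_right _ _
  have hu : u.natDegree ≤ d := humax ▸ le_max_left _ _
  have hw : w.natDegree ≤ d := humax ▸ le_max_right _ _
  obtain ⟨a', A, B, hA, hB, hAd, hBd, hl⟩ := hl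
  obtain ⟨a, b, c, e, s, hdet, hs, hconj⟩ := h
  have hne : ∀ (N : ℕ) (f : K[X]), f ≠ 0 → f.natDegree ≤ N →
      hc N f (C a * X + C b) (C c * X + C e) ≠ 0 := by
    intro N f hf hfN h0
    apply hf
    apply Polynomial.funext
    intro x
    rw [eval_zero]
    have h1 := hev_lin N f a b c e (Ph e (-b) (-c) a (x, 1))
    rw [h0, Ph_adj, hev_smul, hev_one N f hfN] at h1
    have h2 : hev N (0 : K[X]) (Ph e (-b) (-c) a (x, 1)) = 0 := by
      unfold hev
      simp
    rw [h2] at h1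
    exact (mul_eq_zero.mp h1.symm).resolve_left (pow_ne_zero _ hdet)
  have hdeg : ∀ (N : ℕ) (f : K[X]), (hc N f (C a * X + C b) (C c * X + C e)).natDegree ≤ N := by
    intro N f
    have := hc_degree N 1 f (C a * X + C b) (C c * X + C e) natDegree_linear_le
      natDegree_linear_le
    rwa [mul_one] at this
  refine ⟨a', hc a' A (C a * X + C b) (C c * X + C e),
    hc (a' + 4) B (C a * X + C b) (C c * X + C e), hne _ _ hA hAd, hne _ _ hB hBd, hdeg _ _,
    hdeg _ _, ?_⟩
  intro Z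
  rw [hev_lin, hev_lin, hev_lin, hev_lin]
  by_cases hZ : Z = 0
  · subst hZ
    have h0 : FH d p q (0 : K × K) = 0 := by
      have h1 := FH_smul d p q (0 : K) (0 : K × K)
      rw [zero_smul, zero_pow (by omega), zero_smul] at h1
      exact h1
    have h2 : Ph a b c e (0 : K × K) = 0 := by
      unfold Ph
      simp
    have h3 : hev (a' + 4) B (0 : K × K) = 0 := by
      have h4 := hev_smul (a' + 4) B (0 : K) (0 : K × K)
      rw [zero_smul, zero_pow (by omega), zero_mul] at h4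
      exact h4
    rw [h0, h2, h3, mul_zero, mul_zero]
  · have h1 := hl (Ph a b c e Z)
    rw [hconj, WH_conj d (by omega) p q u w hp hq hu hw a b c e s hdet hconj Z hZ, hev_smul,
      hev_smul] at h1
    apply mul_left_cancel₀ (pow_ne_zero (a' + 4) hs)
    have h2 : s ^ (a' + 4) = s ^ a' * (s ^ 2) ^ 2 := by ring
    calc s ^ (a' + 4) * (hev a' A (Ph a b c e (FH d p q Z)) * WH d p q Z ^ 2 *
          hev (a' + 4) B (Ph a b c e Z)) =
        s ^ a' * hev a' A (Ph a b c e (FH d p q Z)) * (s ^ 2 * WH d p q Z) ^ 2 *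
          hev (a' + 4) B (Ph a b c e Z) := by rw [h2]; ring
      _ = _ := h1
      _ = _ := by ring

lemma wr_deg (d : ℕ) (hd : 1 ≤ d) (p q : K[X]) (hp : p.natDegree ≤ d) (hq : q.natDegree ≤ d) :
    (wr p q).natDegree ≤ 2 * d - 2 := by
  rw [natDegree_le_iff_coeff_eq_zero]
  intro N hN
  unfold wr
  rw [coeff_sub]
  rcases Nat.lt_or_ge (2 * d - 1) N with h | h
  · have h1 : (derivative p * q).natDegree ≤ 2 * d - 1 :=
      natDegree_mul_le.trans (by have := natDegree_derivative_le p; omega)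
    have h2 : (p * derivative q).natDegree ≤ 2 * d - 1 :=
      natDegree_mul_le.trans (by have := natDegree_derivative_le q; omega)
    rw [coeff_eq_zero_of_natDegree_lt (by omega), coeff_eq_zero_of_natDegree_lt (by omega),
      sub_zero]
  · have hN' : N = (d - 1) + d := by omega
    have hN'' : N = d + (d - 1) := by omega
    have h1 : (derivative p).natDegree ≤ d - 1 := by
      have := natDegree_derivative_le p
      omega
    have h2 : (derivative q).natDegree ≤ d - 1 := by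
      have := natDegree_derivative_le q
      omega
    conv_lhs =>
      congr
      · rw [hN', coeff_mul_add_eq_of_natDegree_le h1 hq]
      · rw [hN'', coeff_mul_add_eq_of_natDegree_le hp h2]
    rw [coeff_derivative, coeff_derivative]
    have h3 : d - 1 + 1 = d := by omega
    rw [h3]
    ring

end

/-- **Descent for conjugate maps.** -/
theorem descent2 {Om : Type u} [Field Om] [IsAlgClosed Om] [CharZero Om] (d : ℕ) (hd : 2 ≤ d)
    (u₀ w₀ u w : Om[X]) (hco₀ : IsCoprime u₀ w₀) (hmax₀ : max u₀.natDegree w₀.natDegree = d)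
    (hco : IsCoprime u w) (hmax : max u.natDegree w.natDegree = d) (n₁ n₂ : ℕ)
    (hn : n₂ < n₁) (hN : Nrm d n₁ n₂ u w) (hcj₀ : CjF d u₀ w₀ u w) (F : Subfield Om)
    (hF : ∀ x : Om, IsAlgebraic F x → x ∈ F) (h0 : ∀ i, u₀.coeff i ∈ F ∧ w₀.coeff i ∈ F) (i : ℕ) :
    u.coeff i ∈ F ∧ w.coeff i ∈ F := by
  classical
  by_contra hcon
  obtain ⟨x, hxF, hx⟩ : ∃ x, x ∉ F ∧ (u.coeff i = x ∨ w.coeff i = x) := by
    by_cases h1 : u.coeff i ∈ F
    · by_cases h2 : w.coeff i ∈ F
      · exact absurd ⟨h1, h2⟩ hcon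
      · exact ⟨_, h2, Or.inr rfl⟩
    · exact ⟨_, h1, Or.inl rfl⟩
  obtain ⟨σ, hσF, hσx⟩ := Pool.Agent.E8helper71.UB.exists_shift_aut Om F hF x hxF
  set τ : ℕ → Om ≃+* Om := fun l => σ ^ l with hτ
  have hτF : ∀ l, ∀ y ∈ F, τ l y = y := by
    intro l y hy
    induction l with
    | zero => simp [hτ]
    | succ l ih =>
      have : τ (l + 1) y = σ (τ l y) := by
        simp only [hτ]
        rw [pow_succ']
        rfl
      rw [this, ih, hσF y hy]
  have hτx : ∀ l : ℕ, τ l x = x + l := by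
    intro l
    induction l with
    | zero => simp [hτ]
    | succ l ih =>
      have : τ (l + 1) x = σ (τ l x) := by
        simp only [hτ]
        rw [pow_succ']
        rfl
      rw [this, ih, map_add, hσx, map_natCast]
      push_cast
      ring
  set U : ℕ → Om[X] := fun l => u.map (τ l : Om →+* Om) with hU
  set W : ℕ → Om[X] := fun l => w.map (τ l : Om →+* Om) with hW
  have hinf : Infinite Om := inferInstance
  have hUmax : ∀ l, max (U l).natDegree (W l).natDegree = d := fun l => max_map _ u w d hmax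
  have hUco : ∀ l, IsCoprime (U l) (W l) := fun l => (Polynomial.isCoprime_map _).mpr hco
  have hUd : ∀ l, (U l).natDegree ≤ d := fun l => (hUmax l) ▸ le_max_left _ _
  have hWd : ∀ l, (W l).natDegree ≤ d := fun l => (hUmax l) ▸ le_max_right _ _
  have hUN : ∀ l, Nrm d n₁ n₂ (U l) (W l) := fun l => Nrm_hom _ d n₁ n₂ u w hN
  have hu₀ : u₀.natDegree ≤ d := hmax₀ ▸ le_max_left _ _
  have hw₀ : w₀.natDegree ≤ d := hmax₀ ▸ le_max_right _ _
  have hu : u.natDegree ≤ d := hmax ▸ le_max_left _ _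
  have hw : w.natDegree ≤ d := hmax ▸ le_max_right _ _
  have hcj : ∀ l : ℕ, CjF d u₀ w₀ (U l) (W l) := by
    intro l
    obtain ⟨a, b, c, e, s, hdet, hs, hconj⟩ := hcj₀
    have h1 := fun Z => CjF_hom (τ l : Om →+* Om) d u₀ w₀ u w hu₀ hw₀ hu hw a b c e s hconj Z
    have e1 : u₀.map (τ l : Om →+* Om) = u₀ := by
      ext j
      rw [coeff_map]
      exact hτF l _ (h0 j).1
    have e2 : w₀.map (τ l : Om →+* Om) = w₀ := by
      ext j
      rw [coeff_map]
      exact hτF l _ (h0 j).2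
    rw [e1, e2] at h1
    refine ⟨_, _, _, _, _, ?_, ?_, h1⟩
    · rw [← map_mul, ← map_mul, ← map_sub]
      exact (_root_.map_ne_zero _).mpr hdet
    · exact (_root_.map_ne_zero _).mpr hs
  choose a b c e s hdet hs hconj using hcj
  have n0 : ((0, 1) : Om × Om) ≠ 0 := fun h => one_ne_zero (congrArg Prod.snd h)
  have n1 : ((1, 0) : Om × Om) ≠ 0 := fun h => one_ne_zero (congrArg Prod.fst h)
  have n2 : ((1, 1) : Om × Om) ≠ 0 := fun h => one_ne_zero (congrArg Prod.fst h)
  have hT := finite_pts d hd u₀ w₀ hmax₀ hco₀ n₁ n₂ hn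
  set T := {z : Option Om | wd ((FH d u₀ w₀)^[n₁] (vec z))
    ((FH d u₀ w₀)^[n₂] (vec z)) = 0} with hTdef
  have hTf : Finite T := hT
  have hmem : ∀ (l : ℕ) (Y : Om × Om), Y ≠ 0 → wd ((FH d (U l) (W l))^[n₁] Y)
      ((FH d (U l) (W l))^[n₂] Y) = 0 → pt (Ph (e l) (-(b l)) (-(c l)) (a l) Y) ∈ T := by
    intro l Y hY hYw
    exact marked_mem d u₀ w₀ (U l) (W l) n₁ n₂ (a l) (b l) (c l) (e l) (s l) (hdet l)
      (hs l) (hconj l) Y hY hYw
  obtain ⟨l, l', hne, heq⟩ := Finite.exists_ne_map_eq_of_infinite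
    (fun l : ℕ =>
      ((⟨_, hmem l (0, 1) n0 (hUN l).2.1⟩, ⟨_, hmem l (1, 0) n1 (hUN l).2.2.1⟩,
        ⟨_, hmem l (1, 1) n2 (hUN l).2.2.2⟩) : T × T × T))
  simp only [Prod.mk.injEq, Subtype.mk.injEq] at heq
  obtain ⟨κ, hκ, hκu, hκw⟩ := same_triple d u₀ w₀ (U l) (W l) (U l') (W l') (hUd l)
    (hWd l) (hUd l') (hWd l') (a l) (b l) (c l) (e l) (s l) (a l') (b l') (c l') (e l') (s l')
    (hdet l) (hs l) (hdet l') (hs l') (hconj l) (hconj l') heq.1 heq.2.1 heq.2.2
  have hκ1 : κ = 1 := by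
    obtain ⟨⟨i₀, -, h0⟩, -⟩ := hN
    rcases h0 with h0 | h0
    · have h1 := congrArg (fun f : Om[X] => f.coeff i₀) hκu
      simp only [hU, coeff_C_mul, coeff_map, h0, map_one, mul_one] at h1
      exact h1.symm
    · have h1 := congrArg (fun f : Om[X] => f.coeff i₀) hκw
      simp only [hW, coeff_C_mul, coeff_map, h0, map_one, mul_one] at h1
      exact h1.symm
  rw [hκ1, C_1, one_mul] at hκu hκw
  have hxx : τ l x = τ l' x := by
    rcases hx with h0 | h0
    · have h1 := congrArg (fun f : Om[X] => f.coeff i) hκu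
      simp only [hU, coeff_map, h0] at h1
      exact h1
    · have h1 := congrArg (fun f : Om[X] => f.coeff i) hκw
      simp only [hW, coeff_map, h0] at h1
      exact h1
  rw [hτx, hτx, add_right_inj] at hxx
  apply hne
  exact_mod_cast hxx

end Pool.Agent.E8helper88.Mul
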