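import Pool.Agent.E8helper88.Mul.Pts

/-!
# Multipliers and critical heights: three marked points, maps with constant multipliers
-/

set_option linter.unusedSectionVars false
set_option linter.unusedVariables false

namespace Pool.Agent.E8helper88.Mul

open Polynomial Finset
open Pool.Agent.W277.UH Pool.Agent.Y706.CH Pool.Agent.Y195.CH Pool.Agent.Y676.CH

universe u v w

section
variable {K : Type u} [Field K]

lemma wd_trans' {A B D : K × K} (hB : B ≠ 0) (h1 : wd A B = 0) (h2 : wd B D = 0) :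
    wd A D = 0 := by
  obtain ⟨t, ht⟩ := exists_smul_of_wd _ _ hB h1
  rw [ht, wd_smul_left', h2, mul_zero]

lemma wd_symm' {A B : K × K} (h : wd A B = 0) : wd B A = 0 := by
  have : wd B A = -wd A B := by unfold wd; ring
  rw [this, h, neg_zero]

lemma wd_F {d : ℕ} {p q : K[X]} {A B : K × K} (hB : B ≠ 0) (h : wd A B = 0) :
    wd (FH d p q A) (FH d p q B) = 0 := by
  obtain ⟨t, ht⟩ := exists_smul_of_wd _ _ hB h
  rw [ht, FH_smul, wd_smul_left', wd_self', mul_zero]

lemma ne_of_wd {A B : K × K} (h : wd A B ≠ 0) : A ≠ 0 ∧ B ≠ 0 := by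
  constructor
  · rintro rfl
    apply h
    unfold wd
    simp
  · rintro rfl
    apply h
    unfold wd
    simp

lemma hev_root [IsAlgClosed K] (d : ℕ) (hd : 1 ≤ d) (f : K[X]) (hf : f.natDegree ≤ d) :
    ∃ Z : K × K, Z ≠ 0 ∧ hev d f Z = 0 := by
  by_cases hc : f.coeff d = 0
  · refine ⟨(1, 0), fun h => one_ne_zero (congrArg Prod.fst h), ?_⟩
    rw [hev_zero, hc]
    simp
  · have h5 : d ≤ f.natDegree := le_natDegree_of_ne_zero hc
    obtain ⟨x, hx⟩ := IsAlgClosed.exists_root f (by
      intro h6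
      have h7 : _ = 0 := natDegree_eq_of_degree_eq_some (n := 0) h6
      omega)
    refine ⟨(x, 1), fun h => one_ne_zero (congrArg Prod.snd h), ?_⟩
    rw [hev_one d f hf]
    exact hx

lemma surj [IsAlgClosed K] (d : ℕ) (hd : 1 ≤ d) (p q : K[X]) (hp : p.natDegree ≤ d)
    (hq : q.natDegree ≤ d) (V : K × K) : ∃ Z : K × K, Z ≠ 0 ∧ wd (FH d p q Z) V = 0 := by
  obtain ⟨Z, hZ, h⟩ := hev_root d hd (C V.2 * p - C V.1 * q)
    ((natDegree_sub_le _ _).trans (max_le ((natDegree_C_mul_le _ _).trans hp)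
      ((natDegree_C_mul_le _ _).trans hq)))
  refine ⟨Z, hZ, ?_⟩
  rw [hev_sub, hev_C_mul, hev_C_mul] at h
  unfold wd FH
  simp only
  linear_combination h

lemma fixed_pt [IsAlgClosed K] (d : ℕ) (p q : K[X]) (hp : p.natDegree ≤ d)
    (hq : q.natDegree ≤ d) : ∃ Z : K × K, Z ≠ 0 ∧ wd (FH d p q Z) Z = 0 := by
  by_cases hc : q.coeff d = 0
  · refine ⟨(1, 0), fun h => one_ne_zero (congrArg Prod.fst h), ?_⟩
    unfold FH
    rw [hev_zero, hev_zero, hc]
    unfold wd
    simp
  · have h4 : (p - X * q).coeff (d + 1) ≠ 0 := by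
      rw [coeff_sub, coeff_X_mul, coeff_eq_zero_of_natDegree_lt (by omega), zero_sub]
      exact neg_ne_zero.mpr hc
    have h5 : d + 1 ≤ (p - X * q).natDegree := le_natDegree_of_ne_zero h4
    obtain ⟨x, hx⟩ := IsAlgClosed.exists_root (p - X * q) (by
      intro h6
      have h7 : _ = 0 := natDegree_eq_of_degree_eq_some (n := 0) h6
      omega)
    refine ⟨(x, 1), fun h => one_ne_zero (congrArg Prod.snd h), ?_⟩
    unfold FH
    rw [hev_one d p hp, hev_one d q hq]
    rw [IsRoot, eval_sub, eval_mul, eval_X] at hx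
    unfold wd
    simp only
    linear_combination hx

lemma quot_root [IsAlgClosed K] (d : ℕ) (hd : 2 ≤ d) (f : K[X]) (hf : f.natDegree = d) (x : K)
    (hx : f.eval x = 0) : ∃ y, f.eval y = 0 ∧ (y = x → (derivative f).eval x = 0) := by
  obtain ⟨g, hg⟩ := dvd_iff_isRoot.mpr hx
  have hg0 : g ≠ 0 := by
    rintro rfl
    rw [mul_zero] at hg
    rw [hg, natDegree_zero] at hf
    omega
  have hdeg : f.natDegree = 1 + g.natDegree := by
    rw [hg, natDegree_mul (X_sub_C_ne_zero x) hg0, natDegree_X_sub_C]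
  obtain ⟨y, hy⟩ := IsAlgClosed.exists_root g (by
    intro h6
    have h7 : _ = 0 := natDegree_eq_of_degree_eq_some (n := 0) h6
    omega)
  rw [IsRoot] at hy
  refine ⟨y, by rw [hg, eval_mul, hy, mul_zero], ?_⟩
  rintro rfl
  rw [hg, derivative_mul, eval_add, eval_mul, eval_mul, hy]
  simp

/-- three marked points, for a map with no preimages of fixed points -/
lemma marked3_aux [CharZero K] [IsAlgClosed K] (d : ℕ) (hd : 2 ≤ d) (u w : K[X])
    (hmax : max u.natDegree w.natDegree = d) (hco : IsCoprime u w)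
    (hfix : wd (FH d u w (1, 0)) (1, 0) = 0)
    (hB : ∀ al ga : K × K, al ≠ 0 → wd (FH d u w al) al = 0 → wd (FH d u w ga) al = 0 →
      wd ga al = 0) :
    ∃ x y : K, x ≠ y ∧ wd (FH d u w (x, 1)) (x, 1) = 0 ∧ wd (FH d u w (y, 1)) (y, 1) = 0 := by
  have hu : u.natDegree ≤ d := hmax ▸ le_max_left _ _
  have hw : w.natDegree ≤ d := hmax ▸ le_max_right _ _
  have hF : ∀ x : K, FH d u w (x, 1) = (u.eval x, w.eval x) := by
    intro x
    unfold FH
    rw [hev_one d u hu, hev_one d w hw]
  have hw0 : w.natDegree = 0 := by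
    by_contra hne
    obtain ⟨x, hx⟩ := IsAlgClosed.exists_root w (by
      intro h6
      have h7 : _ = 0 := natDegree_eq_of_degree_eq_some (n := 0) h6
      omega)
    rw [IsRoot] at hx
    have h1 := hB (1, 0) (x, 1) (fun h => one_ne_zero (congrArg Prod.fst h)) hfix (by
      rw [hF, hx]
      unfold wd
      simp)
    unfold wd at h1
    simp at h1
  obtain ⟨c, rfl⟩ := natDegree_eq_zero.mp hw0
  have hud : u.natDegree = d := by
    rw [hw0] at hmax
    simpa using hmax
  have hc0 : c ≠ 0 := by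
    rintro rfl
    rw [C_0, isCoprime_zero_right] at hco
    have := natDegree_eq_zero_of_isUnit hco
    omega
  have hF' : ∀ x : K, FH d u (C c) (x, 1) = (u.eval x, c) := by
    intro x
    rw [hF, eval_C]
  set G : K[X] := u - C c * X with hG
  have hGd : G.natDegree = d := by
    rw [hG, natDegree_sub_eq_left_of_natDegree_lt, hud]
    rw [hud]
    have h1 : (C c * X : K[X]).natDegree ≤ 1 := (natDegree_C_mul_le _ _).trans natDegree_X_le
    exact lt_of_le_of_lt h1 (by omega)
  obtain ⟨x, hx⟩ := IsAlgClosed.exists_root G (by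
    intro h6
    have h7 : _ = 0 := natDegree_eq_of_degree_eq_some (n := 0) h6
    omega)
  rw [IsRoot] at hx
  obtain ⟨y, hy, hyx⟩ := quot_root d hd G hGd x hx
  have hfixpt : ∀ z : K, G.eval z = 0 → wd (FH d u (C c) (z, 1)) (z, 1) = 0 := by
    intro z hz
    rw [hF']
    unfold wd
    simp only
    rw [hG, eval_sub, eval_mul, eval_C, eval_X] at hz
    linear_combination hz
  by_cases hne : y = x
  · exfalso
    have h1 := hyx hne
    rw [hG, derivative_sub, derivative_C_mul, derivative_X, mul_one, eval_sub, eval_C] at h1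
    rw [hG, eval_sub, eval_mul, eval_C, eval_X] at hx
    set H : K[X] := u - C (c * x) with hH
    have hHd : H.natDegree = d := by rw [hH, natDegree_sub_C, hud]
    obtain ⟨z, hz, hzx⟩ := quot_root d hd H hHd x (by
      rw [hH, eval_sub, eval_C]
      exact hx)
    have hz' : u.eval z = c * x := by
      rw [hH, eval_sub, eval_C] at hz
      exact sub_eq_zero.mp hz
    have h2 := hB (x, 1) (z, 1) (fun h => one_ne_zero (congrArg Prod.snd h))
      (hfixpt x (by rw [hG, eval_sub, eval_mul, eval_C, eval_X]; exact hx)) (by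
        rw [hF', hz']
        unfold wd
        simp only
        ring)
    have h3 : z = x := by
      unfold wd at h2
      simp only [mul_one, one_mul] at h2
      exact sub_eq_zero.mp h2
    have h4 := hzx h3
    rw [hH, derivative_sub, derivative_C, sub_zero] at h4
    rw [h4, zero_sub, neg_eq_zero] at h1
    exact hc0 h1
  · exact ⟨x, y, fun h => hne h.symm, hfixpt x hx, hfixpt y hy⟩

/-- three marked points -/
theorem marked3 [CharZero K] [IsAlgClosed K] (d : ℕ) (hd : 2 ≤ d) (p q : K[X])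
    (hmax : max p.natDegree q.natDegree = d) (hco : IsCoprime p q) :
    ∃ al be ga : K × K, wd al be ≠ 0 ∧ wd ga al ≠ 0 ∧ wd ga be ≠ 0 ∧
      wd ((FH d p q)^[3] al) ((FH d p q)^[2] al) = 0 ∧
      wd ((FH d p q)^[3] be) ((FH d p q)^[2] be) = 0 ∧
      wd ((FH d p q)^[3] ga) ((FH d p q)^[2] ga) = 0 := by
  have hinf : Infinite K := inferInstance
  have hp : p.natDegree ≤ d := hmax ▸ le_max_left _ _
  have hq : q.natDegree ≤ d := hmax ▸ le_max_right _ _
  have hnz : ∀ Z : K × K, Z ≠ 0 → FH d p q Z ≠ 0 := FH_nz d (by omega) p q hmax hco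
  have h32 : ∀ Z : K × K, (FH d p q)^[3] Z = FH d p q (FH d p q (FH d p q Z)) := fun Z => rfl
  have h22 : ∀ Z : K × K, (FH d p q)^[2] Z = FH d p q (FH d p q Z) := fun Z => rfl
  by_cases hA : ∃ al ga : K × K, al ≠ 0 ∧ wd (FH d p q al) al = 0 ∧ wd ga al ≠ 0 ∧
      wd (FH d p q ga) al = 0
  · obtain ⟨al, ga, hal, h1, h2, h3⟩ := hA
    have hga : ga ≠ 0 := (ne_of_wd h2).1
    obtain ⟨de, hde, h4⟩ := surj d (by omega) p q hp hq ga
    refine ⟨al, de, ga, ?_, h2, ?_, ?_, ?_, ?_⟩
    · intro h5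
      -- al ~ de
      apply h2
      have h6 := wd_F (d := d) (p := p) (q := q) hde h5
      exact wd_trans' (hnz _ hde) (wd_symm' h4) (wd_trans' (hnz _ hal) (wd_symm' h6) h1)
    · intro h5
      apply h2
      have h6 := wd_F (d := d) (p := p) (q := q) hde h5
      -- F ga ~ F de ~ ga, F ga ~ al
      exact wd_trans' (hnz _ hga) (wd_symm' (wd_trans' (hnz _ hde) h6 h4)) h3
    · rw [h32, h22]
      exact wd_F (hnz _ hal) (wd_F hal h1)
    · rw [h32, h22]
      -- F F F de ~ F F ga ~ F al ~ al ; F F de ~ F ga ~ al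
      have e1 : wd (FH d p q (FH d p q de)) (FH d p q ga) = 0 := wd_F hga h4
      have e2 : wd (FH d p q (FH d p q de)) al = 0 := wd_trans' (hnz _ hga) e1 h3
      have e3 : wd (FH d p q (FH d p q (FH d p q de))) (FH d p q al) = 0 := wd_F hal e2
      exact wd_trans' (hnz _ hal) e3 (wd_trans' hal h1 (wd_symm' e2))
    · rw [h32, h22]
      have e1 : wd (FH d p q (FH d p q ga)) (FH d p q al) = 0 := wd_F hal h3
      have e2 : wd (FH d p q (FH d p q ga)) al = 0 := wd_trans' (hnz _ hal) e1 h1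
      have e3 : wd (FH d p q (FH d p q (FH d p q ga))) (FH d p q al) = 0 := wd_F hal e2
      exact wd_trans' (hnz _ hal) e3 (wd_trans' hal h1 (wd_symm' e2))
  · push Not at hA
    obtain ⟨al, hal, hfix⟩ := fixed_pt d p q hp hq
    obtain ⟨V, hV⟩ : ∃ V : K × K, wd V al ≠ 0 := by
      by_cases h2 : al.2 = 0
      · have h1 : al.1 ≠ 0 := fun h1 => hal (Prod.ext h1 h2)
        exact ⟨(0, 1), by unfold wd; simpa [h2] using h1⟩
      · exact ⟨(1, 0), by unfold wd; simpa using h2⟩
    have hV2 : wd (al + V) V ≠ 0 := by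
      have : wd (al + V) V = -wd V al := by
        unfold wd
        simp only [Prod.fst_add, Prod.snd_add]
        ring
      rw [this]
      exact neg_ne_zero.mpr hV
    have hV3 : wd (al + V) al ≠ 0 := by
      have : wd (al + V) al = wd V al := by
        unfold wd
        simp only [Prod.fst_add, Prod.snd_add]
        ring
      rw [this]
      exact hV
    obtain ⟨u, w, a, b, c, e, s, hdet, hs, hconj, huw, humax, -, -, ⟨t, ht, hPal⟩, -⟩ :=
      exists_norm d (by omega) p q hmax hco V al (al + V) hV hV2 hV3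
    have hadj : ∀ Y, Ph a b c e (Ph e (-b) (-c) a Y) = (a * e - b * c) • Y :=
      fun Y => Ph_adj a b c e Y
    have hdet' : e * a - (-b) * (-c) ≠ 0 := by
      intro h
      apply hdet
      linear_combination h
    have hfix' : wd (FH d u w (1, 0)) (1, 0) = 0 :=
      (wd_conj d p q u w a b c e s hdet hs hconj 1 0 al al _ _ t t ht ht hPal hPal).mpr hfix
    have hB : ∀ al ga : K × K, al ≠ 0 → wd (FH d u w al) al = 0 → wd (FH d u w ga) al = 0 →
        wd ga al = 0 := by
      intro al' ga' h1 h2 h3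
      have g1 := (wd_conj d p q u w a b c e s hdet hs hconj 1 0 _ _ al' al' _ _ hdet hdet
        (hadj al') (hadj al')).mp h2
      have g2 := (wd_conj d p q u w a b c e s hdet hs hconj 1 0 _ _ ga' al' _ _ hdet hdet
        (hadj ga') (hadj al')).mp h3
      have g3 : wd (Ph e (-b) (-c) a ga') (Ph e (-b) (-c) a al') = 0 := by
        by_contra hne
        exact hA _ _ (Ph_ne _ _ _ _ hdet' _ h1) g1 hne g2
      exact (wd_conj d p q u w a b c e s hdet hs hconj 0 0 _ _ ga' al' _ _ hdet hdet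
        (hadj ga') (hadj al')).mpr g3
    obtain ⟨x, y, hxy, hx, hy⟩ := marked3_aux d hd u w humax huw hfix' hB
    have hnz' : ∀ Z : K × K, Z ≠ 0 → FH d u w Z ≠ 0 := FH_nz d (by omega) u w humax huw
    have key : ∀ Z : K × K, Z ≠ 0 → wd (FH d u w Z) Z = 0 →
        wd ((FH d p q)^[3] (Ph e (-b) (-c) a Z)) ((FH d p q)^[2] (Ph e (-b) (-c) a Z)) = 0 := by
      intro Z hZ h
      refine (wd_conj d p q u w a b c e s hdet hs hconj 3 2 _ _ Z Z _ _ hdet hdet
        (hadj Z) (hadj Z)).mp ?_
      show wd (FH d u w (FH d u w (FH d u w Z))) (FH d u w (FH d u w Z)) = 0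
      exact wd_F (hnz' _ hZ) (wd_F hZ h)
    have key2 : ∀ Z V : K × K, wd Z V ≠ 0 →
        wd (Ph e (-b) (-c) a Z) (Ph e (-b) (-c) a V) ≠ 0 := by
      intro Z V h h0
      exact h ((wd_conj d p q u w a b c e s hdet hs hconj 0 0 _ _ Z V _ _ hdet hdet
        (hadj Z) (hadj V)).mpr h0)
    refine ⟨Ph e (-b) (-c) a (1, 0), Ph e (-b) (-c) a (x, 1), Ph e (-b) (-c) a (y, 1),
      key2 _ _ ?_, key2 _ _ ?_, key2 _ _ ?_, key _ ?_ hfix', key _ ?_ hx, key _ ?_ hy⟩
    · unfold wd
      simp
    · unfold wd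
      simp
    · unfold wd
      simp only [mul_one, one_mul]
      exact sub_ne_zero.mpr (Ne.symm hxy)
    · exact fun h => one_ne_zero (congrArg Prod.fst h)
    · exact fun h => one_ne_zero (congrArg Prod.snd h)
    · exact fun h => one_ne_zero (congrArg Prod.snd h)

end

end Pool.Agent.E8helper88.Mul
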