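import Pool.Agent.E8helper88.Mul.Fin1
import Pool.Agent.E8helper71.HT3
import Pool.Agent.E8helper71.HT4

/-!
# Multipliers and critical heights: maps with few isospectral classes have large critical height
-/

set_option linter.unusedSectionVars false
set_option linter.unusedVariables false

namespace Pool.Agent.E8helper88.Mul

open Polynomial Finset
open Pool.Agent.W277.UB Pool.Agent.W277.UG
open Pool.Agent.W277.UB.PlaceData
open Pool.Agent.W277.UH Pool.Agent.Y706.CH Pool.Agent.Y195.CH Pool.Agent.Y676.CH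
open Pool.Agent.E8helper71.HT (hto growth exists_place)

universe u v w

/-- the maps of the core theorem have large critical height -/
lemma fin1 {k' : Type w} {k : Type v} {M : Type u} [Field k'] [CharZero k'] [Field k] [Field M]
    [Algebra k M] [Algebra k' M] (Q : PlaceData.{u} k' M) (Cn : ℕ)
    (hQ : ∀ x : M, (ht Q x : ℤ) ≤ Cn * Module.finrank (IntermediateField.adjoin k {x}) M ∧
        (Module.finrank (IntermediateField.adjoin k {x}) M : ℤ) ≤ Cn * ht Q x)
    (d m B : ℕ) (hd : 2 ≤ d) (hB : 1 ≤ B) (u w : M[X]) (huw : IsCoprime u w)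
    (humax : max u.natDegree w.natDegree = d) (A : ℤ) (hA : 0 < A)
    (hcoef : ∀ i, ht Q (u.coeff i) ≤ B * A ∧ ht Q (w.coeff i) ≤ B * A)
    (hnz : ∃ i, ht Q (u.coeff i) ≠ 0 ∨ ht Q (w.coeff i) ≠ 0) (n : ℕ) (hn : 1 ≤ n) (hnm : n ≤ m)
    (x : ℕ → M) (hx0 : (wr (itP d u w n).1 (itP d u w n).2).eval (x 0) = 0)
    (hx : ∀ j, (itP d u w n).2.eval (x j) ≠ 0 ∧
      x (j + 1) * (itP d u w n).2.eval (x j) = (itP d u w n).1.eval (x j))
    (hxx : ∀ j : ℕ, (j + 1) * A ≤ (2 * d ^ n : ℕ) * ht Q (x (j + 1))) :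
    ∃ c : Option M, Pool.Agent.Y706.CH7.IsCritical u w d c ∧
      0 < Pool.Agent.Y706.CH7.mapHeight k u w d ∧
      (Pool.Agent.Y706.CH7.mapHeight k u w d : ENNReal) ≤
        ((Cn ^ 2 * d ^ (m * (32 * d ^ m * (d + 1) ^ 2 * B)) : ℕ) : ENNReal) *
          Pool.Agent.Y706.CH7.canHeight k u w d c := by
  have cM : CharZero M := charZero_of_injective_algebraMap (algebraMap k' M).injective
  obtain ⟨i₀, hi₀, hcrit⟩ := crit_pt_iter d (by omega) u w humax huw n (x 0) hx0
  set c := (ratP1 u w d)^[i₀] (some (x 0)) with hc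
  set y : ℕ → Option M := fun j => (ratP1 u w d)^[j] (some (x 0)) with hy
  have hyy : ∀ j, y (j + 1) = ratP1 u w d (y j) := fun j => Function.iterate_succ_apply' _ _ _
  -- the index
  obtain ⟨J, hJ⟩ : ∃ J : ℕ, J + 1 = 32 * d ^ n * (d + 1) ^ 2 * B :=
    ⟨32 * d ^ n * (d + 1) ^ 2 * B - 1, by
      have : 1 ≤ 32 * d ^ n * (d + 1) ^ 2 * B := by
        have h1 : 0 < d ^ n := pow_pos (by omega) n
        have h2 : 0 < (d + 1) ^ 2 := by positivity
        have : 0 < 32 * d ^ n * (d + 1) ^ 2 * B := by positivity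
        omega
      omega⟩
  set K0 : ℤ := 8 * (d + 1) ^ 2 * (B * A) with hK0
  have hdn : (0 : ℤ) < 2 * d ^ n := by positivity
  have hyJ : 2 * K0 ≤ hto Q (y (n * (J + 1))) := by
    have h1 : y (n * (J + 1)) = some (x (J + 1)) := orbit_pt d (by omega) u w humax huw n x hx (J + 1)
    rw [h1]
    show 2 * K0 ≤ ht Q (x (J + 1))
    have h2 := hxx J
    have h3 : ((J : ℤ) + 1) = 32 * d ^ n * (d + 1) ^ 2 * B := by exact_mod_cast hJ
    rw [h3] at h2
    push_cast at h2
    have h4 : (2 * (d : ℤ) ^ n) * (2 * K0) ≤ (2 * (d : ℤ) ^ n) * ht Q (x (J + 1)) := by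
      rw [hK0]
      calc (2 * (d : ℤ) ^ n) * (2 * (8 * (d + 1) ^ 2 * (B * A))) =
          32 * d ^ n * (d + 1) ^ 2 * B * A := by ring
        _ ≤ _ := h2
    exact le_of_mul_le_mul_left h4 hdn
  have hgrow := growth Q d hd u w humax huw (B * A) (fun i => (hcoef i).1) (fun i => (hcoef i).2) K0
    hK0 y hyy (n * (J + 1)) hyJ
  have hBA : 1 ≤ (B : ℤ) * A := by
    have h1 : (1 : ℤ) ≤ B := by exact_mod_cast hB
    nlinarith
  have hK0pos : (B : ℤ) * A ≤ K0 := by
    rw [hK0]
    have h1 : (1 : ℤ) ≤ 8 * (d + 1) ^ 2 := by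
      have : (0 : ℤ) ≤ d := by positivity
      nlinarith
    nlinarith
  have hN₀ : i₀ ≤ n * (J + 1) := by
    have : n * 1 ≤ n * (J + 1) := Nat.mul_le_mul_left n (by omega)
    omega
  refine ⟨c, hcrit, ?_, ?_⟩
  · -- positivity
    obtain ⟨i, hi⟩ := hnz
    have hid : i ∈ range (d + 1) := by
      by_contra hni
      rw [Finset.mem_range, not_lt] at hni
      have h1 : u.coeff i = 0 := coeff_eq_zero_of_natDegree_lt (by omega)
      have h2 : w.coeff i = 0 := coeff_eq_zero_of_natDegree_lt (by omega)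
      rw [h1, h2, ht_zero] at hi
      simp at hi
    have hpos : ∀ z : M, ht Q z ≠ 0 → 0 < Module.finrank (IntermediateField.adjoin k {z}) M := by
      intro z hz
      by_contra h0
      have h1 : Module.finrank (IntermediateField.adjoin k {z}) M = 0 := by omega
      have h2 := (hQ z).1
      rw [h1] at h2
      have h3 := ht_nonneg (Q := Q) z
      simp at h2
      omega
    have hle : max (Pool.Agent.Y706.CH7.height k (some (u.coeff i)))
        (Pool.Agent.Y706.CH7.height k (some (w.coeff i))) ≤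
        Pool.Agent.Y706.CH7.mapHeight k u w d :=
      Finset.le_sup (f := fun i => max (Pool.Agent.Y706.CH7.height k (some (u.coeff i)))
        (Pool.Agent.Y706.CH7.height k (some (w.coeff i)))) hid
    refine lt_of_lt_of_le ?_ hle
    rcases hi with hi | hi
    · exact lt_of_lt_of_le (hpos _ hi) (le_max_left _ _)
    · exact lt_of_lt_of_le (hpos _ hi) (le_max_right _ _)
  · -- the upper bound
    have hmap : (Pool.Agent.Y706.CH7.mapHeight k u w d : ℤ) ≤ Cn * (B * A) := by
      have h1 : ∀ z : M, ht Q z ≤ B * A →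
          (Pool.Agent.Y706.CH7.height k (some z) : ℤ) ≤ Cn * (B * A) := by
        intro z hz
        exact ((hQ z).2).trans (mul_le_mul_of_nonneg_left hz (Nat.cast_nonneg _))
      obtain ⟨T, hT⟩ : ∃ T : ℕ, (T : ℤ) = Cn * (B * A) :=
        ⟨(Cn * (B * A)).toNat, Int.toNat_of_nonneg (by positivity)⟩
      have h2 : Pool.Agent.Y706.CH7.mapHeight k u w d ≤ T := by
        unfold Pool.Agent.Y706.CH7.mapHeight
        apply Finset.sup_le
        intro i _
        apply max_le
        · have := h1 _ (hcoef i).1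
          rw [← hT] at this
          exact_mod_cast this
        · have := h1 _ (hcoef i).2
          rw [← hT] at this
          exact_mod_cast this
      rw [← hT]
      exact_mod_cast h2
    unfold Pool.Agent.Y706.CH7.canHeight
    apply le_limsup' (fun j => Pool.Agent.Y706.CH7.height k ((ratP1 u w d)^[j] c)) d _ _
      (n * (J + 1) - i₀) (by omega)
    intro N hN
    obtain ⟨l, rfl⟩ : ∃ l, N = n * (J + 1) - i₀ + l := ⟨N - (n * (J + 1) - i₀), by omega⟩
    have horb : (ratP1 u w d)^[n * (J + 1) - i₀ + l] c = y (n * (J + 1) + l) := by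
      have e1 : n * (J + 1) - i₀ + l + i₀ = n * (J + 1) + l := by omega
      rw [hc, ← Function.iterate_add_apply, e1]
    have hto_le : ∀ z : Option M, hto Q z ≤ Cn * Pool.Agent.Y706.CH7.height k z := by
      intro z
      cases z with
      | none =>
        show (0 : ℤ) ≤ _
        positivity
      | some z => exact (hQ z).1
    have h1 := hgrow l
    have h2 := hto_le (y (n * (J + 1) + l))
    show d ^ (n * (J + 1) - i₀ + l) * Pool.Agent.Y706.CH7.mapHeight k u w d ≤
      (Cn ^ 2 * d ^ (m * (32 * d ^ m * (d + 1) ^ 2 * B))) *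
        Pool.Agent.Y706.CH7.height k ((ratP1 u w d)^[n * (J + 1) - i₀ + l] c)
    rw [horb]
    have hexp : n * (J + 1) - i₀ ≤ m * (32 * d ^ m * (d + 1) ^ 2 * B) := by
      rw [hJ]
      refine (Nat.sub_le _ _).trans (Nat.mul_le_mul hnm ?_)
      apply Nat.mul_le_mul_right
      apply Nat.mul_le_mul_right
      apply Nat.mul_le_mul_left
      exact Nat.pow_le_pow_right (by omega) hnm
    have hdp : d ^ (n * (J + 1) - i₀) ≤ d ^ (m * (32 * d ^ m * (d + 1) ^ 2 * B)) :=
      Nat.pow_le_pow_right (by omega) hexp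
    have hfin : (d : ℤ) ^ (n * (J + 1) - i₀ + l) * Pool.Agent.Y706.CH7.mapHeight k u w d ≤
        (Cn ^ 2 * d ^ (m * (32 * d ^ m * (d + 1) ^ 2 * B))) *
        Pool.Agent.Y706.CH7.height k (y (n * (J + 1) + l)) := by
      set hN := (Pool.Agent.Y706.CH7.height k (y (n * (J + 1) + l)) : ℤ)
      set mh := (Pool.Agent.Y706.CH7.mapHeight k u w d : ℤ)
      have g1 : (d : ℤ) ^ l * K0 ≤ Cn * hN := by linarith
      have g2 : mh ≤ Cn * K0 := hmap.trans (mul_le_mul_of_nonneg_left hK0pos (Nat.cast_nonneg _))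
      have g3 : (d : ℤ) ^ (n * (J + 1) - i₀ + l) * mh ≤
          (d : ℤ) ^ (n * (J + 1) - i₀) * (Cn * (Cn * hN)) := by
        rw [pow_add, mul_assoc]
        apply mul_le_mul_of_nonneg_left _ (by positivity)
        calc (d : ℤ) ^ l * mh ≤ (d : ℤ) ^ l * (Cn * K0) :=
              mul_le_mul_of_nonneg_left g2 (by positivity)
          _ = Cn * ((d : ℤ) ^ l * K0) := by ring
          _ ≤ Cn * (Cn * hN) := mul_le_mul_of_nonneg_left g1 (Nat.cast_nonneg _)
      have g4 : (d : ℤ) ^ (n * (J + 1) - i₀) ≤ (d : ℤ) ^ (m * (32 * d ^ m * (d + 1) ^ 2 * B)) := by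
        exact_mod_cast hdp
      have g5 : (0 : ℤ) ≤ Cn * (Cn * hN) := by positivity
      calc _ ≤ (d : ℤ) ^ (n * (J + 1) - i₀) * (Cn * (Cn * hN)) := g3
        _ ≤ (d : ℤ) ^ (m * (32 * d ^ m * (d + 1) ^ 2 * B)) * (Cn * (Cn * hN)) :=
            mul_le_mul_of_nonneg_right g4 g5
        _ = _ := by ring
    exact_mod_cast hfin

/-- **Maps with few isospectral classes have large critical height.** -/
theorem lch (d m r : ℕ) (hd : 2 ≤ d) : ∃ Bf : ℕ → ℕ, ∀ (k : Type v) (L : Type u) [Field k]
    [CharZero k] [Field L] [Algebra k L] (t : L), Transcendental k t →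
    FiniteDimensional (IntermediateField.adjoin k {t}) L →
    ∀ n, Module.finrank (IntermediateField.adjoin k {t}) L ≤ n →
    ∀ p q : L[X], IsCoprime p q → max p.natDegree q.natDegree = d →
    FewIso d m r (p.map (algebraMap L (AlgebraicClosure L)))
      (q.map (algebraMap L (AlgebraicClosure L))) →
    (∃ n, 1 ≤ n ∧ n ≤ m ∧ ∃ lam : AlgebraicClosure L,
      IsMul d (p.map (algebraMap L (AlgebraicClosure L)))
        (q.map (algebraMap L (AlgebraicClosure L))) n lam ∧ ¬ IsAlgebraic k lam) →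
    Pool.Agent.Y706.CH7.LCH k p q d (Bf n) := by
  obtain ⟨B, hB1, hB⟩ := core.{u, u, u} d m r hd
  obtain ⟨Cf, hCf⟩ := exists_place.{u, v}
  set R := (wpd d m + 1) ^ wpd d m with hR
  refine ⟨fun n => R + Cf (n * R) ^ 2 * d ^ (m * (32 * d ^ m * (d + 1) ^ 2 * B)), ?_⟩
  intro k L _ _ _ _ t htr hfd n hn p q hco hmax hfew hnc
  have cL : CharZero L := charZero_of_injective_algebraMap (algebraMap k L).injective
  obtain ⟨M, hfdM, hfrM, hrat⟩ := exists_M d m hd L p q hmax hco
  set Om := AlgebraicClosure L with hOm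
  have hinj : Function.Injective (algebraMap L M) := (algebraMap L M).injective
  have hinjM : Function.Injective (algebraMap M Om) := (algebraMap M Om).injective
  have htM : Transcendental k (algebraMap L M t) := by
    intro h
    exact htr ((isAlgebraic_algebraMap_iff hinj).mp h)
  have hte : Module.finrank (IntermediateField.adjoin k {algebraMap L M t}) M =
      Module.finrank (IntermediateField.adjoin k {t}) L * Module.finrank L M :=
    Pool.Agent.Y555.CH.t_HTE k L M t
  have htf : FiniteDimensional (IntermediateField.adjoin k {algebraMap L M t}) M := by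
    apply FiniteDimensional.of_finrank_pos
    rw [hte]
    exact Nat.mul_pos Module.finrank_pos Module.finrank_pos
  have hle : Module.finrank (IntermediateField.adjoin k {algebraMap L M t}) M ≤ n * R := by
    rw [hte]
    exact Nat.mul_le_mul hn hfrM
  obtain ⟨k', _, _, _, Q, hQ1, hQ2⟩ := hCf k M (algebraMap L M t) htM htf (n * R) hle
  have emap : ∀ f : L[X], (f.map (algebraMap L M)).map (algebraMap M Om) =
      f.map (algebraMap L Om) := by
    intro f
    rw [Polynomial.map_map, ← IsScalarTower.algebraMap_eq]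
  have hmaxM : max (p.map (algebraMap L M)).natDegree (q.map (algebraMap L M)).natDegree = d :=
    max_map _ p q d hmax
  have hcoM : IsCoprime (p.map (algebraMap L M)) (q.map (algebraMap L M)) :=
    (Polynomial.isCoprime_map _).mpr hco
  have cOm : CharZero Om := charZero_of_injective_algebraMap (algebraMap L Om).injective
  obtain ⟨n₁, hn₁, hn₁m, lam, hlam, hlamtr⟩ := hnc
  obtain ⟨l₁, hl₁, hl₁'⟩ := mul_rat (Om := Om) d m hd _ _ hmaxM hcoM hrat n₁ hn₁ hn₁m lam (by
    rw [emap, emap]
    exact hlam)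
  have hpos : 0 < ht Q l₁ := by
    by_contra h0
    have h1 : ht Q l₁ = 0 := le_antisymm (not_lt.mp h0) (ht_nonneg _)
    apply hlamtr
    rw [← hl₁]
    have ist : IsScalarTower k M Om := IsScalarTower.of_algebraMap_eq fun x => rfl
    apply IsAlgebraic.algebraMap
    rw [hQ1]
    by_cases hl0 : l₁ = 0
    · exact ⟨0, by rw [hl0, map_zero]⟩
    · apply Q.const l₁ hl0
      intro v
      by_contra hv
      push Not at hv
      -- a pole
      have h2 : 1 ≤ Q.pole v l₁ := by
        rw [pole_of_ne hl0]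
        apply le_max_of_le_right
        omega
      classical
      obtain ⟨S, hS⟩ := exists_supp (Q := Q) {l₁}
      have h3 := ht_eq l₁ (insert v S) (fun v' hv' => (hS l₁ (Finset.mem_singleton_self _)).1 v'
        (fun h => hv' (Finset.mem_insert_of_mem h)))
      have h4 : Q.wt v * Q.pole v l₁ ≤ ∑ v ∈ insert v S, Q.wt v * Q.pole v l₁ :=
        Finset.single_le_sum (f := fun v => Q.wt v * Q.pole v l₁)
          (fun v _ => mul_nonneg (Q.wt_nonneg v) (pole_nonneg v l₁)) (Finset.mem_insert_self v S)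
      have h5 : 1 ≤ Q.wt v * Q.pole v l₁ := by nlinarith [Q.wt_one v]
      omega
  obtain ⟨u, w, a, b, c, e, s, hdet, hs, hconj, huw, humax, hsp, A, hA, hcoef, hnz, n₂, hn₂, hn₂m,
    x, hx0, hx, hxx⟩ := hB k' M Om Q (p.map (algebraMap L M)) (q.map (algebraMap L M)) hcoM hmaxM
      (by rw [emap, emap]; exact hfew) hrat ⟨n₁, hn₁, hn₁m, l₁, hl₁', hpos⟩
  obtain ⟨cr, hcr, hcr2, hcr3⟩ := fin1 Q (Cf (n * R)) hQ2 d m B hd hB1 u w huw humax A hA hcoef hnz
    n₂ hn₂ hn₂m x hx0 hx hxx
  have hinf : Infinite M := by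
    have : CharZero M := charZero_of_injective_algebraMap (algebraMap k' M).injective
    infer_instance
  have hpd : (p.map (algebraMap L M)).natDegree ≤ d := hmaxM ▸ le_max_left _ _
  have hqd : (q.map (algebraMap L M)).natDegree ≤ d := hmaxM ▸ le_max_right _ _
  obtain ⟨hc1, hc2⟩ := conj_poly d _ _ u w hpd hqd a b c e s hconj
  refine ⟨M, inferInstance, inferInstance, inferInstance, inferInstance, hfdM, ?_, u, w, huw,
    humax, ⟨a, b, c, e, hdet, s, hs, hc1, hc2⟩, hsp, cr, hcr, hcr2, ?_⟩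
  · exact hfrM.trans (Nat.le_add_right _ _)
  · refine hcr3.trans (mul_le_mul_left ?_ _)
    exact_mod_cast Nat.le_add_left _ _

end Pool.Agent.E8helper88.Mul
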