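import Pool.Agent.E8helper88.Mul.McM4
import Pool.Agent.E8helper88.Mul.Fin2

/-!
# Multipliers and critical heights: all maps but the isotrivial and the flexible Lattes maps have
large critical height, from the rigidity theorem
-/

set_option linter.unusedSectionVars false
set_option linter.unusedVariables false

namespace Pool.Agent.E8helper88.Mul

open Polynomial Finset
open Pool.Agent.W277.UB Pool.Agent.W277.UG
open Pool.Agent.W277.UB.PlaceData
open Pool.Agent.W277.UH Pool.Agent.Y706.CH Pool.Agent.Y195.CH Pool.Agent.Y676.CH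
open Pool.Agent.E8helper71.HT (hto growth exists_place)

universe u v w

/-- isotrivial maps -/
def IsoP (k : Type*) {K : Type*} [Field k] [Field K] [Algebra k K] (p q : K[X])
    (d : ℕ) : Prop :=
  ∃ a b c e : K, a * e - b * c ≠ 0 ∧ ∃ u w : K[X], (u ≠ 0 ∨ w ≠ 0) ∧
    u.natDegree ≤ d ∧ w.natDegree ≤ d ∧ (∀ n, IsAlgebraic k (u.coeff n)) ∧
    (∀ n, IsAlgebraic k (w.coeff n)) ∧
    (C a * p + C b * q) * ∑ i ∈ Finset.range (d + 1),
      C (w.coeff i) * (C a * X + C b) ^ i * (C c * X + C e) ^ (d - i) =
    (C c * p + C e * q) * ∑ i ∈ Finset.range (d + 1),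
      C (u.coeff i) * (C a * X + C b) ^ i * (C c * X + C e) ^ (d - i)

/-- elements of height zero are constants -/
lemma const_of_ht {k : Type v} {K : Type u} [Field k] [Field K] [Algebra k K]
    (Q : PlaceData.{w} k K) (x : K) (hx : ht Q x = 0) : ∃ c : k, algebraMap k K c = x := by
  classical
  by_cases hl0 : x = 0
  · exact ⟨0, by rw [hl0, map_zero]⟩
  · apply Q.const x hl0
    intro v
    by_contra hv
    push Not at hv
    have h2 : 1 ≤ Q.pole v x := by
      rw [pole_of_ne hl0]
      apply le_max_of_le_right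
      omega
    obtain ⟨S, hS⟩ := exists_supp (Q := Q) {x}
    have h3 := ht_eq x (insert v S) (fun v' hv' => (hS x (Finset.mem_singleton_self _)).1 v'
      (fun h => hv' (Finset.mem_insert_of_mem h)))
    have h4 : Q.wt v * Q.pole v x ≤ ∑ v ∈ insert v S, Q.wt v * Q.pole v x :=
      Finset.single_le_sum (f := fun v => Q.wt v * Q.pole v x)
        (fun v _ => mul_nonneg (Q.wt_nonneg v) (pole_nonneg v x)) (Finset.mem_insert_self v S)
    have h5 : 1 ≤ Q.wt v * Q.pole v x := by nlinarith [Q.wt_one v]
    omega

/-- conjugate to a map with constant coefficients: isotrivial -/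
lemma isoP_of_cj {k : Type v} {K : Type u} [Field k] [Field K] [Algebra k K] [Infinite K] (d : ℕ)
    (p q u w : K[X]) (hmax : max p.natDegree q.natDegree = d)
    (humax : max u.natDegree w.natDegree = d) (huw : IsCoprime u w) (h : CjF d p q u w)
    (hu : ∀ n, IsAlgebraic k (u.coeff n)) (hw : ∀ n, IsAlgebraic k (w.coeff n)) :
    IsoP k p q d := by
  have hp : p.natDegree ≤ d := hmax ▸ le_max_left _ _
  have hq : q.natDegree ≤ d := hmax ▸ le_max_right _ _
  obtain ⟨a, b, c, e, s, hdet, hs, hconj⟩ := h
  refine ⟨a, b, c, e, hdet, u, w, ?_, humax ▸ le_max_left _ _, humax ▸ le_max_right _ _, hu, hw, ?_⟩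
  · by_contra hcon
    push Not at hcon
    rw [hcon.1, hcon.2] at huw
    exact not_isCoprime_zero_zero huw
  · obtain ⟨h1, h2⟩ := conj_poly d p q u w hp hq a b c e s hconj
    rw [h1, h2]
    ring

/-- **All maps but the isotrivial and the flexible Lattes maps have large critical height.** -/
theorem lchM (hM : S_MCM.{u}) (d : ℕ) (hd : 2 ≤ d) : ∃ Bf : ℕ → ℕ, ∀ (k : Type v)
    (L Om : Type u) [Field k] [CharZero k] [Field L] [Algebra k L] [Field Om] [IsAlgClosed Om]
    [Algebra L Om] [Algebra k Om] [IsScalarTower k L Om] (t : L), Transcendental k t →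
    FiniteDimensional (IntermediateField.adjoin k {t}) L →
    ∀ n, Module.finrank (IntermediateField.adjoin k {t}) L ≤ n →
    ∀ p q : L[X], IsCoprime p q → max p.natDegree q.natDegree = d →
    ¬ IsoP k (p.map (algebraMap L Om)) (q.map (algebraMap L Om)) d →
    ¬ LatP d (p.map (algebraMap L Om)) (q.map (algebraMap L Om)) →
    Pool.Agent.Y706.CH7.LCH k p q d (Bf n) := by
  obtain ⟨m, B, hm1, hB1, hB⟩ := coreM.{u, u, u} hM d hd
  obtain ⟨Cf, hCf⟩ := exists_place.{u, v}
  set R := (wpd2 d m + 1) ^ wpd2 d m with hR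
  refine ⟨fun n => R + Cf (n * R) ^ 2 * d ^ (m * (32 * d ^ m * (d + 1) ^ 2 * B)), ?_⟩
  intro k L Om _ _ _ _ _ _ _ _ _ t htr hfd n hn p q hco hmax hiso hlat
  have cL : CharZero L := charZero_of_injective_algebraMap (algebraMap k L).injective
  obtain ⟨M, hfdM, hfrM, hrat, hrat32⟩ := exists_M2 d m hd L Om p q hmax hco
  have hinj : Function.Injective (algebraMap L M) := (algebraMap L M).injective
  have hinjM : Function.Injective (algebraMap M Om) := (algebraMap M Om).injective
  have ikM : IsScalarTower k M Om := IsScalarTower.of_algebraMap_eq fun x => rfl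
  have htM : Transcendental k (algebraMap L M t) := by
    intro h
    exact htr ((isAlgebraic_algebraMap_iff hinj).mp h)
  have hte : Module.finrank (IntermediateField.adjoin k {algebraMap L M t}) M =
      Module.finrank (IntermediateField.adjoin k {t}) L * Module.finrank L M :=
    Pool.Agent.Y555.CH.t_HTE k L M t
  have htf : FiniteDimensional (IntermediateField.adjoin k {algebraMap L M t}) M := by
    apply FiniteDimensional.of_finrank_pos
    rw [hte]
    exact Nat.mul_pos Module.finrank_pos Module.finrank_pos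
  have hle : Module.finrank (IntermediateField.adjoin k {algebraMap L M t}) M ≤ n * R := by
    rw [hte]
    exact Nat.mul_le_mul hn hfrM
  obtain ⟨k', _, _, _, Q, hQ1, hQ2⟩ := hCf k M (algebraMap L M t) htM htf (n * R) hle
  have emap : ∀ f : L[X], (f.map (algebraMap L M)).map (algebraMap M Om) =
      f.map (algebraMap L Om) := by
    intro f
    rw [Polynomial.map_map, ← IsScalarTower.algebraMap_eq]
  have hmaxM : max (p.map (algebraMap L M)).natDegree (q.map (algebraMap L M)).natDegree = d :=
    max_map _ p q d hmax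
  have hcoM : IsCoprime (p.map (algebraMap L M)) (q.map (algebraMap L M)) :=
    (Polynomial.isCoprime_map _).mpr hco
  have cOm : CharZero Om := charZero_of_injective_algebraMap (algebraMap L Om).injective
  have cM : CharZero M := charZero_of_injective_algebraMap (algebraMap k' M).injective
  have hinf : Infinite M := inferInstance
  have hinfO : Infinite Om := inferInstance
  have hpo : max (p.map (algebraMap L Om)).natDegree (q.map (algebraMap L Om)).natDegree = d :=
    max_map _ p q d hmax
  obtain ⟨u, w, a, b, c, e, s, hdet, hs, hconj, huw, humax, hsp, A, hA, hcoef, hnz, n₂, hn₂, hn₂m,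
    x, hx0, hx, hxx⟩ := hB k' M Om Q (p.map (algebraMap L M)) (q.map (algebraMap L M)) hcoM hmaxM
      (by
        rw [emap, emap]
        intro h
        apply hlat
        have hpd : (p.map (algebraMap L Om)).natDegree ≤ d := hpo ▸ le_max_left _ _
        have hqd : (q.map (algebraMap L Om)).natDegree ≤ d := hpo ▸ le_max_right _ _
        exact latP_of_latF d (by omega) _ _ hpd hqd (wr_deg d (by omega) _ _ hpd hqd) h)
      hrat hrat32 (by
        intro u w huw humax hcj
        by_contra hcon
        push Not at hcon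
        apply hiso
        have h1 := CjF_map (algebraMap M Om) d _ _ u w hmaxM humax hcj
        rw [emap, emap] at h1
        have halg : ∀ z : M, ht Q z = 0 → IsAlgebraic k (algebraMap M Om z) := by
          intro z hz
          apply IsAlgebraic.algebraMap
          rw [hQ1]
          exact const_of_ht Q z hz
        refine isoP_of_cj d _ _ (u.map (algebraMap M Om)) (w.map (algebraMap M Om)) hpo
          (max_map _ u w d humax) ((Polynomial.isCoprime_map _).mpr huw) h1 ?_ ?_
        · intro i
          rw [coeff_map]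
          exact halg _ (hcon i).1
        · intro i
          rw [coeff_map]
          exact halg _ (hcon i).2)
  obtain ⟨cr, hcr, hcr2, hcr3⟩ := fin1 Q (Cf (n * R)) hQ2 d m B hd hB1 u w huw humax A hA hcoef hnz
    n₂ hn₂ hn₂m x hx0 hx hxx
  have hpd : (p.map (algebraMap L M)).natDegree ≤ d := hmaxM ▸ le_max_left _ _
  have hqd : (q.map (algebraMap L M)).natDegree ≤ d := hmaxM ▸ le_max_right _ _
  obtain ⟨hc1, hc2⟩ := conj_poly d _ _ u w hpd hqd a b c e s hconj
  refine ⟨M, inferInstance, inferInstance, inferInstance, inferInstance, hfdM, ?_, u, w, huw,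
    humax, ⟨a, b, c, e, hdet, s, hs, hc1, hc2⟩, hsp, cr, hcr, hcr2, ?_⟩
  · exact hfrM.trans (Nat.le_add_right _ _)
  · refine hcr3.trans (mul_le_mul_left ?_ _)
    exact_mod_cast Nat.le_add_left _ _

/-- the same with the compatibility of the structure maps as a hypothesis -/
theorem lchM' (hM : S_MCM.{u}) (d : ℕ) (hd : 2 ≤ d) : ∃ Bf : ℕ → ℕ, ∀ (k : Type v)
    (L Om : Type u) [Field k] [CharZero k] [Field L] [Algebra k L] [Field Om] [IsAlgClosed Om]
    [Algebra L Om] [Algebra k Om]
    (hst : ∀ x : k, algebraMap k Om x = algebraMap L Om (algebraMap k L x))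
    (t : L), Transcendental k t →
    FiniteDimensional (IntermediateField.adjoin k {t}) L →
    ∀ n, Module.finrank (IntermediateField.adjoin k {t}) L ≤ n →
    ∀ p q : L[X], IsCoprime p q → max p.natDegree q.natDegree = d →
    ¬ IsoP k (p.map (algebraMap L Om)) (q.map (algebraMap L Om)) d →
    ¬ LatP d (p.map (algebraMap L Om)) (q.map (algebraMap L Om)) →
    Pool.Agent.Y706.CH7.LCH k p q d (Bf n) := by
  obtain ⟨Bf, hBf⟩ := lchM.{u, v} hM d hd
  refine ⟨Bf, ?_⟩
  intro k L Om _ _ _ _ _ _ _ _ hst t
  have ist : IsScalarTower k L Om := IsScalarTower.of_algebraMap_eq hst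
  exact hBf k L Om t

end Pool.Agent.E8helper88.Mul
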