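import Pool.Agent.E8helper88.Mul.Iter

/-!
# Multipliers and critical heights: conjugate maps have the same multipliers
-/

set_option linter.unusedSectionVars false
set_option linter.unusedVariables false

namespace Pool.Agent.E8helper88.Mul

open Polynomial Finset
open Pool.Agent.W277.UH Pool.Agent.Y706.CH Pool.Agent.Y195.CH Pool.Agent.Y676.CH

universe u v w

/-- multipliers of `n`-periodic points -/
def IsMul {K : Type*} [CommRing K] (d : ℕ) (p q : K[X]) (n : ℕ) (lam : K) : Prop :=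
  ∃ Z : K × K, Z ≠ 0 ∧ ∃ μ : K, μ ≠ 0 ∧ (FH d p q)^[n] Z = μ • Z ∧
    lam * μ ^ 2 = ∏ j ∈ range n, WH d p q ((FH d p q)^[j] Z)

/-- conjugate maps -/
def CjF {K : Type*} [Field K] (d : ℕ) (p q u w : K[X]) : Prop :=
  ∃ a b c e s : K, a * e - b * c ≠ 0 ∧ s ≠ 0 ∧
    ∀ Z, FH d u w (Ph a b c e Z) = s • Ph a b c e (FH d p q Z)

section
variable {K : Type u} [Field K]

lemma Ph_comp (a b c e a' b' c' e' : K) (Z : K × K) :
    Ph a' b' c' e' (Ph a b c e Z) =
      Ph (a' * a + b' * c) (a' * b + b' * e) (c' * a + e' * c) (c' * b + e' * e) Z := by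
  unfold Ph
  refine Prod.ext ?_ ?_
  · simp only
    ring
  · simp only
    ring

lemma Ph_adj (a b c e : K) (Z : K × K) :
    Ph a b c e (Ph e (-b) (-c) a Z) = (a * e - b * c) • Z := by
  unfold Ph
  refine Prod.ext ?_ ?_
  · simp only [Prod.smul_fst, smul_eq_mul]
    ring
  · simp only [Prod.smul_snd, smul_eq_mul]
    ring

lemma Ph_adj' (a b c e : K) (Z : K × K) :
    Ph e (-b) (-c) a (Ph a b c e Z) = (a * e - b * c) • Z := by
  unfold Ph
  refine Prod.ext ?_ ?_
  · simp only [Prod.smul_fst, smul_eq_mul]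
    ring
  · simp only [Prod.smul_snd, smul_eq_mul]
    ring

lemma CjF_refl (d : ℕ) (p q : K[X]) : CjF d p q p q := by
  refine ⟨1, 0, 0, 1, 1, by simp, one_ne_zero, ?_⟩
  intro Z
  have h : ∀ Z : K × K, Ph 1 0 0 1 Z = Z := by
    intro Z
    unfold Ph
    simp
  rw [h, h, one_smul]

lemma CjF_symm (d : ℕ) (p q u w : K[X]) (h : CjF d p q u w) : CjF d u w p q := by
  obtain ⟨a, b, c, e, s, hdet, hs, h⟩ := h
  have hdet' : e * a - (-b) * (-c) ≠ 0 := by
    intro h'
    apply hdet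
    linear_combination h'
  set D := a * e - b * c with hD
  refine ⟨e, -b, -c, a, s⁻¹ * D ^ d * D⁻¹, hdet',
    mul_ne_zero (mul_ne_zero (inv_ne_zero hs) (pow_ne_zero _ hdet)) (inv_ne_zero hdet), ?_⟩
  intro Z
  have h1 := h (D⁻¹ • Ph e (-b) (-c) a Z)
  rw [Ph_smul, Ph_adj, ← hD, smul_smul, inv_mul_cancel₀ hdet, one_smul, FH_smul, Ph_smul,
    smul_smul] at h1
  rw [h1, Ph_smul, Ph_adj', ← hD, smul_smul, smul_smul]
  have h2 : s⁻¹ * D ^ d * D⁻¹ * (s * D⁻¹ ^ d * D) = 1 := by
    rw [inv_pow]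
    field_simp
  rw [show s⁻¹ * D ^ d * D⁻¹ * (s * D⁻¹ ^ d) * D = s⁻¹ * D ^ d * D⁻¹ * (s * D⁻¹ ^ d * D) by ring,
    h2, one_smul]

lemma CjF_trans (d : ℕ) (p q u w x y : K[X]) (h : CjF d p q u w) (h' : CjF d u w x y) :
    CjF d p q x y := by
  obtain ⟨a, b, c, e, s, hdet, hs, h⟩ := h
  obtain ⟨a', b', c', e', s', hdet', hs', h'⟩ := h'
  refine ⟨a' * a + b' * c, a' * b + b' * e, c' * a + e' * c, c' * b + e' * e, s' * s, ?_,
    mul_ne_zero hs' hs, ?_⟩
  · intro h0
    apply mul_ne_zero hdet' hdet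
    linear_combination h0
  · intro Z
    rw [← Ph_comp, h', h, Ph_smul, smul_smul, Ph_comp]

lemma Ph_hom {L : Type v} [Field L] (φ : K →+* L) (a b c e : K) (Z : K × K) :
    Ph (φ a) (φ b) (φ c) (φ e) (vh φ Z) = vh φ (Ph a b c e Z) := by
  unfold Ph vh
  simp

lemma wr_eval (A B : K[X]) (x : K) : (wr A B).eval x =
    (derivative A).eval x * B.eval x - A.eval x * (derivative B).eval x := by
  unfold wr
  simp

/-- the homogeneous Wronskian of a conjugate map -/
lemma WH_conj [CharZero K] (d : ℕ) (hd : 1 ≤ d) (p q u w : K[X]) (hp : p.natDegree ≤ d)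
    (hq : q.natDegree ≤ d) (hu : u.natDegree ≤ d) (hw : w.natDegree ≤ d) (a b c e s : K)
    (hdet : a * e - b * c ≠ 0) (h : ∀ Z, FH d u w (Ph a b c e Z) = s • Ph a b c e (FH d p q Z))
    (Z : K × K) (hZ : Z ≠ 0) : WH d u w (Ph a b c e Z) = s ^ 2 * WH d p q Z := by
  obtain ⟨V, hV⟩ : ∃ V : K × K, V.1 * Z.2 - Z.1 * V.2 ≠ 0 := by
    by_cases h2 : Z.2 = 0
    · have h1 : Z.1 ≠ 0 := fun h1 => hZ (Prod.ext h1 h2)
      exact ⟨(0, 1), by simpa [h2] using h1⟩
    · exact ⟨(1, 0), by simpa using h2⟩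
  set A : K[X] := C Z.1 + C V.1 * X with hA
  set B : K[X] := C Z.2 + C V.2 * X with hB
  set A' : K[X] := C a * A + C b * B with hA'
  set B' : K[X] := C c * A + C e * B with hB'
  have e1 : hc d u A' B' = C s * (C a * hc d p A B + C b * hc d q A B) := by
    apply Polynomial.funext
    intro x
    have h1 := congrArg Prod.fst (h (A.eval x, B.eval x))
    simp only [FH, Ph, Prod.smul_fst, smul_eq_mul] at h1
    rw [hc_eval]
    simp only [eval_mul, eval_add, eval_C, hc_eval, hA', hB']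
    exact h1
  have e2 : hc d w A' B' = C s * (C c * hc d p A B + C e * hc d q A B) := by
    apply Polynomial.funext
    intro x
    have h1 := congrArg Prod.snd (h (A.eval x, B.eval x))
    simp only [FH, Ph, Prod.smul_snd, smul_eq_mul] at h1
    rw [hc_eval]
    simp only [eval_mul, eval_add, eval_C, hc_eval, hA', hB']
    exact h1
  have e3 : wr (hc d u A' B') (hc d w A' B') =
      C (s ^ 2 * (a * e - b * c)) * wr (hc d p A B) (hc d q A B) := by
    rw [e1, e2]
    unfold wr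
    simp only [derivative_mul, derivative_C, zero_mul, zero_add, derivative_add, C_mul, C_pow,
      C_sub]
    ring
  have e4 := wr_hc d hd u w A' B' hu hw 0
  have e5 := wr_hc d hd p q A B hp hq 0
  have e6 : wr A' B' = C (a * e - b * c) * wr A B := by
    unfold wr
    simp only [hA', hB', derivative_mul, derivative_C, zero_mul, zero_add, derivative_add, C_mul,
      C_sub]
    ring
  have e7 : (wr A B).eval 0 = V.1 * Z.2 - Z.1 * V.2 := by
    rw [wr_eval]
    simp [hA, hB]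
  have e8 : (A.eval 0, B.eval 0) = Z := by
    simp [hA, hB]
  have e9 : (A'.eval 0, B'.eval 0) = Ph a b c e Z := by
    simp [hA', hB', hA, hB, Ph]
  rw [e3, e6, e9, eval_mul, eval_mul, eval_C, eval_C, e5, e8, e7] at e4
  apply mul_right_cancel₀ (mul_ne_zero hdet hV)
  linear_combination -e4

lemma FH_conj_iter (d : ℕ) (p q u w : K[X]) (a b c e s : K) (hs : s ≠ 0)
    (h : ∀ Z, FH d u w (Ph a b c e Z) = s • Ph a b c e (FH d p q Z)) :
    ∃ t : ℕ → K, t 0 = 1 ∧ (∀ n, t (n + 1) = s * t n ^ d) ∧ (∀ n, t n ≠ 0) ∧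
      ∀ n Z, (FH d u w)^[n] (Ph a b c e Z) = t n • Ph a b c e ((FH d p q)^[n] Z) := by
  refine ⟨fun n => Nat.rec 1 (fun _ x => s * x ^ d) n, rfl, fun n => rfl, ?_, ?_⟩
  · intro n
    induction n with
    | zero => exact one_ne_zero
    | succ n ih => exact mul_ne_zero hs (pow_ne_zero _ ih)
  · intro n Z
    induction n with
    | zero => simp
    | succ n ih =>
      rw [Function.iterate_succ_apply', Function.iterate_succ_apply', ih, FH_smul, h, smul_smul,
        mul_comm]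

lemma IsMul_conj [CharZero K] (d : ℕ) (hd : 1 ≤ d) (p q u w : K[X]) (hp : p.natDegree ≤ d)
    (hq : q.natDegree ≤ d) (hu : u.natDegree ≤ d) (hw : w.natDegree ≤ d)
    (hmax : max p.natDegree q.natDegree = d) (hco : IsCoprime p q)
    (h : CjF d p q u w) (n : ℕ) (lam : K) (hl : IsMul d p q n lam) : IsMul d u w n lam := by
  obtain ⟨a, b, c, e, s, hdet, hs, h⟩ := h
  obtain ⟨t, ht0, ht1, ht2, ht3⟩ := FH_conj_iter d p q u w a b c e s hs h
  obtain ⟨Z, hZ, μ, hμ, h1, h2⟩ := hl
  refine ⟨Ph a b c e Z, Ph_ne a b c e hdet Z hZ, t n * μ, mul_ne_zero (ht2 n) hμ, ?_, ?_⟩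
  · rw [ht3, h1, Ph_smul, smul_smul]
  · have h3 : ∀ m, ∏ j ∈ range m, WH d u w ((FH d u w)^[j] (Ph a b c e Z)) =
        t m ^ 2 * ∏ j ∈ range m, WH d p q ((FH d p q)^[j] Z) := by
      intro m
      induction m with
      | zero => simp [ht0]
      | succ m ih =>
        rw [Finset.prod_range_succ, Finset.prod_range_succ, ih, ht3, WH_smul,
          WH_conj d hd p q u w hp hq hu hw a b c e s hdet h _
            (FH_iter_nz d hd p q hmax hco m Z hZ), ht1]
        have h4 : t m ^ (2 * d - 2) * t m ^ 2 = (t m ^ d) ^ 2 := by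
          rw [← pow_add, ← pow_mul]
          congr 1
          omega
        linear_combination (s ^ 2 * WH d p q ((FH d p q)^[m] Z) *
          ∏ j ∈ range m, WH d p q ((FH d p q)^[j] Z)) * h4
    rw [h3, ← h2]
    ring

lemma IsMul_hom {R S : Type*} [CommRing R] [CommRing S] (φ : R →+* S)
    (hφ : Function.Injective φ) (d : ℕ) (p q : R[X]) (n : ℕ) (lam : R) (h : IsMul d p q n lam) :
    IsMul d (p.map φ) (q.map φ) n (φ lam) := by
  obtain ⟨Z, hZ, μ, hμ, h1, h2⟩ := h
  refine ⟨vh φ Z, ?_, φ μ, ?_, ?_, ?_⟩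
  · intro h
    apply hZ
    have g1 : φ Z.1 = 0 := congrArg Prod.fst h
    have g2 : φ Z.2 = 0 := congrArg Prod.snd h
    exact Prod.ext (hφ (g1.trans (map_zero φ).symm)) (hφ (g2.trans (map_zero φ).symm))
  · intro h
    exact hμ (hφ (by rw [h, map_zero]))
  · rw [FH_iter_hom, h1]
    unfold vh
    simp only [Prod.smul_fst, Prod.smul_snd, smul_eq_mul, map_mul]
    rfl
  · rw [← map_pow, ← map_mul, h2, map_prod]
    apply Finset.prod_congr rfl
    intro j _
    rw [FH_iter_hom, WH_hom]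

lemma CjF_hom {L : Type v} [Field L] [Infinite K] (φ : K →+* L) (d : ℕ) (p q u w : K[X]) 
    (hp : p.natDegree ≤ d) (hq : q.natDegree ≤ d) (hu : u.natDegree ≤ d) (hw : w.natDegree ≤ d)
    (a b c e s : K) (h : ∀ Z, FH d u w (Ph a b c e Z) = s • Ph a b c e (FH d p q Z)) (Z : L × L) :
    FH d (u.map φ) (w.map φ) (Ph (φ a) (φ b) (φ c) (φ e) Z) =
      φ s • Ph (φ a) (φ b) (φ c) (φ e) (FH d (p.map φ) (q.map φ) Z) := by
  have key1 : ∀ (f : K[X]) (x y : K), (∀ Z, hev d f (Ph a b c e Z) =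
      s * (x * hev d p Z + y * hev d q Z)) →
      hev d (f.map φ) (Ph (φ a) (φ b) (φ c) (φ e) Z) =
        φ s * (φ x * hev d (p.map φ) Z + φ y * hev d (q.map φ) Z) := by
    intro f x y hf
    apply key d (φ a) (φ b) (φ c) (φ e) (φ s) (p.map φ) (q.map φ) (f.map φ)
      (natDegree_map_le.trans hp) (natDegree_map_le.trans hq) (φ x) (φ y)
    have h1 : hc d f (C a * X + C b) (C c * X + C e) = C s * (C x * p + C y * q) := by
      apply Polynomial.funext
      intro z
      have h2 := hf (z, 1)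
      rw [hev_one d p hp, hev_one d q hq] at h2
      rw [hc_eval]
      simp only [eval_mul, eval_add, eval_C, eval_X]
      rw [← h2]
      simp [Ph]
    have h3 := congrArg (Polynomial.map φ) h1
    rw [hc_map'] at h3
    simp only [Polynomial.map_mul, Polynomial.map_add, Polynomial.map_C, Polynomial.map_X] at h3
    rw [← h3]
    unfold hc hev
    refine Finset.sum_congr rfl fun i _ => ?_
    rw [coeff_map]
    simp
  refine Prod.ext ?_ ?_
  · exact key1 u a b fun Z => congrArg Prod.fst (h Z)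
  · exact key1 w c e fun Z => congrArg Prod.snd (h Z)

end

end Pool.Agent.E8helper88.Mul
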