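import Pool.Agent.E8helper88.Mul.Ult2

/-!
# Multipliers and critical heights: the main bound
-/

set_option linter.unusedSectionVars false
set_option linter.unusedVariables false

namespace Pool.Agent.E8helper88.Mul

open Polynomial Finset Filter
open Pool.Agent.W277.UH Pool.Agent.Y706.CH Pool.Agent.Y195.CH Pool.Agent.Y676.CH
open Pool.Agent.E8helper71.UB (UP mk mk_eq mk_eq_zero mk_surjective)

universe u v w

/-- no sequence of normalised maps of small multipliers and large coefficients -/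
theorem ultra_seq (Mf Om : ℕ → Type u) [∀ j, Field (Mf j)] [∀ j, Field (Om j)]
    [∀ j, IsAlgClosed (Om j)] [∀ j, CharZero (Om j)] [∀ j, Algebra (Mf j) (Om j)]
    (h : ∀ j, Mf j → ℝ) (hh : ∀ j, IsHt (h j)) (d m r : ℕ) (hd : 2 ≤ d) (n₁ n₂ : ℕ)
    (hn : n₂ < n₁) (uf wf : ∀ j, (Mf j)[X]) (hco : ∀ j, IsCoprime (uf j) (wf j))
    (hmax : ∀ j, max (uf j).natDegree (wf j).natDegree = d)
    (hN : ∀ j, Nrm d n₁ n₂ ((uf j).map (algebraMap (Mf j) (Om j)))
      ((wf j).map (algebraMap (Mf j) (Om j))))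
    (hfew : ∀ j, FewIso d m r ((uf j).map (algebraMap (Mf j) (Om j)))
      ((wf j).map (algebraMap (Mf j) (Om j)))) (A : ℕ → ℝ) (hA : ∀ j, 0 ≤ A j)
    (hmul : ∀ j n, 1 ≤ n → n ≤ m → ∀ lam : Om j,
      IsMul d ((uf j).map (algebraMap (Mf j) (Om j))) ((wf j).map (algebraMap (Mf j) (Om j))) n lam →
      ∃ l : Mf j, algebraMap (Mf j) (Om j) l = lam ∧ h j l ≤ A j)
    (hbad : ∀ j : ℕ, j * A j < ∑ i ∈ range (d + 1), (h j ((uf j).coeff i) + h j ((wf j).coeff i))) :
    False := by
  classical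
  set H : ℕ → ℝ := fun j => ∑ i ∈ range (d + 1), (h j ((uf j).coeff i) + h j ((wf j).coeff i))
    with hH
  have hH0 : ∀ j, 0 ≤ H j := fun j => Finset.sum_nonneg fun i _ =>
    add_nonneg ((hh j).nonneg _) ((hh j).nonneg _)
  have hHpos : ∀ j, 0 < H j := fun j => lt_of_le_of_lt (mul_nonneg (Nat.cast_nonneg j) (hA j))
    (hbad j)
  set U : Ultrafilter ℕ := Filter.hyperfilter ℕ with hU
  have hUtop : ∀ s : ℕ, ∀ᶠ j in (U : Filter ℕ), s ≤ j := fun s =>
    Nat.hyperfilter_le_atTop (Filter.eventually_ge_atTop s)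
  have hud : ∀ j, (uf j).natDegree ≤ d := fun j => (hmax j) ▸ le_max_left _ _
  have hwd : ∀ j, (wf j).natDegree ≤ d := fun j => (hmax j) ▸ le_max_right _ _
  -- the coefficient families
  set cu : ℕ → ∀ j, Mf j := fun i j => (uf j).coeff i with hcu
  set cw : ℕ → ∀ j, Mf j := fun i j => (wf j).coeff i with hcw
  set P : (∀ j, Om j)[X] := pack Om d fun i => phi Mf Om (cu i) with hP
  set Q : (∀ j, Om j)[X] := pack Om d fun i => phi Mf Om (cw i) with hQ
  have hPev : ∀ j, P.map (ev Om j) = (uf j).map (algebraMap (Mf j) (Om j)) := by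
    intro j
    apply pack_ev d _ j _ (natDegree_map_le.trans (hud j))
    intro i _
    rw [coeff_map, phi_apply]
  have hQev : ∀ j, Q.map (ev Om j) = (wf j).map (algebraMap (Mf j) (Om j)) := by
    intro j
    apply pack_ev d _ j _ (natDegree_map_le.trans (hwd j))
    intro i _
    rw [coeff_map, phi_apply]
  set p := P.map (mk Om U) with hp
  set q := Q.map (mk Om U) with hq
  have hpd : p.natDegree ≤ d := natDegree_map_le.trans (pack_deg d _)
  have hqd : q.natDegree ≤ d := natDegree_map_le.trans (pack_deg d _)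
  have hNz : Nz d p q := by
    rw [hp, hq, los_Nz]
    apply Filter.Eventually.of_forall
    intro j
    rw [hPev, hQev]
    exact Nz_of_good d (by omega) _ _ ((Polynomial.isCoprime_map _).mpr (hco j))
      (max_map _ _ _ d (hmax j))
  obtain ⟨hcopq, hmaxpq⟩ := good_of_Nz d p q hpd hqd hNz
  have hNpq : Nrm d n₁ n₂ p q := los_Nrm d n₁ n₂ P Q fun j => by
    rw [hPev, hQev]
    exact hN j
  have hfewpq : FewIso d m r p q := los_FewIso d m r (by omega) P Q
    (Filter.Eventually.of_forall fun j => by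
      rw [hPev, hQev]
      exact hfew j)
  -- the field
  set F' := smallField Mf Om U h hh H hH0 with hF'
  set F : Subfield (UP Om U) := (algebraicClosure F' (UP Om U)).toSubfield with hF
  have hFmem : ∀ x : UP Om U, x ∈ F ↔ IsAlgebraic F' x := by
    intro x
    rw [hF]
    exact mem_algebraicClosure_iff
  have hFcl : ∀ x : UP Om U, IsAlgebraic F x → x ∈ F := by
    intro x hx
    rw [hFmem]
    have hx' : IsAlgebraic (algebraicClosure F' (UP Om U)) x := hx
    exact hx'.restrictScalars F'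
  have hmulF : ∀ n, 1 ≤ n → n ≤ m → ∀ lam, IsMul d p q n lam → lam ∈ F := by
    intro n h1 h2 lam hlam
    obtain ⟨lam', rfl⟩ := mk_surjective (K := Om) (U := U) lam
    rw [hp, hq, los_IsMul] at hlam
    have h3 : ∀ j, ∃ l : Mf j, IsMul d (P.map (ev Om j)) (Q.map (ev Om j)) n (lam' j) →
        algebraMap (Mf j) (Om j) l = lam' j ∧ h j l ≤ A j := by
      intro j
      by_cases h4 : IsMul d (P.map (ev Om j)) (Q.map (ev Om j)) n (lam' j)
      · have h5 := h4
        rw [hPev, hQev] at h5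
        obtain ⟨l, hl⟩ := hmul j n h1 h2 _ h5
        exact ⟨l, fun _ => hl⟩
      · exact ⟨0, fun h => absurd h h4⟩
    choose l hl using h3
    have h4 : mk Om U lam' ∈ F' := by
      rw [hF', mem_smallField]
      refine ⟨l, ?_, ?_⟩
      · rw [mk_eq]
        filter_upwards [hlam] with j hj
        rw [phi_apply]
        exact (hl j hj).1
      · intro s
        filter_upwards [hlam, hUtop s] with j hj hs
        have h5 := (hl j hj).2
        have h6 : (s : ℝ) * h j (l j) ≤ j * A j := by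
          have hs' : (s : ℝ) ≤ j := by exact_mod_cast hs
          exact mul_le_mul hs' h5 ((hh j).nonneg _) (Nat.cast_nonneg j)
        exact h6.trans (hbad j).le
    rw [hFmem]
    exact isAlgebraic_algebraMap (⟨_, h4⟩ : F')
  have hall : ∀ i ≤ d, Sml U h H (cu i) ∧ Sml U h H (cw i) := by
    intro i hi
    obtain ⟨h1, h2⟩ := descent d m r hd p q hcopq hmaxpq n₁ n₂ hn hNpq hfewpq F hFcl hmulF i
    rw [hFmem] at h1 h2
    have e1 : p.coeff i = mk Om U (phi Mf Om (cu i)) := by
      rw [hp, coeff_map, hP, pack_coeff, if_pos hi]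
    have e2 : q.coeff i = mk Om U (phi Mf Om (cw i)) := by
      rw [hq, coeff_map, hQ, pack_coeff, if_pos hi]
    rw [e1] at h1
    rw [e2] at h2
    exact ⟨small_of_alg Mf Om U h hh H hH0 _ h1, small_of_alg Mf Om U h hh H hH0 _ h2⟩
  have hev : ∀ᶠ j in (U : Filter ℕ), ∀ i ∈ range (d + 1),
      ((4 * (d + 1) : ℕ) : ℝ) * h j ((uf j).coeff i) ≤ H j ∧
      ((4 * (d + 1) : ℕ) : ℝ) * h j ((wf j).coeff i) ≤ H j := by
    rw [Filter.eventually_all_finset]
    intro i hi
    have h1 := hall i (Nat.lt_succ_iff.mp (Finset.mem_range.mp hi))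
    exact (h1.1 _).and (h1.2 _)
  obtain ⟨j, hj⟩ := hev.exists
  have h1 : ((4 * (d + 1) : ℕ) : ℝ) * H j ≤ (2 * (d + 1) : ℕ) * H j := by
    calc ((4 * (d + 1) : ℕ) : ℝ) * H j = ∑ i ∈ range (d + 1),
          (((4 * (d + 1) : ℕ) : ℝ) * h j ((uf j).coeff i) +
            ((4 * (d + 1) : ℕ) : ℝ) * h j ((wf j).coeff i)) := by
          rw [hH]
          simp only
          rw [Finset.mul_sum]
          exact Finset.sum_congr rfl fun i _ => mul_add _ _ _
      _ ≤ ∑ i ∈ range (d + 1), (H j + H j) :=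
          Finset.sum_le_sum fun i hi => add_le_add (hj i hi).1 (hj i hi).2
      _ = (2 * (d + 1) : ℕ) * H j := by
          rw [Finset.sum_const, Finset.card_range, nsmul_eq_mul]
          push_cast
          ring
  have h2 := hHpos j
  have h3 := le_of_mul_le_mul_right h1 h2
  have h4 : (4 * (d + 1) : ℕ) ≤ 2 * (d + 1) := by exact_mod_cast h3
  omega

/-- data violating the bound -/
structure CE (d m r n₁ n₂ : ℕ) (B : ℕ) : Type (u + 1) where
  M : Type u
  Om : Type u
  [fM : Field M]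
  [fO : Field Om]
  [ac : IsAlgClosed Om]
  [cz : CharZero Om]
  [al : Algebra M Om]
  h : M → ℝ
  hh : IsHt h
  u : M[X]
  w : M[X]
  co : IsCoprime u w
  mx : max u.natDegree w.natDegree = d
  nr : Nrm d n₁ n₂ (u.map (algebraMap M Om)) (w.map (algebraMap M Om))
  fe : FewIso d m r (u.map (algebraMap M Om)) (w.map (algebraMap M Om))
  A : ℝ
  hA : 0 ≤ A
  mul : ∀ n, 1 ≤ n → n ≤ m → ∀ lam : Om,
      IsMul d (u.map (algebraMap M Om)) (w.map (algebraMap M Om)) n lam →
      ∃ l : M, algebraMap M Om l = lam ∧ h l ≤ A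
  bad : B * A < ∑ i ∈ range (d + 1), (h (u.coeff i) + h (w.coeff i))

/-- **The main bound.** The height of a normalised map with few isospectral classes is at most a
constant times the largest height of its multipliers. -/
theorem ultra (d m r : ℕ) (hd : 2 ≤ d) (n₁ n₂ : ℕ) (hn : n₂ < n₁) : ∃ B : ℕ,
    ∀ (M Om : Type u) [Field M] [Field Om] [IsAlgClosed Om] [CharZero Om] [Algebra M Om]
    (h : M → ℝ) (hh : IsHt h) (u w : M[X]) (hco : IsCoprime u w)
    (hmax : max u.natDegree w.natDegree = d)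
    (hN : Nrm d n₁ n₂ (u.map (algebraMap M Om)) (w.map (algebraMap M Om)))
    (hfew : FewIso d m r (u.map (algebraMap M Om)) (w.map (algebraMap M Om)))
    (A : ℝ) (hA : 0 ≤ A) (hmul : ∀ n, 1 ≤ n → n ≤ m → ∀ lam : Om,
      IsMul d (u.map (algebraMap M Om)) (w.map (algebraMap M Om)) n lam →
      ∃ l : M, algebraMap M Om l = lam ∧ h l ≤ A) (i : ℕ),
    h (u.coeff i) ≤ B * A ∧ h (w.coeff i) ≤ B * A := by
  by_contra hcon
  push Not at hcon
  have h1 : ∀ B : ℕ, Nonempty (CE.{u} d m r n₁ n₂ B) := by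
    intro B
    obtain ⟨M, Om, _, _, _, _, _, h, hh, u, w, hco, hmax, hN, hfew, A, hA, hmul, i, hi⟩ := hcon B
    refine ⟨⟨M, Om, h, hh, u, w, hco, hmax, hN, hfew, A, hA, hmul, ?_⟩⟩
    have hud : u.natDegree ≤ d := hmax ▸ le_max_left _ _
    have hwd : w.natDegree ≤ d := hmax ▸ le_max_right _ _
    have hBA : (0 : ℝ) ≤ B * A := mul_nonneg (Nat.cast_nonneg B) hA
    have hmem : i ∈ range (d + 1) := by
      by_contra hni
      rw [Finset.mem_range, not_lt] at hni
      have h1 : u.coeff i = 0 := coeff_eq_zero_of_natDegree_lt (by omega)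
      have h2 : w.coeff i = 0 := coeff_eq_zero_of_natDegree_lt (by omega)
      rw [h1, h2, hh.zero] at hi
      exact absurd (hi hBA) (not_lt.mpr hBA)
    have hle : h (u.coeff i) + h (w.coeff i) ≤
        ∑ i ∈ range (d + 1), (h (u.coeff i) + h (w.coeff i)) :=
      Finset.single_le_sum (f := fun i => h (u.coeff i) + h (w.coeff i))
        (fun i _ => add_nonneg (hh.nonneg _) (hh.nonneg _)) hmem
    have hu0 := hh.nonneg (u.coeff i)
    have hw0 := hh.nonneg (w.coeff i)
    by_cases h3 : h (u.coeff i) ≤ B * A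
    · have := hi h3
      linarith
    · push Not at h3
      linarith
  have X : ∀ B : ℕ, CE.{u} d m r n₁ n₂ B := fun B => (h1 B).some
  exact @ultra_seq (fun B => (X B).M) (fun B => (X B).Om) (fun B => (X B).fM) (fun B => (X B).fO)
    (fun B => (X B).ac) (fun B => (X B).cz) (fun B => (X B).al) (fun B => (X B).h)
    (fun B => (X B).hh) d m r hd n₁ n₂ hn (fun B => (X B).u) (fun B => (X B).w)
    (fun B => (X B).co) (fun B => (X B).mx) (fun B => (X B).nr) (fun B => (X B).fe)
    (fun B => (X B).A) (fun B => (X B).hA) (fun B => (X B).mul) (fun B => (X B).bad)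

end Pool.Agent.E8helper88.Mul
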