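import Pool.Agent.E8helper88.Mul.Pts
import Pool.Agent.E8helper88.Mul.Ult3

/-!
# Multipliers and critical heights: the normalised conjugate over the field of the marked points
-/

set_option linter.unusedSectionVars false
set_option linter.unusedVariables false

namespace Pool.Agent.E8helper88.Mul

open Polynomial Finset
open Pool.Agent.W277.UH Pool.Agent.Y706.CH Pool.Agent.Y195.CH Pool.Agent.Y676.CH

universe u v w

section
variable {K : Type u} [Field K]

lemma prod_conj [CharZero K] (d : ℕ) (hd : 1 ≤ d) (p q u w : K[X]) (hp : p.natDegree ≤ d)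
    (hq : q.natDegree ≤ d) (hu : u.natDegree ≤ d) (hw : w.natDegree ≤ d)
    (hmax : max p.natDegree q.natDegree = d) (hco : IsCoprime p q) (a b c e s : K)
    (hdet : a * e - b * c ≠ 0) (hs : s ≠ 0)
    (h : ∀ Z, FH d u w (Ph a b c e Z) = s • Ph a b c e (FH d p q Z)) (n : ℕ)
    (Z : K × K) (hZ : Z ≠ 0) : ∃ t : K, t ≠ 0 ∧
    ∏ j ∈ range n, WH d u w ((FH d u w)^[j] (Ph a b c e Z)) =
        t * ∏ j ∈ range n, WH d p q ((FH d p q)^[j] Z) := by
  obtain ⟨t, ht0, ht1, ht2, ht3⟩ := FH_conj_iter d p q u w a b c e s hs h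
  refine ⟨t n ^ 2, pow_ne_zero _ (ht2 n), ?_⟩
  induction n with
  | zero => simp [ht0]
  | succ m ih =>
    rw [Finset.prod_range_succ, Finset.prod_range_succ, ih, ht3, WH_smul,
      WH_conj d hd p q u w hp hq hu hw a b c e s hdet h _
        (FH_iter_nz d hd p q hmax hco m Z hZ), ht1]
    have h4 : t m ^ (2 * d - 2) * t m ^ 2 = (t m ^ d) ^ 2 := by
      rw [← pow_add, ← pow_mul]
      congr 1
      omega
    linear_combination (s ^ 2 * WH d p q ((FH d p q)^[m] Z) *
      ∏ j ∈ range m, WH d p q ((FH d p q)^[j] Z)) * h4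

lemma itP_one [Infinite K] (d : ℕ) (u w : K[X]) (hu : u.natDegree ≤ d) (hw : w.natDegree ≤ d) :
    itP d u w 1 = (u, w) := by
  have h : ∀ x, ((itP d u w 1).1.eval x, (itP d u w 1).2.eval x) = (u.eval x, w.eval x) := by
    intro x
    rw [itP_eval]
    show (hev d u (x, 1), hev d w (x, 1)) = _
    rw [hev_one d u hu, hev_one d w hw]
  refine Prod.ext ?_ ?_
  · exact Polynomial.funext fun x => congrArg Prod.fst (h x)
  · exact Polynomial.funext fun x => congrArg Prod.snd (h x)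

/-- the marked points are rational -/
def RatPts {M : Type u} [Field M] (Om : Type v) [Field Om] [Algebra M Om] (d m : ℕ)
    (p q : M[X]) : Prop :=
  ∀ n, 1 ≤ n → n ≤ m → ∀ Z : Om × Om, Z ≠ 0 →
    (wd ((FH d (p.map (algebraMap M Om)) (q.map (algebraMap M Om)))^[2 * n] Z)
      ((FH d (p.map (algebraMap M Om)) (q.map (algebraMap M Om)))^[n] Z) = 0 ∨
    ∏ j ∈ range n, WH d (p.map (algebraMap M Om)) (q.map (algebraMap M Om))
      ((FH d (p.map (algebraMap M Om)) (q.map (algebraMap M Om)))^[j] Z) = 0) →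
    ∃ t : Om, t ≠ 0 ∧ ∃ Y : M × M, Z = t • vh (algebraMap M Om) Y

variable {M : Type u} [Field M] {Om : Type v} [Field Om] [Algebra M Om]

lemma vh_ne {Y : M × M} {t : Om} {Z : Om × Om} (hZ : Z ≠ 0)
    (h : Z = t • vh (algebraMap M Om) Y) : Y ≠ 0 := by
  rintro rfl
  apply hZ
  rw [h]
  unfold vh
  simp

lemma FH_iter_map (d : ℕ) (p q : M[X]) (n : ℕ) (Y : M × M) :
    (FH d (p.map (algebraMap M Om)) (q.map (algebraMap M Om)))^[n] (vh (algebraMap M Om) Y) =
      vh (algebraMap M Om) ((FH d p q)^[n] Y) := FH_iter_hom _ _ _ _ _ _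

lemma fix_two (d : ℕ) (p q : K[X]) (n : ℕ) (Z V : K × K) (hV : V ≠ 0)
    (h1 : wd ((FH d p q)^[n] Z) V = 0) (h2 : wd ((FH d p q)^[n] V) V = 0) :
    wd ((FH d p q)^[2 * n] Z) ((FH d p q)^[n] Z) = 0 := by
  obtain ⟨s, hs⟩ := exists_smul_of_wd _ _ hV h1
  obtain ⟨s', hs'⟩ := exists_smul_of_wd _ _ hV h2
  rw [two_mul, Function.iterate_add_apply, hs, FH_iter_smul, hs', wd_smul_left', wd_smul_left',
    wd_smul_right', wd_self']
  ring

/-- the marked triple over the field of the marked points -/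
lemma triple [CharZero Om] [IsAlgClosed Om] (d m : ℕ) (hd : 2 ≤ d) (p q : M[X])
    (hmax : max p.natDegree q.natDegree = d) (hco : IsCoprime p q)
    (hrat : RatPts Om d m p q) (n : ℕ) (hn : 1 ≤ n) (hnm : n ≤ m) (lam : M)
    (hl : IsMul d p q n lam) (h0 : lam ≠ 0) (h1 : lam ≠ 1) :
    ∃ al be ga : M × M, al ≠ 0 ∧ IsMulAt d p q n lam al ∧ wd al be ≠ 0 ∧ wd ga al ≠ 0 ∧
      wd ga be ≠ 0 ∧ wd ((FH d p q)^[n] be) be = 0 ∧ wd ((FH d p q)^[n] ga) al = 0 := by
  set φ := algebraMap M Om with hφ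
  have hinj : Function.Injective φ := φ.injective
  obtain ⟨al, hal, hm⟩ := hl
  have hpo : max (p.map φ).natDegree (q.map φ).natDegree = d := max_map φ p q d hmax
  have hcoo : IsCoprime (p.map φ) (q.map φ) := (Polynomial.isCoprime_map φ).mpr hco
  have halo : vh φ al ≠ 0 := by
    intro h
    apply hal
    have g1 : φ al.1 = 0 := congrArg Prod.fst h
    have g2 : φ al.2 = 0 := congrArg Prod.snd h
    exact Prod.ext (hinj (g1.trans (map_zero φ).symm)) (hinj (g2.trans (map_zero φ).symm))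
  have hmo : IsMulAt d (p.map φ) (q.map φ) n (φ lam) (vh φ al) := by
    obtain ⟨μ, hμ, g1, g2⟩ := hm
    refine ⟨φ μ, (map_ne_zero φ).mpr hμ, ?_, ?_⟩
    · rw [FH_iter_hom, g1]
      unfold vh
      simp only [Prod.smul_fst, Prod.smul_snd, smul_eq_mul, map_mul]
      rfl
    · rw [← map_pow, ← map_mul, g2, map_prod]
      apply Finset.prod_congr rfl
      intro j _
      rw [FH_iter_hom, WH_hom]
  obtain ⟨⟨be, hb1, hb2⟩, ⟨ga, hg1, hg2⟩⟩ := pts d hd _ _ hpo hcoo n hn (φ lam) (vh φ al) halo hmo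
    ((map_ne_zero φ).mpr h0) (fun h => h1 (hinj (by rw [h, map_one])))
  have hbe0 : be ≠ 0 := by
    rintro rfl
    apply hb1
    unfold wd
    simp
  have hga0 : ga ≠ 0 := by
    rintro rfl
    apply hg1
    unfold wd
    simp
  have halfix : wd ((FH d (p.map φ) (q.map φ))^[n] (vh φ al)) (vh φ al) = 0 := by
    obtain ⟨μ, -, g1, -⟩ := hmo
    rw [g1, wd_smul_left', wd_self', mul_zero]
  obtain ⟨t, ht, Y, hY⟩ := hrat n hn hnm be hbe0 (Or.inl (fix_two d _ _ n be be hbe0 hb2 hb2))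
  obtain ⟨t', ht', Y', hY'⟩ := hrat n hn hnm ga hga0 (Or.inl (fix_two d _ _ n ga _ halo hg2 halfix))
  have hz : ∀ {x : M}, φ x = 0 → x = 0 := fun {x} h => (map_eq_zero φ).mp h
  refine ⟨al, Y, Y', hal, hm, ?_, ?_, ?_, ?_, ?_⟩
  · intro h
    apply hb1
    have h' : wd Y al = 0 := by
      have : wd Y al = -wd al Y := by unfold wd; ring
      rw [this, h, neg_zero]
    rw [hY, wd_smul_left', wd_hom, h', map_zero, mul_zero]
  · intro h
    apply hg1
    rw [hY', wd_smul_left', wd_hom, h, map_zero, mul_zero]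
  · intro h
    -- ga and be are proportional
    have h3 : wd ga be = 0 := by
      rw [hY', hY, wd_smul_left', wd_smul_right', wd_hom, h, map_zero, mul_zero, mul_zero]
    obtain ⟨x, hx⟩ := exists_smul_of_wd _ _ hbe0 h3
    have hx0 : x ≠ 0 := by
      rintro rfl
      apply hga0
      rw [hx, zero_smul]
    rw [hx, FH_iter_smul, wd_smul_left'] at hg2
    have h4 := (mul_eq_zero.mp hg2).resolve_left (pow_ne_zero _ hx0)
    obtain ⟨y, hy⟩ := exists_smul_of_wd _ _ hbe0 hb2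
    have hy0 : y ≠ 0 := by
      rintro rfl
      rw [zero_smul] at hy
      exact FH_iter_nz d (by omega) _ _ hpo hcoo n be hbe0 hy
    rw [hy, wd_smul_left'] at h4
    exact hb1 ((mul_eq_zero.mp h4).resolve_left hy0)
  · rw [hY, FH_iter_smul, FH_iter_map, wd_smul_left', wd_smul_right', wd_hom] at hb2
    exact hz ((mul_eq_zero.mp ((mul_eq_zero.mp hb2).resolve_left
      (pow_ne_zero _ ht))).resolve_left ht)
  · rw [hY', FH_iter_smul, FH_iter_map, wd_smul_left', wd_hom] at hg2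
    exact hz ((mul_eq_zero.mp hg2).resolve_left (pow_ne_zero _ ht'))

/-- the Wronskians of the conjugate map split -/
lemma wr_splits [CharZero Om] [IsAlgClosed Om] [Infinite M] (d m : ℕ) (hd : 1 ≤ d)
    (p q u w : M[X]) (hmax : max p.natDegree q.natDegree = d) (hco : IsCoprime p q)
    (humax : max u.natDegree w.natDegree = d) (hrat : RatPts Om d m p q) (a b c e s : M)
    (hdet : a * e - b * c ≠ 0) (hs : s ≠ 0)
    (h : ∀ Z, FH d u w (Ph a b c e Z) = s • Ph a b c e (FH d p q Z)) (n : ℕ) (hn : 1 ≤ n)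
    (hnm : n ≤ m) : (wr (itP d u w n).1 (itP d u w n).2).Splits := by
  set φ := algebraMap M Om with hφ
  have hinj : Function.Injective φ := φ.injective
  have hp : p.natDegree ≤ d := hmax ▸ le_max_left _ _
  have hq : q.natDegree ≤ d := hmax ▸ le_max_right _ _
  have hu : u.natDegree ≤ d := humax ▸ le_max_left _ _
  have hw : w.natDegree ≤ d := humax ▸ le_max_right _ _
  have hpo : max (p.map φ).natDegree (q.map φ).natDegree = d := max_map φ p q d hmax
  have hcoo : IsCoprime (p.map φ) (q.map φ) := (Polynomial.isCoprime_map φ).mpr hco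
  have hconj := fun Z => CjF_hom φ d p q u w hp hq hu hw a b c e s h Z
  apply Splits.of_splits_map_of_injective hinj (IsAlgClosed.splits _)
  intro x hx
  have hx' := isRoot_of_mem_roots hx
  rw [← wr_map, IsRoot] at hx'
  have e1 := itP_map φ d u w n
  have e2 : ((itP d u w n).1.map φ) = (itP d (u.map φ) (w.map φ) n).1 := by rw [e1]
  have e3 : ((itP d u w n).2.map φ) = (itP d (u.map φ) (w.map φ) n).2 := by rw [e1]
  rw [e2, e3, itP_wr d hd _ _ (natDegree_map_le.trans hu) (natDegree_map_le.trans hw)] at hx'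
  have hdetφ : φ a * φ e - φ b * φ c ≠ 0 := by
    rw [← map_mul, ← map_mul, ← map_sub]
    exact (map_ne_zero φ).mpr hdet
  have hdetφ' : φ e * φ a - (-φ b) * (-φ c) ≠ 0 := by
    intro h
    apply hdetφ
    linear_combination h
  set Z := Ph (φ e) (-φ b) (-φ c) (φ a) ((x, 1) : Om × Om) with hZ
  have hx10 : ((x, 1) : Om × Om) ≠ 0 := fun h => one_ne_zero (congrArg Prod.snd h)
  have hZ0 : Z ≠ 0 := Ph_ne _ _ _ _ hdetφ' _ hx10
  obtain ⟨t, ht, htt⟩ := prod_conj d hd _ _ _ _ (natDegree_map_le.trans hp)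
    (natDegree_map_le.trans hq) (natDegree_map_le.trans hu) (natDegree_map_le.trans hw) hpo hcoo
    _ _ _ _ _ hdetφ ((map_ne_zero φ).mpr hs) hconj n Z hZ0
  have hadj : Ph (φ a) (φ b) (φ c) (φ e) Z = (φ a * φ e - φ b * φ c) • ((x, 1) : Om × Om) :=
    Ph_adj _ _ _ _ _
  have h5 := prod_smul d hd (u.map φ) (w.map φ) n (φ a * φ e - φ b * φ c) ((x, 1) : Om × Om)
  rw [← hadj, hx', mul_zero] at h5
  have h6 := (mul_eq_zero.mp h5).resolve_left (pow_ne_zero 2 hdetφ)
  rw [h6] at htt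
  have h7 := (mul_eq_zero.mp htt.symm).resolve_left ht
  obtain ⟨t', ht', Y, hY⟩ := hrat n hn hnm Z hZ0 (Or.inr h7)
  have h8 : (φ a * φ e - φ b * φ c) • ((x, 1) : Om × Om) = t' • vh φ (Ph a b c e Y) := by
    rw [← hadj, hY, Ph_smul, Ph_hom]
  have h9 := congrArg Prod.fst h8
  have h10 := congrArg Prod.snd h8
  simp only [vh, Prod.smul_fst, Prod.smul_snd, smul_eq_mul, mul_one] at h9 h10
  have h11 : φ (Ph a b c e Y).2 ≠ 0 := by
    intro h
    rw [h, mul_zero] at h10
    exact hdetφ h10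
  refine ⟨(Ph a b c e Y).1 / (Ph a b c e Y).2, ?_⟩
  rw [map_div₀, div_eq_iff h11]
  apply mul_left_cancel₀ ht'
  rw [← h9, h10]
  ring

end

end Pool.Agent.E8helper88.Mul
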