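import Pool.Agent.E8helper88.Mul.Core1
import Pool.Agent.E8helper88.Mul.Glob1

/-!
# Multipliers and critical heights: the core theorem
-/

set_option linter.unusedSectionVars false
set_option linter.unusedVariables false

namespace Pool.Agent.E8helper88.Mul

open Polynomial Finset
open Pool.Agent.W277.UB Pool.Agent.W277.UG
open Pool.Agent.W277.UB.PlaceData
open Pool.Agent.W277.UH Pool.Agent.Y706.CH Pool.Agent.Y195.CH Pool.Agent.Y676.CH

universe u v w

section
variable {K : Type u} [Field K]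

lemma IsMulAt_unique (d : ℕ) (p q : K[X]) (n : ℕ) (l l' : K) (Z : K × K) (hZ : Z ≠ 0)
    (h : IsMulAt d p q n l Z) (h' : IsMulAt d p q n l' Z) : l = l' := by
  obtain ⟨μ, hμ, h1, h2⟩ := h
  obtain ⟨μ', hμ', h3, h4⟩ := h'
  have h5 : μ = μ' := by
    rw [h1] at h3
    by_contra hne
    apply hZ
    have h6 : (μ - μ') • Z = 0 := by rw [sub_smul, h3, sub_self]
    exact (smul_eq_zero.mp h6).resolve_left (sub_ne_zero.mpr hne)
  rw [← h5, ← h2] at h4
  exact (mul_right_cancel₀ (pow_ne_zero 2 hμ) h4).symm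

lemma finite_mul [CharZero K] (d : ℕ) (hd : 2 ≤ d) (p q : K[X])
    (hmax : max p.natDegree q.natDegree = d) (hco : IsCoprime p q) (n : ℕ) (hn : 1 ≤ n) :
    {l : K | IsMul d p q n l}.Finite := by
  have hT := finite_pts d hd p q hmax hco n 0 (by omega)
  refine Set.Finite.subset (hT.biUnion (t := fun z => {l : K | IsMulAt d p q n l (vec z)})
    fun z _ => ?_) ?_
  · apply Set.Subsingleton.finite
    intro l hl l' hl'
    exact IsMulAt_unique d p q n l l' (vec z) (vec_ne z) hl hl'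
  · rintro l ⟨Z, hZ, hm⟩
    obtain ⟨t, ht, hZt⟩ := exists_smul Z hZ
    have h1 : IsMulAt d p q n l (vec (pt Z)) := by
      have h2 := IsMulAt_smul d (by omega) p q n l Z t⁻¹ (inv_ne_zero ht) hm
      rw [hZt, smul_smul, inv_mul_cancel₀ ht, one_smul] at h2
      exact h2
    rw [Set.mem_iUnion₂]
    refine ⟨pt Z, ?_, h1⟩
    obtain ⟨μ, -, h3, -⟩ := h1
    show wd ((FH d p q)^[n] (vec (pt Z))) ((FH d p q)^[0] (vec (pt Z))) = 0
    rw [h3, Function.iterate_zero_apply, wd_smul_left', wd_self', mul_zero]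

end

section
variable {M : Type u} [Field M] {Om : Type u} [Field Om] [Algebra M Om]

/-- the multipliers over the algebraic closure are rational -/
lemma mul_rat [CharZero Om] [IsAlgClosed Om] (d m : ℕ) (hd : 2 ≤ d) (p q : M[X])
    (hmax : max p.natDegree q.natDegree = d) (hco : IsCoprime p q)
    (hrat : RatPts Om d m p q) (n : ℕ) (hn : 1 ≤ n) (hnm : n ≤ m) (lam : Om)
    (hl : IsMul d (p.map (algebraMap M Om)) (q.map (algebraMap M Om)) n lam) :
    ∃ l : M, algebraMap M Om l = lam ∧ IsMul d p q n l := by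
  set φ := algebraMap M Om with hφ
  have hinj : Function.Injective φ := φ.injective
  obtain ⟨Z, hZ, hm⟩ := hl
  have hfix : wd ((FH d (p.map φ) (q.map φ))^[n] Z) Z = 0 := by
    obtain ⟨μ, -, g1, -⟩ := hm
    rw [g1, wd_smul_left', wd_self', mul_zero]
  obtain ⟨t, ht, Y, hY⟩ := hrat n hn hnm Z hZ (Or.inl (fix_two d _ _ n Z Z hZ hfix hfix))
  have hY0 : Y ≠ 0 := vh_ne hZ hY
  have hm' := IsMulAt_smul d (by omega) _ _ n lam Z t⁻¹ (inv_ne_zero ht) hm
  rw [hY, smul_smul, inv_mul_cancel₀ ht, one_smul] at hm'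
  obtain ⟨μ, hμ, h1, h2⟩ := hm'
  rw [← hφ, FH_iter_hom] at h1
  have h3 : wd ((FH d p q)^[n] Y) Y = 0 := by
    apply hinj
    rw [← wd_hom, h1, wd_smul_left', wd_self', mul_zero, map_zero]
  obtain ⟨ν, hν⟩ := exists_smul_of_wd _ _ hY0 h3
  have hν0 : ν ≠ 0 := by
    rintro rfl
    rw [zero_smul] at hν
    exact FH_iter_nz d (by omega) p q hmax hco n Y hY0 hν
  have hvh0 : vh φ Y ≠ 0 := by
    intro h
    apply hY0
    have g1 : φ Y.1 = 0 := congrArg Prod.fst h
    have g2 : φ Y.2 = 0 := congrArg Prod.snd h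
    exact Prod.ext (hinj (g1.trans (map_zero φ).symm)) (hinj (g2.trans (map_zero φ).symm))
  have hμν : μ = φ ν := by
    have h4 : vh φ (ν • Y) = φ ν • vh φ Y := by
      unfold vh
      simp
    rw [hν, h4] at h1
    by_contra hne
    apply hvh0
    have h6 : (φ ν - μ) • vh φ Y = 0 := by rw [sub_smul, h1, sub_self]
    exact (smul_eq_zero.mp h6).resolve_left (sub_ne_zero.mpr (Ne.symm hne))
  have h5 : ∏ j ∈ range n, WH d (p.map φ) (q.map φ) ((FH d (p.map φ) (q.map φ))^[j] (vh φ Y)) =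
      φ (∏ j ∈ range n, WH d p q ((FH d p q)^[j] Y)) := by
    rw [map_prod]
    apply Finset.prod_congr rfl
    intro j _
    rw [FH_iter_hom, WH_hom]
  rw [← hφ, h5, hμν, ← map_pow] at h2
  refine ⟨(∏ j ∈ range n, WH d p q ((FH d p q)^[j] Y)) / ν ^ 2, ?_, Y, hY0, ν, hν0, hν, ?_⟩
  · rw [map_div₀, ← h2, mul_div_assoc, div_self ((map_ne_zero φ).mpr (pow_ne_zero 2 hν0)), mul_one]
  · rw [div_mul_cancel₀ _ (pow_ne_zero 2 hν0)]

/-- few isospectral classes, for a conjugate map -/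
lemma FewIso_conj [CharZero Om] (d m r : ℕ) (hd : 1 ≤ d) (p q u w : Om[X])
    (hmax : max p.natDegree q.natDegree = d) (hco : IsCoprime p q)
    (humax : max u.natDegree w.natDegree = d) (huw : IsCoprime u w)
    (h : CjF d p q u w) (hf : FewIso d m r p q) : FewIso d m r u w := by
  have hp : p.natDegree ≤ d := hmax ▸ le_max_left _ _
  have hq : q.natDegree ≤ d := hmax ▸ le_max_right _ _
  have hu : u.natDegree ≤ d := humax ▸ le_max_left _ _
  have hw : w.natDegree ≤ d := humax ▸ le_max_right _ _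
  intro U W hUW
  apply hf U W
  intro i
  refine ⟨(hUW i).1, (hUW i).2.1, fun n h1 h2 lam => ?_⟩
  rw [(hUW i).2.2 n h1 h2 lam]
  exact ⟨IsMul_conj d hd u w p q hu hw hp hq humax huw (CjF_symm _ _ _ _ _ h) n lam,
    IsMul_conj d hd p q u w hp hq hu hw hmax hco h n lam⟩

end

/-- **The core theorem.** -/
theorem core (d m r : ℕ) (hd : 2 ≤ d) : ∃ B : ℕ, 1 ≤ B ∧
    ∀ (k : Type v) (M Om : Type u) [Field k] [CharZero k] [Field M] [Algebra k M] [Field Om]
    [IsAlgClosed Om] [CharZero Om] [Algebra M Om] (Q : PlaceData.{w} k M) (p q : M[X]),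
    IsCoprime p q → max p.natDegree q.natDegree = d →
    FewIso d m r (p.map (algebraMap M Om)) (q.map (algebraMap M Om)) → RatPts Om d m p q →
    (∃ n, 1 ≤ n ∧ n ≤ m ∧ ∃ l : M, IsMul d p q n l ∧ 0 < ht Q l) →
    ∃ (u w : M[X]) (a b c e s : M), a * e - b * c ≠ 0 ∧ s ≠ 0 ∧
      (∀ Z, FH d u w (Ph a b c e Z) = s • Ph a b c e (FH d p q Z)) ∧
      IsCoprime u w ∧ max u.natDegree w.natDegree = d ∧ (wr u w).Splits ∧
      ∃ A : ℤ, 0 < A ∧ (∀ i, ht Q (u.coeff i) ≤ B * A ∧ ht Q (w.coeff i) ≤ B * A) ∧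
      (∃ i, ht Q (u.coeff i) ≠ 0 ∨ ht Q (w.coeff i) ≠ 0) ∧
      ∃ n, 1 ≤ n ∧ n ≤ m ∧ ∃ x : ℕ → M, (wr (itP d u w n).1 (itP d u w n).2).eval (x 0) = 0 ∧
        (∀ j, (itP d u w n).2.eval (x j) ≠ 0 ∧
          x (j + 1) * (itP d u w n).2.eval (x j) = (itP d u w n).1.eval (x j)) ∧
        ∀ j : ℕ, (j + 1) * A ≤ (2 * d ^ n : ℕ) * ht Q (x (j + 1)) := by
  classical
  choose Bf hBf using fun n : ℕ => (ultra.{u} d m r hd (2 * (n + 1)) (n + 1) (by omega))
  refine ⟨(∑ n ∈ range (m + 1), Bf n) + 1, by omega, ?_⟩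
  intro k M Om _ _ _ _ _ _ _ _ Q p q hco hmax hfew hrat hnc
  have cM : CharZero M := charZero_of_injective_algebraMap (algebraMap k M).injective
  have hinf : Infinite M := inferInstance
  -- the multiplier of largest height
  set S : Set (ℕ × M) := ⋃ n ∈ (Finset.Icc 1 m : Set ℕ), (fun l => (n, l)) '' {l | IsMul d p q n l}
    with hS
  have hSfin : S.Finite := by
    apply Set.Finite.biUnion (Finset.finite_toSet _)
    intro n hn
    rw [Finset.coe_Icc, Set.mem_Icc] at hn
    exact (finite_mul d hd p q hmax hco n hn.1).image _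
  have hSmem : ∀ n l, (n, l) ∈ S ↔ (1 ≤ n ∧ n ≤ m) ∧ IsMul d p q n l := by
    intro n l
    rw [hS, Set.mem_iUnion₂]
    constructor
    · rintro ⟨n', hn', l', hl', h⟩
      rw [Finset.coe_Icc, Set.mem_Icc] at hn'
      have e1 : n' = n := congrArg Prod.fst h
      have e2 : l' = l := congrArg Prod.snd h
      subst e1 e2
      exact ⟨hn', hl'⟩
    · rintro ⟨hn, hl⟩
      exact ⟨n, by rw [Finset.coe_Icc, Set.mem_Icc]; exact hn, l, hl, rfl⟩
  obtain ⟨n₁, hn₁, hn₁m, l₁, hl₁, hpos₁⟩ := hnc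
  obtain ⟨⟨n, l⟩, hnl, hmaxl⟩ := Set.exists_max_image S (fun x => ht Q x.2) hSfin
    ⟨(n₁, l₁), (hSmem _ _).mpr ⟨⟨hn₁, hn₁m⟩, hl₁⟩⟩
  obtain ⟨⟨hn, hnm⟩, hl⟩ := (hSmem _ _).mp hnl
  simp only at hmaxl
  set A := ht Q l with hA
  have hApos : 0 < A := lt_of_lt_of_le hpos₁ (hmaxl _ ((hSmem _ _).mpr ⟨⟨hn₁, hn₁m⟩, hl₁⟩))
  have hl0 : l ≠ 0 := by
    rintro rfl
    rw [hA, ht_zero] at hApos
    exact lt_irrefl _ hApos
  have hl1 : l ≠ 1 := by
    rintro rfl
    rw [hA, ht_one] at hApos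
    exact lt_irrefl _ hApos
  obtain ⟨al, be, ga, hal, hmul, g1, g2, g3, g4, g5⟩ :=
    triple d m hd p q hmax hco hrat n hn hnm l hl hl0 hl1
  obtain ⟨u, w, a, b, c, e, s, hdet, hs, hconj, huw, humax, hone, ⟨t1, ht1, hP1⟩, ⟨t2, ht2, hP2⟩,
    ⟨t3, ht3, hP3⟩⟩ := exists_norm d (by omega) p q hmax hco al be ga g1 g2 g3
  have hp : p.natDegree ≤ d := hmax ▸ le_max_left _ _
  have hq : q.natDegree ≤ d := hmax ▸ le_max_right _ _
  have hu : u.natDegree ≤ d := humax ▸ le_max_left _ _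
  have hw : w.natDegree ≤ d := humax ▸ le_max_right _ _
  have hbe : be ≠ 0 := by
    rintro rfl
    apply g1
    unfold wd
    simp
  have halfix : wd ((FH d p q)^[n] al) al = 0 := by
    obtain ⟨μ, -, g1, -⟩ := hmul
    rw [g1, wd_smul_left', wd_self', mul_zero]
  -- relations for the normalised map
  have r1 : wd ((FH d u w)^[2 * n] (0, 1)) ((FH d u w)^[n] (0, 1)) = 0 :=
    (wd_conj d p q u w a b c e s hdet hs hconj (2 * n) n al al _ _ t1 t1 ht1 ht1 hP1 hP1).mpr
      (fix_two d p q n al al hal halfix halfix)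
  have r2 : wd ((FH d u w)^[2 * n] (1, 0)) ((FH d u w)^[n] (1, 0)) = 0 :=
    (wd_conj d p q u w a b c e s hdet hs hconj (2 * n) n be be _ _ t2 t2 ht2 ht2 hP2 hP2).mpr
      (fix_two d p q n be be hbe g4 g4)
  have r3 : wd ((FH d u w)^[2 * n] (1, 1)) ((FH d u w)^[n] (1, 1)) = 0 :=
    (wd_conj d p q u w a b c e s hdet hs hconj (2 * n) n ga ga _ _ t3 t3 ht3 ht3 hP3 hP3).mpr
      (fix_two d p q n ga al hal g5 halfix)
  have r4 : wd ((FH d u w)^[n] (0, 1)) (0, 1) = 0 := by
    have := (wd_conj d p q u w a b c e s hdet hs hconj n 0 al al _ _ t1 t1 ht1 ht1 hP1 hP1).mpr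
      (by simpa using halfix)
    simpa using this
  have r5 : wd ((FH d u w)^[n] (1, 0)) (1, 0) = 0 := by
    have := (wd_conj d p q u w a b c e s hdet hs hconj n 0 be be _ _ t2 t2 ht2 ht2 hP2 hP2).mpr
      (by simpa using g4)
    simpa using this
  have r6 : wd ((FH d u w)^[n] (1, 1)) (0, 1) = 0 := by
    have := (wd_conj d p q u w a b c e s hdet hs hconj n 0 ga al _ _ t3 t1 ht3 ht1 hP3 hP1).mpr
      (by simpa using g5)
    simpa using this
  have r4' : ((FH d u w)^[n] (0, 1)).1 = 0 := by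
    unfold wd at r4
    simpa using r4
  have r5' : ((FH d u w)^[n] (1, 0)).2 = 0 := by
    unfold wd at r5
    simpa using r5
  have r6' : ((FH d u w)^[n] (1, 1)).1 = 0 := by
    unfold wd at r6
    simpa using r6
  have hmulat : IsMulAt d u w n l (0, 1) := by
    have h1 := IsMulAt_conj d (by omega) p q u w hp hq hu hw hmax hco a b c e s hdet hs hconj n l
      al hal hmul
    rw [hP1] at h1
    have h2 := IsMulAt_smul d (by omega) u w n l _ t1⁻¹ (inv_ne_zero ht1) h1
    rwa [smul_smul, inv_mul_cancel₀ ht1, one_smul] at h2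
  obtain ⟨m1, m2, m3⟩ := mul_at_zero d (by omega) u w humax huw n l hmulat
  obtain ⟨-, k2, k3, k4, -, -⟩ := norm_iter d (by omega) u w humax huw n r4' r5' r6'
  -- the bound of the coefficients
  set φ := algebraMap M Om with hφ
  have hpo : max (p.map φ).natDegree (q.map φ).natDegree = d := max_map φ p q d hmax
  have hcoo : IsCoprime (p.map φ) (q.map φ) := (Polynomial.isCoprime_map φ).mpr hco
  have huo : max (u.map φ).natDegree (w.map φ).natDegree = d := max_map φ u w d humax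
  have huwo : IsCoprime (u.map φ) (w.map φ) := (Polynomial.isCoprime_map φ).mpr huw
  have hdetφ : φ a * φ e - φ b * φ c ≠ 0 := by
    rw [← map_mul, ← map_mul, ← map_sub]
    exact (map_ne_zero φ).mpr hdet
  have hCj : CjF d (p.map φ) (q.map φ) (u.map φ) (w.map φ) :=
    ⟨φ a, φ b, φ c, φ e, φ s, hdetφ, (map_ne_zero φ).mpr hs,
      fun Z => CjF_hom φ d p q u w hp hq hu hw a b c e s hconj Z⟩
  have hfewu := FewIso_conj d m r (by omega) _ _ _ _ hpo hcoo huo huwo hCj hfew
  obtain ⟨n', rfl⟩ : ∃ n', n = n' + 1 := ⟨n - 1, by omega⟩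
  have hN : Nrm d (2 * (n' + 1)) (n' + 1) u w := ⟨hone, r1, r2, r3⟩
  have hbd := hBf n' M Om (fun x => (ht Q x : ℝ)) isHt u w huw humax
    (Nrm_hom φ d _ _ u w hN) hfewu (A : ℝ) (by exact_mod_cast hApos.le) (by
      intro n₂ h1 h2 lam hlam
      have h3 := IsMul_conj d (by omega) _ _ _ _ (natDegree_map_le.trans hu)
        (natDegree_map_le.trans hw) (natDegree_map_le.trans hp) (natDegree_map_le.trans hq)
        huo huwo (CjF_symm _ _ _ _ _ hCj) n₂ lam hlam
      obtain ⟨l', hl', hl''⟩ := mul_rat d m hd p q hmax hco hrat n₂ h1 h2 lam h3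
      refine ⟨l', hl', ?_⟩
      have h4 := hmaxl (n₂, l') ((hSmem _ _).mpr ⟨⟨h1, h2⟩, hl''⟩)
      exact_mod_cast h4)
  have hBle : Bf n' ≤ (∑ n ∈ range (m + 1), Bf n) + 1 :=
    (Finset.single_le_sum (f := fun n => Bf n) (fun _ _ => Nat.zero_le _)
      (Finset.mem_range.mpr (by omega))).trans (Nat.le_succ _)
  have hcoef : ∀ i, ht Q (u.coeff i) ≤ ((∑ n ∈ range (m + 1), Bf n) + 1 : ℕ) * A ∧
      ht Q (w.coeff i) ≤ ((∑ n ∈ range (m + 1), Bf n) + 1 : ℕ) * A := by
    intro i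
    obtain ⟨h1, h2⟩ := hbd i
    have h3 : ht Q (u.coeff i) ≤ Bf n' * A := by exact_mod_cast h1
    have h4 : ht Q (w.coeff i) ≤ Bf n' * A := by exact_mod_cast h2
    have h5 : (Bf n' : ℤ) * A ≤ ((∑ n ∈ range (m + 1), Bf n) + 1 : ℕ) * A :=
      mul_le_mul_of_nonneg_right (by exact_mod_cast hBle) hApos.le
    exact ⟨h3.trans h5, h4.trans h5⟩
  -- the critical point
  have hsp : (derivative (itP d u w (n' + 1)).1 * (itP d u w (n' + 1)).2 -
      (itP d u w (n' + 1)).1 * derivative (itP d u w (n' + 1)).2).Splits :=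
    wr_splits (Om := Om) d m (by omega) p q u w hmax hco humax hrat a b c e s hdet hs hconj
      (n' + 1) hn hnm
  have hsp1 : (wr u w).Splits := by
    have := wr_splits (Om := Om) d m (by omega) p q u w hmax hco humax hrat a b c e s hdet hs
      hconj 1 le_rfl (hn.trans hnm)
    rwa [itP_one d u w hu hw] at this
  have hcoit := itP_coprime d (by omega) u w humax huw (n' + 1)
  obtain ⟨cr, hcr, x, hx0, hx, hxx⟩ := global_crit (Q := Q) (itP d u w (n' + 1)).1
    (itP d u w (n' + 1)).2 hcoit (by rw [k3]; exact k4) m1 k2 l m3 hApos hsp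
  refine ⟨u, w, a, b, c, e, s, hdet, hs, hconj, huw, humax, hsp1, A, hApos, hcoef, ?_,
    n' + 1, hn, hnm, x, by rw [hx0]; exact hcr, hx, ?_⟩
  · -- some coefficient is not constant
    by_contra hcon
    push Not at hcon
    -- the subfield of elements of height zero
    let F : Subfield M :=
      { carrier := {x | ht Q x = 0}
        mul_mem' := by
          intro x y hx hy
          simp only [Set.mem_ofPred_eq] at hx hy ⊢
          have := ht_mul (Q := Q) x y
          have h0 := ht_nonneg (Q := Q) (x * y)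
          omega
        one_mem' := ht_one
        add_mem' := by
          intro x y hx hy
          simp only [Set.mem_ofPred_eq] at hx hy ⊢
          have := ht_add (Q := Q) x y
          have h0 := ht_nonneg (Q := Q) (x + y)
          omega
        zero_mem' := ht_zero
        neg_mem' := by
          intro x hx
          simp only [Set.mem_ofPred_eq] at hx ⊢
          have h1 := (isHt (Q := Q)).neg x
          have h2 : ht Q (-x) ≤ ht Q x := by exact_mod_cast h1
          have h0 := ht_nonneg (Q := Q) (-x)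
          omega
        inv_mem' := by
          intro x hx
          simp only [Set.mem_ofPred_eq] at hx ⊢
          rw [ht_inv]
          exact hx }
    have hFmem : ∀ y, y ∈ F ↔ ht Q y = 0 := fun y => Iff.rfl
    have hlift : ∀ f : M[X], (∀ i, ht Q (f.coeff i) = 0) → ∃ f' : F[X], f'.map F.subtype = f := by
      intro f hf
      have h1 : f ∈ Polynomial.lifts F.subtype := by
        rw [Polynomial.lifts_iff_coeff_lifts]
        intro i
        exact ⟨⟨f.coeff i, (hFmem _).mpr (hf i)⟩, rfl⟩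
      obtain ⟨f', hf'⟩ := h1
      exact ⟨f', hf'⟩
    obtain ⟨u', hu'⟩ := hlift u fun i => (hcon i).1
    obtain ⟨w', hw'⟩ := hlift w fun i => (hcon i).2
    have hmapit := itP_map F.subtype d u' w' (n' + 1)
    rw [hu', hw'] at hmapit
    have e0 : (0 : M) = F.subtype 0 := (map_zero _).symm
    have hev : ∀ f : F[X], (f.map F.subtype).eval 0 = F.subtype (f.eval 0) := by
      intro f
      rw [e0, eval_map, eval₂_at_apply]
    rw [hmapit] at m2 m3
    simp only [derivative_map, hev] at m2 m3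
    have h5 : l = F.subtype ((derivative (itP d u' w' (n' + 1)).1).eval 0 /
        (itP d u' w' (n' + 1)).2.eval 0) := by
      rw [map_div₀, eq_div_iff m2]
      exact m3
    have h6 : ht Q l = 0 := by
      rw [← hFmem, h5]
      exact ((derivative (itP d u' w' (n' + 1)).1).eval 0 /
        (itP d u' w' (n' + 1)).2.eval 0 : F).2
    omega
  · intro j
    have h1 := (hxx j).2
    rw [k3] at h1
    push_cast at h1 ⊢
    exact h1

end Pool.Agent.E8helper88.Mul
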