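import Pool.Agent.E8helper88.Mul.Core2

/-!
# Multipliers and critical heights: the core theorem, general form
-/

set_option linter.unusedSectionVars false
set_option linter.unusedVariables false

namespace Pool.Agent.E8helper88.Mul

open Polynomial Finset
open Pool.Agent.W277.UB Pool.Agent.W277.UG
open Pool.Agent.W277.UB.PlaceData
open Pool.Agent.W277.UH Pool.Agent.Y706.CH Pool.Agent.Y195.CH Pool.Agent.Y676.CH

universe u v w

/-- The core theorem, with the bound of the coefficients as a hypothesis. -/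
theorem coreG (d m B : ℕ) (hd : 2 ≤ d) (hB : 1 ≤ B) (k : Type v) (M Om : Type u) [Field k]
    [CharZero k] [Field M] [Algebra k M] [Field Om]
    [IsAlgClosed Om] [CharZero Om] [Algebra M Om] (Q : PlaceData.{w} k M) (p q : M[X])
    (hco : IsCoprime p q) (hmax : max p.natDegree q.natDegree = d) (hrat : RatPts Om d m p q)
    (n : ℕ) (hn : 1 ≤ n) (hnm : n ≤ m) (l : M) (hl : IsMul d p q n l) (A : ℤ) (hA : A = ht Q l)
    (hApos : 0 < A)
    (hbd : ∀ u w : M[X], IsCoprime u w → max u.natDegree w.natDegree = d →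
      CjF d (p.map (algebraMap M Om)) (q.map (algebraMap M Om)) (u.map (algebraMap M Om))
        (w.map (algebraMap M Om)) → Nrm d (2 * n) n u w →
      ∀ i, ht Q (u.coeff i) ≤ B * A ∧ ht Q (w.coeff i) ≤ B * A) :
    ∃ (u w : M[X]) (a b c e s : M), a * e - b * c ≠ 0 ∧ s ≠ 0 ∧
      (∀ Z, FH d u w (Ph a b c e Z) = s • Ph a b c e (FH d p q Z)) ∧
      IsCoprime u w ∧ max u.natDegree w.natDegree = d ∧ (wr u w).Splits ∧
      ∃ A : ℤ, 0 < A ∧ (∀ i, ht Q (u.coeff i) ≤ B * A ∧ ht Q (w.coeff i) ≤ B * A) ∧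
      (∃ i, ht Q (u.coeff i) ≠ 0 ∨ ht Q (w.coeff i) ≠ 0) ∧
      ∃ n, 1 ≤ n ∧ n ≤ m ∧ ∃ x : ℕ → M, (wr (itP d u w n).1 (itP d u w n).2).eval (x 0) = 0 ∧
        (∀ j, (itP d u w n).2.eval (x j) ≠ 0 ∧
          x (j + 1) * (itP d u w n).2.eval (x j) = (itP d u w n).1.eval (x j)) ∧
        ∀ j : ℕ, (j + 1) * A ≤ (2 * d ^ n : ℕ) * ht Q (x (j + 1)) := by
  classical
  have cM : CharZero M := charZero_of_injective_algebraMap (algebraMap k M).injective
  have hinf : Infinite M := inferInstance
  have hl0 : l ≠ 0 := by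
    rintro rfl
    rw [hA, ht_zero] at hApos
    exact lt_irrefl _ hApos
  have hl1 : l ≠ 1 := by
    rintro rfl
    rw [hA, ht_one] at hApos
    exact lt_irrefl _ hApos
  obtain ⟨al, be, ga, hal, hmul, g1, g2, g3, g4, g5⟩ :=
    triple d m hd p q hmax hco hrat n hn hnm l hl hl0 hl1
  obtain ⟨u, w, a, b, c, e, s, hdet, hs, hconj, huw, humax, hone, ⟨t1, ht1, hP1⟩, ⟨t2, ht2, hP2⟩,
    ⟨t3, ht3, hP3⟩⟩ := exists_norm d (by omega) p q hmax hco al be ga g1 g2 g3
  have hp : p.natDegree ≤ d := hmax ▸ le_max_left _ _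
  have hq : q.natDegree ≤ d := hmax ▸ le_max_right _ _
  have hu : u.natDegree ≤ d := humax ▸ le_max_left _ _
  have hw : w.natDegree ≤ d := humax ▸ le_max_right _ _
  have hbe : be ≠ 0 := by
    rintro rfl
    apply g1
    unfold wd
    simp
  have halfix : wd ((FH d p q)^[n] al) al = 0 := by
    obtain ⟨μ, -, g1, -⟩ := hmul
    rw [g1, wd_smul_left', wd_self', mul_zero]
  -- relations for the normalised map
  have r1 : wd ((FH d u w)^[2 * n] (0, 1)) ((FH d u w)^[n] (0, 1)) = 0 :=
    (wd_conj d p q u w a b c e s hdet hs hconj (2 * n) n al al _ _ t1 t1 ht1 ht1 hP1 hP1).mpr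
      (fix_two d p q n al al hal halfix halfix)
  have r2 : wd ((FH d u w)^[2 * n] (1, 0)) ((FH d u w)^[n] (1, 0)) = 0 :=
    (wd_conj d p q u w a b c e s hdet hs hconj (2 * n) n be be _ _ t2 t2 ht2 ht2 hP2 hP2).mpr
      (fix_two d p q n be be hbe g4 g4)
  have r3 : wd ((FH d u w)^[2 * n] (1, 1)) ((FH d u w)^[n] (1, 1)) = 0 :=
    (wd_conj d p q u w a b c e s hdet hs hconj (2 * n) n ga ga _ _ t3 t3 ht3 ht3 hP3 hP3).mpr
      (fix_two d p q n ga al hal g5 halfix)
  have r4 : wd ((FH d u w)^[n] (0, 1)) (0, 1) = 0 := by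
    have := (wd_conj d p q u w a b c e s hdet hs hconj n 0 al al _ _ t1 t1 ht1 ht1 hP1 hP1).mpr
      (by simpa using halfix)
    simpa using this
  have r5 : wd ((FH d u w)^[n] (1, 0)) (1, 0) = 0 := by
    have := (wd_conj d p q u w a b c e s hdet hs hconj n 0 be be _ _ t2 t2 ht2 ht2 hP2 hP2).mpr
      (by simpa using g4)
    simpa using this
  have r6 : wd ((FH d u w)^[n] (1, 1)) (0, 1) = 0 := by
    have := (wd_conj d p q u w a b c e s hdet hs hconj n 0 ga al _ _ t3 t1 ht3 ht1 hP3 hP1).mpr
      (by simpa using g5)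
    simpa using this
  have r4' : ((FH d u w)^[n] (0, 1)).1 = 0 := by
    unfold wd at r4
    simpa using r4
  have r5' : ((FH d u w)^[n] (1, 0)).2 = 0 := by
    unfold wd at r5
    simpa using r5
  have r6' : ((FH d u w)^[n] (1, 1)).1 = 0 := by
    unfold wd at r6
    simpa using r6
  have hmulat : IsMulAt d u w n l (0, 1) := by
    have h1 := IsMulAt_conj d (by omega) p q u w hp hq hu hw hmax hco a b c e s hdet hs hconj n l
      al hal hmul
    rw [hP1] at h1
    have h2 := IsMulAt_smul d (by omega) u w n l _ t1⁻¹ (inv_ne_zero ht1) h1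
    rwa [smul_smul, inv_mul_cancel₀ ht1, one_smul] at h2
  obtain ⟨m1, m2, m3⟩ := mul_at_zero d (by omega) u w humax huw n l hmulat
  obtain ⟨-, k2, k3, k4, -, -⟩ := norm_iter d (by omega) u w humax huw n r4' r5' r6'
  -- the bound of the coefficients
  set φ := algebraMap M Om with hφ
  have hpo : max (p.map φ).natDegree (q.map φ).natDegree = d := max_map φ p q d hmax
  have hcoo : IsCoprime (p.map φ) (q.map φ) := (Polynomial.isCoprime_map φ).mpr hco
  have huo : max (u.map φ).natDegree (w.map φ).natDegree = d := max_map φ u w d humax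
  have huwo : IsCoprime (u.map φ) (w.map φ) := (Polynomial.isCoprime_map φ).mpr huw
  have hdetφ : φ a * φ e - φ b * φ c ≠ 0 := by
    rw [← map_mul, ← map_mul, ← map_sub]
    exact (map_ne_zero φ).mpr hdet
  have hCj : CjF d (p.map φ) (q.map φ) (u.map φ) (w.map φ) :=
    ⟨φ a, φ b, φ c, φ e, φ s, hdetφ, (map_ne_zero φ).mpr hs,
      fun Z => CjF_hom φ d p q u w hp hq hu hw a b c e s hconj Z⟩
  obtain ⟨n', rfl⟩ : ∃ n', n = n' + 1 := ⟨n - 1, by omega⟩
  have hN : Nrm d (2 * (n' + 1)) (n' + 1) u w := ⟨hone, r1, r2, r3⟩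
  have hcoef := hbd u w huw humax hCj hN
  -- the critical point
  have hsp : (derivative (itP d u w (n' + 1)).1 * (itP d u w (n' + 1)).2 -
      (itP d u w (n' + 1)).1 * derivative (itP d u w (n' + 1)).2).Splits :=
    wr_splits (Om := Om) d m (by omega) p q u w hmax hco humax hrat a b c e s hdet hs hconj
      (n' + 1) hn hnm
  have hsp1 : (wr u w).Splits := by
    have := wr_splits (Om := Om) d m (by omega) p q u w hmax hco humax hrat a b c e s hdet hs
      hconj 1 le_rfl (hn.trans hnm)
    rwa [itP_one d u w hu hw] at this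
  have hcoit := itP_coprime d (by omega) u w humax huw (n' + 1)
  obtain ⟨cr, hcr, x, hx0, hx, hxx⟩ := global_crit (Q := Q) (itP d u w (n' + 1)).1
    (itP d u w (n' + 1)).2 hcoit (by rw [k3]; exact k4) m1 k2 l m3 (by rw [← hA]; exact hApos) hsp
  refine ⟨u, w, a, b, c, e, s, hdet, hs, hconj, huw, humax, hsp1, A, hApos, hcoef, ?_,
    n' + 1, hn, hnm, x, by rw [hx0]; exact hcr, hx, ?_⟩
  · -- some coefficient is not constant
    by_contra hcon
    push Not at hcon
    -- the subfield of elements of height zero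
    let F : Subfield M :=
      { carrier := {x | ht Q x = 0}
        mul_mem' := by
          intro x y hx hy
          simp only [Set.mem_ofPred_eq] at hx hy ⊢
          have := ht_mul (Q := Q) x y
          have h0 := ht_nonneg (Q := Q) (x * y)
          omega
        one_mem' := ht_one
        add_mem' := by
          intro x y hx hy
          simp only [Set.mem_ofPred_eq] at hx hy ⊢
          have := ht_add (Q := Q) x y
          have h0 := ht_nonneg (Q := Q) (x + y)
          omega
        zero_mem' := ht_zero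
        neg_mem' := by
          intro x hx
          simp only [Set.mem_ofPred_eq] at hx ⊢
          have h1 := (isHt (Q := Q)).neg x
          have h2 : ht Q (-x) ≤ ht Q x := by exact_mod_cast h1
          have h0 := ht_nonneg (Q := Q) (-x)
          omega
        inv_mem' := by
          intro x hx
          simp only [Set.mem_ofPred_eq] at hx ⊢
          rw [ht_inv]
          exact hx }
    have hFmem : ∀ y, y ∈ F ↔ ht Q y = 0 := fun y => Iff.rfl
    have hlift : ∀ f : M[X], (∀ i, ht Q (f.coeff i) = 0) → ∃ f' : F[X], f'.map F.subtype = f := by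
      intro f hf
      have h1 : f ∈ Polynomial.lifts F.subtype := by
        rw [Polynomial.lifts_iff_coeff_lifts]
        intro i
        exact ⟨⟨f.coeff i, (hFmem _).mpr (hf i)⟩, rfl⟩
      obtain ⟨f', hf'⟩ := h1
      exact ⟨f', hf'⟩
    obtain ⟨u', hu'⟩ := hlift u fun i => (hcon i).1
    obtain ⟨w', hw'⟩ := hlift w fun i => (hcon i).2
    have hmapit := itP_map F.subtype d u' w' (n' + 1)
    rw [hu', hw'] at hmapit
    have e0 : (0 : M) = F.subtype 0 := (map_zero _).symm
    have hev : ∀ f : F[X], (f.map F.subtype).eval 0 = F.subtype (f.eval 0) := by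
      intro f
      rw [e0, eval_map, eval₂_at_apply]
    rw [hmapit] at m2 m3
    simp only [derivative_map, hev] at m2 m3
    have h5 : l = F.subtype ((derivative (itP d u' w' (n' + 1)).1).eval 0 /
        (itP d u' w' (n' + 1)).2.eval 0) := by
      rw [map_div₀, eq_div_iff m2]
      exact m3
    have h6 : ht Q l = 0 := by
      rw [← hFmem, h5]
      exact ((derivative (itP d u' w' (n' + 1)).1).eval 0 /
        (itP d u' w' (n' + 1)).2.eval 0 : F).2
    omega
  · intro j
    have h1 := (hxx j).2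
    rw [k3, ← hA] at h1
    push_cast at h1 ⊢
    exact h1

end Pool.Agent.E8helper88.Mul
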