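import Pool.Agent.E8helper88.Mul.Norm
import Pool.Agent.E8helper71.UB1

/-!
# Multipliers and critical heights: maps with few isospectral classes are defined over the field
of the multipliers
-/

set_option linter.unusedSectionVars false
set_option linter.unusedVariables false

namespace Pool.Agent.E8helper88.Mul

open Polynomial Finset
open Pool.Agent.W277.UH Pool.Agent.Y706.CH Pool.Agent.Y195.CH Pool.Agent.Y676.CH

universe u v w

/-- few isospectral classes -/
def FewIso {K : Type*} [Field K] (d m r : ℕ) (u w : K[X]) : Prop :=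
  ∀ (U W : Fin (r + 1) → K[X]), (∀ i, IsCoprime (U i) (W i) ∧
    max (U i).natDegree (W i).natDegree = d ∧ ∀ n, 1 ≤ n → n ≤ m → ∀ lam,
      IsMul d (U i) (W i) n lam ↔ IsMul d u w n lam) →
  ∃ i j, i ≠ j ∧ CjF d (U i) (W i) (U j) (W j)

/-- normalised maps -/
def Nrm {K : Type*} [Field K] (d n₁ n₂ : ℕ) (u w : K[X]) : Prop :=
  (∃ i ≤ d, u.coeff i = 1 ∨ w.coeff i = 1) ∧
    wd ((FH d u w)^[n₁] (0, 1)) ((FH d u w)^[n₂] (0, 1)) = 0 ∧
    wd ((FH d u w)^[n₁] (1, 0)) ((FH d u w)^[n₂] (1, 0)) = 0 ∧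
    wd ((FH d u w)^[n₁] (1, 1)) ((FH d u w)^[n₂] (1, 1)) = 0

section
variable {K : Type u} [Field K]

lemma wd_hom {L : Type v} [Field L] (φ : K →+* L) (Z V : K × K) :
    wd (vh φ Z) (vh φ V) = φ (wd Z V) := by
  unfold wd vh
  simp

lemma prop_of_pt {Z V : K × K} (hZ : Z ≠ 0) (hV : V ≠ 0) (h : pt Z = pt V) :
    ∃ x : K, x ≠ 0 ∧ Z = x • V := by
  obtain ⟨t, ht, h1⟩ := exists_smul Z hZ
  obtain ⟨t', ht', h2⟩ := exists_smul V hV
  rw [h] at h1
  refine ⟨t * t'⁻¹, mul_ne_zero ht (inv_ne_zero ht'), ?_⟩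
  have h3 : (t * t'⁻¹) • V = (t * t'⁻¹) • (t' • vec (pt V)) := by rw [← h2]
  rw [h3, smul_smul, mul_assoc, inv_mul_cancel₀ ht', mul_one]
  exact h1

/-- Two conjugates of the same map by matrices which send the same points to `0, ∞, 1` are
proportional. -/
lemma same_triple [Infinite K] (d : ℕ) (u₀ w₀ u w u' w' : K[X]) (hu : u.natDegree ≤ d)
    (hw : w.natDegree ≤ d) (hu' : u'.natDegree ≤ d) (hw' : w'.natDegree ≤ d)
    (a b c e s a' b' c' e' s' : K) (hdet : a * e - b * c ≠ 0) (hs : s ≠ 0)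
    (hdet' : a' * e' - b' * c' ≠ 0) (hs' : s' ≠ 0)
    (h : ∀ Z, FH d u w (Ph a b c e Z) = s • Ph a b c e (FH d u₀ w₀ Z))
    (h' : ∀ Z, FH d u' w' (Ph a' b' c' e' Z) = s' • Ph a' b' c' e' (FH d u₀ w₀ Z))
    (h0 : pt (Ph e (-b) (-c) a (0, 1)) = pt (Ph e' (-b') (-c') a' (0, 1)))
    (h1 : pt (Ph e (-b) (-c) a (1, 0)) = pt (Ph e' (-b') (-c') a' (1, 0)))
    (h2 : pt (Ph e (-b) (-c) a (1, 1)) = pt (Ph e' (-b') (-c') a' (1, 1))) :
    ∃ κ : K, κ ≠ 0 ∧ u = C κ * u' ∧ w = C κ * w' := by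
  have hD : e * a - (-b) * (-c) ≠ 0 := by
    intro h
    apply hdet
    linear_combination h
  have hD' : e' * a' - (-b') * (-c') ≠ 0 := by
    intro h
    apply hdet'
    linear_combination h
  have n0 : ((0, 1) : K × K) ≠ 0 := fun h => one_ne_zero (congrArg Prod.snd h)
  have n1 : ((1, 0) : K × K) ≠ 0 := fun h => one_ne_zero (congrArg Prod.fst h)
  have n2 : ((1, 1) : K × K) ≠ 0 := fun h => one_ne_zero (congrArg Prod.fst h)
  obtain ⟨x0, hx0, g0⟩ := prop_of_pt (Ph_ne _ _ _ _ hD _ n0) (Ph_ne _ _ _ _ hD' _ n0) h0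
  obtain ⟨x1, hx1, g1⟩ := prop_of_pt (Ph_ne _ _ _ _ hD _ n1) (Ph_ne _ _ _ _ hD' _ n1) h1
  obtain ⟨x2, hx2, g2⟩ := prop_of_pt (Ph_ne _ _ _ _ hD _ n2) (Ph_ne _ _ _ _ hD' _ n2) h2
  have p0 := congrArg Prod.fst g0
  have q0 := congrArg Prod.snd g0
  have p1 := congrArg Prod.fst g1
  have q1 := congrArg Prod.snd g1
  have p2 := congrArg Prod.fst g2
  have q2 := congrArg Prod.snd g2
  simp only [Ph, Prod.smul_fst, Prod.smul_snd, smul_eq_mul, mul_zero, mul_one, zero_add,
    add_zero] at p0 q0 p1 q1 p2 q2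
  -- p0 : -b = x0 * -b', q0 : a = x0 * a', p1 : e = x1 * e', q1 : -c = x1 * -c'
  have r1 : (x2 - x1) * e' = (x2 - x0) * b' := by linear_combination p1 + p0 - p2
  have r2 : (x2 - x1) * c' = (x2 - x0) * a' := by linear_combination q2 - q1 - q0
  have r3 : (x2 - x0) * (a' * e' - b' * c') = 0 := by
    linear_combination (-e') * r2 + c' * r1
  have r4 : x2 = x0 := sub_eq_zero.mp ((mul_eq_zero.mp r3).resolve_right hdet')
  have r5 : x2 = x1 := by
    by_contra hne
    rw [r4, sub_self, zero_mul] at r1 r2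
    have hne' : x0 - x1 ≠ 0 := sub_ne_zero.mpr (r4 ▸ hne)
    have e1 := (mul_eq_zero.mp r1).resolve_left hne'
    have e2 := (mul_eq_zero.mp r2).resolve_left hne'
    apply hdet'
    rw [e1, e2]
    ring
  have hx10 : x1 = x0 := by rw [← r5, r4]
  have ea : a = x0 * a' := q0
  have eb : b = x0 * b' := by linear_combination -p0
  have ec : c = x0 * c' := by rw [hx10] at q1; linear_combination -q1
  have ee : e = x0 * e' := by rw [hx10] at p1; exact p1
  have hPh : ∀ Z, Ph a b c e Z = x0 • Ph a' b' c' e' Z := by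
    intro Z
    rw [ea, eb, ec, ee]
    unfold Ph
    refine Prod.ext ?_ ?_
    · simp only [Prod.smul_fst, smul_eq_mul]
      ring
    · simp only [Prod.smul_snd, smul_eq_mul]
      ring
  set κ : K := s * x0 * (x0 ^ d)⁻¹ * s'⁻¹ with hκ
  have hFF : ∀ Y, FH d u w Y = κ • FH d u' w' Y := by
    intro Y
    set D' := a' * e' - b' * c' with hD'def
    -- Y = Ph' Z
    obtain ⟨Z, hZ⟩ : ∃ Z, Ph a' b' c' e' Z = Y := by
      refine ⟨D'⁻¹ • Ph e' (-b') (-c') a' Y, ?_⟩
      rw [Ph_smul, Ph_adj, ← hD'def, smul_smul, inv_mul_cancel₀ hdet', one_smul]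
    have k1 := h Z
    rw [hPh, hPh, FH_smul, hZ, smul_smul] at k1
    have k2 := h' Z
    rw [hZ] at k2
    have k3 : FH d u w Y = (x0 ^ d)⁻¹ • (s * x0) • Ph a' b' c' e' (FH d u₀ w₀ Z) := by
      rw [← k1, smul_smul, inv_mul_cancel₀ (pow_ne_zero _ hx0), one_smul]
    rw [k3, k2, smul_smul, smul_smul, hκ]
    congr 1
    field_simp
  refine ⟨κ, ?_, ?_, ?_⟩
  · rw [hκ]
    exact mul_ne_zero (mul_ne_zero (mul_ne_zero hs hx0) (inv_ne_zero (pow_ne_zero _ hx0)))
      (inv_ne_zero hs')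
  · apply Polynomial.funext
    intro y
    have := congrArg Prod.fst (hFF (y, 1))
    simp only [FH, Prod.smul_fst, smul_eq_mul] at this
    rw [hev_one d u hu, hev_one d u' hu'] at this
    rw [eval_mul, eval_C, this]
  · apply Polynomial.funext
    intro y
    have := congrArg Prod.snd (hFF (y, 1))
    simp only [FH, Prod.smul_snd, smul_eq_mul] at this
    rw [hev_one d w hw, hev_one d w' hw'] at this
    rw [eval_mul, eval_C, this]

lemma Nrm_hom {L : Type v} [Field L] (φ : K →+* L) (d n₁ n₂ : ℕ) (u w : K[X])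
    (h : Nrm d n₁ n₂ u w) : Nrm d n₁ n₂ (u.map φ) (w.map φ) := by
  obtain ⟨⟨i, hi, h0⟩, h1, h2, h3⟩ := h
  have key : ∀ Z : K × K, wd ((FH d u w)^[n₁] Z) ((FH d u w)^[n₂] Z) = 0 →
      wd ((FH d (u.map φ) (w.map φ))^[n₁] (vh φ Z)) ((FH d (u.map φ) (w.map φ))^[n₂] (vh φ Z)) =
        0 := by
    intro Z hZ
    rw [FH_iter_hom, FH_iter_hom, wd_hom, hZ, map_zero]
  have e0 : vh φ (0, 1) = (0, 1) := by simp [vh]
  have e1 : vh φ (1, 0) = (1, 0) := by simp [vh]
  have e2 : vh φ (1, 1) = (1, 1) := by simp [vh]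
  refine ⟨⟨i, hi, ?_⟩, ?_, ?_, ?_⟩
  · rw [coeff_map, coeff_map]
    rcases h0 with h0 | h0
    · exact Or.inl (by rw [h0, map_one])
    · exact Or.inr (by rw [h0, map_one])
  · rw [← e0]
    exact key _ h1
  · rw [← e1]
    exact key _ h2
  · rw [← e2]
    exact key _ h3

/-- the preimages of the marked points have small orbits -/
lemma marked_mem (d : ℕ) (u₀ w₀ u w : K[X]) (n₁ n₂ : ℕ) (a b c e s : K)
    (hdet : a * e - b * c ≠ 0) (hs : s ≠ 0)
    (h : ∀ Z, FH d u w (Ph a b c e Z) = s • Ph a b c e (FH d u₀ w₀ Z)) (Y : K × K) (hY : Y ≠ 0)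
    (hYw : wd ((FH d u w)^[n₁] Y) ((FH d u w)^[n₂] Y) = 0) :
    wd ((FH d u₀ w₀)^[n₁] (vec (pt (Ph e (-b) (-c) a Y))))
      ((FH d u₀ w₀)^[n₂] (vec (pt (Ph e (-b) (-c) a Y)))) = 0 := by
  have hD : e * a - (-b) * (-c) ≠ 0 := by
    intro h
    apply hdet
    linear_combination h
  set al := Ph e (-b) (-c) a Y with hal
  have hal0 : al ≠ 0 := Ph_ne _ _ _ _ hD _ hY
  obtain ⟨t, ht0, ht1, ht2, ht3⟩ := FH_conj_iter d u₀ w₀ u w a b c e s hs h
  have h1 : wd ((FH d u₀ w₀)^[n₁] al) ((FH d u₀ w₀)^[n₂] al) = 0 := by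
    have h2 := ht3 n₁ al
    have h3 := ht3 n₂ al
    rw [hal, Ph_adj, FH_iter_smul, ← hal] at h2 h3
    have h4 : wd (t n₁ • Ph a b c e ((FH d u₀ w₀)^[n₁] al))
        (t n₂ • Ph a b c e ((FH d u₀ w₀)^[n₂] al)) = 0 := by
      rw [← h2, ← h3, wd_smul_left', wd_smul_right', hYw, mul_zero, mul_zero]
    rw [wd_smul_left', wd_smul_right', wd_Ph] at h4
    have h5 := (mul_eq_zero.mp h4).resolve_left (ht2 n₁)
    have h6 := (mul_eq_zero.mp h5).resolve_left (ht2 n₂)
    exact (mul_eq_zero.mp h6).resolve_left hdet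
  obtain ⟨x, hx, hx2⟩ := exists_smul al hal0
  rw [hx2, FH_iter_smul, FH_iter_smul, wd_smul_left', wd_smul_right'] at h1
  exact (mul_eq_zero.mp ((mul_eq_zero.mp h1).resolve_left (pow_ne_zero _ hx))).resolve_left
    (pow_ne_zero _ hx)

end

/-- **Descent.** A normalised map with few isospectral classes is defined over every relatively
algebraically closed field which contains its multipliers. -/
theorem descent {Om : Type u} [Field Om] [IsAlgClosed Om] [CharZero Om] (d m r : ℕ) (hd : 2 ≤ d)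
    (u w : Om[X]) (hco : IsCoprime u w) (hmax : max u.natDegree w.natDegree = d) (n₁ n₂ : ℕ)
    (hn : n₂ < n₁) (hN : Nrm d n₁ n₂ u w) (hfew : FewIso d m r u w) (F : Subfield Om)
    (hF : ∀ x : Om, IsAlgebraic F x → x ∈ F)
    (hmul : ∀ n, 1 ≤ n → n ≤ m → ∀ lam, IsMul d u w n lam → lam ∈ F) (i : ℕ) :
    u.coeff i ∈ F ∧ w.coeff i ∈ F := by
  classical
  by_contra hcon
  obtain ⟨x, hxF, hx⟩ : ∃ x, x ∉ F ∧ (u.coeff i = x ∨ w.coeff i = x) := by
    by_cases h1 : u.coeff i ∈ F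
    · by_cases h2 : w.coeff i ∈ F
      · exact absurd ⟨h1, h2⟩ hcon
      · exact ⟨_, h2, Or.inr rfl⟩
    · exact ⟨_, h1, Or.inl rfl⟩
  obtain ⟨σ, hσF, hσx⟩ := Pool.Agent.E8helper71.UB.exists_shift_aut Om F hF x hxF
  set τ : ℕ → Om ≃+* Om := fun l => σ ^ l with hτ
  have hτF : ∀ l, ∀ y ∈ F, τ l y = y := by
    intro l y hy
    induction l with
    | zero => simp [hτ]
    | succ l ih =>
      have : τ (l + 1) y = σ (τ l y) := by
        simp only [hτ]
        rw [pow_succ']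
        rfl
      rw [this, ih, hσF y hy]
  have hτx : ∀ l : ℕ, τ l x = x + l := by
    intro l
    induction l with
    | zero => simp [hτ]
    | succ l ih =>
      have : τ (l + 1) x = σ (τ l x) := by
        simp only [hτ]
        rw [pow_succ']
        rfl
      rw [this, ih, map_add, hσx, map_natCast]
      push_cast
      ring
  set U : ℕ → Om[X] := fun l => u.map (τ l : Om →+* Om) with hU
  set W : ℕ → Om[X] := fun l => w.map (τ l : Om →+* Om) with hW
  have hinf : Infinite Om := inferInstance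
  have hUmax : ∀ l, max (U l).natDegree (W l).natDegree = d := fun l => max_map _ u w d hmax
  have hUco : ∀ l, IsCoprime (U l) (W l) := fun l => (Polynomial.isCoprime_map _).mpr hco
  have hUd : ∀ l, (U l).natDegree ≤ d := fun l => (hUmax l) ▸ le_max_left _ _
  have hWd : ∀ l, (W l).natDegree ≤ d := fun l => (hUmax l) ▸ le_max_right _ _
  have hUN : ∀ l, Nrm d n₁ n₂ (U l) (W l) := fun l => Nrm_hom _ d n₁ n₂ u w hN
  have hiso : ∀ l n, 1 ≤ n → n ≤ m → ∀ lam, IsMul d (U l) (W l) n lam ↔ IsMul d u w n lam := by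
    intro l n h1 h2 lam
    constructor
    · intro h
      have h3 := IsMul_hom ((τ l).symm : Om →+* Om) (τ l).symm.injective d _ _ n lam h
      have e1 : (U l).map ((τ l).symm : Om →+* Om) = u := by
        simp only [hU]
        rw [Polynomial.map_map]
        ext j
        simp
      have e2 : (W l).map ((τ l).symm : Om →+* Om) = w := by
        simp only [hW]
        rw [Polynomial.map_map]
        ext j
        simp
      rw [e1, e2] at h3
      have h4 := hτF l _ (hmul n h1 h2 _ h3)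
      have h5 : ((τ l).symm : Om →+* Om) lam = lam := by
        have h6 : τ l ((τ l).symm lam) = lam := (τ l).apply_symm_apply lam
        have h7 : τ l ((τ l).symm lam) = (τ l).symm lam := h4
        exact h7.symm.trans h6
      rwa [h5] at h3
    · intro h
      have h3 := IsMul_hom (τ l : Om →+* Om) (τ l).injective d _ _ n lam h
      have h4 : (τ l : Om →+* Om) lam = lam := hτF l lam (hmul n h1 h2 lam h)
      rwa [h4] at h3
  -- the classes
  let S : Setoid ℕ :=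
    { r := fun l l' => CjF d (U l) (W l) (U l') (W l')
      iseqv := ⟨fun l => CjF_refl _ _ _, fun h => CjF_symm _ _ _ _ _ h,
        fun h h' => CjF_trans _ _ _ _ _ _ _ h h'⟩ }
  have hfin : Finite (Quotient S) := by
    by_contra hnf
    rw [not_finite_iff_infinite] at hnf
    obtain ⟨f⟩ : Nonempty (Fin (r + 1) ↪ Quotient S) := by
      refine ⟨(Fin.valEmbedding).trans (Infinite.natEmbedding (Quotient S))⟩
    choose g hg using fun i => Quotient.exists_rep (f i)
    obtain ⟨i, j, hij, hc⟩ := hfew (fun i => U (g i)) (fun i => W (g i))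
      (fun i => ⟨hUco _, hUmax _, hiso _⟩)
    apply hij
    apply f.injective
    rw [← hg i, ← hg j]
    exact Quotient.sound hc
  obtain ⟨y, hy⟩ := Finite.exists_infinite_fiber (fun l : ℕ => (Quotient.mk S l))
  obtain ⟨⟨l₀, hl₀⟩⟩ : Nonempty ((fun l : ℕ => (Quotient.mk S l)) ⁻¹' {y}) := inferInstance
  have hcj : ∀ l : ((fun l : ℕ => (Quotient.mk S l)) ⁻¹' {y}),
      CjF d (U l₀) (W l₀) (U l) (W l) := by
    intro l
    have h1 : Quotient.mk S l₀ = y := hl₀
    have h2 : Quotient.mk S (l : ℕ) = y := l.2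
    exact Quotient.exact (h1.trans h2.symm)
  choose a b c e s hdet hs hconj using hcj
  have n0 : ((0, 1) : Om × Om) ≠ 0 := fun h => one_ne_zero (congrArg Prod.snd h)
  have n1 : ((1, 0) : Om × Om) ≠ 0 := fun h => one_ne_zero (congrArg Prod.fst h)
  have n2 : ((1, 1) : Om × Om) ≠ 0 := fun h => one_ne_zero (congrArg Prod.fst h)
  have hT := finite_pts d hd (U l₀) (W l₀) (hUmax l₀) (hUco l₀) n₁ n₂ hn
  set T := {z : Option Om | wd ((FH d (U l₀) (W l₀))^[n₁] (vec z))
    ((FH d (U l₀) (W l₀))^[n₂] (vec z)) = 0} with hTdef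
  have hTf : Finite T := hT
  have hmem : ∀ (l : ((fun l : ℕ => (Quotient.mk S l)) ⁻¹' {y})) (Y : Om × Om), Y ≠ 0 → wd ((FH d (U l) (W l))^[n₁] Y)
      ((FH d (U l) (W l))^[n₂] Y) = 0 → pt (Ph (e l) (-(b l)) (-(c l)) (a l) Y) ∈ T := by
    intro l Y hY hYw
    exact marked_mem d (U l₀) (W l₀) (U l) (W l) n₁ n₂ (a l) (b l) (c l) (e l) (s l) (hdet l)
      (hs l) (hconj l) Y hY hYw
  obtain ⟨l, l', hne, heq⟩ := Finite.exists_ne_map_eq_of_infinite
    (fun l : ((fun l : ℕ => (Quotient.mk S l)) ⁻¹' {y}) =>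
      ((⟨_, hmem l (0, 1) n0 (hUN l).2.1⟩, ⟨_, hmem l (1, 0) n1 (hUN l).2.2.1⟩,
        ⟨_, hmem l (1, 1) n2 (hUN l).2.2.2⟩) : T × T × T))
  simp only [Prod.mk.injEq, Subtype.mk.injEq] at heq
  obtain ⟨κ, hκ, hκu, hκw⟩ := same_triple d (U l₀) (W l₀) (U l) (W l) (U l') (W l') (hUd l)
    (hWd l) (hUd l') (hWd l') (a l) (b l) (c l) (e l) (s l) (a l') (b l') (c l') (e l') (s l')
    (hdet l) (hs l) (hdet l') (hs l') (hconj l) (hconj l') heq.1 heq.2.1 heq.2.2
  have hκ1 : κ = 1 := by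
    obtain ⟨⟨i₀, -, h0⟩, -⟩ := hN
    rcases h0 with h0 | h0
    · have h1 := congrArg (fun f : Om[X] => f.coeff i₀) hκu
      simp only [hU, coeff_C_mul, coeff_map, h0, map_one, mul_one] at h1
      exact h1.symm
    · have h1 := congrArg (fun f : Om[X] => f.coeff i₀) hκw
      simp only [hW, coeff_C_mul, coeff_map, h0, map_one, mul_one] at h1
      exact h1.symm
  rw [hκ1, C_1, one_mul] at hκu hκw
  have hxx : τ l x = τ l' x := by
    rcases hx with h0 | h0
    · have h1 := congrArg (fun f : Om[X] => f.coeff i) hκu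
      simp only [hU, coeff_map, h0] at h1
      exact h1
    · have h1 := congrArg (fun f : Om[X] => f.coeff i) hκw
      simp only [hW, coeff_map, h0] at h1
      exact h1
  rw [hτx, hτx, add_right_inj] at hxx
  apply hne
  apply Subtype.ext
  exact_mod_cast hxx

end Pool.Agent.E8helper88.Mul
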