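import Mathlib
import Pool.Agent.Results.MP_9b502d_nt.LargeCriticalHeight
import Pool.Agent.E8helper88.Mul.Fin2

/-!
# Strong uniform boundedness for rational maps with few isospectral conjugacy classes
-/

namespace Pool.Agent.E8helper88.Mul.FewIso

open Polynomial

universe u v

/-- The self-map of the projective line `K ∪ {∞}`, where `none` is `∞`, given by the rational
function `p / q`, where `p` and `q` are coprime and `d` is the larger of their degrees: it sends
`x` to `p(x) / q(x)`, or to `∞` when `q(x) = 0`, and it sends `∞` to the quotient of the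
coefficients of degree `d`, or to `∞` when that of `q` is zero. -/
noncomputable def mapP1 {K : Type*} [Field K] (p q : K[X]) (d : ℕ) : Option K → Option K
  | some x => by classical exact if q.eval x = 0 then none else some (p.eval x / q.eval x)
  | none => by classical exact if q.coeff d = 0 then none else some (p.coeff d / q.coeff d)

/-- With `φ(x) = (a x + b) / (c x + e)`, the map `p / q` of degree `d` satisfies
`φ ∘ (p / q) = (u / w) ∘ φ` for some `a, b, c, e` in `K` with `a e ≠ b c` and some polynomials
`u, w` of degree at most `d`, not both zero, with coefficients algebraic over `k`; the equation is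
written with denominators cleared. -/
def IsotrivialOver (k : Type*) {K : Type*} [Field k] [Field K] [Algebra k K] (p q : K[X])
    (d : ℕ) : Prop :=
  ∃ a b c e : K, a * e - b * c ≠ 0 ∧ ∃ u w : K[X], (u ≠ 0 ∨ w ≠ 0) ∧
    u.natDegree ≤ d ∧ w.natDegree ≤ d ∧ (∀ n, IsAlgebraic k (u.coeff n)) ∧
    (∀ n, IsAlgebraic k (w.coeff n)) ∧
    (C a * p + C b * q) * ∑ i ∈ Finset.range (d + 1),
      C (w.coeff i) * (C a * X + C b) ^ i * (C c * X + C e) ^ (d - i) =
    (C c * p + C e * q) * ∑ i ∈ Finset.range (d + 1),
      C (u.coeff i) * (C a * X + C b) ^ i * (C c * X + C e) ^ (d - i)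

/-- The value at `(x, y)` of the form of degree `d` attached to a polynomial `p` of degree at most
`d`: the sum of the `pᵢ xⁱ y^(d - i)`. -/
def form {K : Type*} [Field K] (d : ℕ) (p : K[X]) (Z : K × K) : K :=
  ∑ i ∈ Finset.range (d + 1), p.coeff i * Z.1 ^ i * Z.2 ^ (d - i)

/-- The homogeneous lift `F` of the map `p / q` of degree `d`. -/
def lift {K : Type*} [Field K] (d : ℕ) (p q : K[X]) (Z : K × K) : K × K :=
  (form d p Z, form d q Z)

/-- `lam` is the multiplier of a point of the projective line over `K` fixed by the `n`-th iterate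
of the map `f = p / q` of degree `d`: for some nonzero vector `Z` and some `μ ≠ 0` we have
`Fⁿ(Z) = μ Z` and `lam μ²` is the product of the values at `Z, F(Z), …, Fⁿ⁻¹(Z)` of the form of
degree `2 d - 2` attached to `p' q - p q'`. (If the orbit of `z = Z.1 / Z.2` avoids `∞` then
`lam` is the product of the `f'(fʲ(z))` with `j < n`.) -/
def HasMultiplier {K : Type*} [Field K] (d : ℕ) (p q : K[X]) (n : ℕ) (lam : K) : Prop :=
  ∃ Z : K × K, Z ≠ 0 ∧ ∃ μ : K, μ ≠ 0 ∧ (lift d p q)^[n] Z = μ • Z ∧
    lam * μ ^ 2 = ∏ j ∈ Finset.range n,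
      form (2 * d - 2) (derivative p * q - p * derivative q) ((lift d p q)^[j] Z)

/-- The maps `p / q` and `u / w` of degree `d` are conjugate by the map
`(x : y) ↦ (a x + b y : c x + e y)` for some `a, b, c, e` in `K` with `a e ≠ b c`. -/
def Conjugate {K : Type*} [Field K] (d : ℕ) (p q u w : K[X]) : Prop :=
  ∃ a b c e s : K, a * e - b * c ≠ 0 ∧ s ≠ 0 ∧ ∀ Z : K × K,
    lift d u w (a * Z.1 + b * Z.2, c * Z.1 + e * Z.2) =
      s • (a * (lift d p q Z).1 + b * (lift d p q Z).2, c * (lift d p q Z).1 + e * (lift d p q Z).2)

/-- The rational maps of degree `d` over `K` which have, for `n = 1, …, m`, the same multipliers of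
fixed points of the `n`-th iterate as the map `p / q` form at most `r` conjugacy classes: among any
`r + 1` of them two are conjugate. -/
def FewIsospectral {K : Type*} [Field K] (d m r : ℕ) (p q : K[X]) : Prop :=
  ∀ (U W : Fin (r + 1) → K[X]), (∀ i, IsCoprime (U i) (W i) ∧
    max (U i).natDegree (W i).natDegree = d ∧ ∀ n, 1 ≤ n → n ≤ m → ∀ lam,
      HasMultiplier d (U i) (W i) n lam ↔ HasMultiplier d p q n lam) →
  ∃ i j, i ≠ j ∧ Conjugate d (U i) (W i) (U j) (W j)

open Pool.Agent.Results.MP_9b502d_nt.LargeCriticalHeight in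
lemma lch_iff (k : Type v) {L : Type u} [Field k] [Field L] [Algebra k L] (p q : L[X])
    (d B : ℕ) (h : Pool.Agent.Y706.CH7.LCH k p q d B) : HasLargeCriticalHeight k p q d B := by
  obtain ⟨M, i1, i2, i3, i4, i5, hfr, u, w, huw, humax, hcj, hsp, c, hc, hpos, hlim⟩ := h
  have e1 : ∀ z : Option M, height k z = Pool.Agent.Y706.CH7.height k z := by
    intro z
    cases z <;> rfl
  have e2 : LargeCriticalHeight.mapP1 u w d = Pool.Agent.W277.UH.ratP1 u w d := by
    funext z
    cases z <;> rfl
  have e3 : mapHeight k u w d = Pool.Agent.Y706.CH7.mapHeight k u w d := by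
    unfold mapHeight Pool.Agent.Y706.CH7.mapHeight
    simp only [e1]
  have e4 : canonicalHeight k u w d c = Pool.Agent.Y706.CH7.canHeight k u w d c := by
    unfold canonicalHeight Pool.Agent.Y706.CH7.canHeight
    simp only [e1, e2]
  refine ⟨M, i1, i2, i3, i4, i5, hfr, u, w, huw, humax, hcj, hsp, c, ?_, ?_, ?_⟩
  · cases c <;> exact hc
  · rw [e3]
    exact hpos
  · rw [e3, e4]
    exact hlim

/-- **Strong uniform boundedness for rational maps with few isospectral classes.** There is a
function `N` such that the following holds for all `n`, `m`, `r` and all `d ≥ 2`, every field `k`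
of characteristic zero, every `t` transcendental over `k` and every field `L` of degree at most `n`
over `k(t)`. Let `p / q` be a rational map of degree `d` over `L` which is not isotrivial (over the
algebraic closure of `L`). Suppose that the rational maps of degree `d` over the algebraic closure
of `L` with the same multipliers of the fixed points of the first `m` iterates as `p / q` form at
most `r` conjugacy classes. Then `p / q` has at most `N(n, d, m, r)` preperiodic points in the
projective line over `L`. -/
theorem result : ∃ N : ℕ → ℕ → ℕ → ℕ → ℕ, ∀ (k : Type v) (L : Type u) [Field k] [CharZero k]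
    [Field L] [Algebra k L] (t : L), Transcendental k t →
    FiniteDimensional (IntermediateField.adjoin k {t}) L →
    ∀ (n d m r : ℕ), Module.finrank (IntermediateField.adjoin k {t}) L ≤ n → 2 ≤ d →
    ∀ p q : L[X], IsCoprime p q → max p.natDegree q.natDegree = d →
    ¬ IsotrivialOver k (p.map (algebraMap L (AlgebraicClosure L)))
      (q.map (algebraMap L (AlgebraicClosure L))) d →
    FewIsospectral d m r (p.map (algebraMap L (AlgebraicClosure L)))
      (q.map (algebraMap L (AlgebraicClosure L))) →
    {z : Option L | (Set.range fun j : ℕ => (mapP1 p q d)^[j] z).Finite}.encard ≤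
      ((N n d m r : ℕ) : ℕ∞) := by
  obtain ⟨N₁, hN₁⟩ := Pool.Agent.Results.MP_9b502d_nt.LargeCriticalHeight.result.{u, v}
  have h1 : ∀ d m r : ℕ, ∃ Bf : ℕ → ℕ, 2 ≤ d → _ := fun d m r => by
    by_cases hd : 2 ≤ d
    · obtain ⟨Bf, hBf⟩ := Pool.Agent.E8helper88.Mul.lch.{u, v} d m r hd
      exact ⟨Bf, fun _ => hBf⟩
    · exact ⟨fun _ => 0, fun h => absurd h hd⟩
  choose Bf hBf using h1
  refine ⟨fun n d m r => N₁ n d (Bf d m r n), ?_⟩
  intro k L _ _ _ _ t ht hfd n d m r hn hd p q hco hmax hiso hfew
  have e : mapP1 p q d = LargeCriticalHeight.mapP1 p q d := by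
    funext z
    cases z <;> rfl
  have cL : CharZero L := charZero_of_injective_algebraMap (algebraMap k L).injective
  have cOm : CharZero (AlgebraicClosure L) :=
    charZero_of_injective_algebraMap (algebraMap L (AlgebraicClosure L)).injective
  have hfew' : Pool.Agent.E8helper88.Mul.FewIso d m r
      (p.map (algebraMap L (AlgebraicClosure L))) (q.map (algebraMap L (AlgebraicClosure L))) :=
    hfew
  rw [e]
  refine hN₁ k L t ht hfd n d _ hn hd p q hco hmax (Or.inl (lch_iff k p q d _
    (hBf d m r hd k L t ht hfd n hn p q hco hmax hfew' ?_)))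
  by_contra hcon
  push Not at hcon
  apply hiso
  have h2 := Pool.Agent.E8helper88.Mul.iso_of_mul (k := k) d m r hd
    (p.map (algebraMap L (AlgebraicClosure L))) (q.map (algebraMap L (AlgebraicClosure L)))
    (Pool.Agent.E8helper88.Mul.max_map _ p q d hmax) ((Polynomial.isCoprime_map _).mpr hco)
    hfew' (fun n' h1 h2 lam hlam => hcon n' h1 h2 lam hlam)
  exact h2

end Pool.Agent.E8helper88.Mul.FewIso
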