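import Pool.Agent.E8helper88.Mul.Iso

/-!
# Multipliers and critical heights: maps with constant multipliers are isotrivial
-/

set_option linter.unusedSectionVars false
set_option linter.unusedVariables false

namespace Pool.Agent.E8helper88.Mul

open Polynomial Finset
open Pool.Agent.W277.UH Pool.Agent.Y706.CH Pool.Agent.Y195.CH Pool.Agent.Y676.CH

universe u v w

section
variable {K : Type u} [Field K]

lemma conj_poly1 [Infinite K] (d : ℕ) (p q f : K[X]) (hp : p.natDegree ≤ d) (hq : q.natDegree ≤ d)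
    (a b c e s x y : K)
    (h : ∀ Z, hev d f (Ph a b c e Z) = s * (x * hev d p Z + y * hev d q Z)) :
    ∑ i ∈ Finset.range (d + 1), C (f.coeff i) * (C a * X + C b) ^ i * (C c * X + C e) ^ (d - i) =
      C s * (C x * p + C y * q) := by
  apply Polynomial.funext
  intro z
  have h2 := h (z, 1)
  rw [hev_one d p hp, hev_one d q hq] at h2
  simp only [eval_mul, eval_add, eval_C, eval_X, eval_finsetSum, eval_pow]
  rw [← h2]
  unfold hev Ph
  simp

lemma conj_poly [Infinite K] (d : ℕ) (p q u w : K[X]) (hp : p.natDegree ≤ d)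
    (hq : q.natDegree ≤ d) (a b c e s : K)
    (h : ∀ Z, FH d u w (Ph a b c e Z) = s • Ph a b c e (FH d p q Z)) :
    ∑ i ∈ Finset.range (d + 1), C (u.coeff i) * (C a * X + C b) ^ i * (C c * X + C e) ^ (d - i) =
        C s * (C a * p + C b * q) ∧
      ∑ i ∈ Finset.range (d + 1), C (w.coeff i) * (C a * X + C b) ^ i *
        (C c * X + C e) ^ (d - i) = C s * (C c * p + C e * q) :=
  ⟨conj_poly1 d p q u hp hq a b c e s a b fun Z => congrArg Prod.fst (h Z),
    conj_poly1 d p q w hp hq a b c e s c e fun Z => congrArg Prod.snd (h Z)⟩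

end

/-- A map with few isospectral classes and constant multipliers is isotrivial. -/
theorem iso_of_mul {k : Type v} {Om : Type u} [Field k] [Field Om] [Algebra k Om]
    [IsAlgClosed Om] [CharZero Om] (d m r : ℕ) (hd : 2 ≤ d) (p q : Om[X])
    (hmax : max p.natDegree q.natDegree = d) (hco : IsCoprime p q) (hfew : FewIso d m r p q)
    (hmul : ∀ n, 1 ≤ n → n ≤ m → ∀ lam, IsMul d p q n lam → IsAlgebraic k lam) :
    ∃ a b c e : Om, a * e - b * c ≠ 0 ∧ ∃ u w : Om[X], (u ≠ 0 ∨ w ≠ 0) ∧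
    u.natDegree ≤ d ∧ w.natDegree ≤ d ∧ (∀ n, IsAlgebraic k (u.coeff n)) ∧
    (∀ n, IsAlgebraic k (w.coeff n)) ∧
    (C a * p + C b * q) * ∑ i ∈ Finset.range (d + 1),
      C (w.coeff i) * (C a * X + C b) ^ i * (C c * X + C e) ^ (d - i) =
    (C c * p + C e * q) * ∑ i ∈ Finset.range (d + 1),
      C (u.coeff i) * (C a * X + C b) ^ i * (C c * X + C e) ^ (d - i) := by
  have hinf : Infinite Om := inferInstance
  have hp : p.natDegree ≤ d := hmax ▸ le_max_left _ _
  have hq : q.natDegree ≤ d := hmax ▸ le_max_right _ _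
  obtain ⟨al, be, ga, g1, g2, g3, g4, g5, g6⟩ := marked3 d hd p q hmax hco
  obtain ⟨u, w, a, b, c, e, s, hdet, hs, hconj, huw, humax, hone, ⟨t1, ht1, hP1⟩, ⟨t2, ht2, hP2⟩,
    ⟨t3, ht3, hP3⟩⟩ := exists_norm d (by omega) p q hmax hco al be ga g1 g2 g3
  have hu : u.natDegree ≤ d := humax ▸ le_max_left _ _
  have hw : w.natDegree ≤ d := humax ▸ le_max_right _ _
  have hN : Nrm d 3 2 u w := by
    refine ⟨hone, ?_, ?_, ?_⟩
    · exact (wd_conj d p q u w a b c e s hdet hs hconj 3 2 al al _ _ t1 t1 ht1 ht1 hP1 hP1).mpr g4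
    · exact (wd_conj d p q u w a b c e s hdet hs hconj 3 2 be be _ _ t2 t2 ht2 ht2 hP2 hP2).mpr g5
    · exact (wd_conj d p q u w a b c e s hdet hs hconj 3 2 ga ga _ _ t3 t3 ht3 ht3 hP3 hP3).mpr g6
  have hCj : CjF d p q u w := ⟨a, b, c, e, s, hdet, hs, hconj⟩
  have hfewu : FewIso d m r u w := by
    intro U W hUW
    apply hfew U W
    intro i
    refine ⟨(hUW i).1, (hUW i).2.1, fun n h1 h2 lam => ?_⟩
    rw [(hUW i).2.2 n h1 h2 lam]
    exact ⟨IsMul_conj d (by omega) u w p q hu hw hp hq humax huw (CjF_symm _ _ _ _ _ hCj) n lam,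
      IsMul_conj d (by omega) p q u w hp hq hu hw hmax hco hCj n lam⟩
  set F : Subfield Om := (algebraicClosure k Om).toSubfield with hF
  have hFmem : ∀ x : Om, x ∈ F ↔ IsAlgebraic k x := by
    intro x
    rw [hF]
    exact mem_algebraicClosure_iff
  have hFcl : ∀ x : Om, IsAlgebraic F x → x ∈ F := by
    intro x hx
    rw [hFmem]
    have hx' : IsAlgebraic (algebraicClosure k Om) x := hx
    exact hx'.restrictScalars k
  have hmulF : ∀ n, 1 ≤ n → n ≤ m → ∀ lam, IsMul d u w n lam → lam ∈ F := by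
    intro n h1 h2 lam hlam
    rw [hFmem]
    exact hmul n h1 h2 lam (IsMul_conj d (by omega) u w p q hu hw hp hq humax huw
      (CjF_symm _ _ _ _ _ hCj) n lam hlam)
  have hdesc := descent d m r hd u w huw humax 3 2 (by omega) hN hfewu F hFcl hmulF
  refine ⟨a, b, c, e, hdet, u, w, ?_, hu, hw, fun n => (hFmem _).mp (hdesc n).1,
    fun n => (hFmem _).mp (hdesc n).2, ?_⟩
  · by_contra hcon
    push Not at hcon
    rw [hcon.1, hcon.2] at huw
    exact not_isCoprime_zero_zero huw
  · obtain ⟨h1, h2⟩ := conj_poly d p q u w hp hq a b c e s hconj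
    rw [h1, h2]
    ring

end Pool.Agent.E8helper88.Mul
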