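import Pool.Agent.E8helper88.Mul.Core1
import Pool.Agent.Y555.CH.Ext

/-!
# Multipliers and critical heights: the field of the marked points
-/

set_option linter.unusedSectionVars false
set_option linter.unusedVariables false

namespace Pool.Agent.E8helper88.Mul

open Polynomial Finset
open Pool.Agent.W277.UH Pool.Agent.Y706.CH Pool.Agent.Y195.CH Pool.Agent.Y676.CH

universe u v w

section
variable {K : Type u} [Field K]

lemma wr_zero [CharZero K] (p q : K[X]) (hco : IsCoprime p q) (h : wr p q = 0) :
    p.natDegree = 0 ∧ q.natDegree = 0 := by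
  unfold wr at h
  have h1 : derivative p * q = p * derivative q := sub_eq_zero.mp h
  have aux : ∀ p q : K[X], IsCoprime p q → p ∣ derivative p * q → p.natDegree = 0 := by
    intro p q hco hd
    have h2 : p ∣ derivative p := hco.dvd_of_dvd_mul_right hd
    by_contra hne
    have h3 : derivative p ≠ 0 := by
      intro h3
      exact hne (derivative_eq_zero.mp h3)
    have h4 := natDegree_le_of_dvd h2 h3
    have h5 := natDegree_derivative_lt hne
    omega
  refine ⟨aux p q hco ⟨derivative q, h1⟩, aux q p hco.symm ⟨derivative p, ?_⟩⟩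
  rw [mul_comm, ← h1, mul_comm]

lemma itP_max (d : ℕ) (hd : 1 ≤ d) (p q : K[X]) (hmax : max p.natDegree q.natDegree = d)
    (hco : IsCoprime p q) (n : ℕ) :
    max (itP d p q n).1.natDegree (itP d p q n).2.natDegree = d ^ n := by
  have hdeg := itP_deg d p q n
  have htop := itP_top d p q n
  have hnz := FH_iter_nz d hd p q hmax hco n (1, 0) (fun h => one_ne_zero (congrArg Prod.fst h))
  rw [← htop] at hnz
  apply le_antisymm (max_le hdeg.1 hdeg.2)
  by_contra hcon
  push Not at hcon
  rw [max_lt_iff] at hcon
  apply hnz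
  exact Prod.ext (coeff_eq_zero_of_natDegree_lt hcon.1) (coeff_eq_zero_of_natDegree_lt hcon.2)

/-- the polynomial of the marked points -/
noncomputable def WP (d m : ℕ) (p q : K[X]) : K[X] :=
  ∏ n ∈ Finset.Icc 1 m, (((itP d p q (2 * n)).1 * (itP d p q n).2 -
    (itP d p q (2 * n)).2 * (itP d p q n).1) * wr (itP d p q n).1 (itP d p q n).2)

lemma WP_ne [CharZero K] (d : ℕ) (hd : 2 ≤ d) (m : ℕ) (p q : K[X])
    (hmax : max p.natDegree q.natDegree = d) (hco : IsCoprime p q) : WP d m p q ≠ 0 := by
  have hinf : Infinite K := inferInstance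
  unfold WP
  rw [Finset.prod_ne_zero_iff]
  intro n hn
  rw [Finset.mem_Icc] at hn
  apply mul_ne_zero
  · intro h0
    have hfin := finite_pts d hd p q hmax hco (2 * n) n (by omega)
    have hsub : Set.range (some : K → Option K) ⊆
        {z | wd ((FH d p q)^[2 * n] (vec z)) ((FH d p q)^[n] (vec z)) = 0} := by
      rintro _ ⟨x, rfl⟩
      show wd ((FH d p q)^[2 * n] (x, 1)) ((FH d p q)^[n] (x, 1)) = 0
      rw [← itP_eval, ← itP_eval]
      unfold wd
      simp only
      rw [← eval_mul, ← eval_mul, ← eval_sub, h0, eval_zero]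
    exact (Set.infinite_range_of_injective (Option.some_injective K)) (hfin.subset hsub)
  · intro h0
    obtain ⟨h1, h2⟩ := wr_zero _ _ (itP_coprime d (by omega) p q hmax hco n) h0
    have h3 := itP_max d (by omega) p q hmax hco n
    rw [h1, h2] at h3
    have h4 : 0 < d ^ n := pow_pos (by omega) n
    simp at h3
    omega

/-- the bound of the degree -/
def wpd (d m : ℕ) : ℕ := ∑ n ∈ Finset.Icc 1 m, (d ^ (2 * n) + d ^ n + (d ^ n + d ^ n))

lemma WP_deg (d m : ℕ) (p q : K[X]) : (WP d m p q).natDegree ≤ wpd d m := by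
  unfold WP wpd
  refine (natDegree_prod_le _ _).trans (Finset.sum_le_sum fun n _ => ?_)
  have h1 := itP_deg d p q n
  have h2 := itP_deg d p q (2 * n)
  refine natDegree_mul_le.trans (add_le_add ?_ ?_)
  · refine (natDegree_sub_le _ _).trans (max_le ?_ ?_)
    · exact natDegree_mul_le.trans (add_le_add h2.1 h1.2)
    · exact natDegree_mul_le.trans (add_le_add h2.2 h1.1)
  · unfold wr
    refine (natDegree_sub_le _ _).trans (max_le ?_ ?_)
    · exact natDegree_mul_le.trans (add_le_add
        ((natDegree_derivative_le _).trans ((Nat.sub_le _ _).trans h1.1)) h1.2)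
    · exact natDegree_mul_le.trans (add_le_add h1.1
        ((natDegree_derivative_le _).trans ((Nat.sub_le _ _).trans h1.2)))

end

/-- The vectors proportional to a vector with coordinates in `M`. -/
lemma rat_of_root {L : Type u} [Field L] {Om : Type v} [Field Om] [Algebra L Om]
    (M : IntermediateField L Om) (Z : Om × Om) (hZ : Z ≠ 0)
    (h : ∀ x t : Om, t ≠ 0 → Z = t • ((x, 1) : Om × Om) → x ∈ M) :
    ∃ t : Om, t ≠ 0 ∧ ∃ Y : M × M, Z = t • vh (algebraMap M Om) Y := by
  obtain ⟨t, ht, hZt⟩ := exists_smul Z hZ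
  refine ⟨t, ht, ?_⟩
  cases hz : pt Z with
  | none =>
    rw [hz] at hZt
    refine ⟨(1, 0), ?_⟩
    have h3 : vh (algebraMap M Om) (1, 0) = ((1, 0) : Om × Om) :=
      Prod.ext (map_one _) (map_zero _)
    rw [h3]
    exact hZt
  | some x =>
    rw [hz] at hZt
    have hZt' : Z = t • ((x, 1) : Om × Om) := hZt
    have hx : x ∈ M := h x t ht hZt'
    refine ⟨(⟨x, hx⟩, 1), ?_⟩
    rw [hZt']
    have h3 : vh (algebraMap M Om) (⟨x, hx⟩, 1) = ((x, 1) : Om × Om) :=
      Prod.ext rfl (map_one _)
    rw [h3]

/-- **The field of the marked points.** -/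
theorem exists_M' (d m : ℕ) (hd : 2 ≤ d) (L : Type u) [Field L] [CharZero L] (Om : Type v)
    [Field Om] [Algebra L Om] (p q : L[X])
    (hmax : max p.natDegree q.natDegree = d) (hco : IsCoprime p q) :
    ∃ M : IntermediateField L Om, FiniteDimensional L M ∧
      Module.finrank L M ≤ (wpd d m + 1) ^ wpd d m ∧
      RatPts Om d m (p.map (algebraMap L M)) (q.map (algebraMap L M)) := by
  set W := WP d m p q with hW
  have hW0 : W ≠ 0 := WP_ne d hd m p q hmax hco
  obtain ⟨hfd, hfr⟩ := Pool.Agent.Y555.CH.t_DEG L Om W (wpd d m) hW0 (WP_deg d m p q)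
  refine ⟨IntermediateField.adjoin L (W.rootSet Om), hfd, hfr, ?_⟩
  set M := IntermediateField.adjoin L (W.rootSet Om) with hM
  have cOm : CharZero Om := charZero_of_injective_algebraMap (algebraMap L Om).injective
  intro n hn hnm Z hZ hprop
  have emap : ∀ f : L[X], (f.map (algebraMap L M)).map (algebraMap M Om) =
      f.map (algebraMap L Om) := by
    intro f
    rw [Polynomial.map_map, ← IsScalarTower.algebraMap_eq]
  rw [emap, emap] at hprop
  apply rat_of_root M Z hZ
  intro x t ht hZt'
  have hroot : aeval x W = 0 := by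
    rw [hW]
    unfold WP
    rw [map_prod]
    apply Finset.prod_eq_zero (Finset.mem_Icc.mpr ⟨hn, hnm⟩)
    rw [map_mul, mul_eq_zero]
    have e1 := itP_map (algebraMap L Om) d p q n
    have e2 := itP_map (algebraMap L Om) d p q (2 * n)
    rcases hprop with h | h
    · left
      rw [hZt', FH_iter_smul, FH_iter_smul, wd_smul_left', wd_smul_right'] at h
      have h2 := (mul_eq_zero.mp ((mul_eq_zero.mp h).resolve_left
        (pow_ne_zero _ ht))).resolve_left (pow_ne_zero _ ht)
      rw [← itP_eval, ← itP_eval, e1, e2] at h2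
      unfold wd at h2
      simp only at h2
      rw [map_sub, map_mul, map_mul]
      simp only [← eval_map_algebraMap]
      exact h2
    · right
      have h1 := prod_smul d (by omega) (p.map (algebraMap L Om)) (q.map (algebraMap L Om)) n t
        ((x, 1) : Om × Om)
      rw [← hZt', h, mul_zero] at h1
      have h2 := (mul_eq_zero.mp h1.symm).resolve_left (pow_ne_zero _ ht)
      have hp : (p.map (algebraMap L Om)).natDegree ≤ d :=
        natDegree_map_le.trans (hmax ▸ le_max_left _ _)
      have hq : (q.map (algebraMap L Om)).natDegree ≤ d :=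
        natDegree_map_le.trans (hmax ▸ le_max_right _ _)
      rw [← itP_wr d (by omega) _ _ hp hq, e1, wr_map] at h2
      rw [← eval_map_algebraMap]
      exact h2
  apply IntermediateField.subset_adjoin
  rw [mem_rootSet]
  exact ⟨hW0, hroot⟩

theorem exists_M (d m : ℕ) (hd : 2 ≤ d) (L : Type u) [Field L] [CharZero L] (p q : L[X])
    (hmax : max p.natDegree q.natDegree = d) (hco : IsCoprime p q) :
    ∃ M : IntermediateField L (AlgebraicClosure L), FiniteDimensional L M ∧
      Module.finrank L M ≤ (wpd d m + 1) ^ wpd d m ∧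
      RatPts (AlgebraicClosure L) d m (p.map (algebraMap L M)) (q.map (algebraMap L M)) :=
  exists_M' d m hd L (AlgebraicClosure L) p q hmax hco

end Pool.Agent.E8helper88.Mul
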