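import Pool.Agent.E8helper88.Mul.Core2
import Pool.Agent.E8helper88.Mul.MF
import Pool.Agent.E8helper88.Mul.Iso2
import Pool.Agent.Y706.CH.FinM
import Pool.Agent.Y706.CH.Stm7

/-!
# Multipliers and critical heights: maps with few isospectral classes have large critical height
-/

set_option linter.unusedSectionVars false
set_option linter.unusedVariables false

namespace Pool.Agent.E8helper88.Mul

open Polynomial Finset
open Pool.Agent.W277.UB Pool.Agent.W277.UG
open Pool.Agent.W277.UB.PlaceData
open Pool.Agent.W277.UH Pool.Agent.Y706.CH Pool.Agent.Y195.CH Pool.Agent.Y676.CH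

universe u v w

lemma le_limsup' (x : ℕ → ℕ) (d B a N₀ : ℕ) (hd : 1 ≤ d)
    (h : ∀ N, N₀ ≤ N → d ^ N * a ≤ B * x N) :
    (a : ENNReal) ≤ B * Filter.limsup (fun m => (x m : ENNReal) / (d : ENNReal) ^ m)
      Filter.atTop := by
  rw [← ENNReal.limsup_const_mul_of_ne_top (ENNReal.natCast_ne_top B)]
  have h1 : (a : ENNReal) = Filter.limsup (fun _ : ℕ => (a : ENNReal)) Filter.atTop :=
    Filter.limsup_const _ |>.symm
  rw [h1]
  apply Filter.limsup_le_limsup
  · filter_upwards [Filter.eventually_ge_atTop N₀] with m hm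
    have h2 := h m hm
    have hd0 : (d : ENNReal) ^ m ≠ 0 := by
      have : (d : ENNReal) ≠ 0 := by exact_mod_cast (by omega : d ≠ 0)
      exact pow_ne_zero _ this
    have hdt : (d : ENNReal) ^ m ≠ ⊤ := by finiteness
    rw [← mul_div_assoc, ENNReal.le_div_iff_mul_le (Or.inl hd0) (Or.inl hdt)]
    have h3 : a * d ^ m ≤ B * x m := by
      rw [mul_comm]
      exact h2
    exact_mod_cast h3
  · isBoundedDefault
  · isBoundedDefault

section
variable {K : Type u} [Field K]

/-- the orbit of a point under an iterate -/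
lemma orbit_pt [CharZero K] (d : ℕ) (hd : 1 ≤ d) (u w : K[X])
    (hmax : max u.natDegree w.natDegree = d) (hco : IsCoprime u w) (n : ℕ) (x : ℕ → K)
    (hx : ∀ j, (itP d u w n).2.eval (x j) ≠ 0 ∧
      x (j + 1) * (itP d u w n).2.eval (x j) = (itP d u w n).1.eval (x j)) (j : ℕ) :
    (ratP1 u w d)^[n * j] (some (x 0)) = some (x j) := by
  induction j with
  | zero => rfl
  | succ j ih =>
    rw [Nat.mul_succ, add_comm, Function.iterate_add_apply, ih]
    have h1 := (iter_pt t_PT d hd u w hmax hco (x j, 1)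
      (fun h => one_ne_zero (congrArg Prod.snd h)) n).2
    have h2 : pt ((x j, 1) : K × K) = some (x j) := pt_vec (some (x j))
    rw [h2] at h1
    rw [h1]
    have h3 : (bK d u w)^[n] (x j, 1) = (itP d u w n).2.eval (x j) • ((x (j + 1), 1) : K × K) := by
      have h4 := itP_eval d u w n (x j)
      rw [FH_eq] at h4
      rw [← h4]
      refine Prod.ext ?_ ?_
      · show (itP d u w n).1.eval (x j) = (itP d u w n).2.eval (x j) * x (j + 1)
        rw [← (hx j).2, mul_comm]
      · show (itP d u w n).2.eval (x j) = (itP d u w n).2.eval (x j) * 1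
        rw [mul_one]
    rw [h3, pt_smul _ (hx j).1]
    exact pt_vec (some (x (j + 1)))

/-- a zero of the homogeneous Wronskian is a critical point -/
lemma crit_pt [CharZero K] (d : ℕ) (hd : 1 ≤ d) (u w : K[X])
    (hmax : max u.natDegree w.natDegree = d) (Z : K × K) (hZ : Z ≠ 0) (h : WH d u w Z = 0) :
    Pool.Agent.Y706.CH7.IsCritical u w d (pt Z) := by
  have hu : u.natDegree ≤ d := hmax ▸ le_max_left _ _
  have hw : w.natDegree ≤ d := hmax ▸ le_max_right _ _
  obtain ⟨t, ht, hZt⟩ := exists_smul Z hZ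
  rw [hZt, WH_smul] at h
  have h1 := (mul_eq_zero.mp h).resolve_left (pow_ne_zero _ ht)
  cases hz : pt Z with
  | none =>
    rw [hz] at h1
    have h2 : WH d u w (1, 0) = (wr u w).coeff (2 * d - 2) * 1 ^ (2 * d - 2) := hev_zero _ _ _
    have h3 : WH d u w (1, 0) = 0 := h1
    rw [h2, one_pow, mul_one] at h3
    exact h3
  | some x =>
    rw [hz] at h1
    have h2 := itP_wr d hd u w hu hw 1 x
    rw [itP_one d u w hu hw] at h2
    simp only [Finset.range_one, Finset.prod_singleton, Function.iterate_zero_apply] at h2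
    have h3 : WH d u w (x, 1) = 0 := h1
    rw [h3] at h2
    exact h2

lemma crit_pt_iter [CharZero K] (d : ℕ) (hd : 1 ≤ d) (u w : K[X])
    (hmax : max u.natDegree w.natDegree = d) (hco : IsCoprime u w) (n : ℕ) (x : K)
    (h : (wr (itP d u w n).1 (itP d u w n).2).eval x = 0) :
    ∃ i, i < n ∧ Pool.Agent.Y706.CH7.IsCritical u w d ((ratP1 u w d)^[i] (some x)) := by
  have hu : u.natDegree ≤ d := hmax ▸ le_max_left _ _
  have hw : w.natDegree ≤ d := hmax ▸ le_max_right _ _
  rw [itP_wr d hd u w hu hw, Finset.prod_eq_zero_iff] at h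
  obtain ⟨i, hi, h⟩ := h
  refine ⟨i, Finset.mem_range.mp hi, ?_⟩
  have h1 := iter_pt t_PT d hd u w hmax hco (x, 1)
    (fun h => one_ne_zero (congrArg Prod.snd h)) i
  have h2 : pt ((x, 1) : K × K) = some x := pt_vec (some x)
  rw [h2] at h1
  rw [h1.2]
  exact crit_pt d hd u w hmax _ h1.1 h

end

end Pool.Agent.E8helper88.Mul
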