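import Pool.Agent.Results.MP_9b502d_nt.LargeCriticalHeight
import Pool.Agent.Y706.CH.Bdg2

/-!
# Maps of large critical height
-/

namespace Pool.Agent.E8helper88.Mul

open Polynomial

universe u v

/-- maps of large critical height -/
lemma s_fin2 : Pool.Agent.Y706.CH7.S_FIN2.{u, v} := by
  have e5 : ∀ (K : Type u) [Field K] (p q : K[X]) (d : ℕ),
      Pool.Agent.Results.MP_9b502d_nt.LargeCriticalHeight.mapP1 p q d =
        Pool.Agent.W277.UH.ratP1 p q d := by
    intro K _ p q d
    funext z
    cases z <;> rfl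
  obtain ⟨N, hN⟩ := Pool.Agent.Results.MP_9b502d_nt.LargeCriticalHeight.result.{u, v}
  refine ⟨N, ?_⟩
  intro k L _ _ _ _ t ht hfd n d B hn hd p q hco hmax hlch
  have h := hN k L t ht hfd n d B hn hd p q hco hmax (Or.inl (by
    obtain ⟨M, i1, i2, i3, i4, i5, i6, u, w, h1, h2, h3, h4, c, h5, h6, h7⟩ := hlch
    have e6 : ∀ z : Option M,
        Pool.Agent.Results.MP_9b502d_nt.LargeCriticalHeight.height k z =
          Pool.Agent.Y706.CH7.height k z := by
      intro z
      cases z <;> rfl
    have e7 : Pool.Agent.Results.MP_9b502d_nt.LargeCriticalHeight.mapHeight k u w d =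
        Pool.Agent.Y706.CH7.mapHeight k u w d := by
      unfold Pool.Agent.Results.MP_9b502d_nt.LargeCriticalHeight.mapHeight
        Pool.Agent.Y706.CH7.mapHeight
      simp only [e6]
    have e8 : Pool.Agent.Results.MP_9b502d_nt.LargeCriticalHeight.canonicalHeight k u w d c =
        Pool.Agent.Y706.CH7.canHeight k u w d c := by
      unfold Pool.Agent.Results.MP_9b502d_nt.LargeCriticalHeight.canonicalHeight
        Pool.Agent.Y706.CH7.canHeight
      rw [e5]
      simp only [e6]
    refine ⟨M, i1, i2, i3, i4, i5, i6, u, w, h1, h2, h3, h4, c, ?_, ?_, ?_⟩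
    · cases c <;> exact h5
    · rw [e7]
      exact h6
    · rw [e7, e8]
      exact h7))
  rw [e5] at h
  exact h

end Pool.Agent.E8helper88.Mul
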