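import Pool.Agent.E8helper88.Mul.Glob1
import Pool.Agent.Y676.CH.Cnj

/-!
# Multipliers and critical heights: iterates, the chain rule, multipliers
-/

set_option linter.unusedSectionVars false
set_option linter.unusedVariables false

namespace Pool.Agent.E8helper88.Mul

open Polynomial Finset
open Pool.Agent.W277.UH Pool.Agent.Y706.CH Pool.Agent.Y195.CH Pool.Agent.Y676.CH

universe u v w

/-- the homogeneous map over a ring -/
def FH {R : Type*} [CommRing R] (d : ℕ) (p q : R[X]) (Z : R × R) : R × R := (hev d p Z, hev d q Z)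

/-- the Wronskian -/
noncomputable def wr {R : Type*} [CommRing R] (p q : R[X]) : R[X] :=
  derivative p * q - p * derivative q

/-- the homogeneous Wronskian -/
noncomputable def WH {R : Type*} [CommRing R] (d : ℕ) (p q : R[X]) (Z : R × R) : R :=
  hev (2 * d - 2) (wr p q) Z

/-- the image of a vector -/
def vh {R S : Type*} [CommRing R] [CommRing S] (φ : R →+* S) (Z : R × R) : S × S :=
  (φ Z.1, φ Z.2)

section hom
variable {R S : Type*} [CommRing R] [CommRing S] (φ : R →+* S)

lemma hev_hom (d : ℕ) (p : R[X]) (Z : R × R) : hev d (p.map φ) (vh φ Z) = φ (hev d p Z) := by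
  unfold hev vh
  simp only [coeff_map, map_sum, map_mul, map_pow]

lemma FH_hom (d : ℕ) (p q : R[X]) (Z : R × R) :
    FH d (p.map φ) (q.map φ) (vh φ Z) = vh φ (FH d p q Z) := by
  unfold FH
  rw [hev_hom, hev_hom]
  rfl

lemma FH_iter_hom (d : ℕ) (p q : R[X]) (Z : R × R) (n : ℕ) :
    (FH d (p.map φ) (q.map φ))^[n] (vh φ Z) = vh φ ((FH d p q)^[n] Z) := by
  induction n with
  | zero => rfl
  | succ n ih => rw [Function.iterate_succ_apply', Function.iterate_succ_apply', ih, FH_hom]

lemma wr_map (p q : R[X]) : wr (p.map φ) (q.map φ) = (wr p q).map φ := by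
  unfold wr
  simp only [Polynomial.map_sub, Polynomial.map_mul, derivative_map]

lemma WH_hom (d : ℕ) (p q : R[X]) (Z : R × R) :
    WH d (p.map φ) (q.map φ) (vh φ Z) = φ (WH d p q Z) := by
  unfold WH
  rw [wr_map, hev_hom]

lemma FH_smul (d : ℕ) (p q : R[X]) (t : R) (Z : R × R) :
    FH d p q (t • Z) = t ^ d • FH d p q Z := by
  unfold FH
  rw [hev_smul, hev_smul]
  rfl

lemma WH_smul (d : ℕ) (p q : R[X]) (t : R) (Z : R × R) :
    WH d p q (t • Z) = t ^ (2 * d - 2) * WH d p q Z := by
  unfold WH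
  rw [hev_smul]

end hom

section fld
variable {K : Type u} [Field K]

lemma FH_eq (d : ℕ) (p q : K[X]) : FH d p q = bK d p q := rfl

lemma hev_mulF (a b : ℕ) (A B : K[X]) (hA : A.natDegree ≤ a) (hB : B.natDegree ≤ b)
    (Z : K × K) : hev (a + b) (A * B) Z = hev a A Z * hev b B Z := by
  by_cases hZ : Z.2 = 0
  · have hZ' : Z = (Z.1, 0) := Prod.ext rfl hZ
    rw [hZ', hev_zero, hev_zero, hev_zero, coeff_mul_add_eq_of_natDegree_le hA hB]
    ring
  · rw [hev_eval _ _ (natDegree_mul_le.trans (add_le_add hA hB)) Z hZ, hev_eval _ _ hA Z hZ,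
      hev_eval _ _ hB Z hZ, eval_mul]
    ring

lemma hev_sub (a : ℕ) (A B : K[X]) (Z : K × K) : hev a (A - B) Z = hev a A Z - hev a B Z := by
  unfold hev
  rw [← Finset.sum_sub_distrib]
  apply Finset.sum_congr rfl
  intro i _
  rw [coeff_sub]
  ring

lemma hev_C_mul (a : ℕ) (t : K) (B : K[X]) (Z : K × K) : hev a (C t * B) Z = t * hev a B Z := by
  unfold hev
  rw [Finset.mul_sum]
  apply Finset.sum_congr rfl
  intro i _
  rw [coeff_C_mul]
  ring

/-- `d p - x p'` -/
noncomputable def tl' (d : ℕ) (p : K[X]) : K[X] := C (d : K) * p - X * derivative p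

lemma tl'_coeff (d : ℕ) (p : K[X]) (i : ℕ) (hi : i ≤ d) :
    (tl' d p).coeff i = ((d - i : ℕ) : K) * p.coeff i := by
  unfold tl'
  rw [coeff_sub, coeff_C_mul, Nat.cast_sub hi]
  cases i with
  | zero => simp
  | succ j =>
    rw [coeff_X_mul, coeff_derivative]
    push_cast
    ring

lemma tl'_deg (d : ℕ) (hd : 1 ≤ d) (p : K[X]) (hp : p.natDegree ≤ d) :
    (tl' d p).natDegree ≤ d - 1 := by
  rw [natDegree_le_iff_coeff_eq_zero]
  intro i hi
  by_cases h : i = d
  · subst h
    rw [tl'_coeff i p i le_rfl]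
    simp
  · apply coeff_eq_zero_of_natDegree_lt
    refine lt_of_le_of_lt ?_ (show d < i by omega)
    unfold tl'
    refine (natDegree_sub_le _ _).trans (max_le ?_ ?_)
    · exact (natDegree_C_mul_le _ _).trans hp
    · by_cases h0 : derivative p = 0
      · rw [h0, mul_zero, natDegree_zero]
        omega
      · have h1 := natDegree_derivative_le p
        have h2 : (X * derivative p).natDegree ≤ 1 + (derivative p).natDegree :=
          natDegree_mul_le.trans (add_le_add natDegree_X_le le_rfl)
        have h3 : p.natDegree ≠ 0 := by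
          intro h4
          rw [eq_C_of_natDegree_eq_zero h4, derivative_C] at h0
          exact h0 rfl
        omega

/-- the derivative of a form along a path -/
lemma hc_der (d : ℕ) (hd : 1 ≤ d) (p A B : K[X]) (hp : p.natDegree ≤ d) (x : K) :
    (derivative (hc d p A B)).eval x =
      hev (d - 1) (derivative p) (A.eval x, B.eval x) * (derivative A).eval x +
      hev (d - 1) (tl' d p) (A.eval x, B.eval x) * (derivative B).eval x := by
  have s1 : hev (d - 1) (derivative p) (A.eval x, B.eval x) =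
      ∑ i ∈ range (d + 1), p.coeff i * ((i : K) * (A.eval x) ^ (i - 1)) * (B.eval x) ^ (d - i) := by
    unfold hev
    rw [Nat.sub_add_cancel hd, Finset.sum_range_succ']
    simp only [Nat.cast_zero, zero_mul, mul_zero, add_zero]
    refine Finset.sum_congr rfl fun i _ => ?_
    rw [coeff_derivative, Nat.add_sub_cancel]
    have : d - 1 - i = d - (i + 1) := by omega
    rw [this]
    push_cast
    ring
  have s2 : hev (d - 1) (tl' d p) (A.eval x, B.eval x) =
      ∑ i ∈ range (d + 1), p.coeff i * (A.eval x) ^ i *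
        (((d - i : ℕ) : K) * (B.eval x) ^ (d - i - 1)) := by
    unfold hev
    rw [Nat.sub_add_cancel hd, Finset.sum_range_succ]
    simp only [Nat.sub_self, Nat.cast_zero, zero_mul, mul_zero, add_zero]
    refine Finset.sum_congr rfl fun i hi => ?_
    rw [Finset.mem_range] at hi
    rw [tl'_coeff d p i hi.le]
    have : d - 1 - i = d - i - 1 := by omega
    rw [this]
    ring
  rw [s1, s2, Finset.sum_mul, Finset.sum_mul, ← Finset.sum_add_distrib]
  unfold hc hev
  rw [derivative_sum, eval_finsetSum]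
  refine Finset.sum_congr rfl fun i _ => ?_
  simp only [coeff_map, derivative_mul, derivative_pow, derivative_C, zero_mul, zero_add,
    eval_add, eval_mul, eval_pow, eval_C]
  ring

lemma hev_euler (d : ℕ) (hd : 1 ≤ d) (p : K[X]) (hp : p.natDegree ≤ d) (Z : K × K) :
    Z.1 * hev (d - 1) (derivative p) Z + Z.2 * hev (d - 1) (tl' d p) Z = d * hev d p Z := by
  have h1 := hc_der d hd p (C Z.1 * X) (C Z.2 * X) hp 1
  have h2 : hc d p (C Z.1 * X) (C Z.2 * X) = C (hev d p Z) * X ^ d := by
    unfold hc hev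
    rw [map_sum, Finset.sum_mul]
    refine Finset.sum_congr rfl fun i hi => ?_
    rw [Finset.mem_range] at hi
    have : (X : K[X]) ^ d = X ^ i * X ^ (d - i) := by
      rw [← pow_add]
      congr 1
      omega
    rw [coeff_map, this]
    simp only [C_mul, C_pow, mul_pow]
    ring
  rw [h2] at h1
  simp only [derivative_mul, derivative_C, zero_mul, zero_add, eval_mul, eval_C, eval_X, mul_one,
    derivative_X, derivative_X_pow, eval_pow, one_pow, eval_natCast, map_natCast, eval_one] at h1
  linear_combination -h1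

/-- the jacobian is the homogeneous Wronskian -/
lemma jac_wr (d : ℕ) (hd : 1 ≤ d) (p q : K[X]) (hp : p.natDegree ≤ d) (hq : q.natDegree ≤ d)
    (Z : K × K) :
    hev (d - 1) (derivative p) Z * hev (d - 1) (tl' d q) Z -
      hev (d - 1) (tl' d p) Z * hev (d - 1) (derivative q) Z = d * WH d p q Z := by
  have hdp : (derivative p).natDegree ≤ d - 1 := (natDegree_derivative_le p).trans (by omega)
  have hdq : (derivative q).natDegree ≤ d - 1 := (natDegree_derivative_le q).trans (by omega)
  rw [← hev_mulF _ _ _ _ hdp (tl'_deg d hd q hq), ← hev_mulF _ _ _ _ (tl'_deg d hd p hp) hdq,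
    ← hev_sub]
  unfold WH
  rw [← hev_C_mul]
  have h1 : d - 1 + (d - 1) = 2 * d - 2 := by omega
  rw [h1]
  congr 1
  unfold tl' wr
  rw [map_natCast]
  ring

/-- the chain rule -/
lemma wr_hc [CharZero K] (d : ℕ) (hd : 1 ≤ d) (p q A B : K[X]) (hp : p.natDegree ≤ d)
    (hq : q.natDegree ≤ d) (x : K) :
    (wr (hc d p A B) (hc d q A B)).eval x =
      WH d p q (A.eval x, B.eval x) * (wr A B).eval x := by
  have hd0 : (d : K) ≠ 0 := Nat.cast_ne_zero.mpr (by omega)
  apply mul_left_cancel₀ hd0
  have e1 := hev_euler d hd p hp (A.eval x, B.eval x)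
  have e2 := hev_euler d hd q hq (A.eval x, B.eval x)
  have e3 := jac_wr d hd p q hp hq (A.eval x, B.eval x)
  have e4 := hc_der d hd p A B hp x
  have e5 := hc_der d hd q A B hq x
  rw [← mul_assoc, ← e3]
  unfold wr
  simp only [eval_sub, eval_mul] at e1 e2 ⊢
  rw [e4, e5, hc_eval, hc_eval]
  linear_combination (-(hev (d - 1) (derivative p) (A.eval x, B.eval x) * (derivative A).eval x +
      hev (d - 1) (tl' d p) (A.eval x, B.eval x) * (derivative B).eval x)) * e2 +
      (hev (d - 1) (derivative q) (A.eval x, B.eval x) * (derivative A).eval x +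
      hev (d - 1) (tl' d q) (A.eval x, B.eval x) * (derivative B).eval x) * e1

/-- the iterates -/
noncomputable def itP (d : ℕ) (p q : K[X]) : ℕ → K[X] × K[X]
  | 0 => (X, 1)
  | n + 1 => (hc d p (itP d p q n).1 (itP d p q n).2, hc d q (itP d p q n).1 (itP d p q n).2)

lemma itP_eval (d : ℕ) (p q : K[X]) (n : ℕ) (x : K) :
    ((itP d p q n).1.eval x, (itP d p q n).2.eval x) = (FH d p q)^[n] (x, 1) := by
  induction n with
  | zero => simp [itP]
  | succ n ih =>
    rw [Function.iterate_succ_apply', ← ih]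
    simp only [itP, FH, hc_eval]

lemma itP_deg (d : ℕ) (p q : K[X]) (n : ℕ) :
    (itP d p q n).1.natDegree ≤ d ^ n ∧ (itP d p q n).2.natDegree ≤ d ^ n := by
  induction n with
  | zero => simp [itP]
  | succ n ih =>
    rw [pow_succ, mul_comm]
    exact ⟨hc_degree _ _ _ _ _ ih.1 ih.2, hc_degree _ _ _ _ _ ih.1 ih.2⟩

lemma itP_top (d : ℕ) (p q : K[X]) (n : ℕ) :
    ((itP d p q n).1.coeff (d ^ n), (itP d p q n).2.coeff (d ^ n)) = (FH d p q)^[n] (1, 0) := by
  induction n with
  | zero => simp [itP, coeff_one]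
  | succ n ih =>
    have h := itP_deg d p q n
    rw [Function.iterate_succ_apply', ← ih, pow_succ, mul_comm]
    simp only [itP, FH]
    rw [hc_coeff _ _ _ _ _ h.1 h.2, hc_coeff _ _ _ _ _ h.1 h.2]

lemma FH_nz (d : ℕ) (hd : 1 ≤ d) (p q : K[X]) (hmax : max p.natDegree q.natDegree = d)
    (hco : IsCoprime p q) (Z : K × K) (hZ : Z ≠ 0) : FH d p q Z ≠ 0 :=
  (t_PT K d hd p q hmax hco Z hZ).1

lemma FH_iter_nz (d : ℕ) (hd : 1 ≤ d) (p q : K[X]) (hmax : max p.natDegree q.natDegree = d)
    (hco : IsCoprime p q) (n : ℕ) (Z : K × K) (hZ : Z ≠ 0) : (FH d p q)^[n] Z ≠ 0 := by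
  induction n with
  | zero => exact hZ
  | succ n ih =>
    rw [Function.iterate_succ_apply']
    exact FH_nz d hd p q hmax hco _ ih

lemma FH_iter_smul (d : ℕ) (p q : K[X]) (n : ℕ) (t : K) (Z : K × K) :
    (FH d p q)^[n] (t • Z) = t ^ (d ^ n) • (FH d p q)^[n] Z := by
  induction n with
  | zero => simp
  | succ n ih =>
    rw [Function.iterate_succ_apply', Function.iterate_succ_apply', ih, FH_smul, ← pow_mul,
      ← pow_succ]

lemma hc_map' {L : Type v} [Field L] (j : K →+* L) (d : ℕ) (u P Q : K[X]) :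
    (hc d u P Q).map j = hc d (u.map j) (P.map j) (Q.map j) := by
  unfold hc hev
  rw [Polynomial.map_sum]
  apply Finset.sum_congr rfl
  intro i _
  simp only [coeff_map, Polynomial.map_mul, Polynomial.map_pow, Polynomial.map_C]

lemma itP_map {L : Type v} [Field L] (φ : K →+* L) (d : ℕ) (p q : K[X]) (n : ℕ) :
    itP d (p.map φ) (q.map φ) n = ((itP d p q n).1.map φ, (itP d p q n).2.map φ) := by
  induction n with
  | zero => simp [itP]
  | succ n ih =>
    simp only [itP]
    rw [ih, hc_map', hc_map']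

lemma max_map {L : Type v} [Field L] (φ : K →+* L) (p q : K[X]) (d : ℕ)
    (hmax : max p.natDegree q.natDegree = d) :
    max (p.map φ).natDegree (q.map φ).natDegree = d := by
  rw [natDegree_map_eq_of_injective φ.injective, natDegree_map_eq_of_injective φ.injective]
  exact hmax

lemma itP_coprime (d : ℕ) (hd : 1 ≤ d) (p q : K[X]) (hmax : max p.natDegree q.natDegree = d)
    (hco : IsCoprime p q) (n : ℕ) : IsCoprime (itP d p q n).1 (itP d p q n).2 := by
  refine (isCoprime_iff_aeval_ne_zero_of_isAlgClosed (k := K) (AlgebraicClosure K) _ _).mpr ?_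
  intro x
  by_contra hcon
  push Not at hcon
  have h1 := FH_iter_nz d hd (p.map (algebraMap K (AlgebraicClosure K)))
    (q.map (algebraMap K (AlgebraicClosure K))) (max_map _ p q d hmax)
    ((Polynomial.isCoprime_map _).mpr hco) n (x, 1) (by
      intro h
      exact one_ne_zero (congrArg Prod.snd h))
  apply h1
  rw [← itP_eval, itP_map]
  simp only
  rw [eval_map_algebraMap, eval_map_algebraMap, hcon.1, hcon.2]
  rfl

/-- the Wronskian of the iterates -/
lemma itP_wr [CharZero K] (d : ℕ) (hd : 1 ≤ d) (p q : K[X]) (hp : p.natDegree ≤ d)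
    (hq : q.natDegree ≤ d) (n : ℕ) (x : K) :
    (wr (itP d p q n).1 (itP d p q n).2).eval x =
      ∏ j ∈ range n, WH d p q ((FH d p q)^[j] (x, 1)) := by
  induction n with
  | zero => simp [itP, wr]
  | succ n ih =>
    rw [Finset.prod_range_succ, ← ih]
    simp only [itP]
    rw [wr_hc d hd p q _ _ hp hq x, itP_eval, mul_comm]

end fld

end Pool.Agent.E8helper88.Mul
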