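import Mathlib

/-!
# Multipliers and critical heights: counting zeros of logarithmic derivatives in discs
-/

set_option linter.unusedSectionVars false
set_option linter.unusedVariables false

namespace Pool.Agent.E8helper88.Mul

open Polynomial Finset

section
variable {Ω : Type*} [NormedField Ω] [IsUltrametricDist Ω]

lemma norm_sub_ult (x y : Ω) : ‖x - y‖ ≤ max ‖x‖ ‖y‖ := by
  have := IsUltrametricDist.norm_add_le_max x (-y)
  rwa [norm_neg, ← sub_eq_add_neg] at this

lemma norm_add_eq_left {x y : Ω} (h : ‖y‖ < ‖x‖) : ‖x + y‖ = ‖x‖ := by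
  rw [IsUltrametricDist.norm_add_eq_max_of_norm_ne_norm h.ne', max_eq_left h.le]

lemma norm_sub_eq_left {x y : Ω} (h : ‖y‖ < ‖x‖) : ‖x - y‖ = ‖x‖ := by
  rw [sub_eq_add_neg]
  exact norm_add_eq_left (by rwa [norm_neg])

lemma norm_sub_eq_right {x y : Ω} (h : ‖x‖ < ‖y‖) : ‖x - y‖ = ‖y‖ := by
  rw [norm_sub_rev]
  exact norm_sub_eq_left h

lemma norm_sum_lt_ult {ι : Type*} (s : Finset ι) (f : ι → Ω) {r : ℝ} (hr : 0 < r)
    (h : ∀ i ∈ s, ‖f i‖ < r) : ‖∑ i ∈ s, f i‖ < r := by
  classical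
  induction s using Finset.induction_on with
  | empty => simpa using hr
  | insert a s ha ih =>
    rw [Finset.sum_insert ha]
    refine (IsUltrametricDist.norm_add_le_max _ _).trans_lt (max_lt ?_ ?_)
    · exact h a (Finset.mem_insert_self _ _)
    · exact ih fun i hi => h i (Finset.mem_insert_of_mem hi)

lemma norm_int_one (hnat : ∀ n : ℕ, n ≠ 0 → ‖(n : Ω)‖ = 1) {z : ℤ} (hz : z ≠ 0) :
    ‖(z : Ω)‖ = 1 := by
  rcases Int.natAbs_eq z with h | h
  · rw [h, Int.cast_natCast]
    exact hnat _ (Int.natAbs_ne_zero.mpr hz)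
  · have := hnat z.natAbs (Int.natAbs_ne_zero.mpr hz)
    rw [h, Int.cast_neg, norm_neg, Int.cast_natCast]
    exact this

lemma norm_int_le (hnat : ∀ n : ℕ, n ≠ 0 → ‖(n : Ω)‖ = 1) (z : ℤ) : ‖(z : Ω)‖ ≤ 1 := by
  by_cases hz : z = 0
  · rw [hz]; simp
  · exact (norm_int_one hnat hz).le

/-- values of the norm are dense -/
lemma exists_between_norm [IsAlgClosed Ω] (hnt : ∃ π : Ω, π ≠ 0 ∧ ‖π‖ ≠ 1) {a b : ℝ}
    (ha : 0 < a) (hab : a < b) : ∃ x : Ω, a < ‖x‖ ∧ ‖x‖ < b := by
  obtain ⟨π, hπ0, hπ1⟩ : ∃ π : Ω, π ≠ 0 ∧ 1 < ‖π‖ := by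
    obtain ⟨π, h0, h1⟩ := hnt
    rcases lt_or_gt_of_ne h1 with h | h
    · refine ⟨π⁻¹, inv_ne_zero h0, ?_⟩
      rw [norm_inv]
      exact (one_lt_inv₀ (norm_pos_iff.mpr h0)).mpr h
    · exact ⟨π, h0, h⟩
  have hba : 1 < b / a := (one_lt_div ha).mpr hab
  obtain ⟨n, hn⟩ := pow_unbounded_of_one_lt ‖π‖ hba
  have hn0 : 0 < n := by
    rcases Nat.eq_zero_or_pos n with h | h
    · subst h
      rw [pow_zero] at hn
      linarith
    · exact h
  obtain ⟨y, hy⟩ := IsAlgClosed.exists_pow_nat_eq π hn0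
  have hyn : ‖y‖ ^ n = ‖π‖ := by rw [← norm_pow, hy]
  have hy1 : 1 < ‖y‖ := by
    by_contra h
    push Not at h
    have := pow_le_one₀ (norm_nonneg y) h (n := n)
    rw [hyn] at this
    linarith
  have hyb : ‖y‖ < b / a := by
    by_contra h
    push Not at h
    have := pow_le_pow_left₀ (by positivity) h n
    rw [hyn] at this
    linarith
  obtain ⟨m, hm1, hm2⟩ := exists_mem_Ico_zpow ha hy1
  refine ⟨y ^ (m + 1), ?_, ?_⟩
  · rw [norm_zpow]
    exact hm2
  · have hy0 : ‖y‖ ≠ 0 := by positivity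
    rw [norm_zpow, zpow_add_one₀ hy0]
    calc ‖y‖ ^ m * ‖y‖ ≤ a * ‖y‖ := by
          apply mul_le_mul_of_nonneg_right hm1 (norm_nonneg _)
      _ < a * (b / a) := by
          apply mul_lt_mul_of_pos_left hyb ha
      _ = b := by field_simp

end

section num
variable {K : Type*} [Field K] [DecidableEq K]

/-- the numerator of `∑ n s / (X - s)` -/
noncomputable def Num (S : Finset K) (n : K → ℤ) : K[X] :=
  ∑ s ∈ S, C ((n s : ℤ) : K) * ∏ t ∈ S.erase s, (X - C t)

lemma Num_eval (S : Finset K) (n : K → ℤ) (x : K) (hx : x ∉ S) :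
    (Num S n).eval x = (∏ t ∈ S, (x - t)) * ∑ s ∈ S, (n s : K) / (x - s) := by
  unfold Num
  rw [eval_finsetSum, Finset.mul_sum]
  apply Finset.sum_congr rfl
  intro s hs
  have hxs : x - s ≠ 0 := sub_ne_zero.mpr fun h => hx (h ▸ hs)
  rw [eval_mul, eval_C, eval_prod]
  simp only [eval_sub, eval_X, eval_C]
  rw [← Finset.mul_prod_erase S _ hs]
  field_simp

lemma Num_eval_mem (S : Finset K) (n : K → ℤ) (s : K) (hs : s ∈ S) :
    (Num S n).eval s = (n s : K) * ∏ t ∈ S.erase s, (s - t) := by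
  unfold Num
  rw [eval_finsetSum, Finset.sum_eq_single s]
  · rw [eval_mul, eval_C, eval_prod]
    simp
  · intro t ht hts
    rw [eval_mul, eval_prod]
    rw [Finset.prod_eq_zero (Finset.mem_erase.mpr ⟨hts.symm, hs⟩), mul_zero]
    simp
  · intro h
    exact absurd hs h

lemma Num_natDegree_le (S : Finset K) (n : K → ℤ) : (Num S n).natDegree ≤ S.card - 1 := by
  unfold Num
  apply natDegree_sum_le_of_forall_le
  intro s hs
  refine (natDegree_C_mul_le _ _).trans ?_
  refine (natDegree_prod_le _ _).trans ?_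
  rw [← Finset.card_erase_of_mem hs]
  simp

lemma Num_coeff (S : Finset K) (n : K → ℤ) (hS : S.Nonempty) :
    (Num S n).coeff (S.card - 1) = ((∑ s ∈ S, n s : ℤ) : K) := by
  unfold Num
  rw [finsetSum_coeff, Int.cast_sum]
  apply Finset.sum_congr rfl
  intro s hs
  rw [coeff_C_mul]
  have h1 : (∏ t ∈ S.erase s, (X - C t : K[X])).coeff (S.card - 1) = 1 := by
    have h2 : (∏ t ∈ S.erase s, (X - C t : K[X])).Monic :=
      monic_prod_of_monic _ _ fun t _ => monic_X_sub_C t
    have h3 : (∏ t ∈ S.erase s, (X - C t : K[X])).natDegree = S.card - 1 := by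
      rw [natDegree_prod_of_monic _ _ fun t _ => monic_X_sub_C t]
      simp [Finset.card_erase_of_mem hs]
    rw [← h3]
    exact h2.coeff_natDegree
  rw [h1, mul_one]

lemma Num_natDegree [CharZero K] (S : Finset K) (n : K → ℤ) (hS : ∑ s ∈ S, n s ≠ 0) :
    (Num S n).natDegree = S.card - 1 := by
  have hne : S.Nonempty := by
    rw [Finset.nonempty_iff_ne_empty]
    rintro rfl
    simp at hS
  apply le_antisymm (Num_natDegree_le S n)
  apply le_natDegree_of_ne_zero
  rw [Num_coeff S n hne]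
  exact_mod_cast hS

end num

section count
variable {Ω : Type*} [NormedField Ω] [IsUltrametricDist Ω] [IsAlgClosed Ω] [DecidableEq Ω]

lemma charZero_of_nat (hnat : ∀ n : ℕ, n ≠ 0 → ‖(n : Ω)‖ = 1) : CharZero Ω := by
  apply charZero_of_inj_zero
  intro n hn
  by_contra h
  have := hnat n h
  rw [hn, norm_zero] at this
  exact zero_ne_one this

lemma norm_prod_map (M : Multiset Ω) (x : Ω) :
    ‖(M.map fun c => x - c).prod‖ = (M.map fun c => ‖x - c‖).prod := by
  induction M using Multiset.induction_on with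
  | empty => simp
  | cons a s ih => simp [ih]

open Classical in
/-- the norm of a product over points at a generic distance from `a` -/
lemma prod_norm_gen (M : Multiset Ω) (a x : Ω) (r ρ : ℝ) (hr : ‖x - a‖ = r) (hrρ : r < ρ)
    (h : ∀ c ∈ M, ‖c - a‖ < ρ → ‖c - a‖ < r) :
    (M.map fun c => ‖x - c‖).prod =
      r ^ (M.filter fun c => ‖c - a‖ < ρ).card *
        ((M.filter fun c => ¬ ‖c - a‖ < ρ).map fun c => ‖c - a‖).prod := by
  conv_lhs => rw [← Multiset.filter_add_not (fun c => ‖c - a‖ < ρ) M]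
  rw [Multiset.map_add, Multiset.prod_add]
  congr 1
  · rw [Multiset.map_congr rfl (g := fun _ => r)]
    · rw [Multiset.map_const', Multiset.prod_replicate]
    · intro c hc
      rw [Multiset.mem_filter] at hc
      have h1 := h c hc.1 hc.2
      have h2 : x - c = (x - a) - (c - a) := by ring
      rw [h2, norm_sub_eq_left (by rw [hr]; exact h1), hr]
  · rw [Multiset.map_congr rfl]
    intro c hc
    rw [Multiset.mem_filter] at hc
    have h2 : x - c = (x - a) - (c - a) := by ring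
    rw [h2, norm_sub_eq_right (by rw [hr]; linarith [hc.2])]

/-- (F): in an open disc in which the sum of the weights is not zero the logarithmic derivative
has one zero less than poles. -/
theorem count_disc (hnat : ∀ n : ℕ, n ≠ 0 → ‖(n : Ω)‖ = 1) (hnt : ∃ π : Ω, π ≠ 0 ∧ ‖π‖ ≠ 1)
    (S : Finset Ω) (n : Ω → ℤ) (hS : ∑ s ∈ S, n s ≠ 0) (a : Ω) (ρ : ℝ) (hρ : 0 < ρ)
    (hB : ∑ s ∈ S.filter (fun s => ‖s - a‖ < ρ), n s ≠ 0) :
    ((Num S n).roots.filter fun c => ‖c - a‖ < ρ).card + 1 =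
      (S.filter fun s => ‖s - a‖ < ρ).card := by
  classical
  have hc0 := charZero_of_nat hnat
  set N := Num S n with hN
  have hlc : N.leadingCoeff = ((∑ s ∈ S, n s : ℤ) : Ω) := by
    rw [leadingCoeff, Num_natDegree S n hS, Num_coeff S n]
    rw [Finset.nonempty_iff_ne_empty]
    rintro rfl
    simp at hS
  have hlc1 : ‖N.leadingCoeff‖ = 1 := by
    rw [hlc]
    exact norm_int_one hnat hS
  have hN0 : N ≠ 0 := by
    intro h
    rw [h, leadingCoeff_zero, norm_zero] at hlc1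
    exact zero_ne_one hlc1
  -- the inner radius
  set E : Finset Ω := (S ∪ N.roots.toFinset).filter fun c => ‖c - a‖ < ρ with hE
  obtain ⟨r₀, hr₀, hr₀ρ, hr₀E⟩ : ∃ r₀ : ℝ, 0 < r₀ ∧ r₀ < ρ ∧ ∀ c ∈ E, ‖c - a‖ ≤ r₀ := by
    rcases E.eq_empty_or_nonempty with h | h
    · exact ⟨ρ / 2, by linarith, by linarith, by rw [h]; simp⟩
    · obtain ⟨c, hc, hmax⟩ := E.exists_max_image (fun c => ‖c - a‖) h
      rw [hE, Finset.mem_filter] at hc
      refine ⟨max ‖c - a‖ (ρ / 2), lt_max_of_lt_right (by linarith),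
        max_lt hc.2 (by linarith), fun c' hc' => (hmax c' hc').trans (le_max_left _ _)⟩
  have key : ∀ x : Ω, r₀ < ‖x - a‖ → ‖x - a‖ < ρ →
      ‖x - a‖ ^ (N.roots.filter fun c => ‖c - a‖ < ρ).card *
        ((N.roots.filter fun c => ¬ ‖c - a‖ < ρ).map fun c => ‖c - a‖).prod =
      (‖x - a‖ ^ (S.filter fun c => ‖c - a‖ < ρ).card *
        ((S.val.filter fun c => ¬ ‖c - a‖ < ρ).map fun c => ‖c - a‖).prod) * (‖x - a‖)⁻¹ := by
    intro x hx1 hx2
    have hxpos : 0 < ‖x - a‖ := hr₀.trans hx1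
    have hxS : x ∉ S := by
      intro h
      have : x ∈ E := by
        rw [hE, Finset.mem_filter, Finset.mem_union]
        exact ⟨Or.inl h, hx2⟩
      linarith [hr₀E x this]
    have h1 := prod_norm_gen N.roots a x ‖x - a‖ ρ rfl hx2 (by
      intro c hc hcρ
      have : c ∈ E := by
        rw [hE, Finset.mem_filter, Finset.mem_union, Multiset.mem_toFinset]
        exact ⟨Or.inr hc, hcρ⟩
      linarith [hr₀E c this])
    have h2 := prod_norm_gen S.val a x ‖x - a‖ ρ rfl hx2 (by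
      intro c hc hcρ
      have : c ∈ E := by
        rw [hE, Finset.mem_filter, Finset.mem_union]
        exact ⟨Or.inl hc, hcρ⟩
      linarith [hr₀E c this])
    -- the value of the numerator
    have h3 : ‖N.eval x‖ = (N.roots.map fun c => ‖x - c‖).prod := by
      have h4 := IsAlgClosed.splits N
      rw [h4.eval_eq_prod_roots, norm_mul, hlc1, one_mul, norm_prod_map]
    have h5 : ‖N.eval x‖ = (S.val.map fun c => ‖x - c‖).prod * (‖x - a‖)⁻¹ := by
      rw [hN, Num_eval S n x hxS, norm_mul, norm_prod]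
      congr 1
      have hxa : x - a ≠ 0 := norm_pos_iff.mp hxpos
      set B := S.filter fun s => ‖s - a‖ < ρ with hBdef
      have hsplit : ∑ s ∈ S, (n s : Ω) / (x - s) =
          ((∑ s ∈ B, n s : ℤ) : Ω) / (x - a) +
          (∑ s ∈ B, (n s : Ω) * ((s - a) / ((x - s) * (x - a))) +
            ∑ s ∈ S.filter (fun s => ¬ ‖s - a‖ < ρ), (n s : Ω) / (x - s)) := by
        rw [← Finset.sum_filter_add_sum_filter_not S (fun s => ‖s - a‖ < ρ), ← add_assoc]
        congr 1
        rw [Int.cast_sum, Finset.sum_div, ← Finset.sum_add_distrib]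
        apply Finset.sum_congr rfl
        intro s hs
        rw [Finset.mem_filter] at hs
        have hxs : x - s ≠ 0 := sub_ne_zero.mpr fun h => hxS (h ▸ hs.1)
        field_simp
        ring
      have hpos : 0 < (‖x - a‖)⁻¹ := inv_pos.mpr hxpos
      have hmain : ‖((∑ s ∈ B, n s : ℤ) : Ω) / (x - a)‖ = (‖x - a‖)⁻¹ := by
        rw [norm_div, norm_int_one hnat hB, one_div]
      rw [hsplit, norm_add_eq_left, hmain]
      rw [hmain]
      refine (IsUltrametricDist.norm_add_le_max _ _).trans_lt (max_lt ?_ ?_)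
      · apply norm_sum_lt_ult _ _ hpos
        intro s hs
        rw [hBdef, Finset.mem_filter] at hs
        have hsE : s ∈ E := by
          rw [hE, Finset.mem_filter, Finset.mem_union]
          exact ⟨Or.inl hs.1, hs.2⟩
        have h6 := hr₀E s hsE
        have h7 : ‖x - s‖ = ‖x - a‖ := by
          have h8 : x - s = (x - a) - (s - a) := by ring
          rw [h8, norm_sub_eq_left (by linarith)]
        rw [norm_mul, norm_div, norm_mul, h7]
        calc ‖(n s : Ω)‖ * (‖s - a‖ / (‖x - a‖ * ‖x - a‖))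
            ≤ 1 * (‖s - a‖ / (‖x - a‖ * ‖x - a‖)) := by
              apply mul_le_mul_of_nonneg_right (norm_int_le hnat _) (by positivity)
          _ = (‖s - a‖ / ‖x - a‖) * (‖x - a‖)⁻¹ := by
              field_simp
          _ < 1 * (‖x - a‖)⁻¹ := by
              apply mul_lt_mul_of_pos_right _ hpos
              rw [div_lt_one hxpos]
              linarith
          _ = _ := one_mul _
      · apply norm_sum_lt_ult _ _ hpos
        intro s hs
        rw [Finset.mem_filter, not_lt] at hs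
        have h7 : ‖x - s‖ = ‖s - a‖ := by
          have h8 : x - s = (x - a) - (s - a) := by ring
          rw [h8, norm_sub_eq_right (by linarith)]
        rw [norm_div, h7]
        calc ‖(n s : Ω)‖ / ‖s - a‖ ≤ 1 / ‖s - a‖ := by
              apply div_le_div_of_nonneg_right (norm_int_le hnat _) (norm_nonneg _)
          _ ≤ 1 / ρ := by
              apply one_div_le_one_div_of_le hρ hs.2
          _ < 1 / ‖x - a‖ := one_div_lt_one_div_of_lt hxpos hx2
          _ = _ := one_div _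
    rw [← h1, ← h3, h5, h2]
    rfl
  -- two values of the radius
  obtain ⟨x₁, hx₁, hx₁'⟩ := exists_between_norm (Ω := Ω) hnt hr₀ hr₀ρ
  obtain ⟨x₂, hx₂, hx₂'⟩ := exists_between_norm (Ω := Ω) hnt (hr₀.trans hx₁) hx₁'
  have k1 := key (x₁ + a) (by simpa using hx₁) (by simpa using hx₁')
  have k2 := key (x₂ + a) (by simpa using hx₁.trans hx₂) (by simpa using hx₂')
  rw [add_sub_cancel_right] at k1 k2
  set A := (N.roots.filter fun c => ‖c - a‖ < ρ).card with hA
  set B := (S.filter fun c => ‖c - a‖ < ρ).card with hBd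
  have hK1 : 0 < ((N.roots.filter fun c => ¬ ‖c - a‖ < ρ).map fun c => ‖c - a‖).prod := by
    apply Multiset.prod_induction (fun z : ℝ => 0 < z) _ (fun a b ha hb => mul_pos ha hb)
      zero_lt_one
    intro z hz
    rw [Multiset.mem_map] at hz
    obtain ⟨c, hc, rfl⟩ := hz
    rw [Multiset.mem_filter, not_lt] at hc
    linarith [hc.2]
  have hK2 : 0 < ((S.val.filter fun c => ¬ ‖c - a‖ < ρ).map fun c => ‖c - a‖).prod := by
    apply Multiset.prod_induction (fun z : ℝ => 0 < z) _ (fun a b ha hb => mul_pos ha hb)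
      zero_lt_one
    intro z hz
    rw [Multiset.mem_map] at hz
    obtain ⟨c, hc, rfl⟩ := hz
    rw [Multiset.mem_filter, not_lt] at hc
    linarith [hc.2]
  set K1 := ((N.roots.filter fun c => ¬ ‖c - a‖ < ρ).map fun c => ‖c - a‖).prod
  set K2 := ((S.val.filter fun c => ¬ ‖c - a‖ < ρ).map fun c => ‖c - a‖).prod
  have hp1 : 0 < ‖x₁‖ := hr₀.trans hx₁
  have hp2 : 0 < ‖x₂‖ := hp1.trans hx₂
  have e1 : ‖x₁‖ ^ (A + 1) * K1 = ‖x₁‖ ^ B * K2 := by
    rw [pow_succ]
    field_simp at k1 ⊢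
    linarith
  have e2 : ‖x₂‖ ^ (A + 1) * K1 = ‖x₂‖ ^ B * K2 := by
    rw [pow_succ]
    field_simp at k2 ⊢
    linarith
  have e3 : (‖x₂‖ / ‖x₁‖) ^ (A + 1) = (‖x₂‖ / ‖x₁‖) ^ B := by
    rw [div_pow, div_pow, div_eq_div_iff (by positivity) (by positivity)]
    have : (‖x₂‖ ^ (A + 1) * ‖x₁‖ ^ B) * (K1 * K2) = (‖x₂‖ ^ B * ‖x₁‖ ^ (A + 1)) * (K1 * K2) := by
      calc (‖x₂‖ ^ (A + 1) * ‖x₁‖ ^ B) * (K1 * K2)
          = (‖x₂‖ ^ (A + 1) * K1) * (‖x₁‖ ^ B * K2) := by ring
        _ = (‖x₂‖ ^ B * K2) * (‖x₁‖ ^ (A + 1) * K1) := by rw [e1, e2]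
        _ = _ := by ring
    exact mul_right_cancel₀ (mul_pos hK1 hK2).ne' this
  have h21 : 1 < ‖x₂‖ / ‖x₁‖ := (one_lt_div hp1).mpr hx₂
  exact (pow_right_injective₀ (by linarith) h21.ne') e3

end count

end Pool.Agent.E8helper88.Mul
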