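import Pool.Agent.E8helper88.Mul.Loc1

/-!
# Multipliers and critical heights: a critical point at the right distance
-/

set_option linter.unusedSectionVars false
set_option linter.unusedVariables false

namespace Pool.Agent.E8helper88.Mul

open Polynomial Finset

lemma zpow_sum_eq {α : Type*} {x : ℝ} (hx : x ≠ 0) {S : Finset α} {n : α → ℤ} :
    x ^ (∑ s ∈ S, n s) = ∏ s ∈ S, x ^ (n s) := by
  classical
  induction S using Finset.induction_on with
  | empty => simp
  | insert a s ha ih => rw [Finset.sum_insert ha, Finset.prod_insert ha, zpow_add₀ hx, ih]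

/-- products over shells with vanishing sums -/
lemma shell_one {α : Type*} [DecidableEq α] (n : α → ℤ) (δ : α → ℝ) :
    ∀ (k : ℕ) (S : Finset α) (R : ℝ), (∀ s ∈ S, 0 < δ s) →
      (∀ ρ, 0 < ρ → ρ ≤ R → ∑ s ∈ S.filter (fun s => δ s < ρ), n s = 0) →
      (S.filter fun s => δ s < R).card ≤ k → 0 < R →
      ∏ s ∈ S.filter (fun s => δ s < R), (δ s) ^ (n s) = 1 := by
  intro k
  induction k with
  | zero =>
    intro S R hδ h hk hR
    have : S.filter (fun s => δ s < R) = ∅ := Finset.card_eq_zero.mp (Nat.le_zero.mp hk)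
    rw [this, Finset.prod_empty]
  | succ k ih =>
    intro S R hδ h hk hR
    rcases (S.filter fun s => δ s < R).eq_empty_or_nonempty with he | hne
    · rw [he, Finset.prod_empty]
    · obtain ⟨m, hm, hmax⟩ := Finset.exists_max_image _ δ hne
      rw [Finset.mem_filter] at hm
      have hsplit : S.filter (fun s => δ s < R) =
          S.filter (fun s => δ s < δ m) ∪ S.filter (fun s => δ s = δ m) := by
        ext s
        rw [Finset.mem_union, Finset.mem_filter, Finset.mem_filter, Finset.mem_filter]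
        constructor
        · intro hs
          rcases lt_or_eq_of_le (hmax s (Finset.mem_filter.mpr hs)) with h1 | h1
          · exact Or.inl ⟨hs.1, h1⟩
          · exact Or.inr ⟨hs.1, h1⟩
        · rintro (hs | hs)
          · exact ⟨hs.1, hs.2.trans hm.2⟩
          · exact ⟨hs.1, hs.2 ▸ hm.2⟩
      have hdisj : Disjoint (S.filter fun s => δ s < δ m) (S.filter fun s => δ s = δ m) := by
        rw [Finset.disjoint_filter]
        intro s _ h1 h2
        linarith
      have hcard : (S.filter fun s => δ s < δ m).card ≤ k := by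
        have h1 : (S.filter fun s => δ s < R).card =
            (S.filter fun s => δ s < δ m).card + (S.filter fun s => δ s = δ m).card := by
          rw [hsplit, Finset.card_union_of_disjoint hdisj]
        have h2 : 0 < (S.filter fun s => δ s = δ m).card :=
          Finset.card_pos.mpr ⟨m, Finset.mem_filter.mpr ⟨hm.1, rfl⟩⟩
        omega
      have hmpos := hδ m hm.1
      have h1 := ih S (δ m) hδ (fun ρ h1 h2 => h ρ h1 (h2.trans hm.2.le)) hcard hmpos
      have h2 : ∑ s ∈ S.filter (fun s => δ s = δ m), n s = 0 := by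
        have h3 := h R hR le_rfl
        rw [hsplit, Finset.sum_union hdisj, h (δ m) hmpos hm.2.le, zero_add] at h3
        exact h3
      rw [hsplit, Finset.prod_union hdisj, h1, one_mul]
      rw [Finset.prod_congr rfl (g := fun s => (δ m) ^ (n s))]
      · rw [← zpow_sum_eq hmpos.ne', h2, zpow_zero]
      · intro s hs
        rw [(Finset.mem_filter.mp hs).2]

/-- the product of the distances when all the inner sums vanish -/
lemma shell_prod {α : Type*} [DecidableEq α] (n : α → ℤ) (δ : α → ℝ) (S : Finset α) (R : ℝ)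
    (hR : 0 < R) (hδ : ∀ s ∈ S, 0 < δ s)
    (h : ∀ ρ, 0 < ρ → ρ ≤ R → ∑ s ∈ S.filter (fun s => δ s < ρ), n s = 0) :
    ∏ s ∈ S.filter (fun s => δ s ≤ R), (δ s) ^ (n s) =
      R ^ (∑ s ∈ S.filter (fun s => δ s ≤ R), n s) := by
  have hsplit : S.filter (fun s => δ s ≤ R) =
      S.filter (fun s => δ s < R) ∪ S.filter (fun s => δ s = R) := by
    ext s
    rw [Finset.mem_union, Finset.mem_filter, Finset.mem_filter, Finset.mem_filter]
    constructor
    · intro hs
      rcases lt_or_eq_of_le hs.2 with h1 | h1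
      · exact Or.inl ⟨hs.1, h1⟩
      · exact Or.inr ⟨hs.1, h1⟩
    · rintro (hs | hs)
      · exact ⟨hs.1, hs.2.le⟩
      · exact ⟨hs.1, hs.2.le⟩
  have hdisj : Disjoint (S.filter fun s => δ s < R) (S.filter fun s => δ s = R) := by
    rw [Finset.disjoint_filter]
    intro s _ h1 h2
    linarith
  rw [hsplit, Finset.prod_union hdisj, Finset.sum_union hdisj,
    shell_one n δ _ S R hδ h le_rfl hR, h R hR le_rfl, one_mul, zero_add, zpow_sum_eq hR.ne']
  apply Finset.prod_congr rfl
  intro s hs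
  rw [(Finset.mem_filter.mp hs).2]

lemma card_le_sum {α β : Type*} (M : Multiset α) (𝓑 : Finset β) (P : β → α → Prop)
    [∀ b, DecidablePred (P b)] (h : ∀ c ∈ M, ∃ b ∈ 𝓑, P b c) :
    M.card ≤ ∑ b ∈ 𝓑, (M.filter (P b)).card := by
  induction M using Multiset.induction_on with
  | empty => simp
  | cons a s ih =>
    have h1 := ih fun c hc => h c (Multiset.mem_cons_of_mem hc)
    obtain ⟨b, hb, hba⟩ := h a (Multiset.mem_cons_self a s)
    have h2 : ∀ b ∈ 𝓑, ((a ::ₘ s).filter (P b)).card =
        (if P b a then 1 else 0) + (s.filter (P b)).card := by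
      intro b _
      rw [Multiset.filter_cons, Multiset.card_add]
      split_ifs <;> simp
    rw [Finset.sum_congr rfl h2, Finset.sum_add_distrib, Multiset.card_cons]
    have h3 : 1 ≤ ∑ b ∈ 𝓑, (if P b a then 1 else 0) := by
      have := Finset.single_le_sum (f := fun b => if P b a then 1 else 0)
        (fun b _ => Nat.zero_le _) hb
      simp only [if_pos hba] at this
      exact this
    omega

/-- a maximal radius, as far as the points of a finite set are concerned -/
lemma exists_max_radius {α : Type*} (U : Finset α) (δ : α → ℝ) (A : Set ℝ) (hA : A.Nonempty) :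
    ∃ ρ ∈ A, ∀ ρ' ∈ A, ∀ x ∈ U, δ x < ρ' → δ x < ρ := by
  classical
  set f : ℝ → ℕ := fun ρ => (U.filter fun x => δ x < ρ).card with hf
  have hb : BddAbove (f '' A) := by
    refine ⟨U.card, ?_⟩
    rintro _ ⟨ρ, _, rfl⟩
    exact Finset.card_filter_le _ _
  obtain ⟨ρ, hρ, hmax⟩ := Nat.sSup_mem (hA.image f) hb
  refine ⟨ρ, hρ, ?_⟩
  intro ρ' hρ' x hx hxρ'
  by_contra hcon
  push Not at hcon
  have h1 : f ρ' ≤ f ρ := by
    rw [hmax]
    exact le_csSup hb ⟨ρ', hρ', rfl⟩
  have h2 : f ρ < f ρ' := by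
    apply Finset.card_lt_card
    rw [Finset.ssubset_iff_of_subset]
    · exact ⟨x, Finset.mem_filter.mpr ⟨hx, hxρ'⟩, fun h => by
        have := (Finset.mem_filter.mp h).2
        linarith⟩
    · intro y hy
      rw [Finset.mem_filter] at hy ⊢
      exact ⟨hy.1, by linarith⟩
  omega

section
variable {Ω : Type*} [NormedField Ω] [IsUltrametricDist Ω] [IsAlgClosed Ω] [DecidableEq Ω]

/-- the sum of the weights in an open disc -/
noncomputable def FF (S : Finset Ω) (n : Ω → ℤ) (a : Ω) (ρ : ℝ) : ℤ :=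
  ∑ s ∈ S.filter (fun s => ‖s - a‖ < ρ), n s

lemma disc_eq (S : Finset Ω) {a b : Ω} {ρ : ℝ} (h : ‖a - b‖ < ρ) :
    S.filter (fun s => ‖s - a‖ < ρ) = S.filter (fun s => ‖s - b‖ < ρ) := by
  apply Finset.filter_congr
  intro s _
  constructor
  · intro h1
    have : s - b = (s - a) + (a - b) := by ring
    rw [this]
    exact (IsUltrametricDist.norm_add_le_max _ _).trans_lt (max_lt h1 h)
  · intro h1
    have : s - a = (s - b) - (a - b) := by ring
    rw [this]
    exact (norm_sub_ult _ _).trans_lt (max_lt h1 h)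

lemma FF_eq (S : Finset Ω) (n : Ω → ℤ) {a b : Ω} {ρ : ℝ} (h : ‖a - b‖ < ρ) :
    FF S n a ρ = FF S n b ρ := by
  unfold FF
  rw [disc_eq S h]

lemma exists_small_disc (S : Finset Ω) (a : Ω) (R : ℝ) (hR : 0 < R) :
    ∃ ρ, 0 < ρ ∧ ρ ≤ R ∧ ∀ s ∈ S, ‖s - a‖ < ρ → s = a := by
  induction S using Finset.induction_on with
  | empty => exact ⟨R, hR, le_rfl, by simp⟩
  | insert b S hb ih =>
    obtain ⟨ρ, h1, h2, h3⟩ := ih
    by_cases hba : b = a
    · refine ⟨ρ, h1, h2, ?_⟩
      intro s hs hsρ
      rw [Finset.mem_insert] at hs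
      rcases hs with rfl | hs
      · exact hba
      · exact h3 s hs hsρ
    · have hpos : 0 < ‖b - a‖ := norm_pos_iff.mpr (sub_ne_zero.mpr hba)
      refine ⟨min ρ ‖b - a‖, lt_min h1 hpos, (min_le_left _ _).trans h2, ?_⟩
      intro s hs hsρ
      rw [Finset.mem_insert] at hs
      rcases hs with rfl | hs
      · exact absurd hsρ (not_lt.mpr (min_le_right _ _))
      · exact h3 s hs (hsρ.trans_le (min_le_left _ _))

/-- The main counting argument. -/
theorem exists_free_zero (hnat : ∀ n : ℕ, n ≠ 0 → ‖(n : Ω)‖ = 1)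
    (hnt : ∃ π : Ω, π ≠ 0 ∧ ‖π‖ ≠ 1) (S : Finset Ω) (n : Ω → ℤ) (hn : ∀ s ∈ S, n s ≠ 0)
    (h0 : (0 : Ω) ∈ S) (hn0 : n 0 = 1) (hS : ∑ s ∈ S, n s ≠ 0) (s₁ : Ω) (hs₁ : s₁ ∈ S)
    (hs₁0 : s₁ ≠ 0) (hmin : ∀ s ∈ S, s ≠ 0 → ‖s₁‖ ≤ ‖s‖) :
    ∃ c, c ∉ S ∧ (Num S n).eval c = 0 ∧
      ∏ s ∈ S, ‖s - c‖ ^ (n s) = ‖s₁‖ * ∏ s ∈ S.erase 0, ‖s‖ ^ (n s) := by
  classical
  have hc0 := charZero_of_nat hnat
  set N := Num S n with hN
  have hSne : S.Nonempty := ⟨0, h0⟩
  have hdeg : N.natDegree = S.card - 1 := Num_natDegree S n hS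
  have hN0 : N ≠ 0 := by
    intro h
    have h1 := Num_coeff S n hSne
    rw [← hN, h, coeff_zero] at h1
    exact hS (by exact_mod_cast h1.symm)
  have hs₁pos : 0 < ‖s₁‖ := norm_pos_iff.mpr hs₁0
  -- the closed sums
  set Fc : ℝ → ℤ := fun r => ∑ s ∈ S.filter (fun s => ‖s‖ ≤ r), n s with hFc
  set Rs : Finset Ω := S.filter fun s => ‖s₁‖ ≤ ‖s‖ ∧ Fc ‖s‖ ≠ 0 with hRs
  have hRsne : Rs.Nonempty := by
    obtain ⟨m, hm, hmax⟩ := S.exists_max_image (fun s => ‖s‖) hSne
    refine ⟨m, ?_⟩
    rw [hRs, Finset.mem_filter]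
    refine ⟨hm, hmax s₁ hs₁, ?_⟩
    have : S.filter (fun s => ‖s‖ ≤ ‖m‖) = S := Finset.filter_true_of_mem hmax
    simp only [hFc]
    rw [this]
    exact hS
  obtain ⟨m₁, hm₁, hm₁min⟩ := Rs.exists_min_image (fun s => ‖s‖) hRsne
  rw [hRs, Finset.mem_filter] at hm₁
  set r₁ := ‖m₁‖ with hr₁
  have hr₁pos : 0 < r₁ := hs₁pos.trans_le hm₁.2.1
  -- the sums around 0
  have hF0 : ∀ ρ, ‖s₁‖ < ρ → ρ ≤ r₁ → FF S n 0 ρ = 0 := by
    intro ρ h1 h2
    set V := S.filter fun s => ‖s‖ < ρ with hV
    have hVs : s₁ ∈ V := Finset.mem_filter.mpr ⟨hs₁, h1⟩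
    obtain ⟨m, hm, hmax⟩ := V.exists_max_image (fun s => ‖s‖) ⟨s₁, hVs⟩
    rw [hV, Finset.mem_filter] at hm
    have h3 : FF S n 0 ρ = Fc ‖m‖ := by
      unfold FF
      simp only [hFc, sub_zero]
      apply Finset.sum_congr _ fun _ _ => rfl
      apply Finset.filter_congr
      intro s hs
      constructor
      · intro h
        exact hmax s (Finset.mem_filter.mpr ⟨hs, h⟩)
      · intro h
        exact h.trans_lt hm.2
    rw [h3]
    by_contra hne
    have h4 := hm₁min m (by
      rw [hRs, Finset.mem_filter]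
      exact ⟨hm.1, hmax s₁ hVs, hne⟩)
    linarith [hm.2]
  -- the points in the closed disc
  set T := S.filter fun s => ‖s‖ ≤ r₁ with hT
  have hT0 : (0 : Ω) ∈ T := by
    rw [hT, Finset.mem_filter, norm_zero]
    exact ⟨h0, hr₁pos.le⟩
  have hTs₁ : s₁ ∈ T := by
    rw [hT, Finset.mem_filter]
    exact ⟨hs₁, hm₁.2.1⟩
  have hcount : (N.roots.filter fun c => ‖c‖ ≤ r₁).card + 1 = T.card := by
    -- a slightly larger open disc
    set U := (S ∪ N.roots.toFinset).filter fun c => r₁ < ‖c‖ with hU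
    obtain ⟨ρ, hρ1, hρ2⟩ : ∃ ρ, r₁ < ρ ∧ ∀ c ∈ U, ρ ≤ ‖c‖ := by
      rcases U.eq_empty_or_nonempty with h | h
      · exact ⟨r₁ + 1, by linarith, by rw [h]; simp⟩
      · obtain ⟨m, hm, hmn⟩ := U.exists_min_image (fun c => ‖c‖) h
        rw [hU, Finset.mem_filter] at hm
        exact ⟨‖m‖, hm.2, hmn⟩
    have e1 : ∀ c, c ∈ S ∨ c ∈ N.roots → (‖c - 0‖ < ρ ↔ ‖c‖ ≤ r₁) := by
      intro c hc
      rw [sub_zero]
      constructor
      · intro h
        by_contra h2
        push Not at h2
        have := hρ2 c (by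
          rw [hU, Finset.mem_filter, Finset.mem_union, Multiset.mem_toFinset]
          exact ⟨hc, h2⟩)
        linarith
      · intro h
        linarith
    have e2 : S.filter (fun s => ‖s - 0‖ < ρ) = T :=
      Finset.filter_congr fun s hs => e1 s (Or.inl hs)
    have e3 : (N.roots.filter fun c => ‖c - 0‖ < ρ) = N.roots.filter fun c => ‖c‖ ≤ r₁ :=
      Multiset.filter_congr fun s hs => e1 s (Or.inr hs)
    have h1 := count_disc hnat hnt S n hS 0 ρ (hr₁pos.trans hρ1) (by
      rw [e2]
      exact hm₁.2.2)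
    rw [← hN, e2, e3] at h1
    exact h1
  -- there is a free zero
  obtain ⟨c, hcN, hcr, hfree⟩ : ∃ c ∈ N.roots, ‖c‖ ≤ r₁ ∧ ∀ ρ, 0 < ρ → ρ ≤ r₁ →
      FF S n c ρ = 0 := by
    by_contra hcon
    push Not at hcon
    set U := S ∪ N.roots.toFinset with hU
    -- maximal discs
    have hmaxr : ∀ s : Ω, ∃ ρ, s ∈ T → (0 < ρ ∧ ρ ≤ r₁ ∧ FF S n s ρ ≠ 0 ∧
        ∀ ρ', 0 < ρ' → ρ' ≤ r₁ → FF S n s ρ' ≠ 0 → ∀ x ∈ U, ‖x - s‖ < ρ' → ‖x - s‖ < ρ) := by
      intro s
      by_cases hsT : s ∈ T
      · obtain ⟨ρ, hρ, hmax⟩ := exists_max_radius U (fun x => ‖x - s‖)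
          {ρ | 0 < ρ ∧ ρ ≤ r₁ ∧ FF S n s ρ ≠ 0} (by
            obtain ⟨ρ, h1, h2, h3⟩ := exists_small_disc S s r₁ hr₁pos
            refine ⟨ρ, h1, h2, ?_⟩
            have hsS := (Finset.mem_filter.mp hsT).1
            have : S.filter (fun t => ‖t - s‖ < ρ) = {s} := by
              ext t
              rw [Finset.mem_filter, Finset.mem_singleton]
              constructor
              · intro h
                exact h3 t h.1 h.2
              · rintro rfl
                exact ⟨hsS, by rw [sub_self, norm_zero]; exact h1⟩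
            unfold FF
            rw [this, Finset.sum_singleton]
            exact hn s hsS)
        exact ⟨ρ, fun _ => ⟨hρ.1, hρ.2.1, hρ.2.2, fun ρ' h1 h2 h3 => hmax ρ' ⟨h1, h2, h3⟩⟩⟩
      · exact ⟨0, fun h => absurd h hsT⟩
    choose rad hrad using hmaxr
    have hTU : ∀ s ∈ T, s ∈ U := fun s hs =>
      Finset.mem_union_left _ (Finset.mem_filter.mp hs).1
    -- discs around points of the same disc
    have hsame : ∀ s ∈ T, ∀ t ∈ T, ‖t - s‖ < rad s → ∀ x ∈ U,
        (‖x - t‖ < rad t ↔ ‖x - s‖ < rad s) := by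
      intro s hs t ht hts x hx
      obtain ⟨a1, a2, a3, a4⟩ := hrad s hs
      obtain ⟨b1, b2, b3, b4⟩ := hrad t ht
      have hst : ‖s - t‖ < rad s := by rwa [norm_sub_rev]
      have h1 : FF S n t (rad s) ≠ 0 := by
        rw [FF_eq S n hts]
        exact a3
      have h2 := b4 (rad s) a1 a2 h1
      have h3 : ‖s - t‖ < rad t := h2 s (hTU s hs) hst
      have h4 : FF S n s (rad t) ≠ 0 := by
        rw [FF_eq S n h3]
        exact b3
      have h5 := a4 (rad t) b1 b2 h4
      constructor
      · intro h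
        apply h5 x hx
        have : x - s = (x - t) - (s - t) := by ring
        rw [this]
        exact (norm_sub_ult _ _).trans_lt (max_lt h h3)
      · intro h
        apply h2 x hx
        have : x - t = (x - s) - (t - s) := by ring
        rw [this]
        exact (norm_sub_ult _ _).trans_lt (max_lt h hts)
    set κ : Ω → Finset Ω := fun s => T.filter fun t => ‖t - s‖ < rad s with hκ
    have hself : ∀ s ∈ T, s ∈ κ s := by
      intro s hs
      rw [hκ]
      simp only [Finset.mem_filter]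
      refine ⟨hs, ?_⟩
      rw [sub_self, norm_zero]
      exact (hrad s hs).1
    have hκeq : ∀ s ∈ T, ∀ t ∈ T, t ∈ κ s → κ t = κ s := by
      intro s hs t ht hts
      simp only [hκ, Finset.mem_filter] at hts
      simp only [hκ]
      apply Finset.filter_congr
      intro x hx
      exact hsame s hs t ht hts.2 x (hTU x hx)
    set 𝓑 := T.image κ with h𝓑
    have hTcard : T.card = ∑ b ∈ 𝓑, b.card := by
      rw [Finset.card_eq_sum_card_image κ T]
      apply Finset.sum_congr rfl
      intro b hb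
      rw [Finset.mem_image] at hb
      obtain ⟨s, hs, rfl⟩ := hb
      congr 1
      ext t
      rw [Finset.mem_filter]
      constructor
      · rintro ⟨ht, hts⟩
        rw [← hts]
        exact hself t ht
      · intro ht
        have htT : t ∈ T := by
          simp only [hκ, Finset.mem_filter] at ht
          exact ht.1
        exact ⟨htT, hκeq s hs t htT ht⟩
    -- zeros in the maximal discs
    have hroots : ∀ s ∈ T, (N.roots.filter fun c => ‖c - s‖ < rad s).card + 1 = (κ s).card := by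
      intro s hs
      obtain ⟨a1, a2, a3, -⟩ := hrad s hs
      have h1 := count_disc hnat hnt S n hS s (rad s) a1 a3
      rw [← hN] at h1
      rw [h1]
      congr 1
      simp only [hκ]
      ext t
      rw [Finset.mem_filter, Finset.mem_filter, hT, Finset.mem_filter]
      constructor
      · rintro ⟨ht, hts⟩
        refine ⟨⟨ht, ?_⟩, hts⟩
        have hsr := (Finset.mem_filter.mp hs).2
        have : t = (t - s) + s := by ring
        rw [this]
        exact (IsUltrametricDist.norm_add_le_max _ _).trans (max_le (hts.le.trans a2) hsr)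
      · rintro ⟨⟨ht, -⟩, hts⟩
        exact ⟨ht, hts⟩
    -- every zero in the closed disc lies in a maximal disc
    set M := N.roots.filter fun c => ‖c‖ ≤ r₁ with hM
    have hle := card_le_sum M 𝓑 (fun b c => ∃ s ∈ T, κ s = b ∧ ‖c - s‖ < rad s) (by
      intro c hc
      rw [hM, Multiset.mem_filter] at hc
      obtain ⟨ρ, h1, h2, h3⟩ := hcon c hc.1 hc.2
      obtain ⟨s, hs⟩ : (S.filter fun s => ‖s - c‖ < ρ).Nonempty := by
        rw [Finset.nonempty_iff_ne_empty]
        intro h
        apply h3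
        unfold FF
        rw [h, Finset.sum_empty]
      rw [Finset.mem_filter] at hs
      have hsT : s ∈ T := by
        rw [hT, Finset.mem_filter]
        refine ⟨hs.1, ?_⟩
        have : s = (s - c) + c := by ring
        rw [this]
        exact (IsUltrametricDist.norm_add_le_max _ _).trans (max_le (hs.2.le.trans h2) hc.2)
      refine ⟨κ s, Finset.mem_image_of_mem κ hsT, s, hsT, rfl, ?_⟩
      apply (hrad s hsT).2.2.2 ρ h1 h2
      · rw [FF_eq S n hs.2]
        exact h3
      · rw [hU, Finset.mem_union, Multiset.mem_toFinset]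
        exact Or.inr hc.1
      · rw [norm_sub_rev]
        exact hs.2)
    have hle2 : ∀ b ∈ 𝓑, (M.filter fun c => ∃ s ∈ T, κ s = b ∧ ‖c - s‖ < rad s).card + 1 ≤
        b.card := by
      intro b hb
      rw [h𝓑, Finset.mem_image] at hb
      obtain ⟨s, hs, rfl⟩ := hb
      rw [← hroots s hs]
      apply Nat.succ_le_succ
      rw [hM, Multiset.filter_filter]
      apply Multiset.card_le_card
      rw [Multiset.le_filter]
      refine ⟨Multiset.filter_le _ _, ?_⟩
      intro c hc
      rw [Multiset.mem_filter] at hc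
      obtain ⟨hcN, ⟨t, ht, hts, hct⟩, -⟩ := hc
      have htκ : t ∈ κ s := by
        rw [← hts]
        exact hself t ht
      simp only [hκ, Finset.mem_filter] at htκ
      refine (hsame s hs t ht htκ.2 c ?_).mp hct
      rw [hU, Finset.mem_union, Multiset.mem_toFinset]
      exact Or.inr hcN
    have hle3 : ∑ b ∈ 𝓑, ((M.filter fun c => ∃ s ∈ T, κ s = b ∧ ‖c - s‖ < rad s).card + 1) ≤
        T.card := by
      rw [hTcard]
      exact Finset.sum_le_sum hle2
    rw [Finset.sum_add_distrib, Finset.sum_const, smul_eq_mul, mul_one] at hle3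
    -- two different discs
    have h2 : 1 < 𝓑.card := by
      refine Finset.one_lt_card.mpr ⟨κ 0, Finset.mem_image_of_mem κ hT0, κ s₁,
        Finset.mem_image_of_mem κ hTs₁, ?_⟩
      intro heq
      have h3 : s₁ ∈ κ 0 := by
        rw [heq]
        exact hself s₁ hTs₁
      simp only [hκ, Finset.mem_filter, sub_zero] at h3
      obtain ⟨-, a2, a3, -⟩ := hrad 0 hT0
      exact a3 (hF0 _ h3.2 a2)
    omega
  -- the value at the free zero
  have hcS : c ∉ S := by
    intro hcS
    obtain ⟨ρ, h1, h2, h3⟩ := exists_small_disc S c r₁ hr₁pos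
    have h4 := hfree ρ h1 h2
    have : S.filter (fun t => ‖t - c‖ < ρ) = {c} := by
      ext t
      rw [Finset.mem_filter, Finset.mem_singleton]
      constructor
      · intro h
        exact h3 t h.1 h.2
      · rintro rfl
        exact ⟨hcS, by rw [sub_self, norm_zero]; exact h1⟩
    unfold FF at h4
    rw [this, Finset.sum_singleton] at h4
    exact hn c hcS h4
  refine ⟨c, hcS, (mem_roots hN0).mp hcN, ?_⟩
  -- the two products
  have hT1 : S.filter (fun s => ‖s - c‖ ≤ r₁) = T := by
    rw [hT]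
    apply Finset.filter_congr
    intro s _
    constructor
    · intro h
      have : s = (s - c) + c := by ring
      rw [this]
      exact (IsUltrametricDist.norm_add_le_max _ _).trans (max_le h hcr)
    · intro h
      exact (norm_sub_ult _ _).trans (max_le h hcr)
  set δ₀ : Ω → ℝ := fun s => max ‖s‖ ‖s₁‖ with hδ₀
  have hT2 : S.filter (fun s => δ₀ s ≤ r₁) = T := by
    rw [hT]
    apply Finset.filter_congr
    intro s _
    simp only [hδ₀]
    rw [max_le_iff]
    exact ⟨fun h => h.1, fun h => ⟨h, hm₁.2.1⟩⟩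
  have p1 := shell_prod n (fun s => ‖s - c‖) S r₁ hr₁pos (by
    intro s hs
    exact norm_pos_iff.mpr (sub_ne_zero.mpr fun h => hcS (h ▸ hs))) hfree
  have p2 := shell_prod n δ₀ S r₁ hr₁pos (by
    intro s hs
    exact lt_max_of_lt_right hs₁pos) (by
    intro ρ h1 h2
    by_cases h3 : ‖s₁‖ < ρ
    · have h4 := hF0 ρ h3 h2
      unfold FF at h4
      rw [← h4]
      apply Finset.sum_congr _ fun _ _ => rfl
      apply Finset.filter_congr
      intro s _
      simp only [hδ₀, sub_zero]
      rw [max_lt_iff]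
      exact ⟨fun h => h.1, fun h => ⟨h, h3⟩⟩
    · push Not at h3
      rw [Finset.filter_false_of_mem, Finset.sum_empty]
      intro s _
      simp only [hδ₀]
      rw [max_lt_iff]
      intro h
      linarith [h.2])
  have hR : ‖s₁‖ * ∏ s ∈ S.erase 0, ‖s‖ ^ (n s) = ∏ s ∈ S, (δ₀ s) ^ (n s) := by
    rw [← Finset.mul_prod_erase S _ h0, hn0, zpow_one]
    congr 1
    · simp only [hδ₀]
      rw [norm_zero, max_eq_right (norm_nonneg _)]
    · apply Finset.prod_congr rfl
      intro s hs
      simp only [hδ₀]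
      rw [max_eq_left (hmin s (Finset.mem_of_mem_erase hs) (Finset.ne_of_mem_erase hs))]
  rw [hR, ← Finset.prod_filter_mul_prod_filter_not S (fun s => ‖s - c‖ ≤ r₁),
    ← Finset.prod_filter_mul_prod_filter_not S (fun s => δ₀ s ≤ r₁)]
  rw [p1, p2, hT1, hT2]
  congr 1
  have hT3 : S.filter (fun s => ¬ ‖s - c‖ ≤ r₁) = S.filter (fun s => ¬ ‖s‖ ≤ r₁) := by
    rw [Finset.filter_not, Finset.filter_not, hT1]
  have hT4 : S.filter (fun s => ¬ δ₀ s ≤ r₁) = S.filter (fun s => ¬ ‖s‖ ≤ r₁) := by
    rw [Finset.filter_not, Finset.filter_not, hT2]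
  rw [hT3, hT4]
  apply Finset.prod_congr rfl
  intro s hs
  rw [Finset.mem_filter, not_le] at hs
  simp only [hδ₀]
  rw [norm_sub_eq_left (by linarith [hs.2]), max_eq_left (by linarith [hs.2, hm₁.2.1])]

end

end Pool.Agent.E8helper88.Mul
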