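import Pool.Agent.E8helper88.Mul.Loc2

/-!
# Multipliers and critical heights: attracting fixed points attract critical points
-/

set_option linter.unusedSectionVars false
set_option linter.unusedVariables false

namespace Pool.Agent.E8helper88.Mul

open Polynomial Finset

section
variable {Ω : Type*} [NormedField Ω] [IsUltrametricDist Ω] [IsAlgClosed Ω] [DecidableEq Ω]

lemma norm_eval_prod (P : Polynomial Ω) (S : Finset Ω) (hS : P.roots.toFinset ⊆ S) (x : Ω) :
    ‖P.eval x‖ = ‖P.leadingCoeff‖ * ∏ s ∈ S, ‖s - x‖ ^ (P.rootMultiplicity s) := by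
  have h4 := IsAlgClosed.splits P
  rw [h4.eval_eq_prod_roots, norm_mul, norm_prod_map, Finset.prod_multiset_map_count]
  congr 1
  rw [← Finset.prod_subset hS]
  · apply Finset.prod_congr rfl
    intro s _
    rw [count_roots, norm_sub_rev]
  · intro s _ hs
    rw [Multiset.mem_toFinset, ← Multiset.count_eq_zero, count_roots] at hs
    rw [hs, pow_zero]

lemma sum_mult (P : Polynomial Ω) (S : Finset Ω) (hS : P.roots.toFinset ⊆ S) :
    ∑ s ∈ S, (P.rootMultiplicity s : ℤ) = P.natDegree := by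
  have h4 := IsAlgClosed.splits P
  rw [h4.natDegree_eq_card_roots, ← Multiset.toFinset_sum_count_eq]
  push_cast
  rw [← Finset.sum_subset hS]
  · apply Finset.sum_congr rfl
    intro s _
    rw [count_roots]
  · intro s _ hs
    rw [Multiset.mem_toFinset, ← Multiset.count_eq_zero, count_roots] at hs
    rw [hs, Nat.cast_zero]

lemma log_deriv (P : Polynomial Ω) (S : Finset Ω) (hS : P.roots.toFinset ⊆ S) (x : Ω)
    (hx : P.eval x ≠ 0) :
    (derivative P).eval x = P.eval x * ∑ s ∈ S, (P.rootMultiplicity s : Ω) / (x - s) := by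
  have h4 := IsAlgClosed.splits P
  rw [h4.eval_derivative_eq_eval_mul_sum hx]
  congr 1
  rw [Finset.sum_multiset_map_count, ← Finset.sum_subset hS]
  · apply Finset.sum_congr rfl
    intro s _
    rw [count_roots, nsmul_eq_mul]
    ring
  · intro s _ hs
    rw [Multiset.mem_toFinset, ← Multiset.count_eq_zero, count_roots] at hs
    rw [hs, Nat.cast_zero, zero_div]

/-- An attracting fixed point attracts a critical point at a definite rate. -/
theorem local_crit (hnat : ∀ n : ℕ, n ≠ 0 → ‖(n : Ω)‖ = 1)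
    (hnt : ∃ π : Ω, π ≠ 0 ∧ ‖π‖ ≠ 1) (P Q : Polynomial Ω) (hco : IsCoprime P Q)
    (hdeg : Q.natDegree < P.natDegree) (hP0 : P.eval 0 = 0)
    (hP1 : (derivative P).eval 0 ≠ 0) (z : Ω) (hz : z ≠ 0) (hPz : P.eval z = 0) (hz1 : ‖z‖ ≤ 1)
    (lam : Ω) (hlam : lam * Q.eval 0 = (derivative P).eval 0) (hl1 : ‖lam‖ < 1) :
    ∃ c, (derivative P * Q - P * derivative Q).eval c = 0 ∧ ∃ x : ℕ → Ω, x 0 = c ∧
      (∀ j, Q.eval (x j) ≠ 0 ∧ x (j + 1) * Q.eval (x j) = P.eval (x j)) ∧
      ∀ j, x (j + 1) ≠ 0 ∧ ‖x (j + 1)‖ ≤ ‖lam‖ ^ (j + 1) := by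
  classical
  have hc0 := charZero_of_nat hnat
  have hPne : P ≠ 0 := by
    rintro rfl
    simp at hP1
  have hQne : Q ≠ 0 := by
    rintro rfl
    rw [isCoprime_zero_right] at hco
    have := natDegree_eq_zero_of_isUnit hco
    rw [this, natDegree_zero] at hdeg
    exact lt_irrefl _ hdeg
  have hnocommon : ∀ x, P.eval x = 0 → Q.eval x ≠ 0 := by
    intro x hx hx'
    obtain ⟨a, b, hab⟩ := hco
    have := congrArg (fun f => f.eval x) hab
    simp [hx, hx'] at this
  have hQ0 : Q.eval 0 ≠ 0 := hnocommon 0 hP0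
  set S := P.roots.toFinset ∪ Q.roots.toFinset with hS
  have hSP : P.roots.toFinset ⊆ S := Finset.subset_union_left
  have hSQ : Q.roots.toFinset ⊆ S := Finset.subset_union_right
  have hmemS : ∀ x, x ∈ S ↔ P.eval x = 0 ∨ Q.eval x = 0 := by
    intro x
    rw [hS, Finset.mem_union, Multiset.mem_toFinset, Multiset.mem_toFinset, mem_roots hPne,
      mem_roots hQne]
    rfl
  set n : Ω → ℤ := fun s => (P.rootMultiplicity s : ℤ) - Q.rootMultiplicity s with hn
  have hn' : ∀ s ∈ S, n s ≠ 0 := by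
    intro s hs
    simp only [hn]
    rcases (hmemS s).mp hs with h | h
    · have h1 : 0 < P.rootMultiplicity s := (rootMultiplicity_pos hPne).mpr h
      have h2 : Q.rootMultiplicity s = 0 := rootMultiplicity_eq_zero (hnocommon s h)
      rw [h2]
      omega
    · have h1 : 0 < Q.rootMultiplicity s := (rootMultiplicity_pos hQne).mpr h
      have h2 : P.rootMultiplicity s = 0 :=
        rootMultiplicity_eq_zero fun h' => hnocommon s h' h
      rw [h2]
      omega
  have h0S : (0 : Ω) ∈ S := (hmemS 0).mpr (Or.inl hP0)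
  have hmult0 : P.rootMultiplicity 0 = 1 := by
    apply le_antisymm
    · by_contra hcon
      push Not at hcon
      have h1 := (one_lt_rootMultiplicity_iff_isRoot hPne).mp hcon
      exact hP1 h1.2
    · exact Nat.succ_le_of_lt ((rootMultiplicity_pos hPne).mpr hP0)
  have hn0 : n 0 = 1 := by
    simp only [hn]
    rw [hmult0, rootMultiplicity_eq_zero hQ0]
    norm_num
  have hsum : ∑ s ∈ S, n s ≠ 0 := by
    simp only [hn]
    rw [Finset.sum_sub_distrib, sum_mult P S hSP, sum_mult Q S hSQ]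
    omega
  obtain ⟨s₁, hs₁, hmin⟩ := (S.erase 0).exists_min_image (fun s => ‖s‖)
    ⟨z, Finset.mem_erase.mpr ⟨hz, (hmemS z).mpr (Or.inl hPz)⟩⟩
  rw [Finset.mem_erase] at hs₁
  have hs₁z : ‖s₁‖ ≤ 1 :=
    (hmin z (Finset.mem_erase.mpr ⟨hz, (hmemS z).mpr (Or.inl hPz)⟩)).trans hz1
  have hs₁pos : 0 < ‖s₁‖ := norm_pos_iff.mpr hs₁.1
  obtain ⟨c, hcS, hcN, hcv⟩ := exists_free_zero hnat hnt S n hn' h0S hn0 hsum s₁ hs₁.2 hs₁.1
    (fun s hs hs0 => hmin s (Finset.mem_erase.mpr ⟨hs0, hs⟩))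
  have hPc : ∀ x, x ∉ S → P.eval x ≠ 0 := fun x hx h => hx ((hmemS x).mpr (Or.inl h))
  have hQc : ∀ x, x ∉ S → Q.eval x ≠ 0 := fun x hx h => hx ((hmemS x).mpr (Or.inr h))
  -- the critical point
  have hW : (derivative P * Q - P * derivative Q).eval c = 0 := by
    rw [eval_sub, eval_mul, eval_mul, log_deriv P S hSP c (hPc c hcS),
      log_deriv Q S hSQ c (hQc c hcS)]
    have h1 := Num_eval S n c hcS
    rw [hcN] at h1
    have h2 : ∏ t ∈ S, (c - t) ≠ 0 := Finset.prod_ne_zero_iff.mpr fun t ht =>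
      sub_ne_zero.mpr fun h => hcS (h ▸ ht)
    have h3 : ∑ s ∈ S, (n s : Ω) / (c - s) = 0 := by
      rcases mul_eq_zero.mp h1.symm with h | h
      · exact absurd h h2
      · exact h
    have h4 : ∑ s ∈ S, (n s : Ω) / (c - s) = ∑ s ∈ S, (P.rootMultiplicity s : Ω) / (c - s) -
        ∑ s ∈ S, (Q.rootMultiplicity s : Ω) / (c - s) := by
      rw [← Finset.sum_sub_distrib]
      apply Finset.sum_congr rfl
      intro s _
      simp only [hn]
      push_cast
      ring
    rw [h4] at h3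
    linear_combination (P.eval c * Q.eval c) * h3
  -- the norm of the function
  set κ : ℝ := ‖P.leadingCoeff‖ / ‖Q.leadingCoeff‖ with hκ
  have hval : ∀ x, x ∉ S → ‖P.eval x‖ / ‖Q.eval x‖ = κ * ∏ s ∈ S, ‖s - x‖ ^ (n s) := by
    intro x hx
    rw [norm_eval_prod P S hSP x, norm_eval_prod Q S hSQ x, mul_div_mul_comm,
      ← Finset.prod_div_distrib]
    congr 1
    apply Finset.prod_congr rfl
    intro s hs
    have : ‖s - x‖ ≠ 0 := norm_ne_zero_iff.mpr (sub_ne_zero.mpr fun h => hx (h ▸ hs))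
    simp only [hn]
    rw [zpow_sub₀ this, zpow_natCast, zpow_natCast]
  have hlamv : ‖lam‖ = κ * ∏ s ∈ S.erase 0, ‖s‖ ^ (n s) := by
    have h1 : X * P.divX = P := by
      have h2 := X_mul_divX_add P
      rw [coeff_zero_eq_eval_zero, hP0, C_0, add_zero] at h2
      exact h2
    have hD0 : P.divX ≠ 0 := by
      intro h
      rw [h, mul_zero] at h1
      exact hPne h1.symm
    have h3 : (derivative P).eval 0 = P.divX.eval 0 := by
      conv_lhs => rw [← h1]
      simp
    have h4 : P.divX.roots.toFinset ⊆ S := by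
      intro s hs
      rw [Multiset.mem_toFinset, mem_roots hD0] at hs
      rw [hmemS]
      left
      rw [← h1, eval_mul, hs.eq_zero, mul_zero]
    have h5 : ‖P.divX.leadingCoeff‖ = ‖P.leadingCoeff‖ := by
      conv_rhs => rw [← h1]
      rw [leadingCoeff_mul, leadingCoeff_X, one_mul]
    have h6 : ∀ s, P.rootMultiplicity s = (X : Polynomial Ω).rootMultiplicity s +
        P.divX.rootMultiplicity s := by
      intro s
      conv_lhs => rw [← h1]
      rw [rootMultiplicity_mul (by rw [h1]; exact hPne)]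
    have h7 : ∀ s, s ≠ 0 → P.rootMultiplicity s = P.divX.rootMultiplicity s := by
      intro s hs
      rw [h6 s, rootMultiplicity_eq_zero, zero_add]
      rw [IsRoot, eval_X]
      exact hs
    have h8 : P.divX.rootMultiplicity 0 = 0 := by
      apply rootMultiplicity_eq_zero
      rw [IsRoot, ← h3]
      exact hP1
    have h9 : ‖(derivative P).eval 0‖ =
        ‖P.leadingCoeff‖ * ∏ s ∈ S.erase 0, ‖s‖ ^ (P.rootMultiplicity s) := by
      rw [h3, norm_eval_prod P.divX S h4 0, h5, ← Finset.mul_prod_erase S _ h0S, h8, pow_zero,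
        one_mul]
      congr 1
      apply Finset.prod_congr rfl
      intro s hs
      rw [sub_zero, h7 s (Finset.ne_of_mem_erase hs)]
    have h10 : ‖Q.eval 0‖ =
        ‖Q.leadingCoeff‖ * ∏ s ∈ S.erase 0, ‖s‖ ^ (Q.rootMultiplicity s) := by
      rw [norm_eval_prod Q S hSQ 0, ← Finset.mul_prod_erase S _ h0S,
        rootMultiplicity_eq_zero hQ0, pow_zero, one_mul]
      congr 1
      apply Finset.prod_congr rfl
      intro s hs
      rw [sub_zero]
    have h11 : ‖lam‖ = ‖(derivative P).eval 0‖ / ‖Q.eval 0‖ := by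
      rw [← hlam, norm_mul, mul_div_cancel_right₀ _ (norm_ne_zero_iff.mpr hQ0)]
    rw [h11, h9, h10, mul_div_mul_comm, ← Finset.prod_div_distrib]
    congr 1
    apply Finset.prod_congr rfl
    intro s hs
    have : ‖s‖ ≠ 0 := norm_ne_zero_iff.mpr (Finset.ne_of_mem_erase hs)
    simp only [hn]
    rw [zpow_sub₀ this, zpow_natCast, zpow_natCast]
  have hcval : ‖P.eval c‖ / ‖Q.eval c‖ = ‖lam‖ * ‖s₁‖ := by
    rw [hval c hcS, hcv, hlamv]
    ring
  have hlam0 : lam ≠ 0 := by
    rintro rfl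
    rw [zero_mul] at hlam
    exact hP1 hlam.symm
  have hlpos : 0 < ‖lam‖ := norm_pos_iff.mpr hlam0
  -- points near zero
  have hsmall : ∀ x, x ≠ 0 → ‖x‖ < ‖s₁‖ → x ∉ S ∧ ‖P.eval x‖ / ‖Q.eval x‖ = ‖lam‖ * ‖x‖ := by
    intro x hx0 hx
    have hxS : x ∉ S := by
      intro h
      have := hmin x (Finset.mem_erase.mpr ⟨hx0, h⟩)
      linarith
    refine ⟨hxS, ?_⟩
    rw [hval x hxS, hlamv, ← Finset.mul_prod_erase S _ h0S, hn0, zpow_one, zero_sub, norm_neg]
    have : ∏ s ∈ S.erase 0, ‖s - x‖ ^ (n s) = ∏ s ∈ S.erase 0, ‖s‖ ^ (n s) := by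
      apply Finset.prod_congr rfl
      intro s hs
      rw [norm_sub_eq_left (hx.trans_le (hmin s hs))]
    rw [this]
    ring
  -- the orbit
  refine ⟨c, hW, ?_⟩
  set g : Ω → Ω := fun x => P.eval x / Q.eval x with hg
  have horb : ∀ j : ℕ, g^[j + 1] c ≠ 0 ∧ ‖g^[j + 1] c‖ = ‖lam‖ ^ (j + 1) * ‖s₁‖ := by
    intro j
    induction j with
    | zero =>
      have h1 : ‖g^[0 + 1] c‖ = ‖lam‖ ^ (0 + 1) * ‖s₁‖ := by
        rw [zero_add, Function.iterate_one, pow_one, ← hcval]
        simp only [hg]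
        rw [norm_div]
      refine ⟨?_, h1⟩
      apply norm_pos_iff.mp
      rw [h1]
      positivity
    | succ j ih =>
      obtain ⟨ih1, ih2⟩ := ih
      have h1 : ‖g^[j + 1] c‖ < ‖s₁‖ := by
        rw [ih2]
        have : ‖lam‖ ^ (j + 1) < 1 := pow_lt_one₀ (norm_nonneg _) hl1 (by omega)
        nlinarith
      obtain ⟨h2, h3⟩ := hsmall _ ih1 h1
      have h4 : ‖g^[j + 1 + 1] c‖ = ‖lam‖ ^ (j + 1 + 1) * ‖s₁‖ := by
        rw [Function.iterate_succ_apply']
        have : ‖g (g^[j + 1] c)‖ = ‖lam‖ * ‖g^[j + 1] c‖ := by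
          rw [← h3]
          simp only [hg]
          rw [norm_div]
        rw [this, ih2]
        ring
      refine ⟨?_, h4⟩
      apply norm_pos_iff.mp
      rw [h4]
      positivity
  refine ⟨fun j => g^[j] c, rfl, ?_, ?_⟩
  · intro j
    have hQj : Q.eval (g^[j] c) ≠ 0 := by
      rcases j with _ | j
      · exact hQc c hcS
      · obtain ⟨ih1, ih2⟩ := horb j
        apply hQc
        apply (hsmall _ ih1 _).1
        rw [ih2]
        have : ‖lam‖ ^ (j + 1) < 1 := pow_lt_one₀ (norm_nonneg _) hl1 (by omega)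
        nlinarith
    refine ⟨hQj, ?_⟩
    show g^[j + 1] c * Q.eval (g^[j] c) = P.eval (g^[j] c)
    rw [Function.iterate_succ_apply']
    simp only [hg]
    rw [div_mul_cancel₀ _ hQj]
  · intro j
    obtain ⟨h1, h2⟩ := horb j
    refine ⟨h1, ?_⟩
    show ‖g^[j + 1] c‖ ≤ _
    rw [h2]
    have : 0 ≤ ‖lam‖ ^ (j + 1) := by positivity
    nlinarith

end

end Pool.Agent.E8helper88.Mul
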