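import Pool.Agent.E8helper88.Mul.Desc
import Pool.Agent.E8helper71.UB2

/-!
# Multipliers and critical heights: ultraproducts of maps
-/

set_option linter.unusedSectionVars false
set_option linter.unusedVariables false

namespace Pool.Agent.E8helper88.Mul

open Polynomial Finset Filter
open Pool.Agent.W277.UH Pool.Agent.Y706.CH Pool.Agent.Y195.CH Pool.Agent.Y676.CH
open Pool.Agent.E8helper71.UB (UP mk mk_eq mk_eq_zero mk_surjective)

universe u v w

section
variable (Om : ℕ → Type u) [∀ j, Field (Om j)] (U : Ultrafilter ℕ)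

/-- evaluation at an index -/
abbrev ev (j : ℕ) : (∀ j, Om j) →+* Om j := Pi.evalRingHom Om j

variable {Om} {U}

lemma vh_eq (Z Y : (∀ j, Om j) × (∀ j, Om j)) :
    vh (mk Om U) Z = vh (mk Om U) Y ↔ ∀ᶠ j in (U : Filter ℕ), vh (ev Om j) Z = vh (ev Om j) Y := by
  unfold vh
  rw [Prod.mk.injEq, mk_eq, mk_eq, ← Filter.eventually_and]
  apply Filter.eventually_congr
  exact Filter.Eventually.of_forall fun j => by
    rw [Prod.mk.injEq]
    rfl

lemma vh_eq_zero (Z : (∀ j, Om j) × (∀ j, Om j)) :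
    vh (mk Om U) Z = 0 ↔ ∀ᶠ j in (U : Filter ℕ), vh (ev Om j) Z = 0 := by
  have h := vh_eq (U := U) Z 0
  have e1 : vh (mk Om U) 0 = 0 := by simp [vh]
  have e2 : ∀ j, vh (ev Om j) 0 = 0 := fun j => by simp [vh]
  rw [e1] at h
  rw [h]
  apply Filter.eventually_congr
  exact Filter.Eventually.of_forall fun j => by rw [e2]

lemma vh_lift (Z : UP Om U × UP Om U) : ∃ Y : (∀ j, Om j) × (∀ j, Om j), vh (mk Om U) Y = Z := by
  obtain ⟨a, ha⟩ := mk_surjective (K := Om) (U := U) Z.1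
  obtain ⟨b, hb⟩ := mk_surjective (K := Om) (U := U) Z.2
  exact ⟨(a, b), Prod.ext ha hb⟩

lemma vh_build (f : ∀ j, Om j × Om j) : ∃ Y : (∀ j, Om j) × (∀ j, Om j),
    ∀ j, vh (ev Om j) Y = f j :=
  ⟨(fun j => (f j).1, fun j => (f j).2), fun j => rfl⟩

/-- the map has no zeros -/
def Nz {K : Type*} [CommRing K] (d : ℕ) (p q : K[X]) : Prop :=
  ∀ Z : K × K, Z ≠ 0 → FH d p q Z ≠ 0

variable (d : ℕ) (p q : (∀ j, Om j)[X])

lemma los_Nz : Nz d (p.map (mk Om U)) (q.map (mk Om U)) ↔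
    ∀ᶠ j in (U : Filter ℕ), Nz d (p.map (ev Om j)) (q.map (ev Om j)) := by
  classical
  constructor
  · intro h
    by_contra hcon
    rw [← Ultrafilter.eventually_not] at hcon
    have h1 : ∀ j, ∃ Z : Om j × Om j, ¬ Nz d (p.map (ev Om j)) (q.map (ev Om j)) →
        Z ≠ 0 ∧ FH d (p.map (ev Om j)) (q.map (ev Om j)) Z = 0 := by
      intro j
      by_cases h2 : Nz d (p.map (ev Om j)) (q.map (ev Om j))
      · exact ⟨0, fun h => absurd h2 h⟩
      · have h3 := h2
        unfold Nz at h3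
        push Not at h3
        obtain ⟨Z, hZ, hZ2⟩ := h3
        exact ⟨Z, fun _ => ⟨hZ, hZ2⟩⟩
    choose f hf using h1
    obtain ⟨Y, hY⟩ := vh_build f
    have hY0 : vh (mk Om U) Y ≠ 0 := by
      intro h0
      rw [vh_eq_zero] at h0
      obtain ⟨j, hj1, hj2⟩ := (h0.and hcon).exists
      rw [hY] at hj1
      exact (hf j hj2).1 hj1
    apply h _ hY0
    rw [FH_hom, vh_eq_zero]
    filter_upwards [hcon] with j hj
    rw [← FH_hom, hY]
    exact (hf j hj).2
  · intro h Z hZ hZ2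
    obtain ⟨Y, rfl⟩ := vh_lift Z
    rw [FH_hom, vh_eq_zero] at hZ2
    apply hZ
    rw [vh_eq_zero]
    filter_upwards [h, hZ2] with j h1 h2
    by_contra h3
    rw [← FH_hom] at h2
    exact h1 _ h3 h2

lemma los_IsMul (n : ℕ) (lam : ∀ j, Om j) : IsMul d (p.map (mk Om U)) (q.map (mk Om U)) n
    (mk Om U lam) ↔
    ∀ᶠ j in (U : Filter ℕ), IsMul d (p.map (ev Om j)) (q.map (ev Om j)) n (lam j) := by
  classical
  have hprod : ∀ (φ : ∀ S : Type u, CommRing S → Prop), True := fun _ => trivial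
  constructor
  · rintro ⟨Z, hZ, μ, hμ, h1, h2⟩
    obtain ⟨Y, rfl⟩ := vh_lift Z
    obtain ⟨ν, rfl⟩ := mk_surjective (K := Om) (U := U) μ
    have e1 : (mk Om U ν) • vh (mk Om U) Y = vh (mk Om U) (ν • Y) := by
      unfold vh
      simp
    rw [FH_iter_hom, e1, vh_eq] at h1
    have e2 : ∏ j ∈ range n, WH d (p.map (mk Om U)) (q.map (mk Om U))
        ((FH d (p.map (mk Om U)) (q.map (mk Om U)))^[j] (vh (mk Om U) Y)) =
        mk Om U (∏ j ∈ range n, WH d p q ((FH d p q)^[j] Y)) := by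
      rw [map_prod]
      apply Finset.prod_congr rfl
      intro j _
      rw [FH_iter_hom, WH_hom]
    rw [e2, ← map_pow, ← map_mul, mk_eq] at h2
    have hZ' : ∀ᶠ j in (U : Filter ℕ), vh (ev Om j) Y ≠ 0 := by
      rw [Ultrafilter.eventually_not, ← vh_eq_zero]
      exact hZ
    have hμ' : ∀ᶠ j in (U : Filter ℕ), ν j ≠ 0 := by
      rw [Ultrafilter.eventually_not, ← mk_eq_zero]
      exact hμ
    filter_upwards [h1, h2, hZ', hμ'] with j g1 g2 g3 g4
    refine ⟨vh (ev Om j) Y, g3, ν j, g4, ?_, ?_⟩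
    · rw [FH_iter_hom, g1]
      rfl
    · have e3 : ∏ i ∈ range n, WH d (p.map (ev Om j)) (q.map (ev Om j))
          ((FH d (p.map (ev Om j)) (q.map (ev Om j)))^[i] (vh (ev Om j) Y)) =
          ev Om j (∏ i ∈ range n, WH d p q ((FH d p q)^[i] Y)) := by
        rw [map_prod]
        apply Finset.prod_congr rfl
        intro i _
        rw [FH_iter_hom, WH_hom]
      rw [e3]
      exact g2
  · intro h
    have h1 : ∀ j, ∃ (Z : Om j × Om j) (μ : Om j),
        IsMul d (p.map (ev Om j)) (q.map (ev Om j)) n (lam j) → Z ≠ 0 ∧ μ ≠ 0 ∧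
        (FH d (p.map (ev Om j)) (q.map (ev Om j)))^[n] Z = μ • Z ∧
        lam j * μ ^ 2 = ∏ i ∈ range n, WH d (p.map (ev Om j)) (q.map (ev Om j))
          ((FH d (p.map (ev Om j)) (q.map (ev Om j)))^[i] Z) := by
      intro j
      by_cases h2 : IsMul d (p.map (ev Om j)) (q.map (ev Om j)) n (lam j)
      · obtain ⟨Z, hZ, μ, hμ, g1, g2⟩ := h2
        exact ⟨Z, μ, fun _ => ⟨hZ, hμ, g1, g2⟩⟩
      · exact ⟨0, 0, fun h => absurd h h2⟩
    choose f g hfg using h1
    obtain ⟨Y, hY⟩ := vh_build f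
    refine ⟨vh (mk Om U) Y, ?_, mk Om U g, ?_, ?_, ?_⟩
    · intro h0
      rw [vh_eq_zero] at h0
      obtain ⟨j, hj1, hj2⟩ := (h0.and h).exists
      rw [hY] at hj1
      exact (hfg j hj2).1 hj1
    · intro h0
      rw [mk_eq_zero] at h0
      obtain ⟨j, hj1, hj2⟩ := (h0.and h).exists
      exact (hfg j hj2).2.1 hj1
    · have e1 : (mk Om U g) • vh (mk Om U) Y = vh (mk Om U) (g • Y) := by
        unfold vh
        simp
      rw [FH_iter_hom, e1, vh_eq]
      filter_upwards [h] with j hj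
      rw [← FH_iter_hom, hY, (hfg j hj).2.2.1]
      have e2 : vh (ev Om j) (g • Y) = g j • vh (ev Om j) Y := by
        unfold vh
        simp
      rw [e2, hY]
    · have e2 : ∏ j ∈ range n, WH d (p.map (mk Om U)) (q.map (mk Om U))
          ((FH d (p.map (mk Om U)) (q.map (mk Om U)))^[j] (vh (mk Om U) Y)) =
          mk Om U (∏ j ∈ range n, WH d p q ((FH d p q)^[j] Y)) := by
        rw [map_prod]
        apply Finset.prod_congr rfl
        intro j _
        rw [FH_iter_hom, WH_hom]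
      rw [e2, ← map_pow, ← map_mul, mk_eq]
      filter_upwards [h] with j hj
      have g2 := (hfg j hj).2.2.2
      have e3 : ∏ i ∈ range n, WH d (p.map (ev Om j)) (q.map (ev Om j))
          ((FH d (p.map (ev Om j)) (q.map (ev Om j)))^[i] (vh (ev Om j) Y)) =
          ev Om j (∏ i ∈ range n, WH d p q ((FH d p q)^[i] Y)) := by
        rw [map_prod]
        apply Finset.prod_congr rfl
        intro i _
        rw [FH_iter_hom, WH_hom]
      rw [hY] at e3
      rw [e3] at g2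
      exact g2

lemma los_CjF (u w : (∀ j, Om j)[X]) (h : ∀ᶠ j in (U : Filter ℕ),
    CjF d (p.map (ev Om j)) (q.map (ev Om j)) (u.map (ev Om j)) (w.map (ev Om j))) :
    CjF d (p.map (mk Om U)) (q.map (mk Om U)) (u.map (mk Om U)) (w.map (mk Om U)) := by
  classical
  have h1 : ∀ j, ∃ (a b c e s : Om j),
      CjF d (p.map (ev Om j)) (q.map (ev Om j)) (u.map (ev Om j)) (w.map (ev Om j)) →
      a * e - b * c ≠ 0 ∧ s ≠ 0 ∧ ∀ Z, FH d (u.map (ev Om j)) (w.map (ev Om j))
        (Ph a b c e Z) = s • Ph a b c e (FH d (p.map (ev Om j)) (q.map (ev Om j)) Z) := by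
    intro j
    by_cases h2 : CjF d (p.map (ev Om j)) (q.map (ev Om j)) (u.map (ev Om j)) (w.map (ev Om j))
    · obtain ⟨a, b, c, e, s, h3⟩ := h2
      exact ⟨a, b, c, e, s, fun _ => h3⟩
    · exact ⟨0, 0, 0, 0, 0, fun h => absurd h h2⟩
  choose a b c e s hs using h1
  refine ⟨mk Om U a, mk Om U b, mk Om U c, mk Om U e, mk Om U s, ?_, ?_, ?_⟩
  · rw [← map_mul, ← map_mul, ← map_sub]
    intro h0
    rw [mk_eq_zero] at h0
    obtain ⟨j, hj1, hj2⟩ := (h0.and h).exists
    exact (hs j hj2).1 hj1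
  · intro h0
    rw [mk_eq_zero] at h0
    obtain ⟨j, hj1, hj2⟩ := (h0.and h).exists
    exact (hs j hj2).2.1 hj1
  · intro Z
    obtain ⟨Y, rfl⟩ := vh_lift Z
    -- the linear map over the ring
    set P : (∀ j, Om j) × (∀ j, Om j) → (∀ j, Om j) × (∀ j, Om j) := fun V =>
      (a * V.1 + b * V.2, c * V.1 + e * V.2) with hP
    have e1 : ∀ V, Ph (mk Om U a) (mk Om U b) (mk Om U c) (mk Om U e) (vh (mk Om U) V) =
        vh (mk Om U) (P V) := by
      intro V
      unfold Ph vh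
      simp [hP]
    have e2 : ∀ j V, Ph (a j) (b j) (c j) (e j) (vh (ev Om j) V) = vh (ev Om j) (P V) := by
      intro j V
      unfold Ph vh
      simp [hP]
    have e3 : ∀ V, (mk Om U s) • vh (mk Om U) V = vh (mk Om U) (s • V) := by
      intro V
      unfold vh
      simp
    have e4 : ∀ j V, vh (ev Om j) (s • V) = s j • vh (ev Om j) V := by
      intro j V
      unfold vh
      simp
    rw [e1, FH_hom, FH_hom, e1, e3, vh_eq]
    filter_upwards [h] with j hj
    rw [← FH_hom, ← e2, (hs j hj).2.2, e4, ← e2, FH_hom]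

end

end Pool.Agent.E8helper88.Mul
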