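import Pool.Agent.E8helper88.Mul.McM5
import Pool.Agent.Y706.CH.Gon

/-!
# Multipliers and critical heights: uniform boundedness from the rigidity theorem
-/

set_option linter.unusedSectionVars false
set_option linter.unusedVariables false

namespace Pool.Agent.E8helper88.Mul

open Polynomial Finset
open Pool.Agent.W277.UH Pool.Agent.Y706.CH Pool.Agent.Y706.CH7

universe u v w

/-- all maps but the isotrivial and the flexible Lattes maps, points over the field -/
theorem fin_nt (hM : S_MCM.{u}) (hFIN : S_FIN2.{u, v}) : ∃ N : ℕ → ℕ → ℕ, ∀ (k : Type v)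
    (L Om : Type u) [Field k] [CharZero k] [Field L] [Algebra k L] [Field Om] [IsAlgClosed Om]
    [Algebra L Om] [Algebra k Om] [IsScalarTower k L Om] (t : L), Transcendental k t →
    FiniteDimensional (IntermediateField.adjoin k {t}) L →
    ∀ (n d : ℕ), Module.finrank (IntermediateField.adjoin k {t}) L ≤ n → 2 ≤ d →
    ∀ p q : L[X], IsCoprime p q → max p.natDegree q.natDegree = d →
    ¬ IsoP k (p.map (algebraMap L Om)) (q.map (algebraMap L Om)) d →
    ¬ LatP d (p.map (algebraMap L Om)) (q.map (algebraMap L Om)) →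
    {z : Option L | (Set.range fun j : ℕ => (ratP1 p q d)^[j] z).Finite}.encard ≤
      ((N n d : ℕ) : ℕ∞) := by
  obtain ⟨N₁, hN₁⟩ := hFIN
  have h1 : ∀ d : ℕ, ∃ Bf : ℕ → ℕ, 2 ≤ d → _ := fun d => by
    by_cases hd : 2 ≤ d
    · obtain ⟨Bf, hBf⟩ := lchM.{u, v} hM d hd
      exact ⟨Bf, fun _ => hBf⟩
    · exact ⟨fun _ => 0, fun h => absurd h hd⟩
  choose Bf hBf using h1
  refine ⟨fun n d => N₁ n d (Bf d n), ?_⟩
  intro k L Om _ _ _ _ _ _ _ _ _ t ht hfd n d hn hd p q hco hmax hiso hlat
  exact hN₁ k L t ht hfd n d _ hn hd p q hco hmax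
    (hBf d hd k L Om t ht hfd n hn p q hco hmax hiso hlat)

/-- points of bounded gonality -/
theorem fin_gon (hM : S_MCM.{u}) (hFIN : S_FIN2.{u, v}) : ∃ N : ℕ → ℕ → ℕ, ∀ (k : Type v)
    (K : Type u) [Field k] [CharZero k] [Field K] [Algebra k K] (D d : ℕ), 2 ≤ d →
    ∀ p q : K[X], IsCoprime p q → max p.natDegree q.natDegree = d →
    ¬ IsoP k (p.map (algebraMap K (AlgebraicClosure K)))
      (q.map (algebraMap K (AlgebraicClosure K))) d →
    ¬ LatP d (p.map (algebraMap K (AlgebraicClosure K)))
      (q.map (algebraMap K (AlgebraicClosure K))) →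
    {z : Option (AlgebraicClosure K) | (Set.range fun m : ℕ =>
        (ratP1 (p.map (algebraMap K (AlgebraicClosure K)))
          (q.map (algebraMap K (AlgebraicClosure K))) d)^[m] z).Finite ∧
      ∃ t : IntermediateField.adjoin K {x | z = some x}, Transcendental k t ∧
        FiniteDimensional (IntermediateField.adjoin k {t})
          (IntermediateField.adjoin K {x | z = some x}) ∧
        Module.finrank (IntermediateField.adjoin k {t})
          (IntermediateField.adjoin K {x | z = some x}) ≤ D}.encard ≤ ((N D d : ℕ) : ℕ∞) := by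
  obtain ⟨N, hN⟩ := fin_nt.{u, v} hM hFIN
  refine ⟨fun D d => (N D d + 1) * ((N D d + 1) * (2 * d ^ (N D d) + 1)), ?_⟩
  intro k K _ _ _ _ D d hd p q hco hmax hiso hlat
  refine gonc D d (N D d) hd p q hco hmax ?_
  intro E hE t ht hfd hD
  have hkEF : IsScalarTower k E (AlgebraicClosure K) :=
    IsScalarTower.of_algebraMap_eq fun x => rfl
  have hmm : ∀ g : K[X], (g.map (algebraMap K E)).map (algebraMap E (AlgebraicClosure K)) =
      g.map (algebraMap K (AlgebraicClosure K)) := by
    intro g
    rw [Polynomial.map_map, ← IsScalarTower.algebraMap_eq]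
  refine hN k E (AlgebraicClosure K) t ht hfd D d hD hd _ _
    (hco.map (Polynomial.mapRingHom (algebraMap K E))) (deg_map p q d hmax) ?_ ?_
  · rw [hmm, hmm]
    exact hiso
  · rw [hmm, hmm]
    exact hlat

end Pool.Agent.E8helper88.Mul
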