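import Pool.Agent.E8helper88.Mul.McF
import Pool.Agent.Y706.CH.Fm2
import Pool.Agent.Y706.CH.Bdg2
import Pool.Agent.Y833.CH.Ext
import Pool.Agent.Y31.BI.Bdg

/-!
# Multipliers and critical heights: families over number fields, from the rigidity theorem
-/

set_option linter.unusedSectionVars false
set_option linter.unusedVariables false

namespace Pool.Agent.E8helper88.Mul

open Polynomial
open Pool.Agent.Y706 Pool.Agent.Y706.CH7 Pool.Agent.Y706.BI Pool.Agent.Y681.BI NumberField
open Pool.Agent.H936R2 Pool.Agent.H927R2.RD H294UB Pool.Agent.W275.UB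
  Pool.Agent.W193.UB Pool.Agent.W277.UH Pool.Agent.W277.UG Pool.Agent.W277.UC

/-- families over number fields, points of bounded degree -/
theorem fin_fam (hM : S_MCM.{0}) (hFIN : S_FIN2.{0, 0}) : ∃ N : ℕ → ℕ → ℕ, ∀ (k : Type) [Field k]
    [NumberField k] (J : Type) [Fintype J] (ω : Module.Basis J ℤ (𝓞 k)) (d B : ℕ), 2 ≤ d →
    1 ≤ B → ∀ (m : ℕ) (P Q : (MvPolynomial (Fin m) k)[X]) (i : Fin m),
      max P.natDegree Q.natDegree = d → IsCoprime (generic P) (generic Q) →
      ¬ IsoP (others k i) ((generic P).map (algebraMap (RF k m) (AlgebraicClosure (RF k m))))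
        ((generic Q).map (algebraMap (RF k m) (AlgebraicClosure (RF k m)))) d →
      ¬ LatP d ((generic P).map (algebraMap (RF k m) (AlgebraicClosure (RF k m))))
        ((generic Q).map (algebraMap (RF k m) (AlgebraicClosure (RF k m)))) →
      AlmostAll ω m {v | v 0 ≠ 0 ∧ IsCoprime (special v P) (special v Q) ∧
        max (special v P).natDegree (special v Q).natDegree = d ∧
        (preperB (special v P) (special v Q) d B).encard ≤ ((N B d : ℕ) : ℕ∞)} := by
  obtain ⟨N₂, hN₂⟩ := t_FM2 (bdg2 hFIN t_BDC (Pool.Agent.Y833.CH.t_EXT Pool.Agent.Y555.CH.t_HTE))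
  have h1 : ∀ d : ℕ, ∃ Bf : ℕ → ℕ, 2 ≤ d → _ := fun d => by
    by_cases hd : 2 ≤ d
    · obtain ⟨Bf, hBf⟩ := lchM'.{0, 0} hM d hd
      exact ⟨Bf, fun _ => hBf⟩
    · exact ⟨fun _ => 0, fun h => absurd h hd⟩
  choose Bf hBf using h1
  refine ⟨fun B d => N₂ B d (Bf d 1), ?_⟩
  intro k _ _ J _ ω d B hd hB m P Q i hmaxP hco hiso hlat
  have hcz0 : CharZero (RF k m) :=
    charZero_of_injective_algebraMap (R := k) (algebraMap k _).injective
  have hinj : Function.Injective (algebraMap (MvPolynomial (Fin m) k) (RF k m)) :=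
    IsFractionRing.injective _ _
  have hmax : max (generic P).natDegree (generic Q).natDegree = d := by
    rw [generic, generic, Polynomial.natDegree_map_eq_of_injective hinj,
      Polynomial.natDegree_map_eq_of_injective hinj]
    exact hmaxP
  have hczF : CharZero (others k i) := by
    constructor
    intro a b hab
    have := congrArg (algebraMap (others k i) (RF k m)) hab
    rw [map_natCast, map_natCast] at this
    exact_mod_cast this
  obtain ⟨hfd, hfr⟩ := finrank_one_of (F := others k i) (gen_sub i)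
  exact hN₂ k J ω d B (Bf d 1) hd hB m P Q i hmaxP hco
    (hBf d hd (others k i) (RF k m) (AlgebraicClosure (RF k m)) (fun _ => rfl)
      (algebraMap (MvPolynomial (Fin m) k) (RF k m) (MvPolynomial.X i)) (tr_sub i) hfd 1 hfr
      (generic P) (generic Q) hco hmax hiso hlat)

end Pool.Agent.E8helper88.Mul
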