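import Pool.Agent.E8helper88.Mul.McM1

/-!
# Multipliers and critical heights: ultraproducts and the rigidity theorem
-/

set_option linter.unusedSectionVars false
set_option linter.unusedVariables false

namespace Pool.Agent.E8helper88.Mul

open Polynomial Finset Filter
open Pool.Agent.W277.UH Pool.Agent.Y706.CH Pool.Agent.Y195.CH Pool.Agent.Y676.CH
open Pool.Agent.E8helper71.UB (UP mk mk_eq mk_eq_zero mk_surjective)

universe u v w

section
variable {Om : ℕ → Type u} [∀ j, Field (Om j)] {U : Ultrafilter ℕ}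

lemma pack_ne (a : ℕ) (c : ℕ → ∀ j, Om j) (h : (pack Om a c).map (mk Om U) ≠ 0) :
    ∀ᶠ j in (U : Filter ℕ), (pack Om a c).map (ev Om j) ≠ 0 := by
  obtain ⟨i, hi⟩ : ∃ i, ((pack Om a c).map (mk Om U)).coeff i ≠ 0 := by
    by_contra hcon
    push Not at hcon
    apply h
    ext i
    rw [hcon i, coeff_zero]
  rw [coeff_map] at hi
  have h1 : ∀ᶠ j in (U : Filter ℕ), (pack Om a c).coeff i j ≠ 0 := by
    rw [Ultrafilter.eventually_not, ← mk_eq_zero]
    exact hi
  filter_upwards [h1] with j hj h0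
  apply hj
  have h2 := congrArg (fun f : (Om j)[X] => f.coeff i) h0
  simp only [coeff_map, coeff_zero] at h2
  exact h2

lemma los_LatF (d : ℕ) (p q : (∀ j, Om j)[X])
    (h : LatF d (p.map (mk Om U)) (q.map (mk Om U))) : ∀ᶠ j in (U : Filter ℕ),
    LatF d (p.map (ev Om j)) (q.map (ev Om j)) := by
  classical
  obtain ⟨a, A, B, hA, hB, hAd, hBd, h⟩ := h
  obtain ⟨cA, rfl⟩ := pack_lift U a A hAd
  obtain ⟨cB, rfl⟩ := pack_lift U (a + 4) B hBd
  have hA' := pack_ne a cA hA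
  have hB' := pack_ne (a + 4) cB hB
  have key : ∀ᶠ j in (U : Filter ℕ), ∀ Z : Om j × Om j,
      hev a ((pack Om a cA).map (ev Om j)) (FH d (p.map (ev Om j)) (q.map (ev Om j)) Z) *
        (WH d (p.map (ev Om j)) (q.map (ev Om j)) Z) ^ 2 *
        hev (a + 4) ((pack Om (a + 4) cB).map (ev Om j)) Z =
      d * hev a ((pack Om a cA).map (ev Om j)) Z *
        hev (a + 4) ((pack Om (a + 4) cB).map (ev Om j))
          (FH d (p.map (ev Om j)) (q.map (ev Om j)) Z) := by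
    by_contra hcon
    rw [← Ultrafilter.eventually_not] at hcon
    have h1 : ∀ j, ∃ Z : Om j × Om j, (¬ ∀ Z : Om j × Om j,
      hev a ((pack Om a cA).map (ev Om j)) (FH d (p.map (ev Om j)) (q.map (ev Om j)) Z) *
        (WH d (p.map (ev Om j)) (q.map (ev Om j)) Z) ^ 2 *
        hev (a + 4) ((pack Om (a + 4) cB).map (ev Om j)) Z =
      d * hev a ((pack Om a cA).map (ev Om j)) Z *
        hev (a + 4) ((pack Om (a + 4) cB).map (ev Om j))
          (FH d (p.map (ev Om j)) (q.map (ev Om j)) Z)) →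
        ¬ (hev a ((pack Om a cA).map (ev Om j)) (FH d (p.map (ev Om j)) (q.map (ev Om j)) Z) *
        (WH d (p.map (ev Om j)) (q.map (ev Om j)) Z) ^ 2 *
        hev (a + 4) ((pack Om (a + 4) cB).map (ev Om j)) Z =
      d * hev a ((pack Om a cA).map (ev Om j)) Z *
        hev (a + 4) ((pack Om (a + 4) cB).map (ev Om j))
          (FH d (p.map (ev Om j)) (q.map (ev Om j)) Z)) := by
      intro j
      by_cases h2 : ∀ Z : Om j × Om j,
          hev a ((pack Om a cA).map (ev Om j)) (FH d (p.map (ev Om j)) (q.map (ev Om j)) Z) *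
          (WH d (p.map (ev Om j)) (q.map (ev Om j)) Z) ^ 2 *
          hev (a + 4) ((pack Om (a + 4) cB).map (ev Om j)) Z =
        d * hev a ((pack Om a cA).map (ev Om j)) Z *
          hev (a + 4) ((pack Om (a + 4) cB).map (ev Om j))
            (FH d (p.map (ev Om j)) (q.map (ev Om j)) Z)
      · exact ⟨0, fun h => absurd h2 h⟩
      · obtain ⟨Z, hZ⟩ := not_forall.mp h2
        exact ⟨Z, fun _ => hZ⟩
    choose f hf using h1
    obtain ⟨Y, hY⟩ := vh_build f
    have h2 := h (vh (mk Om U) Y)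
    rw [FH_hom, WH_hom, hev_hom, hev_hom, hev_hom, hev_hom, ← map_natCast (mk Om U) d, ← map_pow,
      ← map_mul, ← map_mul, ← map_mul, ← map_mul, mk_eq] at h2
    obtain ⟨j, hj1, hj2⟩ := (h2.and hcon).exists
    apply hf j hj2
    rw [← hY, FH_hom, WH_hom, hev_hom, hev_hom, hev_hom, hev_hom]
    have h3 : (d : Om j) = ev Om j (d : ∀ j, Om j) := (map_natCast (ev Om j) d).symm
    rw [h3, ← map_pow, ← map_mul, ← map_mul, ← map_mul, ← map_mul]
    exact hj1
  filter_upwards [hA', hB', key] with j g1 g2 g3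
  exact ⟨a, _, _, g1, g2, natDegree_map_le.trans (pack_deg a cA),
    natDegree_map_le.trans (pack_deg (a + 4) cB), g3⟩

end

section
variable (Mf Om : ℕ → Type u) [∀ j, Field (Mf j)] [∀ j, Field (Om j)]
  [∀ j, Algebra (Mf j) (Om j)]

variable {Mf}

/-- the family of polynomials as a polynomial over the product -/
noncomputable def pk (d : ℕ) (f : ∀ j, (Mf j)[X]) : (∀ j, Om j)[X] :=
  pack Om d fun i => phi Mf Om fun j => (f j).coeff i

lemma pk_ev (d : ℕ) (f : ∀ j, (Mf j)[X]) (j : ℕ) (hf : (f j).natDegree ≤ d) :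
    (pk Om d f).map (ev Om j) = (f j).map (algebraMap (Mf j) (Om j)) := by
  apply pack_ev d _ j _ (natDegree_map_le.trans hf)
  intro i _
  rw [coeff_map, phi_apply]

lemma pk_deg (d : ℕ) (f : ∀ j, (Mf j)[X]) {S : Type*} [CommRing S] (φ : (∀ j, Om j) →+* S) :
    ((pk Om d f).map φ).natDegree ≤ d := natDegree_map_le.trans (pack_deg d _)

lemma pk_mem (d : ℕ) (f : ∀ j, (Mf j)[X]) (U : Ultrafilter ℕ) (F : Subfield (UP Om U))
    (h : ∀ i, mk Om U (phi Mf Om fun j => (f j).coeff i) ∈ F) (i : ℕ) :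
    ((pk Om d f).map (mk Om U)).coeff i ∈ F := by
  unfold pk
  rw [coeff_map, pack_coeff]
  split_ifs
  · exact h i
  · rw [map_zero]
    exact F.zero_mem

/-- the common part of the ultraproduct arguments -/
theorem ultra_gen (h : ∀ j, Mf j → ℝ) (hh : ∀ j, IsHt (h j)) (d : ℕ) (uf wf : ∀ j, (Mf j)[X])
    (hpos : ∀ j : ℕ, 0 < ∑ i ∈ range (d + 1), (h j ((uf j).coeff i) + h j ((wf j).coeff i)))
    (hF : ∀ F : Subfield (UP Om (Filter.hyperfilter ℕ)), (∀ x, IsAlgebraic F x → x ∈ F) →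
      (∀ y : ∀ j, Mf j, Sml (Filter.hyperfilter ℕ) h
        (fun j => ∑ i ∈ range (d + 1), (h j ((uf j).coeff i) + h j ((wf j).coeff i))) y →
          mk Om (Filter.hyperfilter ℕ) (phi Mf Om y) ∈ F) →
      ∀ i, ((pk Om d uf).map (mk Om (Filter.hyperfilter ℕ))).coeff i ∈ F ∧
        ((pk Om d wf).map (mk Om (Filter.hyperfilter ℕ))).coeff i ∈ F) : False := by
  classical
  set H : ℕ → ℝ := fun j => ∑ i ∈ range (d + 1), (h j ((uf j).coeff i) + h j ((wf j).coeff i))
    with hH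
  have hH0 : ∀ j, 0 ≤ H j := fun j => (hpos j).le
  set U : Ultrafilter ℕ := Filter.hyperfilter ℕ with hU
  set F' := smallField Mf Om U h hh H hH0 with hF'
  set F : Subfield (UP Om U) := (algebraicClosure F' (UP Om U)).toSubfield with hFdef
  have hFmem : ∀ x : UP Om U, x ∈ F ↔ IsAlgebraic F' x := by
    intro x
    rw [hFdef]
    exact mem_algebraicClosure_iff
  have hFcl : ∀ x : UP Om U, IsAlgebraic F x → x ∈ F := by
    intro x hx
    rw [hFmem]
    have hx' : IsAlgebraic (algebraicClosure F' (UP Om U)) x := hx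
    exact hx'.restrictScalars F'
  have hsm : ∀ y : ∀ j, Mf j, Sml U h H y → mk Om U (phi Mf Om y) ∈ F := by
    intro y hy
    rw [hFmem]
    have h4 : mk Om U (phi Mf Om y) ∈ F' := (mem_smallField Mf Om U h hh H hH0 _).mpr ⟨y, rfl, hy⟩
    exact isAlgebraic_algebraMap (⟨_, h4⟩ : F')
  have hall : ∀ i ≤ d, Sml U h H (fun j => (uf j).coeff i) ∧
      Sml U h H (fun j => (wf j).coeff i) := by
    intro i hi
    obtain ⟨h1, h2⟩ := hF F hFcl hsm i
    rw [hFmem] at h1 h2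
    have e1 : ∀ f : ∀ j, (Mf j)[X], ((pk Om d f).map (mk Om U)).coeff i =
        mk Om U (phi Mf Om fun j => (f j).coeff i) := by
      intro f
      unfold pk
      rw [coeff_map, pack_coeff, if_pos hi]
    rw [e1] at h1 h2
    exact ⟨small_of_alg Mf Om U h hh H hH0 _ h1, small_of_alg Mf Om U h hh H hH0 _ h2⟩
  have hev : ∀ᶠ j in (U : Filter ℕ), ∀ i ∈ range (d + 1),
      ((4 * (d + 1) : ℕ) : ℝ) * h j ((uf j).coeff i) ≤ H j ∧
      ((4 * (d + 1) : ℕ) : ℝ) * h j ((wf j).coeff i) ≤ H j := by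
    rw [Filter.eventually_all_finset]
    intro i hi
    have h1 := hall i (Nat.lt_succ_iff.mp (Finset.mem_range.mp hi))
    exact (h1.1 _).and (h1.2 _)
  obtain ⟨j, hj⟩ := hev.exists
  have h1 : ((4 * (d + 1) : ℕ) : ℝ) * H j ≤ (2 * (d + 1) : ℕ) * H j := by
    calc ((4 * (d + 1) : ℕ) : ℝ) * H j = ∑ i ∈ range (d + 1),
          (((4 * (d + 1) : ℕ) : ℝ) * h j ((uf j).coeff i) +
            ((4 * (d + 1) : ℕ) : ℝ) * h j ((wf j).coeff i)) := by
          rw [hH]
          simp only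
          rw [Finset.mul_sum]
          exact Finset.sum_congr rfl fun i _ => mul_add _ _ _
      _ ≤ ∑ i ∈ range (d + 1), (H j + H j) :=
          Finset.sum_le_sum fun i hi => add_le_add (hj i hi).1 (hj i hi).2
      _ = (2 * (d + 1) : ℕ) * H j := by
          rw [Finset.sum_const, Finset.card_range, nsmul_eq_mul]
          push_cast
          ring
  have h2 := hpos j
  have h3 := le_of_mul_le_mul_right h1 h2
  have h4 : (4 * (d + 1) : ℕ) ≤ 2 * (d + 1) := by exact_mod_cast h3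
  omega

end

section
variable (Mf Om : ℕ → Type u) [∀ j, Field (Mf j)] [∀ j, Field (Om j)]
  [∀ j, IsAlgClosed (Om j)] [∀ j, CharZero (Om j)] [∀ j, Algebra (Mf j) (Om j)]

variable {Mf}

lemma pk_good (U : Ultrafilter ℕ) (d : ℕ) (hd : 1 ≤ d) (uf wf : ∀ j, (Mf j)[X])
    (hco : ∀ j, IsCoprime (uf j) (wf j)) (hmax : ∀ j, max (uf j).natDegree (wf j).natDegree = d) :
    IsCoprime ((pk Om d uf).map (mk Om U)) ((pk Om d wf).map (mk Om U)) ∧
      max ((pk Om d uf).map (mk Om U)).natDegree ((pk Om d wf).map (mk Om U)).natDegree = d := by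
  have hud : ∀ j, (uf j).natDegree ≤ d := fun j => (hmax j) ▸ le_max_left _ _
  have hwd : ∀ j, (wf j).natDegree ≤ d := fun j => (hmax j) ▸ le_max_right _ _
  apply good_of_Nz d _ _ (pk_deg Om d uf _) (pk_deg Om d wf _)
  rw [los_Nz]
  apply Filter.Eventually.of_forall
  intro j
  rw [pk_ev Om d uf j (hud j), pk_ev Om d wf j (hwd j)]
  exact Nz_of_good d hd _ _ ((Polynomial.isCoprime_map _).mpr (hco j)) (max_map _ _ _ d (hmax j))

/-- no sequence of normalised maps of small multipliers and large coefficients -/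
theorem ultra_seqM (hM : S_MCM.{u})
    (h : ∀ j, Mf j → ℝ) (hh : ∀ j, IsHt (h j)) (d : ℕ) (hd : 2 ≤ d) (n₁ n₂ : ℕ)
    (hn : n₂ < n₁) (uf wf : ∀ j, (Mf j)[X]) (hco : ∀ j, IsCoprime (uf j) (wf j))
    (hmax : ∀ j, max (uf j).natDegree (wf j).natDegree = d)
    (hN : ∀ j, Nrm d n₁ n₂ ((uf j).map (algebraMap (Mf j) (Om j)))
      ((wf j).map (algebraMap (Mf j) (Om j))))
    (hlat : ∀ j, ¬ LatF d ((uf j).map (algebraMap (Mf j) (Om j)))
      ((wf j).map (algebraMap (Mf j) (Om j)))) (A : ℕ → ℝ) (hA : ∀ j, 0 ≤ A j)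
    (hmul : ∀ j n, 1 ≤ n → n ≤ j → ∀ lam : Om j,
      IsMul d ((uf j).map (algebraMap (Mf j) (Om j))) ((wf j).map (algebraMap (Mf j) (Om j))) n lam →
      ∃ l : Mf j, algebraMap (Mf j) (Om j) l = lam ∧ h j l ≤ A j)
    (hbad : ∀ j : ℕ, j * A j < ∑ i ∈ range (d + 1), (h j ((uf j).coeff i) + h j ((wf j).coeff i))) :
    False := by
  classical
  set U : Ultrafilter ℕ := Filter.hyperfilter ℕ with hU
  have hUtop : ∀ s : ℕ, ∀ᶠ j in (U : Filter ℕ), s ≤ j := fun s =>
    Nat.hyperfilter_le_atTop (Filter.eventually_ge_atTop s)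
  have hud : ∀ j, (uf j).natDegree ≤ d := fun j => (hmax j) ▸ le_max_left _ _
  have hwd : ∀ j, (wf j).natDegree ≤ d := fun j => (hmax j) ▸ le_max_right _ _
  obtain ⟨hcopq, hmaxpq⟩ := pk_good Om U d (by omega) uf wf hco hmax
  have hNpq : Nrm d n₁ n₂ ((pk Om d uf).map (mk Om U)) ((pk Om d wf).map (mk Om U)) :=
    los_Nrm d n₁ n₂ _ _ fun j => by
      rw [pk_ev Om d uf j (hud j), pk_ev Om d wf j (hwd j)]
      exact hN j
  refine ultra_gen Om h hh d uf wf (fun j => lt_of_le_of_lt (mul_nonneg (Nat.cast_nonneg j)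
    (hA j)) (hbad j)) ?_
  intro F hFcl hsm
  have hmulF : ∀ n, 1 ≤ n → ∀ lam, IsMul d ((pk Om d uf).map (mk Om U))
      ((pk Om d wf).map (mk Om U)) n lam → lam ∈ F := by
    intro n h1 lam hlam
    obtain ⟨lam', rfl⟩ := mk_surjective (K := Om) (U := U) lam
    rw [los_IsMul] at hlam
    have h3 : ∀ j, ∃ l : Mf j, n ≤ j → IsMul d ((pk Om d uf).map (ev Om j))
        ((pk Om d wf).map (ev Om j)) n (lam' j) →
        algebraMap (Mf j) (Om j) l = lam' j ∧ h j l ≤ A j := by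
      intro j
      by_cases hj : n ≤ j
      · by_cases h4 : IsMul d ((pk Om d uf).map (ev Om j)) ((pk Om d wf).map (ev Om j)) n (lam' j)
        · have h5 := h4
          rw [pk_ev Om d uf j (hud j), pk_ev Om d wf j (hwd j)] at h5
          obtain ⟨l, hl⟩ := hmul j n h1 hj _ h5
          exact ⟨l, fun _ _ => hl⟩
        · exact ⟨0, fun _ h => absurd h h4⟩
      · exact ⟨0, fun h => absurd h hj⟩
    choose l hl using h3
    have h4 : mk Om U (phi Mf Om l) = mk Om U lam' := by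
      rw [mk_eq]
      filter_upwards [hlam, hUtop n] with j hj hjn
      rw [phi_apply]
      exact (hl j hjn hj).1
    rw [← h4]
    apply hsm
    intro s
    filter_upwards [hlam, hUtop s, hUtop n] with j hj hs hjn
    have h5 := (hl j hjn hj).2
    have h6 : (s : ℝ) * h j (l j) ≤ j * A j := by
      have hs' : (s : ℝ) ≤ j := by exact_mod_cast hs
      exact mul_le_mul hs' h5 ((hh j).nonneg _) (Nat.cast_nonneg j)
    exact h6.trans (hbad j).le
  rcases hM (UP Om U) F hFcl d hd _ _ hcopq hmaxpq hmulF with ⟨u₀, w₀, hF0, hco₀, hmax₀, hcj⟩ | hL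
  · exact descent2 d hd u₀ w₀ _ _ hco₀ hmax₀ hcopq hmaxpq n₁ n₂ hn hNpq
      (CjF_symm _ _ _ _ _ hcj) F hFcl hF0
  · exfalso
    have hinf : Infinite (UP Om U) := inferInstance
    have h1 : LatF d ((pk Om d uf).map (mk Om U)) ((pk Om d wf).map (mk Om U)) :=
      latF_of_latP d (by omega) _ _ (pk_deg Om d uf _) (pk_deg Om d wf _)
        (wr_deg d (by omega) _ _ (pk_deg Om d uf _) (pk_deg Om d wf _)) hL
    obtain ⟨j, hj⟩ := (los_LatF d _ _ h1).exists
    rw [pk_ev Om d uf j (hud j), pk_ev Om d wf j (hwd j)] at hj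
    exact hlat j hj

/-- no sequence of conjugate maps of small and large heights -/
theorem ultra_seqC (h : ∀ j, Mf j → ℝ) (hh : ∀ j, IsHt (h j)) (d : ℕ) (hd : 2 ≤ d) (n₁ n₂ : ℕ)
    (hn : n₂ < n₁) (u₀ w₀ uf wf : ∀ j, (Mf j)[X]) (hco₀ : ∀ j, IsCoprime (u₀ j) (w₀ j))
    (hmax₀ : ∀ j, max (u₀ j).natDegree (w₀ j).natDegree = d)
    (hco : ∀ j, IsCoprime (uf j) (wf j))
    (hmax : ∀ j, max (uf j).natDegree (wf j).natDegree = d)
    (hN : ∀ j, Nrm d n₁ n₂ ((uf j).map (algebraMap (Mf j) (Om j)))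
      ((wf j).map (algebraMap (Mf j) (Om j))))
    (hcj : ∀ j, CjF d ((u₀ j).map (algebraMap (Mf j) (Om j)))
      ((w₀ j).map (algebraMap (Mf j) (Om j))) ((uf j).map (algebraMap (Mf j) (Om j)))
      ((wf j).map (algebraMap (Mf j) (Om j)))) (A : ℕ → ℝ) (hA : ∀ j, 0 ≤ A j)
    (hcoef : ∀ j i, h j ((u₀ j).coeff i) ≤ A j ∧ h j ((w₀ j).coeff i) ≤ A j)
    (hbad : ∀ j : ℕ, j * A j < ∑ i ∈ range (d + 1), (h j ((uf j).coeff i) + h j ((wf j).coeff i))) :
    False := by
  classical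
  set U : Ultrafilter ℕ := Filter.hyperfilter ℕ with hU
  have hUtop : ∀ s : ℕ, ∀ᶠ j in (U : Filter ℕ), s ≤ j := fun s =>
    Nat.hyperfilter_le_atTop (Filter.eventually_ge_atTop s)
  have hud : ∀ j, (uf j).natDegree ≤ d := fun j => (hmax j) ▸ le_max_left _ _
  have hwd : ∀ j, (wf j).natDegree ≤ d := fun j => (hmax j) ▸ le_max_right _ _
  have hud₀ : ∀ j, (u₀ j).natDegree ≤ d := fun j => (hmax₀ j) ▸ le_max_left _ _
  have hwd₀ : ∀ j, (w₀ j).natDegree ≤ d := fun j => (hmax₀ j) ▸ le_max_right _ _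
  obtain ⟨hcopq, hmaxpq⟩ := pk_good Om U d (by omega) uf wf hco hmax
  obtain ⟨hcopq₀, hmaxpq₀⟩ := pk_good Om U d (by omega) u₀ w₀ hco₀ hmax₀
  have hNpq : Nrm d n₁ n₂ ((pk Om d uf).map (mk Om U)) ((pk Om d wf).map (mk Om U)) :=
    los_Nrm d n₁ n₂ _ _ fun j => by
      rw [pk_ev Om d uf j (hud j), pk_ev Om d wf j (hwd j)]
      exact hN j
  have hcjpq : CjF d ((pk Om d u₀).map (mk Om U)) ((pk Om d w₀).map (mk Om U))
      ((pk Om d uf).map (mk Om U)) ((pk Om d wf).map (mk Om U)) := by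
    apply los_CjF
    apply Filter.Eventually.of_forall
    intro j
    rw [pk_ev Om d uf j (hud j), pk_ev Om d wf j (hwd j), pk_ev Om d u₀ j (hud₀ j),
      pk_ev Om d w₀ j (hwd₀ j)]
    exact hcj j
  refine ultra_gen Om h hh d uf wf (fun j => lt_of_le_of_lt (mul_nonneg (Nat.cast_nonneg j)
    (hA j)) (hbad j)) ?_
  intro F hFcl hsm
  have hsmall : ∀ y : ∀ j, Mf j, (∀ j, h j (y j) ≤ A j) → mk Om U (phi Mf Om y) ∈ F := by
    intro y hy
    apply hsm
    intro s
    filter_upwards [hUtop s] with j hs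
    have h6 : (s : ℝ) * h j (y j) ≤ j * A j := by
      have hs' : (s : ℝ) ≤ j := by exact_mod_cast hs
      exact mul_le_mul hs' (hy j) ((hh j).nonneg _) (Nat.cast_nonneg j)
    exact h6.trans (hbad j).le
  exact descent2 d hd _ _ _ _ hcopq₀ hmaxpq₀ hcopq hmaxpq n₁ n₂ hn hNpq hcjpq F hFcl fun i =>
    ⟨pk_mem Om d u₀ U F (fun i => hsmall _ fun j => (hcoef j i).1) i,
      pk_mem Om d w₀ U F (fun i => hsmall _ fun j => (hcoef j i).2) i⟩

end

end Pool.Agent.E8helper88.Mul
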