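import Pool.Agent.E8helper88.Mul.McM2

/-!
# Multipliers and critical heights: the uniform bounds from the rigidity theorem
-/

set_option linter.unusedSectionVars false
set_option linter.unusedVariables false

namespace Pool.Agent.E8helper88.Mul

open Polynomial Finset Filter
open Pool.Agent.W277.UH Pool.Agent.Y706.CH Pool.Agent.Y195.CH Pool.Agent.Y676.CH

universe u v w

lemma sum_bad {M : Type u} [Field M] {h : M → ℝ} (hh : IsHt h) (d : ℕ) (u w : M[X])
    (hu : u.natDegree ≤ d) (hw : w.natDegree ≤ d) (T : ℝ) (hT : 0 ≤ T) (i : ℕ)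
    (hi : ¬ (h (u.coeff i) ≤ T ∧ h (w.coeff i) ≤ T)) :
    T < ∑ i ∈ range (d + 1), (h (u.coeff i) + h (w.coeff i)) := by
  have hmem : i ∈ range (d + 1) := by
    by_contra hni
    rw [Finset.mem_range, not_lt] at hni
    have h1 : u.coeff i = 0 := coeff_eq_zero_of_natDegree_lt (by omega)
    have h2 : w.coeff i = 0 := coeff_eq_zero_of_natDegree_lt (by omega)
    rw [h1, h2, hh.zero] at hi
    exact hi ⟨hT, hT⟩
  have hle : h (u.coeff i) + h (w.coeff i) ≤
      ∑ i ∈ range (d + 1), (h (u.coeff i) + h (w.coeff i)) :=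
    Finset.single_le_sum (f := fun i => h (u.coeff i) + h (w.coeff i))
      (fun i _ => add_nonneg (hh.nonneg _) (hh.nonneg _)) hmem
  have hu0 := hh.nonneg (u.coeff i)
  have hw0 := hh.nonneg (w.coeff i)
  by_cases h3 : h (u.coeff i) ≤ T
  · have h4 : ¬ h (w.coeff i) ≤ T := fun h4 => hi ⟨h3, h4⟩
    push Not at h4
    linarith
  · push Not at h3
    linarith

/-- data violating the bound -/
structure CEM (d n₁ n₂ : ℕ) (B : ℕ) : Type (u + 1) where
  M : Type u
  Om : Type u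
  [fM : Field M]
  [fO : Field Om]
  [ac : IsAlgClosed Om]
  [cz : CharZero Om]
  [al : Algebra M Om]
  h : M → ℝ
  hh : IsHt h
  u : M[X]
  w : M[X]
  co : IsCoprime u w
  mx : max u.natDegree w.natDegree = d
  nr : Nrm d n₁ n₂ (u.map (algebraMap M Om)) (w.map (algebraMap M Om))
  nl : ¬ LatF d (u.map (algebraMap M Om)) (w.map (algebraMap M Om))
  A : ℝ
  hA : 0 ≤ A
  mul : ∀ n, 1 ≤ n → n ≤ B → ∀ lam : Om,
      IsMul d (u.map (algebraMap M Om)) (w.map (algebraMap M Om)) n lam →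
      ∃ l : M, algebraMap M Om l = lam ∧ h l ≤ A
  bad : B * A < ∑ i ∈ range (d + 1), (h (u.coeff i) + h (w.coeff i))

/-- **The main bound from the rigidity theorem.** The height of a normalised map is at most a
constant times the largest height of its multipliers, except for flexible Lattes maps. -/
theorem ultraM (hM : S_MCM.{u}) (d : ℕ) (hd : 2 ≤ d) (n₁ n₂ : ℕ) (hn : n₂ < n₁) : ∃ B : ℕ,
    ∀ (M Om : Type u) [Field M] [Field Om] [IsAlgClosed Om] [CharZero Om] [Algebra M Om]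
    (h : M → ℝ) (hh : IsHt h) (u w : M[X]) (hco : IsCoprime u w)
    (hmax : max u.natDegree w.natDegree = d)
    (hN : Nrm d n₁ n₂ (u.map (algebraMap M Om)) (w.map (algebraMap M Om)))
    (hlat : ¬ LatF d (u.map (algebraMap M Om)) (w.map (algebraMap M Om)))
    (A : ℝ) (hA : 0 ≤ A) (hmul : ∀ n, 1 ≤ n → n ≤ B → ∀ lam : Om,
      IsMul d (u.map (algebraMap M Om)) (w.map (algebraMap M Om)) n lam →
      ∃ l : M, algebraMap M Om l = lam ∧ h l ≤ A) (i : ℕ),
    h (u.coeff i) ≤ B * A ∧ h (w.coeff i) ≤ B * A := by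
  by_contra hcon
  have h1 : ∀ B : ℕ, Nonempty (CEM.{u} d n₁ n₂ B) := by
    intro B
    by_contra hne
    apply hcon
    refine ⟨B, ?_⟩
    intro M Om _ _ _ _ _ h hh u w hco hmax hN hlat A hA hmul i
    by_contra hi
    exact hne ⟨⟨M, Om, h, hh, u, w, hco, hmax, hN, hlat, A, hA, hmul,
      sum_bad hh d u w (hmax ▸ le_max_left _ _) (hmax ▸ le_max_right _ _) _
        (mul_nonneg (Nat.cast_nonneg B) hA) i hi⟩⟩
  have X : ∀ B : ℕ, CEM.{u} d n₁ n₂ B := fun B => (h1 B).some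
  exact @ultra_seqM (fun B => (X B).M) (fun B => (X B).Om) (fun B => (X B).fM) (fun B => (X B).fO)
    (fun B => (X B).ac) (fun B => (X B).cz) (fun B => (X B).al) hM (fun B => (X B).h)
    (fun B => (X B).hh) d hd n₁ n₂ hn (fun B => (X B).u) (fun B => (X B).w)
    (fun B => (X B).co) (fun B => (X B).mx) (fun B => (X B).nr) (fun B => (X B).nl)
    (fun B => (X B).A) (fun B => (X B).hA) (fun B => (X B).mul) (fun B => (X B).bad)

/-- data violating the bound -/
structure CEC (d n₁ n₂ : ℕ) (B : ℕ) : Type (u + 1) where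
  M : Type u
  Om : Type u
  [fM : Field M]
  [fO : Field Om]
  [ac : IsAlgClosed Om]
  [cz : CharZero Om]
  [al : Algebra M Om]
  h : M → ℝ
  hh : IsHt h
  u₀ : M[X]
  w₀ : M[X]
  u : M[X]
  w : M[X]
  co₀ : IsCoprime u₀ w₀
  mx₀ : max u₀.natDegree w₀.natDegree = d
  co : IsCoprime u w
  mx : max u.natDegree w.natDegree = d
  nr : Nrm d n₁ n₂ (u.map (algebraMap M Om)) (w.map (algebraMap M Om))
  cj : CjF d (u₀.map (algebraMap M Om)) (w₀.map (algebraMap M Om)) (u.map (algebraMap M Om))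
    (w.map (algebraMap M Om))
  A : ℝ
  hA : 0 ≤ A
  coef : ∀ i, h (u₀.coeff i) ≤ A ∧ h (w₀.coeff i) ≤ A
  bad : B * A < ∑ i ∈ range (d + 1), (h (u.coeff i) + h (w.coeff i))

/-- **Change of normalisation.** -/
theorem ultraC (d : ℕ) (hd : 2 ≤ d) (n₁ n₂ : ℕ) (hn : n₂ < n₁) : ∃ B : ℕ,
    ∀ (M Om : Type u) [Field M] [Field Om] [IsAlgClosed Om] [CharZero Om] [Algebra M Om]
    (h : M → ℝ) (hh : IsHt h) (u₀ w₀ u w : M[X]) (hco₀ : IsCoprime u₀ w₀)
    (hmax₀ : max u₀.natDegree w₀.natDegree = d) (hco : IsCoprime u w)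
    (hmax : max u.natDegree w.natDegree = d)
    (hN : Nrm d n₁ n₂ (u.map (algebraMap M Om)) (w.map (algebraMap M Om)))
    (hcj : CjF d (u₀.map (algebraMap M Om)) (w₀.map (algebraMap M Om))
      (u.map (algebraMap M Om)) (w.map (algebraMap M Om)))
    (A : ℝ) (hA : 0 ≤ A) (hcoef : ∀ i, h (u₀.coeff i) ≤ A ∧ h (w₀.coeff i) ≤ A) (i : ℕ),
    h (u.coeff i) ≤ B * A ∧ h (w.coeff i) ≤ B * A := by
  by_contra hcon
  have h1 : ∀ B : ℕ, Nonempty (CEC.{u} d n₁ n₂ B) := by
    intro B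
    by_contra hne
    apply hcon
    refine ⟨B, ?_⟩
    intro M Om _ _ _ _ _ h hh u₀ w₀ u w hco₀ hmax₀ hco hmax hN hcj A hA hcoef i
    by_contra hi
    exact hne ⟨⟨M, Om, h, hh, u₀, w₀, u, w, hco₀, hmax₀, hco, hmax, hN, hcj, A, hA, hcoef,
      sum_bad hh d u w (hmax ▸ le_max_left _ _) (hmax ▸ le_max_right _ _) _
        (mul_nonneg (Nat.cast_nonneg B) hA) i hi⟩⟩
  have X : ∀ B : ℕ, CEC.{u} d n₁ n₂ B := fun B => (h1 B).some
  exact @ultra_seqC (fun B => (X B).M) (fun B => (X B).Om) (fun B => (X B).fM) (fun B => (X B).fO)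
    (fun B => (X B).ac) (fun B => (X B).cz) (fun B => (X B).al) (fun B => (X B).h)
    (fun B => (X B).hh) d hd n₁ n₂ hn (fun B => (X B).u₀) (fun B => (X B).w₀) (fun B => (X B).u)
    (fun B => (X B).w) (fun B => (X B).co₀) (fun B => (X B).mx₀)
    (fun B => (X B).co) (fun B => (X B).mx) (fun B => (X B).nr) (fun B => (X B).cj)
    (fun B => (X B).A) (fun B => (X B).hA) (fun B => (X B).coef) (fun B => (X B).bad)

end Pool.Agent.E8helper88.Mul
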