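import Pool.Agent.E8helper88.Mul.McM3
import Pool.Agent.E8helper88.Mul.Core3
import Pool.Agent.E8helper88.Mul.MF
import Pool.Agent.E8helper88.Mul.Iso2

/-!
# Multipliers and critical heights: the core theorem from the rigidity theorem
-/

set_option linter.unusedSectionVars false
set_option linter.unusedVariables false

namespace Pool.Agent.E8helper88.Mul

open Polynomial Finset
open Pool.Agent.W277.UB Pool.Agent.W277.UG
open Pool.Agent.W277.UB.PlaceData
open Pool.Agent.W277.UH Pool.Agent.Y706.CH Pool.Agent.Y195.CH Pool.Agent.Y676.CH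

universe u v w

/-- the points with `f³ = f²` are rational -/
def Rat32 {M : Type u} [Field M] (Om : Type v) [Field Om] [Algebra M Om] (d : ℕ)
    (p q : M[X]) : Prop :=
  ∀ Z : Om × Om, Z ≠ 0 →
    wd ((FH d (p.map (algebraMap M Om)) (q.map (algebraMap M Om)))^[3] Z)
      ((FH d (p.map (algebraMap M Om)) (q.map (algebraMap M Om)))^[2] Z) = 0 →
    ∃ t : Om, t ≠ 0 ∧ ∃ Y : M × M, Z = t • vh (algebraMap M Om) Y

section
variable {K : Type u} [Field K]

/-- the polynomial of the points with `f³ = f²` -/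
noncomputable def WQ (d : ℕ) (p q : K[X]) : K[X] :=
  (itP d p q 3).1 * (itP d p q 2).2 - (itP d p q 3).2 * (itP d p q 2).1

lemma WQ_ne [CharZero K] (d : ℕ) (hd : 2 ≤ d) (p q : K[X])
    (hmax : max p.natDegree q.natDegree = d) (hco : IsCoprime p q) : WQ d p q ≠ 0 := by
  intro h0
  have hinf : Infinite K := inferInstance
  have hfin := finite_pts d hd p q hmax hco 3 2 (by omega)
  have hsub : Set.range (some : K → Option K) ⊆
      {z | wd ((FH d p q)^[3] (vec z)) ((FH d p q)^[2] (vec z)) = 0} := by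
    rintro _ ⟨x, rfl⟩
    show wd ((FH d p q)^[3] (x, 1)) ((FH d p q)^[2] (x, 1)) = 0
    rw [← itP_eval, ← itP_eval]
    unfold wd
    simp only
    rw [← eval_mul, ← eval_mul, ← eval_sub]
    have h1 : (itP d p q 3).1 * (itP d p q 2).2 - (itP d p q 3).2 * (itP d p q 2).1 = 0 := h0
    rw [h1, eval_zero]
  exact (Set.infinite_range_of_injective (Option.some_injective K)) (hfin.subset hsub)

lemma WQ_deg (d : ℕ) (p q : K[X]) : (WQ d p q).natDegree ≤ d ^ 3 + d ^ 2 := by
  unfold WQ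
  have h1 := itP_deg d p q 3
  have h2 := itP_deg d p q 2
  refine (natDegree_sub_le _ _).trans (max_le ?_ ?_)
  · exact natDegree_mul_le.trans (add_le_add h1.1 h2.2)
  · exact natDegree_mul_le.trans (add_le_add h1.2 h2.1)

end

/-- the degree of the field of the marked points -/
def wpd2 (d m : ℕ) : ℕ := wpd d m + (d ^ 3 + d ^ 2)

/-- **The field of the marked points.** -/
theorem exists_M2 (d m : ℕ) (hd : 2 ≤ d) (L : Type u) [Field L] [CharZero L] (Om : Type v)
    [Field Om] [Algebra L Om] (p q : L[X])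
    (hmax : max p.natDegree q.natDegree = d) (hco : IsCoprime p q) :
    ∃ M : IntermediateField L Om, FiniteDimensional L M ∧
      Module.finrank L M ≤ (wpd2 d m + 1) ^ wpd2 d m ∧
      RatPts Om d m (p.map (algebraMap L M)) (q.map (algebraMap L M)) ∧
      Rat32 Om d (p.map (algebraMap L M)) (q.map (algebraMap L M)) := by
  set W := WP d m p q * WQ d p q with hW
  have hW0 : W ≠ 0 := mul_ne_zero (WP_ne d hd m p q hmax hco) (WQ_ne d hd p q hmax hco)
  have hWd : W.natDegree ≤ wpd2 d m :=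
    natDegree_mul_le.trans (add_le_add (WP_deg d m p q) (WQ_deg d p q))
  obtain ⟨hfd, hfr⟩ := Pool.Agent.Y555.CH.t_DEG L Om W (wpd2 d m) hW0 hWd
  refine ⟨IntermediateField.adjoin L (W.rootSet Om), hfd, hfr, ?_, ?_⟩
  · set M := IntermediateField.adjoin L (W.rootSet Om) with hM
    have cOm : CharZero Om := charZero_of_injective_algebraMap (algebraMap L Om).injective
    intro n hn hnm Z hZ hprop
    have emap : ∀ f : L[X], (f.map (algebraMap L M)).map (algebraMap M Om) =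
        f.map (algebraMap L Om) := by
      intro f
      rw [Polynomial.map_map, ← IsScalarTower.algebraMap_eq]
    rw [emap, emap] at hprop
    apply rat_of_root M Z hZ
    intro x t ht hZt'
    have hroot : aeval x W = 0 := by
      rw [hW, map_mul]
      apply mul_eq_zero_of_left
      unfold WP
      rw [map_prod]
      apply Finset.prod_eq_zero (Finset.mem_Icc.mpr ⟨hn, hnm⟩)
      rw [map_mul, mul_eq_zero]
      have e1 := itP_map (algebraMap L Om) d p q n
      have e2 := itP_map (algebraMap L Om) d p q (2 * n)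
      rcases hprop with h | h
      · left
        rw [hZt', FH_iter_smul, FH_iter_smul, wd_smul_left', wd_smul_right'] at h
        have h2 := (mul_eq_zero.mp ((mul_eq_zero.mp h).resolve_left
          (pow_ne_zero _ ht))).resolve_left (pow_ne_zero _ ht)
        rw [← itP_eval, ← itP_eval, e1, e2] at h2
        unfold wd at h2
        simp only at h2
        rw [map_sub, map_mul, map_mul]
        simp only [← eval_map_algebraMap]
        exact h2
      · right
        have h1 := prod_smul d (by omega) (p.map (algebraMap L Om)) (q.map (algebraMap L Om)) n t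
          ((x, 1) : Om × Om)
        rw [← hZt', h, mul_zero] at h1
        have h2 := (mul_eq_zero.mp h1.symm).resolve_left (pow_ne_zero _ ht)
        have hp : (p.map (algebraMap L Om)).natDegree ≤ d :=
          natDegree_map_le.trans (hmax ▸ le_max_left _ _)
        have hq : (q.map (algebraMap L Om)).natDegree ≤ d :=
          natDegree_map_le.trans (hmax ▸ le_max_right _ _)
        rw [← itP_wr d (by omega) _ _ hp hq, e1, wr_map] at h2
        rw [← eval_map_algebraMap]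
        exact h2
    apply IntermediateField.subset_adjoin
    rw [mem_rootSet]
    exact ⟨hW0, hroot⟩
  · set M := IntermediateField.adjoin L (W.rootSet Om) with hM
    intro Z hZ h
    have emap : ∀ f : L[X], (f.map (algebraMap L M)).map (algebraMap M Om) =
        f.map (algebraMap L Om) := by
      intro f
      rw [Polynomial.map_map, ← IsScalarTower.algebraMap_eq]
    rw [emap, emap] at h
    apply rat_of_root M Z hZ
    intro x t ht hZt'
    have hroot : aeval x W = 0 := by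
      rw [hW, map_mul]
      apply mul_eq_zero_of_right
      have e1 := itP_map (algebraMap L Om) d p q 3
      have e2 := itP_map (algebraMap L Om) d p q 2
      rw [hZt', FH_iter_smul, FH_iter_smul, wd_smul_left', wd_smul_right'] at h
      have h2 := (mul_eq_zero.mp ((mul_eq_zero.mp h).resolve_left
        (pow_ne_zero _ ht))).resolve_left (pow_ne_zero _ ht)
      rw [← itP_eval, ← itP_eval, e1, e2] at h2
      unfold wd at h2
      simp only at h2
      unfold WQ
      rw [map_sub, map_mul, map_mul]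
      simp only [← eval_map_algebraMap]
      exact h2
    apply IntermediateField.subset_adjoin
    rw [mem_rootSet]
    exact ⟨hW0, hroot⟩

/-- the normalised conjugate over the field of the marked points -/
lemma norm32 {M : Type u} [Field M] [CharZero M] {Om : Type u} [Field Om] [Algebra M Om]
    [CharZero Om] [IsAlgClosed Om] (d : ℕ) (hd : 2 ≤ d) (p q : M[X])
    (hmax : max p.natDegree q.natDegree = d) (hco : IsCoprime p q) (hrat : Rat32 Om d p q) :
    ∃ u w : M[X], IsCoprime u w ∧ max u.natDegree w.natDegree = d ∧ CjF d p q u w ∧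
      Nrm d 3 2 u w := by
  set φ := algebraMap M Om with hφ
  have hinf : Infinite M := inferInstance
  have hpo : max (p.map φ).natDegree (q.map φ).natDegree = d := max_map φ p q d hmax
  have hcoo : IsCoprime (p.map φ) (q.map φ) := (Polynomial.isCoprime_map φ).mpr hco
  obtain ⟨al, be, ga, g1, g2, g3, g4, g5, g6⟩ := marked3 d hd _ _ hpo hcoo
  obtain ⟨t1, ht1, Y1, hY1⟩ := hrat al (ne_of_wd g1).1 g4
  obtain ⟨t2, ht2, Y2, hY2⟩ := hrat be (ne_of_wd g1).2 g5
  obtain ⟨t3, ht3, Y3, hY3⟩ := hrat ga (ne_of_wd g2).1 g6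
  have hz : ∀ {x : M}, φ x = 0 → x = 0 := fun {x} h => (map_eq_zero φ).mp h
  have key : ∀ (Z : Om × Om) (t : Om) (Y : M × M), t ≠ 0 → Z = t • vh φ Y →
      wd ((FH d (p.map φ) (q.map φ))^[3] Z) ((FH d (p.map φ) (q.map φ))^[2] Z) = 0 →
      wd ((FH d p q)^[3] Y) ((FH d p q)^[2] Y) = 0 := by
    intro Z t Y ht hZ h
    rw [hZ, FH_iter_smul, FH_iter_smul, FH_iter_hom, FH_iter_hom, wd_smul_left', wd_smul_right',
      wd_hom] at h
    exact hz ((mul_eq_zero.mp ((mul_eq_zero.mp h).resolve_left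
      (pow_ne_zero _ ht))).resolve_left (pow_ne_zero _ ht))
  have k1 : wd Y1 Y2 ≠ 0 := by
    intro h
    apply g1
    rw [hY1, hY2, wd_smul_left', wd_smul_right', wd_hom, h, map_zero, mul_zero, mul_zero]
  have k2 : wd Y3 Y1 ≠ 0 := by
    intro h
    apply g2
    rw [hY3, hY1, wd_smul_left', wd_smul_right', wd_hom, h, map_zero, mul_zero, mul_zero]
  have k3 : wd Y3 Y2 ≠ 0 := by
    intro h
    apply g3
    rw [hY3, hY2, wd_smul_left', wd_smul_right', wd_hom, h, map_zero, mul_zero, mul_zero]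
  obtain ⟨u, w, a, b, c, e, s, hdet, hs, hconj, huw, humax, hone, ⟨s1, hs1, hP1⟩,
    ⟨s2, hs2, hP2⟩, ⟨s3, hs3, hP3⟩⟩ := exists_norm d (by omega) p q hmax hco Y1 Y2 Y3 k1 k2 k3
  refine ⟨u, w, huw, humax, ⟨a, b, c, e, s, hdet, hs, hconj⟩, hone, ?_, ?_, ?_⟩
  · exact (wd_conj d p q u w a b c e s hdet hs hconj 3 2 _ _ _ _ s1 s1 hs1 hs1 hP1 hP1).mpr
      (key al t1 Y1 ht1 hY1 g4)
  · exact (wd_conj d p q u w a b c e s hdet hs hconj 3 2 _ _ _ _ s2 s2 hs2 hs2 hP2 hP2).mpr
      (key be t2 Y2 ht2 hY2 g5)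
  · exact (wd_conj d p q u w a b c e s hdet hs hconj 3 2 _ _ _ _ s3 s3 hs3 hs3 hP3 hP3).mpr
      (key ga t3 Y3 ht3 hY3 g6)

lemma CjF_map {M : Type u} [Field M] [Infinite M] {Om : Type v} [Field Om] (φ : M →+* Om)
    (d : ℕ) (p q u w : M[X]) (hmax : max p.natDegree q.natDegree = d)
    (humax : max u.natDegree w.natDegree = d) (h : CjF d p q u w) :
    CjF d (p.map φ) (q.map φ) (u.map φ) (w.map φ) := by
  have hp : p.natDegree ≤ d := hmax ▸ le_max_left _ _
  have hq : q.natDegree ≤ d := hmax ▸ le_max_right _ _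
  have hu : u.natDegree ≤ d := humax ▸ le_max_left _ _
  have hw : w.natDegree ≤ d := humax ▸ le_max_right _ _
  obtain ⟨a, b, c, e, s, hdet, hs, hconj⟩ := h
  refine ⟨_, _, _, _, _, ?_, ?_, CjF_hom φ d p q u w hp hq hu hw a b c e s hconj⟩
  · rw [← map_mul, ← map_mul, ← map_sub]
    exact (_root_.map_ne_zero _).mpr hdet
  · exact (_root_.map_ne_zero _).mpr hs

/-- **The core theorem from the rigidity theorem.** -/
theorem coreM (hM : S_MCM.{u}) (d : ℕ) (hd : 2 ≤ d) : ∃ m B : ℕ, 1 ≤ m ∧ 1 ≤ B ∧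
    ∀ (k : Type v) (M Om : Type u) [Field k] [CharZero k] [Field M] [Algebra k M] [Field Om]
    [IsAlgClosed Om] [CharZero Om] [Algebra M Om] (Q : PlaceData.{w} k M) (p q : M[X]),
    IsCoprime p q → max p.natDegree q.natDegree = d →
    ¬ LatF d (p.map (algebraMap M Om)) (q.map (algebraMap M Om)) →
    RatPts Om d m p q → Rat32 Om d p q →
    (∀ u w : M[X], IsCoprime u w → max u.natDegree w.natDegree = d → CjF d p q u w →
      ∃ i, ht Q (u.coeff i) ≠ 0 ∨ ht Q (w.coeff i) ≠ 0) →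
    ∃ (u w : M[X]) (a b c e s : M), a * e - b * c ≠ 0 ∧ s ≠ 0 ∧
      (∀ Z, FH d u w (Ph a b c e Z) = s • Ph a b c e (FH d p q Z)) ∧
      IsCoprime u w ∧ max u.natDegree w.natDegree = d ∧ (wr u w).Splits ∧
      ∃ A : ℤ, 0 < A ∧ (∀ i, ht Q (u.coeff i) ≤ B * A ∧ ht Q (w.coeff i) ≤ B * A) ∧
      (∃ i, ht Q (u.coeff i) ≠ 0 ∨ ht Q (w.coeff i) ≠ 0) ∧
      ∃ n, 1 ≤ n ∧ n ≤ m ∧ ∃ x : ℕ → M, (wr (itP d u w n).1 (itP d u w n).2).eval (x 0) = 0 ∧
        (∀ j, (itP d u w n).2.eval (x j) ≠ 0 ∧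
          x (j + 1) * (itP d u w n).2.eval (x j) = (itP d u w n).1.eval (x j)) ∧
        ∀ j : ℕ, (j + 1) * A ≤ (2 * d ^ n : ℕ) * ht Q (x (j + 1)) := by
  classical
  obtain ⟨B₀, hB₀⟩ := ultraM.{u} hM d hd 3 2 (by omega)
  choose Bf hBf using fun n : ℕ => (ultraC.{u} d hd (2 * (n + 1)) (n + 1) (by omega))
  set m := B₀ + 1 with hm
  set B := (∑ n ∈ range (m + 1), Bf n) * B₀ + 1 with hB
  refine ⟨m, B, by omega, by omega, ?_⟩
  intro k M Om _ _ _ _ _ _ _ _ Q p q hco hmax hlat hrat hrat32 hiso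
  have cM : CharZero M := charZero_of_injective_algebraMap (algebraMap k M).injective
  have hinf : Infinite M := inferInstance
  set φ := algebraMap M Om with hφ
  have hpo : max (p.map φ).natDegree (q.map φ).natDegree = d := max_map φ p q d hmax
  have hcoo : IsCoprime (p.map φ) (q.map φ) := (Polynomial.isCoprime_map φ).mpr hco
  obtain ⟨u₀, w₀, huw₀, humax₀, hcj₀, hN₀⟩ := norm32 (Om := Om) d hd p q hmax hco hrat32
  have huo₀ : max (u₀.map φ).natDegree (w₀.map φ).natDegree = d := max_map φ u₀ w₀ d humax₀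
  have huwo₀ : IsCoprime (u₀.map φ) (w₀.map φ) := (Polynomial.isCoprime_map φ).mpr huw₀
  have hcjo₀ := CjF_map φ d p q u₀ w₀ hmax humax₀ hcj₀
  have hlat₀ : ¬ LatF d (u₀.map φ) (w₀.map φ) := fun h =>
    hlat (latF_conj d hd _ _ _ _ hpo huo₀ hcjo₀ h)
  have hdeg : ∀ {P Q : Om[X]}, max P.natDegree Q.natDegree = d →
      P.natDegree ≤ d ∧ Q.natDegree ≤ d := fun {P Q} h => ⟨h ▸ le_max_left _ _, h ▸ le_max_right _ _⟩
  -- multipliers
  have hmulgen : ∀ (A : ℝ), (∀ n, 1 ≤ n → n ≤ m → ∀ l : M, IsMul d p q n l → (ht Q l : ℝ) ≤ A) →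
      ∀ n, 1 ≤ n → n ≤ B₀ → ∀ lam : Om, IsMul d (u₀.map φ) (w₀.map φ) n lam →
      ∃ l : M, φ l = lam ∧ (ht Q l : ℝ) ≤ A := by
    intro A hA n h1 h2 lam hlam
    have h3 := IsMul_conj d (by omega) _ _ _ _ (hdeg huo₀).1 (hdeg huo₀).2 (hdeg hpo).1
      (hdeg hpo).2 huo₀ huwo₀ (CjF_symm _ _ _ _ _ hcjo₀) n lam hlam
    obtain ⟨l', hl', hl''⟩ := mul_rat d m hd p q hmax hco hrat n h1 (by omega) lam h3
    exact ⟨l', hl', hA n h1 (by omega) l' hl''⟩
  have hnc : ∃ n, 1 ≤ n ∧ n ≤ m ∧ ∃ l : M, IsMul d p q n l ∧ 0 < ht Q l := by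
    by_contra hcon
    push Not at hcon
    have h1 := hB₀ M Om (fun x => (ht Q x : ℝ)) isHt u₀ w₀ huw₀ humax₀ (Nrm_hom φ d 3 2 _ _ hN₀)
      hlat₀ 0 le_rfl (hmulgen 0 fun n h1 h2 l hl => by exact_mod_cast hcon n h1 h2 l hl)
    obtain ⟨i, hi⟩ := hiso u₀ w₀ huw₀ humax₀ hcj₀
    have h2 := h1 i
    simp only [mul_zero] at h2
    have h3 : ht Q (u₀.coeff i) ≤ 0 := by exact_mod_cast h2.1
    have h4 : ht Q (w₀.coeff i) ≤ 0 := by exact_mod_cast h2.2
    have h5 := ht_nonneg (Q := Q) (u₀.coeff i)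
    have h6 := ht_nonneg (Q := Q) (w₀.coeff i)
    rcases hi with hi | hi
    · omega
    · omega
  -- the multiplier of largest height
  set S : Set (ℕ × M) := ⋃ n ∈ (Finset.Icc 1 m : Set ℕ), (fun l => (n, l)) '' {l | IsMul d p q n l}
    with hS
  have hSfin : S.Finite := by
    apply Set.Finite.biUnion (Finset.finite_toSet _)
    intro n hn
    rw [Finset.coe_Icc, Set.mem_Icc] at hn
    exact (finite_mul d hd p q hmax hco n hn.1).image _
  have hSmem : ∀ n l, (n, l) ∈ S ↔ (1 ≤ n ∧ n ≤ m) ∧ IsMul d p q n l := by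
    intro n l
    rw [hS, Set.mem_iUnion₂]
    constructor
    · rintro ⟨n', hn', l', hl', h⟩
      rw [Finset.coe_Icc, Set.mem_Icc] at hn'
      have e1 : n' = n := congrArg Prod.fst h
      have e2 : l' = l := congrArg Prod.snd h
      subst e1 e2
      exact ⟨hn', hl'⟩
    · rintro ⟨hn, hl⟩
      exact ⟨n, by rw [Finset.coe_Icc, Set.mem_Icc]; exact hn, l, hl, rfl⟩
  obtain ⟨n₁, hn₁, hn₁m, l₁, hl₁, hpos₁⟩ := hnc
  obtain ⟨⟨n, l⟩, hnl, hmaxl⟩ := Set.exists_max_image S (fun x => ht Q x.2) hSfin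
    ⟨(n₁, l₁), (hSmem _ _).mpr ⟨⟨hn₁, hn₁m⟩, hl₁⟩⟩
  obtain ⟨⟨hn, hnm⟩, hl⟩ := (hSmem _ _).mp hnl
  simp only at hmaxl
  set A := ht Q l with hA
  have hApos : 0 < A := lt_of_lt_of_le hpos₁ (hmaxl _ ((hSmem _ _).mpr ⟨⟨hn₁, hn₁m⟩, hl₁⟩))
  have hb₀ := hB₀ M Om (fun x => (ht Q x : ℝ)) isHt u₀ w₀ huw₀ humax₀ (Nrm_hom φ d 3 2 _ _ hN₀)
    hlat₀ (A : ℝ) (by exact_mod_cast hApos.le) (hmulgen A fun n' h1 h2 l' hl' => by
      exact_mod_cast hmaxl (n', l') ((hSmem _ _).mpr ⟨⟨h1, h2⟩, hl'⟩))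
  refine coreG d m B hd (by omega) k M Om Q p q hco hmax hrat n hn hnm l hl A hA hApos ?_
  intro u w huw humax hcj hN i
  obtain ⟨n', rfl⟩ : ∃ n', n = n' + 1 := ⟨n - 1, by omega⟩
  have hBA : (0 : ℝ) ≤ B₀ * (A : ℝ) := mul_nonneg (Nat.cast_nonneg _) (by exact_mod_cast hApos.le)
  have h1 := hBf n' M Om (fun x => (ht Q x : ℝ)) isHt u₀ w₀ u w huw₀ humax₀ huw humax
    (Nrm_hom φ d _ _ u w hN) (CjF_trans _ _ _ _ _ _ _ (CjF_symm _ _ _ _ _ hcjo₀) hcj)
    (B₀ * A) hBA (fun i => hb₀ i) i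
  have hBle : Bf n' ≤ ∑ n ∈ range (m + 1), Bf n :=
    Finset.single_le_sum (f := fun n => Bf n) (fun _ _ => Nat.zero_le _)
      (Finset.mem_range.mpr (by omega))
  have hle : Bf n' * B₀ ≤ B := (Nat.mul_le_mul_right _ hBle).trans (Nat.le_succ _)
  have h2 : ht Q (u.coeff i) ≤ Bf n' * (B₀ * A) := by exact_mod_cast h1.1
  have h3 : ht Q (w.coeff i) ≤ Bf n' * (B₀ * A) := by exact_mod_cast h1.2
  have h4 : (Bf n' : ℤ) * (B₀ * A) ≤ B * A := by
    rw [← mul_assoc]
    exact mul_le_mul_of_nonneg_right (by exact_mod_cast hle) hApos.le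
  exact ⟨h2.trans h4, h3.trans h4⟩

end Pool.Agent.E8helper88.Mul
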