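import Pool.Agent.E8helper88.Mul.McF
import Pool.Agent.E8helper71.MC.Zero

/-!
# Multipliers and critical heights: the rigidity theorem, form of `E8helper71.MC.Zero`
-/

set_option linter.unusedSectionVars false
set_option linter.unusedVariables false

namespace Pool.Agent.E8helper88.Mul

open Polynomial Finset
open Pool.Agent.W277.UH Pool.Agent.Y706.CH Pool.Agent.Y706.CH7

universe u v w

theorem s_mcm_of_one (h : Pool.Agent.E8helper71.MC.MOne.{u}) : S_MCM.{u} := by
  intro Om _ _ _ F hF d hd p q hco hmax hmul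
  rcases Pool.Agent.E8helper71.MC.mcm_of_one h F hF d hd p q hco hmax hmul with
    ⟨A, B, N, hA, hB, hAN, hBN, hAB⟩ | ⟨u, w, huw, humax, hu, hw, hcj⟩
  · right
    refine ⟨N, A, B, hA, hB, hAN, hBN, ?_⟩
    rw [hAB]
    ring
  · left
    exact ⟨u, w, fun i => ⟨hu i, hw i⟩, huw, humax, hcj⟩

end Pool.Agent.E8helper88.Mul
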