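import Pool.Agent.E8helper88.Mul.Conj

/-!
# Multipliers and critical heights: normalised conjugates
-/

set_option linter.unusedSectionVars false
set_option linter.unusedVariables false

namespace Pool.Agent.E8helper88.Mul

open Polynomial Finset
open Pool.Agent.W277.UH Pool.Agent.Y706.CH Pool.Agent.Y195.CH Pool.Agent.Y676.CH

universe u v w

section
variable {K : Type u} [Field K]

lemma good_of_nz (d : ℕ) (p q : K[X]) (hp : p.natDegree ≤ d) (hq : q.natDegree ≤ d)
    (h : ∀ Z : AlgebraicClosure K × AlgebraicClosure K, Z ≠ 0 →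
      FH d (p.map (algebraMap K (AlgebraicClosure K)))
        (q.map (algebraMap K (AlgebraicClosure K))) Z ≠ 0) :
    IsCoprime p q ∧ max p.natDegree q.natDegree = d := by
  constructor
  · refine (isCoprime_iff_aeval_ne_zero_of_isAlgClosed (k := K) (AlgebraicClosure K) _ _).mpr ?_
    intro x
    by_contra hcon
    push Not at hcon
    apply h (x, 1) (fun h => one_ne_zero (congrArg Prod.snd h))
    unfold FH
    rw [hev_one d _ (natDegree_map_le.trans hp), hev_one d _ (natDegree_map_le.trans hq),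
      eval_map_algebraMap, eval_map_algebraMap, hcon.1, hcon.2]
    rfl
  · apply le_antisymm (max_le hp hq)
    by_contra hcon
    push Not at hcon
    rw [max_lt_iff] at hcon
    apply h (1, 0) (fun h => one_ne_zero (congrArg Prod.fst h))
    unfold FH
    rw [hev_zero, hev_zero, coeff_map, coeff_map, coeff_eq_zero_of_natDegree_lt hcon.1,
      coeff_eq_zero_of_natDegree_lt hcon.2]
    simp

lemma wd_Ph (a b c e : K) (Z V : K × K) :
    wd (Ph a b c e Z) (Ph a b c e V) = (a * e - b * c) * wd Z V := by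
  unfold wd Ph
  simp only
  ring

lemma wd_smul_left' (t : K) (Z V : K × K) : wd (t • Z) V = t * wd Z V := by
  unfold wd
  simp only [Prod.smul_fst, Prod.smul_snd, smul_eq_mul]
  ring

lemma wd_smul_right' (t : K) (Z V : K × K) : wd Z (t • V) = t * wd Z V := by
  unfold wd
  simp only [Prod.smul_fst, Prod.smul_snd, smul_eq_mul]
  ring

lemma wd_self' (Z : K × K) : wd Z Z = 0 := by
  unfold wd
  ring

lemma exists_smul_of_wd (Z V : K × K) (hV : V ≠ 0) (h : wd Z V = 0) : ∃ t : K, Z = t • V := by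
  unfold wd at h
  by_cases h1 : V.1 = 0
  · have h2 : V.2 ≠ 0 := fun h2 => hV (Prod.ext h1 h2)
    have h3 : Z.1 = 0 := by
      rw [h1, mul_zero, sub_zero] at h
      exact (mul_eq_zero.mp h).resolve_right h2
    refine ⟨Z.2 / V.2, Prod.ext ?_ ?_⟩
    · show Z.1 = Z.2 / V.2 * V.1
      rw [h1, h3, mul_zero]
    · show Z.2 = Z.2 / V.2 * V.2
      rw [div_mul_cancel₀ _ h2]
  · refine ⟨Z.1 / V.1, Prod.ext ?_ ?_⟩
    · show Z.1 = Z.1 / V.1 * V.1
      rw [div_mul_cancel₀ _ h1]
    · show Z.2 = Z.1 / V.1 * V.2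
      rw [div_mul_eq_mul_div, eq_div_iff h1]
      linear_combination -h

/-- composition with a linear map -/
lemma hev_lin (d : ℕ) (p : K[X]) (a b c e : K) (Z : K × K) :
    hev d (hc d p (C a * X + C b) (C c * X + C e)) Z = hev d p (Ph a b c e Z) := by
  have hdeg : (hc d p (C a * X + C b) (C c * X + C e)).natDegree ≤ d := by
    have := hc_degree d 1 p (C a * X + C b) (C c * X + C e) natDegree_linear_le
      natDegree_linear_le
    rwa [mul_one] at this
  have h := key d a b c e 1 (hc d p (C a * X + C b) (C c * X + C e)) 0 p hdeg (by simp) 1 0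
    (by
      rw [C_1, C_0, one_mul, one_mul, zero_mul, add_zero]
      unfold hc hev
      refine Finset.sum_congr rfl fun i _ => ?_
      rw [coeff_map]) Z
  rw [h]
  ring

/-- normalised conjugate maps -/
theorem exists_norm [Infinite K] (d : ℕ) (hd : 1 ≤ d) (p q : K[X])
    (hmax : max p.natDegree q.natDegree = d) (hco : IsCoprime p q) (al be ga : K × K)
    (h1 : wd al be ≠ 0) (h2 : wd ga al ≠ 0) (h3 : wd ga be ≠ 0) :
    ∃ (u w : K[X]) (a b c e s : K), a * e - b * c ≠ 0 ∧ s ≠ 0 ∧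
      (∀ Z, FH d u w (Ph a b c e Z) = s • Ph a b c e (FH d p q Z)) ∧
      IsCoprime u w ∧ max u.natDegree w.natDegree = d ∧
      (∃ i ≤ d, u.coeff i = 1 ∨ w.coeff i = 1) ∧
      (∃ t : K, t ≠ 0 ∧ Ph a b c e al = t • (0, 1)) ∧
      (∃ t : K, t ≠ 0 ∧ Ph a b c e be = t • (1, 0)) ∧
      ∃ t : K, t ≠ 0 ∧ Ph a b c e ga = t • (1, 1) := by
  have hp : p.natDegree ≤ d := hmax ▸ le_max_left _ _
  have hq : q.natDegree ≤ d := hmax ▸ le_max_right _ _
  set κ₁ := wd ga be with hκ₁
  set κ₂ := wd ga al with hκ₂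
  set a := κ₁ * al.2 with ha
  set b := -(κ₁ * al.1) with hb
  set c := κ₂ * be.2 with hc'
  set e := -(κ₂ * be.1) with he
  have hPh : ∀ Z, Ph a b c e Z = (κ₁ * wd Z al, κ₂ * wd Z be) := by
    intro Z
    unfold Ph wd
    refine Prod.ext ?_ ?_
    · simp only [ha, hb]
      ring
    · simp only [hc', he]
      ring
  have hdet : a * e - b * c ≠ 0 := by
    have : a * e - b * c = κ₁ * κ₂ * wd al be := by
      simp only [ha, hb, hc', he]
      unfold wd
      ring
    rw [this]
    exact mul_ne_zero (mul_ne_zero h3 h2) h1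
  set D := a * e - b * c with hD
  set L1 : K[X] := C e * X + C (-b) with hL1
  set L2 : K[X] := C (-c) * X + C a with hL2
  set u0 : K[X] := C a * hc d p L1 L2 + C b * hc d q L1 L2 with hu0
  set w0 : K[X] := C c * hc d p L1 L2 + C e * hc d q L1 L2 with hw0
  have hdeg : ∀ f : K[X], (hc d f L1 L2).natDegree ≤ d := by
    intro f
    have := hc_degree d 1 f L1 L2 natDegree_linear_le natDegree_linear_le
    rwa [mul_one] at this
  have hud : u0.natDegree ≤ d := (natDegree_add_le _ _).trans (max_le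
    ((natDegree_C_mul_le _ _).trans (hdeg _)) ((natDegree_C_mul_le _ _).trans (hdeg _)))
  have hwd : w0.natDegree ≤ d := (natDegree_add_le _ _).trans (max_le
    ((natDegree_C_mul_le _ _).trans (hdeg _)) ((natDegree_C_mul_le _ _).trans (hdeg _)))
  have hadd : ∀ {F : Type u} [Field F] (f g : F[X]) (x y : F) (Z : F × F),
      hev d (C x * f + C y * g) Z = x * hev d f Z + y * hev d g Z := by
    intro F _ f g x y Z
    unfold hev
    rw [Finset.mul_sum, Finset.mul_sum, ← Finset.sum_add_distrib]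
    apply Finset.sum_congr rfl
    intro i _
    rw [coeff_add, coeff_C_mul, coeff_C_mul]
    ring
  have hFH : ∀ Y : K × K, FH d u0 w0 Y = Ph a b c e (FH d p q (Ph e (-b) (-c) a Y)) := by
    intro Y
    unfold FH
    rw [hadd, hadd, hev_lin, hev_lin]
    rfl
  have hconj : ∀ Z, FH d u0 w0 (Ph a b c e Z) = D ^ d • Ph a b c e (FH d p q Z) := by
    intro Z
    rw [hFH, Ph_adj', ← hD, FH_smul, Ph_smul]
  have hgood : IsCoprime u0 w0 ∧ max u0.natDegree w0.natDegree = d := by
    apply good_of_nz d u0 w0 hud hwd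
    set φ := algebraMap K (AlgebraicClosure K) with hφ
    intro Z hZ hcon
    have h4 : FH d (u0.map φ) (w0.map φ) Z = Ph (φ a) (φ b) (φ c) (φ e)
        (FH d (p.map φ) (q.map φ) (Ph (φ e) (φ (-b)) (φ (-c)) (φ a) Z)) := by
      unfold FH
      rw [hu0, hw0]
      simp only [Polynomial.map_add, Polynomial.map_mul, Polynomial.map_C]
      rw [hadd, hadd, hc_map', hc_map', hL1, hL2]
      simp only [Polynomial.map_add, Polynomial.map_mul, Polynomial.map_C, Polynomial.map_X]
      rw [hev_lin, hev_lin]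
      rfl
    rw [h4] at hcon
    have hdetφ : φ a * φ e - φ b * φ c ≠ 0 := by
      rw [← map_mul, ← map_mul, ← map_sub]
      exact (map_ne_zero φ).mpr hdet
    refine Ph_ne _ _ _ _ hdetφ _ (FH_nz d hd _ _ (max_map φ p q d hmax)
      ((Polynomial.isCoprime_map φ).mpr hco) _ (Ph_ne _ _ _ _ ?_ _ hZ)) hcon
    intro h5
    apply hdetφ
    have g1 : φ (-b) = -φ b := map_neg φ b
    have g2 : φ (-c) = -φ c := map_neg φ c
    rw [g1, g2] at h5
    linear_combination h5
  -- scaling
  obtain ⟨i, hi, x, hx0, hx⟩ : ∃ i ≤ d, ∃ x : K, x ≠ 0 ∧ (u0.coeff i = x ∨ w0.coeff i = x) := by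
    rcases max_choice u0.natDegree w0.natDegree with h | h
    · refine ⟨d, le_rfl, u0.coeff d, ?_, Or.inl rfl⟩
      have h5 : u0.natDegree = d := h.symm.trans hgood.2
      rw [← h5]
      apply leadingCoeff_ne_zero.mpr
      rintro h6
      rw [h6, natDegree_zero] at h5
      omega
    · refine ⟨d, le_rfl, w0.coeff d, ?_, Or.inr rfl⟩
      have h5 : w0.natDegree = d := h.symm.trans hgood.2
      rw [← h5]
      apply leadingCoeff_ne_zero.mpr
      rintro h6
      rw [h6, natDegree_zero] at h5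
      omega
  have hxi : x⁻¹ ≠ 0 := inv_ne_zero hx0
  have hunit : IsUnit (C x⁻¹ : K[X]) := isUnit_C.mpr (IsUnit.mk0 _ hxi)
  refine ⟨C x⁻¹ * u0, C x⁻¹ * w0, a, b, c, e, x⁻¹ * D ^ d, hdet,
    mul_ne_zero hxi (pow_ne_zero _ hdet), ?_, ?_, ?_, ⟨i, hi, ?_⟩, ?_, ?_, ?_⟩
  · intro Z
    have h4 : FH d (C x⁻¹ * u0) (C x⁻¹ * w0) (Ph a b c e Z) = x⁻¹ • FH d u0 w0 (Ph a b c e Z) := by
      unfold FH
      rw [hev_C_mul, hev_C_mul]
      rfl
    rw [h4, hconj, smul_smul]
  · rw [isCoprime_mul_unit_left_left hunit, isCoprime_mul_unit_left_right hunit]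
    exact hgood.1
  · rw [natDegree_C_mul hxi, natDegree_C_mul hxi]
    exact hgood.2
  · rw [coeff_C_mul, coeff_C_mul]
    rcases hx with h | h
    · exact Or.inl (by rw [h, inv_mul_cancel₀ hx0])
    · exact Or.inr (by rw [h, inv_mul_cancel₀ hx0])
  · refine ⟨κ₂ * wd al be, mul_ne_zero h2 h1, ?_⟩
    rw [hPh, wd_self']
    refine Prod.ext ?_ ?_
    · simp
    · simp
  · refine ⟨κ₁ * wd be al, mul_ne_zero h3 ?_, ?_⟩
    · intro h
      apply h1
      unfold wd at h ⊢
      linear_combination -h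
    · rw [hPh, wd_self']
      refine Prod.ext ?_ ?_
      · simp
      · simp
  · refine ⟨κ₁ * κ₂, mul_ne_zero h3 h2, ?_⟩
    rw [hPh]
    refine Prod.ext ?_ ?_
    · simp [hκ₂]
    · simp only [hκ₁, Prod.smul_snd, smul_eq_mul, mul_one]
      ring

/-- a fixed point at `0` with another one at `∞` -/
lemma norm_iter [CharZero K] (d : ℕ) (hd : 1 ≤ d) (u w : K[X])
    (hmax : max u.natDegree w.natDegree = d) (hco : IsCoprime u w) (n : ℕ)
    (h0 : ((FH d u w)^[n] (0, 1)).1 = 0) (hinf : ((FH d u w)^[n] (1, 0)).2 = 0)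
    (h1 : ((FH d u w)^[n] (1, 1)).1 = 0) :
    (itP d u w n).1.eval 0 = 0 ∧ (itP d u w n).1.eval 1 = 0 ∧
      (itP d u w n).1.natDegree = d ^ n ∧ (itP d u w n).2.natDegree < d ^ n ∧
      (itP d u w n).2.eval 0 ≠ 0 ∧
      ∀ lam : K, lam * ((FH d u w)^[n] (0, 1)).2 ^ 2 =
        ∏ j ∈ range n, WH d u w ((FH d u w)^[j] (0, 1)) →
        lam * (itP d u w n).2.eval 0 = (derivative (itP d u w n).1).eval 0 := by
  have hp : u.natDegree ≤ d := hmax ▸ le_max_left _ _
  have hq : w.natDegree ≤ d := hmax ▸ le_max_right _ _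
  have e0 := itP_eval d u w n 0
  have e1 := itP_eval d u w n 1
  have e2 := itP_top d u w n
  have hdeg := itP_deg d u w n
  rw [← e0] at h0
  rw [← e1] at h1
  rw [← e2] at hinf
  simp only at h0 h1 hinf
  have hQ0 : (itP d u w n).2.eval 0 ≠ 0 := by
    intro h
    apply FH_iter_nz d hd u w hmax hco n (0, 1) (fun h => one_ne_zero (congrArg Prod.snd h))
    rw [← e0, h0, h]
    rfl
  have hPd : (itP d u w n).1.coeff (d ^ n) ≠ 0 := by
    intro h
    apply FH_iter_nz d hd u w hmax hco n (1, 0) (fun h => one_ne_zero (congrArg Prod.fst h))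
    rw [← e2, hinf, h]
    rfl
  refine ⟨h0, h1, le_antisymm hdeg.1 (le_natDegree_of_ne_zero hPd), ?_, hQ0, ?_⟩
  · refine lt_of_le_of_ne hdeg.2 ?_
    intro h
    have h3 : (itP d u w n).2 ≠ 0 := by
      intro h4
      rw [h4, eval_zero] at hQ0
      exact hQ0 rfl
    apply leadingCoeff_ne_zero.mpr h3
    rw [leadingCoeff, h]
    exact hinf
  · intro lam hlam
    rw [← itP_wr d hd u w hp hq n 0, ← e0, wr_eval, h0, zero_mul, sub_zero] at hlam
    simp only at hlam
    apply mul_right_cancel₀ hQ0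
    linear_combination hlam

/-- finitely many points with small orbits -/
lemma finite_pts [CharZero K] (d : ℕ) (hd : 2 ≤ d) (p q : K[X])
    (hmax : max p.natDegree q.natDegree = d) (hco : IsCoprime p q) (n₁ n₂ : ℕ) (hn : n₂ < n₁) :
    {z : Option K | wd ((FH d p q)^[n₁] (vec z)) ((FH d p q)^[n₂] (vec z)) = 0}.Finite := by
  classical
  set P₁ := (itP d p q n₁).1
  set Q₁ := (itP d p q n₁).2
  set P₂ := (itP d p q n₂).1
  set Q₂ := (itP d p q n₂).2
  have hco1 : IsCoprime P₁ Q₁ := itP_coprime d (by omega) p q hmax hco n₁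
  have hco2 : IsCoprime P₂ Q₂ := itP_coprime d (by omega) p q hmax hco n₂
  have hne : P₁ * Q₂ - Q₁ * P₂ ≠ 0 := by
    intro h
    have h' : P₁ * Q₂ = Q₁ * P₂ := sub_eq_zero.mp h
    have d1 : P₁ ∣ P₂ := hco1.dvd_of_dvd_mul_left ⟨Q₂, h'.symm⟩
    have d2 : Q₁ ∣ Q₂ := hco1.symm.dvd_of_dvd_mul_left ⟨P₂, h'⟩
    have hdeg2 : P₂.natDegree ≤ d ^ n₂ ∧ Q₂.natDegree ≤ d ^ n₂ := itP_deg d p q n₂
    have hlt : d ^ n₂ < d ^ n₁ := Nat.pow_lt_pow_right (by omega) hn
    -- the top coefficient
    have htop := itP_top d p q n₁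
    have hnz := FH_iter_nz d (by omega) p q hmax hco n₁ (1, 0)
      (fun h => one_ne_zero (congrArg Prod.fst h))
    rw [← htop] at hnz
    have hP : P₂ = 0 ∨ P₁.natDegree ≤ P₂.natDegree := by
      by_cases h2 : P₂ = 0
      · exact Or.inl h2
      · exact Or.inr (natDegree_le_of_dvd d1 h2)
    have hQ : Q₂ = 0 ∨ Q₁.natDegree ≤ Q₂.natDegree := by
      by_cases h2 : Q₂ = 0
      · exact Or.inl h2
      · exact Or.inr (natDegree_le_of_dvd d2 h2)
    have hP1 : P₁.coeff (d ^ n₁) = 0 := by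
      rcases hP with h2 | h2
      · rw [h2, mul_zero] at h'
        have h3 : Q₂ ≠ 0 := by
          intro h3
          rw [h2, h3] at hco2
          exact not_isCoprime_zero_zero hco2
        rw [(mul_eq_zero.mp h').resolve_right h3, coeff_zero]
      · exact coeff_eq_zero_of_natDegree_lt (by omega)
    have hQ1 : Q₁.coeff (d ^ n₁) = 0 := by
      rcases hQ with h2 | h2
      · rw [h2, mul_zero] at h'
        have h3 : P₂ ≠ 0 := by
          intro h3
          rw [h2, h3] at hco2
          exact not_isCoprime_zero_zero hco2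
        rw [(mul_eq_zero.mp h'.symm).resolve_right h3, coeff_zero]
      · exact coeff_eq_zero_of_natDegree_lt (by omega)
    exact hnz (Prod.ext hP1 hQ1)
  refine Set.Finite.subset (((P₁ * Q₂ - Q₁ * P₂).roots.toFinset.finite_toSet.image some).union
    (Set.finite_singleton none)) ?_
  intro z hz
  cases z with
  | none => exact Or.inr rfl
  | some x =>
    left
    refine ⟨x, ?_, rfl⟩
    rw [Finset.mem_coe, Multiset.mem_toFinset, mem_roots hne]
    have h1 := itP_eval d p q n₁ x
    have h2 := itP_eval d p q n₂ x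
    have hz' : wd ((FH d p q)^[n₁] (x, 1)) ((FH d p q)^[n₂] (x, 1)) = 0 := hz
    rw [← h1, ← h2] at hz'
    rw [IsRoot, eval_sub, eval_mul, eval_mul]
    exact hz'

end

end Pool.Agent.E8helper88.Mul
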