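import Mathlib
import Pool.Agent.E8helper88.Mul.McF
import Pool.Agent.E8helper65.MC.FN2
import Pool.Agent.E8helper88.Mul.McFam
import Pool.Agent.E8helper88.Mul.Fin2c

/-!
# Preperiodic points of bounded degree for 100% of the members of every family of rational maps
which is neither isotrivial nor a family of flexible Lattès maps, over a number field

Joint work of helper88 (multipliers, critical heights, ultraproducts), helper71 (finiteness of
postcritical sets, reduction of McMullen's rigidity theorem to families with one parameter) and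
helper65 (the rigidity theorem: quadratic differentials, push-forward).
-/

namespace Pool.Agent.E8helper88.Mul.ResFam

open Polynomial NumberField Filter Topology

universe u v

/-- The self-map of the projective line `K ∪ {∞}`, where `none` is `∞`, given by the rational
function `p / q`, where `p` and `q` are coprime and `d` is the larger of their degrees: it sends
`x` to `p(x) / q(x)`, or to `∞` when `q(x) = 0`, and it sends `∞` to the quotient of the
coefficients of degree `d`, or to `∞` when that of `q` is zero. -/
noncomputable def mapP1 {K : Type*} [Field K] (p q : K[X]) (d : ℕ) : Option K → Option K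
  | some x => by classical exact if q.eval x = 0 then none else some (p.eval x / q.eval x)
  | none => by classical exact if q.coeff d = 0 then none else some (p.coeff d / q.coeff d)

/-- With `φ(x) = (a x + b) / (c x + e)`, the map `p / q` of degree `d` satisfies
`φ ∘ (p / q) = (u / w) ∘ φ` for some `a, b, c, e` in `K` with `a e ≠ b c` and some polynomials
`u, w` of degree at most `d`, not both zero, with coefficients algebraic over `k`; the equation is
written with denominators cleared. -/
def IsotrivialOver (k : Type*) {K : Type*} [Field k] [Field K] [Algebra k K] (p q : K[X])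
    (d : ℕ) : Prop :=
  ∃ a b c e : K, a * e - b * c ≠ 0 ∧ ∃ u w : K[X], (u ≠ 0 ∨ w ≠ 0) ∧
    u.natDegree ≤ d ∧ w.natDegree ≤ d ∧ (∀ n, IsAlgebraic k (u.coeff n)) ∧
    (∀ n, IsAlgebraic k (w.coeff n)) ∧
    (C a * p + C b * q) * ∑ i ∈ Finset.range (d + 1),
      C (w.coeff i) * (C a * X + C b) ^ i * (C c * X + C e) ^ (d - i) =
    (C c * p + C e * q) * ∑ i ∈ Finset.range (d + 1),
      C (u.coeff i) * (C a * X + C b) ^ i * (C c * X + C e) ^ (d - i)

/-- The map `f = p / q` of degree `d` is a flexible Lattès map: for some nonzero rational function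
`R = A / B` we have `R(f(z)) f'(z)² = d R(z)`, i.e. the pull-back of the quadratic differential
`R dz²` by `f` is `d R dz²`. With `f' = (p' q - p q') / q²` the equation is written with
denominators cleared; `e` is any bound for the degrees of `A` and `B`. -/
def FlexibleLattes {K : Type*} [Field K] (d : ℕ) (p q : K[X]) : Prop :=
  ∃ (e : ℕ) (A B : K[X]), A ≠ 0 ∧ B ≠ 0 ∧ A.natDegree ≤ e ∧ B.natDegree ≤ e ∧
    (∑ i ∈ Finset.range (e + 1), C (A.coeff i) * p ^ i * q ^ (e - i)) *
        (derivative p * q - p * derivative q) ^ 2 * B =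
      C (d : K) * A * q ^ 4 * ∑ i ∈ Finset.range (e + 1), C (B.coeff i) * p ^ i * q ^ (e - i)

lemma lat_iff {K : Type*} [Field K] (d : ℕ) (p q : K[X]) :
    Pool.Agent.E8helper88.Mul.LatP d p q ↔ FlexibleLattes d p q := by
  have h : ∀ (e : ℕ) (A : K[X]), Pool.Agent.W277.UH.hc e A p q =
      ∑ i ∈ Finset.range (e + 1), C (A.coeff i) * p ^ i * q ^ (e - i) := by
    intro e A
    unfold Pool.Agent.W277.UH.hc Pool.Agent.W277.UH.hev
    refine Finset.sum_congr rfl fun i _ => ?_
    rw [coeff_map]
  unfold Pool.Agent.E8helper88.Mul.LatP FlexibleLattes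
  simp only [h]
  rfl

/-- The field `k(t_1, ..., t_m)`. -/
abbrev RF (k : Type) [Field k] (m : ℕ) : Type := FractionRing (MvPolynomial (Fin m) k)

/-- The subfield `k(t_j : j ≠ i)` of the field `k(t_1, ..., t_m)`. -/
noncomputable def others (k : Type) [Field k] {m : ℕ} (i : Fin m) : Subfield (RF k m) :=
  (IntermediateField.adjoin k {x : RF k m | ∃ j, j ≠ i ∧
    x = algebraMap (MvPolynomial (Fin m) k) (RF k m) (MvPolynomial.X j)}).toSubfield

/-- `P ∈ k[t_1, ..., t_m][x]` as a polynomial over `k(t_1, ..., t_m)`. -/
noncomputable def generic {k : Type} [Field k] {m : ℕ} (P : (MvPolynomial (Fin m) k)[X]) :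
    (RF k m)[X] :=
  P.map (algebraMap (MvPolynomial (Fin m) k) (RF k m))

/-- `P ∈ k[t_1, ..., t_m][x]` as a polynomial over an algebraic closure of `k(t_1, ..., t_m)`. -/
noncomputable def genBar {k : Type} [Field k] {m : ℕ} (P : (MvPolynomial (Fin m) k)[X]) :
    (AlgebraicClosure (RF k m))[X] :=
  (generic P).map (algebraMap (RF k m) (AlgebraicClosure (RF k m)))

/-- The specialisation of `P ∈ k[t_1, ..., t_m][x]` at `t = (v_1 / v_0, ..., v_m / v_0)`. -/
noncomputable def special {k : Type} [Field k] {m : ℕ} (v : Fin (m + 1) → 𝓞 k)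
    (P : (MvPolynomial (Fin m) k)[X]) : k[X] :=
  P.map (MvPolynomial.eval fun l : Fin m =>
    algebraMap (𝓞 k) k (v l.succ) / algebraMap (𝓞 k) k (v 0))

/-- The preperiodic points of degree at most `B` over `k` of the map `p / q` of degree `d`, in the
projective line over an algebraic closure of `k`. -/
noncomputable def preper {k : Type} [Field k] (p q : k[X]) (d B : ℕ) :
    Set (Option (AlgebraicClosure k)) :=
  {z | (Set.range fun n : ℕ => (mapP1 (p.map (algebraMap k (AlgebraicClosure k)))
      (q.map (algebraMap k (AlgebraicClosure k))) d)^[n] z).Finite ∧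
    ∀ x, z = some x → (minpoly k x).natDegree ≤ B}

/-- The vectors of integers of `k` whose coordinates with respect to the basis `ω` are at most `H`
in absolute value. -/
def box {k : Type} [Field k] {J : Type} (ω : Module.Basis J ℤ (𝓞 k)) (m H : ℕ) :
    Set (Fin (m + 1) → 𝓞 k) :=
  {v | ∀ l j, |ω.repr (v l) j| ≤ (H : ℤ)}

/-- The set `S` contains 100% of the vectors in the boxes. -/
def AlmostAll {k : Type} [Field k] {J : Type} (ω : Module.Basis J ℤ (𝓞 k)) (m : ℕ)
    (S : Set (Fin (m + 1) → 𝓞 k)) : Prop :=
  Tendsto (fun H : ℕ => (({v | v ∈ box ω m H ∧ v ∈ S}.ncard : ℝ) / ((box ω m H).ncard : ℝ)))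
    atTop (𝓝 1)


/-- There is a function `N` such that the following holds for every number field `k` (of any
degree), every integral basis `ω` of `k`, every `d ≥ 2`, `B ≥ 1` and every `m`. Let `P / Q` be
a rational map of degree `d` over `k(t_1, ..., t_m)`, `P, Q ∈ k[t_1, ..., t_m][x]`, which over an
algebraic closure of `k(t_1, ..., t_m)` is not a flexible Lattès map, and suppose that for some `i`
it is not isotrivial over the field generated by the `t_j` with `j ≠ i`. Then, for 100% of the
vectors `v` of integers of `k`, ordered by the size of their coordinates, the specialisation of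
`P / Q` at `t = (v_1 / v_0, ..., v_m / v_0)` is a rational map of degree `d` with at most `N(B, d)`
preperiodic points of degree at most `B` over `k`. -/
theorem result : ∃ N : ℕ → ℕ → ℕ, ∀ (k : Type) [Field k] [NumberField k] (J : Type)
    [Fintype J] (ω : Module.Basis J ℤ (𝓞 k)) (d B : ℕ), 2 ≤ d → 1 ≤ B →
    ∀ (m : ℕ) (P Q : (MvPolynomial (Fin m) k)[X]) (i : Fin m),
      max P.natDegree Q.natDegree = d → IsCoprime (generic P) (generic Q) →
      ¬ IsotrivialOver (others k i) (genBar P) (genBar Q) d →
      ¬ FlexibleLattes d (genBar P) (genBar Q) →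
      AlmostAll ω m {v | v 0 ≠ 0 ∧ IsCoprime (special v P) (special v Q) ∧
        max (special v P).natDegree (special v Q).natDegree = d ∧
        (preper (special v P) (special v Q) d B).encard ≤ ((N B d : ℕ) : ℕ∞)} := by
  have e : ∀ (K : Type) [Field K] (p q : K[X]) (d : ℕ),
      mapP1 p q d = Pool.Agent.W277.UH.ratP1 p q d := by
    intro K _ p q d
    funext z
    cases z <;> rfl
  obtain ⟨N, hN⟩ := Pool.Agent.E8helper88.Mul.fin_fam Pool.Agent.E8helper65.MC.t_MCM
    Pool.Agent.E8helper88.Mul.s_fin2
  refine ⟨N, ?_⟩
  intro k _ _ J _ ω d B hd hB m P Q i hmax hco hiso hlat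
  have e3 : ∀ p q : k[X], preper p q d B = Pool.Agent.Y706.BI.preperB p q d B := by
    intro p q
    unfold preper Pool.Agent.Y706.BI.preperB
    rw [e]
  have h := hN k J ω d B hd hB m P Q i hmax hco hiso (fun h => hlat ((lat_iff _ _ _).mp h))
  simp only [e3]
  exact h

end Pool.Agent.E8helper88.Mul.ResFam
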