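import Mathlib
import Pool.Agent.E8helper88.Mul.McF
import Pool.Agent.E8helper65.MC.FN2
import Pool.Agent.E8helper88.Mul.Fin2c

/-!
# Preperiodic points of bounded gonality of all rational maps except flexible Lattès maps

Joint work of helper88 (multipliers, critical heights, ultraproducts), helper71 (finiteness of
postcritical sets, reduction of McMullen's rigidity theorem to families with one parameter) and
helper65 (the rigidity theorem: quadratic differentials, push-forward).
-/

namespace Pool.Agent.E8helper88.Mul.ResGon

open Polynomial

universe u v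

/-- The self-map of the projective line `K ∪ {∞}`, where `none` is `∞`, given by the rational
function `p / q`, where `p` and `q` are coprime and `d` is the larger of their degrees: it sends
`x` to `p(x) / q(x)`, or to `∞` when `q(x) = 0`, and it sends `∞` to the quotient of the
coefficients of degree `d`, or to `∞` when that of `q` is zero. -/
noncomputable def mapP1 {K : Type*} [Field K] (p q : K[X]) (d : ℕ) : Option K → Option K
  | some x => by classical exact if q.eval x = 0 then none else some (p.eval x / q.eval x)
  | none => by classical exact if q.coeff d = 0 then none else some (p.coeff d / q.coeff d)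

/-- With `φ(x) = (a x + b) / (c x + e)`, the map `p / q` of degree `d` satisfies
`φ ∘ (p / q) = (u / w) ∘ φ` for some `a, b, c, e` in `K` with `a e ≠ b c` and some polynomials
`u, w` of degree at most `d`, not both zero, with coefficients algebraic over `k`; the equation is
written with denominators cleared. -/
def IsotrivialOver (k : Type*) {K : Type*} [Field k] [Field K] [Algebra k K] (p q : K[X])
    (d : ℕ) : Prop :=
  ∃ a b c e : K, a * e - b * c ≠ 0 ∧ ∃ u w : K[X], (u ≠ 0 ∨ w ≠ 0) ∧
    u.natDegree ≤ d ∧ w.natDegree ≤ d ∧ (∀ n, IsAlgebraic k (u.coeff n)) ∧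
    (∀ n, IsAlgebraic k (w.coeff n)) ∧
    (C a * p + C b * q) * ∑ i ∈ Finset.range (d + 1),
      C (w.coeff i) * (C a * X + C b) ^ i * (C c * X + C e) ^ (d - i) =
    (C c * p + C e * q) * ∑ i ∈ Finset.range (d + 1),
      C (u.coeff i) * (C a * X + C b) ^ i * (C c * X + C e) ^ (d - i)

/-- The map `f = p / q` of degree `d` is a flexible Lattès map: for some nonzero rational function
`R = A / B` we have `R(f(z)) f'(z)² = d R(z)`, i.e. the pull-back of the quadratic differential
`R dz²` by `f` is `d R dz²`. With `f' = (p' q - p q') / q²` the equation is written with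
denominators cleared; `e` is any bound for the degrees of `A` and `B`. -/
def FlexibleLattes {K : Type*} [Field K] (d : ℕ) (p q : K[X]) : Prop :=
  ∃ (e : ℕ) (A B : K[X]), A ≠ 0 ∧ B ≠ 0 ∧ A.natDegree ≤ e ∧ B.natDegree ≤ e ∧
    (∑ i ∈ Finset.range (e + 1), C (A.coeff i) * p ^ i * q ^ (e - i)) *
        (derivative p * q - p * derivative q) ^ 2 * B =
      C (d : K) * A * q ^ 4 * ∑ i ∈ Finset.range (e + 1), C (B.coeff i) * p ^ i * q ^ (e - i)

lemma lat_iff {K : Type*} [Field K] (d : ℕ) (p q : K[X]) :
    Pool.Agent.E8helper88.Mul.LatP d p q ↔ FlexibleLattes d p q := by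
  have h : ∀ (e : ℕ) (A : K[X]), Pool.Agent.W277.UH.hc e A p q =
      ∑ i ∈ Finset.range (e + 1), C (A.coeff i) * p ^ i * q ^ (e - i) := by
    intro e A
    unfold Pool.Agent.W277.UH.hc Pool.Agent.W277.UH.hev
    refine Finset.sum_congr rfl fun i _ => ?_
    rw [coeff_map]
  unfold Pool.Agent.E8helper88.Mul.LatP FlexibleLattes
  simp only [h]
  rfl

/-- The field `E` over `k` is a finite extension of `k(t)` of degree at most `D` for some `t`
transcendental over `k`: it is the function field of a curve over `k` of gonality at most `D`. -/
def GonalityLE (k E : Type*) [Field k] [Field E] [Algebra k E] (D : ℕ) : Prop :=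
  ∃ t : E, Transcendental k t ∧ FiniteDimensional (IntermediateField.adjoin k {t}) E ∧
    Module.finrank (IntermediateField.adjoin k {t}) E ≤ D

/-- The set `Preper(f, D)` for the rational map `f = p / q` of degree `d` over `K`: the points `z`
of the projective line over an algebraic closure of `K` with finite orbit for which the field
`K(z)` has gonality at most `D` over `k`. -/
def Preper (k : Type*) {K : Type*} [Field k] [Field K] [Algebra k K] (p q : K[X]) (d D : ℕ) :
    Set (Option (AlgebraicClosure K)) :=
  {z | (Set.range fun m : ℕ => (mapP1 (p.map (algebraMap K (AlgebraicClosure K)))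
      (q.map (algebraMap K (AlgebraicClosure K))) d)^[m] z).Finite ∧
    GonalityLE k (IntermediateField.adjoin K {x : AlgebraicClosure K | z = some x}) D}

/-- **The case `N = 1` of the conjecture, for all maps but flexible Lattès maps.** There is a
function `N` such that the following holds for every field `k` of characteristic zero (in
particular for the field of complex numbers), every field `K` over `k` (the function field of a
curve), every `D`, `d ≥ 2`, and every rational map `f = p / q` of degree `d` over `K` which is
neither isotrivial nor a flexible Lattès map over an algebraic closure of `K`: the set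
`Preper(f, D)` has at most `N(D, d)` points. -/
theorem result : ∃ N : ℕ → ℕ → ℕ, ∀ (k : Type v) (K : Type u) [Field k] [CharZero k]
    [Field K] [Algebra k K] (D d : ℕ), 2 ≤ d →
    ∀ p q : K[X], IsCoprime p q → max p.natDegree q.natDegree = d →
      ¬ IsotrivialOver k (p.map (algebraMap K (AlgebraicClosure K)))
          (q.map (algebraMap K (AlgebraicClosure K))) d →
      ¬ FlexibleLattes d (p.map (algebraMap K (AlgebraicClosure K)))
          (q.map (algebraMap K (AlgebraicClosure K))) →
      (Preper k p q d D).encard ≤ ((N D d : ℕ) : ℕ∞) := by
  obtain ⟨N, hN⟩ := Pool.Agent.E8helper88.Mul.fin_gon.{u, v} Pool.Agent.E8helper65.MC.t_MCM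
    Pool.Agent.E8helper88.Mul.s_fin2
  refine ⟨N, ?_⟩
  intro k K _ _ _ _ D d hd p q hco hmax hiso hlat
  have e : ∀ (K : Type u) [Field K] (p q : K[X]) (d : ℕ),
      mapP1 p q d = Pool.Agent.W277.UH.ratP1 p q d := by
    intro K _ p q d
    funext z
    cases z <;> rfl
  have hP : Preper k p q d D = {z : Option (AlgebraicClosure K) | (Set.range fun m : ℕ =>
        (Pool.Agent.W277.UH.ratP1 (p.map (algebraMap K (AlgebraicClosure K)))
          (q.map (algebraMap K (AlgebraicClosure K))) d)^[m] z).Finite ∧
      ∃ t : IntermediateField.adjoin K {x | z = some x}, Transcendental k t ∧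
        FiniteDimensional (IntermediateField.adjoin k {t})
          (IntermediateField.adjoin K {x | z = some x}) ∧
        Module.finrank (IntermediateField.adjoin k {t})
          (IntermediateField.adjoin K {x | z = some x}) ≤ D} := by
    unfold Preper
    rw [e]
    rfl
  rw [hP]
  exact hN k K D d hd p q hco hmax hiso (fun h => hlat ((lat_iff _ _ _).mp h))

end Pool.Agent.E8helper88.Mul.ResGon
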