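import Pool.Agent.E8helper88.Mul.Los

/-!
# Multipliers and critical heights: the subfield of elements of small height
-/

set_option linter.unusedSectionVars false
set_option linter.unusedVariables false

namespace Pool.Agent.E8helper88.Mul

open Polynomial Finset Filter
open Pool.Agent.W277.UH Pool.Agent.Y706.CH Pool.Agent.Y195.CH Pool.Agent.Y676.CH
open Pool.Agent.E8helper71.UB (UP mk mk_eq mk_eq_zero mk_surjective)

universe u v w

lemma IsHt.neg {K : Type*} [Field K] {h : K → ℝ} (hh : IsHt h) (x : K) : h (-x) ≤ h x := by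
  have h1 : h (-1) ≤ 0 := by
    have := hh.root 2 ![1, 0] (-1) (by simp [Fin.sum_univ_two])
    rw [Fin.sum_univ_two] at this
    simpa [hh.one, hh.zero] using this
  have h2 := hh.mul (-1) x
  rw [neg_one_mul] at h2
  linarith

section
variable (Mf Om : ℕ → Type u) [∀ j, Field (Mf j)] [∀ j, Field (Om j)]
  [∀ j, Algebra (Mf j) (Om j)] (U : Ultrafilter ℕ)

/-- the structure map -/
def phi : (∀ j, Mf j) →+* (∀ j, Om j) :=
  RingHom.pi fun j => (algebraMap (Mf j) (Om j)).comp (Pi.evalRingHom Mf j)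

lemma phi_apply (y : ∀ j, Mf j) (j : ℕ) : phi Mf Om y j = algebraMap (Mf j) (Om j) (y j) := rfl

lemma mk_phi_inv (y : ∀ j, Mf j) :
    (mk Om U (phi Mf Om y))⁻¹ = mk Om U (phi Mf Om fun j => (y j)⁻¹) := by
  by_cases h : mk Om U (phi Mf Om y) = 0
  · rw [h, inv_zero]
    symm
    rw [mk_eq_zero] at h ⊢
    filter_upwards [h] with j hj
    rw [phi_apply] at hj ⊢
    rw [map_inv₀, hj, inv_zero]
  · symm
    apply eq_inv_of_mul_eq_one_left
    rw [← map_mul, ← map_one (mk Om U), mk_eq]
    rw [← Ultrafilter.eventually_not.trans (not_congr mk_eq_zero.symm)] at h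
    filter_upwards [h] with j hj
    rw [Pi.mul_apply, phi_apply, map_inv₀]
    exact inv_mul_cancel₀ hj

variable {Mf} (h : ∀ j, Mf j → ℝ) (hh : ∀ j, IsHt (h j)) (H : ℕ → ℝ) (hH : ∀ j, 0 ≤ H j)

/-- small families -/
def Sml (y : ∀ j, Mf j) : Prop := ∀ s : ℕ, ∀ᶠ j in (U : Filter ℕ), s * h j (y j) ≤ H j

variable {U h H}

lemma Sml.add (hh : ∀ j, IsHt (h j)) {x y : ∀ j, Mf j} (hx : Sml U h H x) (hy : Sml U h H y) :
    Sml U h H (x + y) := by
  intro s
  filter_upwards [hx (2 * s), hy (2 * s)] with j h1 h2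
  have h3 := (hh j).add (x j) (y j)
  have h4 : (s : ℝ) * h j ((x + y) j) ≤ s * (h j (x j) + h j (y j)) :=
    mul_le_mul_of_nonneg_left h3 (Nat.cast_nonneg s)
  push_cast at h1 h2
  linarith

lemma Sml.mul (hh : ∀ j, IsHt (h j)) {x y : ∀ j, Mf j} (hx : Sml U h H x) (hy : Sml U h H y) :
    Sml U h H (x * y) := by
  intro s
  filter_upwards [hx (2 * s), hy (2 * s)] with j h1 h2
  have h3 := (hh j).mul (x j) (y j)
  have h4 : (s : ℝ) * h j ((x * y) j) ≤ s * (h j (x j) + h j (y j)) :=
    mul_le_mul_of_nonneg_left h3 (Nat.cast_nonneg s)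
  push_cast at h1 h2
  linarith

variable (Mf) (U h H)

/-- the subfield of elements of small height -/
def smallField : Subfield (UP Om U) where
  carrier := {z | ∃ y : ∀ j, Mf j, mk Om U (phi Mf Om y) = z ∧ Sml U h H y}
  mul_mem' := by
    rintro _ _ ⟨x, rfl, hx⟩ ⟨y, rfl, hy⟩
    exact ⟨x * y, by rw [map_mul, map_mul], hx.mul hh hy⟩
  one_mem' := by
    refine ⟨1, by rw [map_one, map_one], fun s => Filter.Eventually.of_forall fun j => ?_⟩
    rw [Pi.one_apply, (hh j).one, mul_zero]
    exact hH j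
  add_mem' := by
    rintro _ _ ⟨x, rfl, hx⟩ ⟨y, rfl, hy⟩
    exact ⟨x + y, by rw [map_add, map_add], hx.add hh hy⟩
  zero_mem' := by
    refine ⟨0, by rw [map_zero, map_zero], fun s => Filter.Eventually.of_forall fun j => ?_⟩
    rw [Pi.zero_apply, (hh j).zero, mul_zero]
    exact hH j
  neg_mem' := by
    rintro _ ⟨x, rfl, hx⟩
    refine ⟨-x, by rw [map_neg, map_neg], fun s => ?_⟩
    filter_upwards [hx s] with j h1
    exact (mul_le_mul_of_nonneg_left ((hh j).neg (x j)) (Nat.cast_nonneg s)).trans h1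
  inv_mem' := by
    rintro _ ⟨x, rfl, hx⟩
    refine ⟨fun j => (x j)⁻¹, (mk_phi_inv Mf Om U x).symm, fun s => ?_⟩
    filter_upwards [hx s] with j h1
    rw [(hh j).inv]
    exact h1

lemma mem_smallField (z : UP Om U) : z ∈ smallField Mf Om U h hh H hH ↔
    ∃ y : ∀ j, Mf j, mk Om U (phi Mf Om y) = z ∧ Sml U h H y := Iff.rfl

/-- families which are algebraic over the small elements are small -/
lemma small_of_alg (y : ∀ j, Mf j)
    (hy : IsAlgebraic (smallField Mf Om U h hh H hH) (mk Om U (phi Mf Om y))) : Sml U h H y := by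
  classical
  set F := smallField Mf Om U h hh H hH with hF
  set x := mk Om U (phi Mf Om y) with hx
  have hint : IsIntegral F x := hy.isIntegral
  set P := minpoly F x with hP
  have hmon : P.Monic := minpoly.monic hint
  have hev : aeval x P = 0 := minpoly.aeval F x
  set e := P.natDegree with he
  -- the coefficients
  have hc : ∀ i : Fin e, ∃ b : ∀ j, Mf j, mk Om U (phi Mf Om b) = -(P.coeff i : UP Om U) ∧
      Sml U h H b := by
    intro i
    exact (mem_smallField Mf Om U h hh H hH _).mp (F.neg_mem (P.coeff i).2)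
  choose b hb hbs using hc
  have h1 : x ^ e = ∑ i : Fin e, mk Om U (phi Mf Om (b i)) * x ^ (i : ℕ) := by
    rw [aeval_eq_sum_range, Finset.sum_range_succ, hmon.coeff_natDegree, one_smul,
      ← Fin.sum_univ_eq_sum_range (fun i => P.coeff i • x ^ i)] at hev
    have h2 : ∑ i : Fin e, mk Om U (phi Mf Om (b i)) * x ^ (i : ℕ) =
        -∑ i : Fin e, P.coeff i • x ^ (i : ℕ) := by
      rw [← Finset.sum_neg_distrib]
      apply Finset.sum_congr rfl
      intro i _
      rw [hb i, neg_mul]
      rfl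
    rw [h2]
    linear_combination hev
  have h2 : ∀ᶠ j in (U : Filter ℕ), (y j) ^ e = ∑ i : Fin e, b i j * (y j) ^ (i : ℕ) := by
    rw [hx, ← map_pow, ← map_pow] at h1
    have h3 : mk Om U (phi Mf Om (y ^ e)) = mk Om U (phi Mf Om (∑ i : Fin e, b i * y ^ (i : ℕ))) := by
      rw [h1, map_sum, map_sum]
      apply Finset.sum_congr rfl
      intro i _
      rw [map_mul, map_mul, map_pow, map_pow]
    rw [mk_eq] at h3
    filter_upwards [h3] with j hj
    rw [phi_apply, phi_apply] at hj
    have h4 := (algebraMap (Mf j) (Om j)).injective hj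
    rw [Pi.pow_apply, Finset.sum_apply] at h4
    exact h4
  intro s
  have h3 : ∀ᶠ j in (U : Filter ℕ), ∀ i : Fin e, ((s * e : ℕ) : ℝ) * h j (b i j) ≤ H j := by
    rw [Filter.eventually_all]
    exact fun i => hbs i (s * e)
  filter_upwards [h2, h3] with j g1 g2
  have g3 := (hh j).root e (fun i => b i j) (y j) g1
  rcases Nat.eq_zero_or_pos e with he0 | he0
  · have g4 : h j (y j) ≤ 0 := by
      refine g3.trans (le_of_eq ?_)
      have : IsEmpty (Fin e) := by rw [he0]; infer_instance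
      exact Finset.sum_of_isEmpty _
    exact (mul_nonpos_of_nonneg_of_nonpos (Nat.cast_nonneg s) g4).trans (hH j)
  · have he1 : (0 : ℝ) < e := by exact_mod_cast he0
    have g4 : ((s * e : ℕ) : ℝ) * h j (y j) ≤ e * H j := by
      calc ((s * e : ℕ) : ℝ) * h j (y j) ≤ ((s * e : ℕ) : ℝ) * ∑ i, h j (b i j) :=
            mul_le_mul_of_nonneg_left g3 (Nat.cast_nonneg _)
        _ = ∑ i : Fin e, ((s * e : ℕ) : ℝ) * h j (b i j) := Finset.mul_sum _ _ _
        _ ≤ ∑ i : Fin e, H j := Finset.sum_le_sum fun i _ => g2 i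
        _ = e * H j := by simp
    push_cast at g4
    have g5 : (e : ℝ) * (s * h j (y j)) ≤ e * H j := by
      calc (e : ℝ) * (s * h j (y j)) = s * e * h j (y j) := by ring
        _ ≤ _ := g4
    exact le_of_mul_le_mul_left g5 he1

end

end Pool.Agent.E8helper88.Mul
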