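import Pool.Agent.E8helper88.Mul.Ult1

/-!
# Multipliers and critical heights: the height of a normalised map is bounded by the heights of its
multipliers
-/

set_option linter.unusedSectionVars false
set_option linter.unusedVariables false

namespace Pool.Agent.E8helper88.Mul

open Polynomial Finset Filter
open Pool.Agent.W277.UH Pool.Agent.Y706.CH Pool.Agent.Y195.CH Pool.Agent.Y676.CH
open Pool.Agent.E8helper71.UB (UP mk mk_eq mk_eq_zero mk_surjective)

universe u v w

lemma good_of_Nz {K : Type u} [Field K] [IsAlgClosed K] (d : ℕ) (p q : K[X])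
    (hp : p.natDegree ≤ d) (hq : q.natDegree ≤ d) (h : Nz d p q) :
    IsCoprime p q ∧ max p.natDegree q.natDegree = d := by
  constructor
  · refine (isCoprime_iff_aeval_ne_zero_of_isAlgClosed (k := K) K _ _).mpr ?_
    intro x
    by_contra hcon
    push Not at hcon
    apply h (x, 1) (fun h => one_ne_zero (congrArg Prod.snd h))
    unfold FH
    rw [hev_one d _ hp, hev_one d _ hq]
    have h1 : eval x p = 0 := by simpa [coe_aeval_eq_eval] using hcon.1
    have h2 : eval x q = 0 := by simpa [coe_aeval_eq_eval] using hcon.2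
    rw [h1, h2]
    rfl
  · apply le_antisymm (max_le hp hq)
    by_contra hcon
    push Not at hcon
    rw [max_lt_iff] at hcon
    apply h (1, 0) (fun h => one_ne_zero (congrArg Prod.fst h))
    unfold FH
    rw [hev_zero, hev_zero, coeff_eq_zero_of_natDegree_lt hcon.1,
      coeff_eq_zero_of_natDegree_lt hcon.2]
    simp

lemma Nz_of_good {K : Type u} [Field K] (d : ℕ) (hd : 1 ≤ d) (p q : K[X])
    (hco : IsCoprime p q) (hmax : max p.natDegree q.natDegree = d) : Nz d p q :=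
  fun Z hZ => FH_nz d hd p q hmax hco Z hZ

section
variable (Om : ℕ → Type u) [∀ j, Field (Om j)] (U : Ultrafilter ℕ)

/-- the polynomial with given coefficients -/
noncomputable def pack (d : ℕ) (c : ℕ → ∀ j, Om j) : (∀ j, Om j)[X] :=
  ∑ i ∈ range (d + 1), monomial i (c i)

variable {Om}

lemma pack_coeff (d : ℕ) (c : ℕ → ∀ j, Om j) (i : ℕ) :
    (pack Om d c).coeff i = if i ≤ d then c i else 0 := by
  unfold pack
  rw [finsetSum_coeff]
  simp only [coeff_monomial]
  rw [Finset.sum_ite_eq' (range (d + 1)) i]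
  simp [Nat.lt_succ_iff]

lemma pack_deg (d : ℕ) (c : ℕ → ∀ j, Om j) : (pack Om d c).natDegree ≤ d := by
  rw [natDegree_le_iff_coeff_eq_zero]
  intro i hi
  rw [pack_coeff, if_neg (by omega)]

lemma pack_ev (d : ℕ) (c : ℕ → ∀ j, Om j) (j : ℕ) (p : (Om j)[X]) (hp : p.natDegree ≤ d)
    (h : ∀ i ≤ d, c i j = p.coeff i) : (pack Om d c).map (ev Om j) = p := by
  ext i
  rw [coeff_map, pack_coeff]
  split_ifs with hi
  · exact h i hi
  · rw [coeff_eq_zero_of_natDegree_lt (by omega), map_zero]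

lemma pack_lift (d : ℕ) (p : (UP Om U)[X]) (hp : p.natDegree ≤ d) :
    ∃ c : ℕ → ∀ j, Om j, (pack Om d c).map (mk Om U) = p := by
  choose c hc using fun i => mk_surjective (K := Om) (U := U) (p.coeff i)
  refine ⟨c, ?_⟩
  ext i
  rw [coeff_map, pack_coeff]
  split_ifs with hi
  · exact hc i
  · rw [coeff_eq_zero_of_natDegree_lt (by omega), map_zero]

end

section
variable {Om : ℕ → Type u} [∀ j, Field (Om j)] {U : Ultrafilter ℕ}

lemma los_iso (d n : ℕ) (p q u w : (∀ j, Om j)[X]) (h : ∀ lam,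
    IsMul d (p.map (mk Om U)) (q.map (mk Om U)) n lam ↔
    IsMul d (u.map (mk Om U)) (w.map (mk Om U)) n lam) : ∀ᶠ j in (U : Filter ℕ),
    ∀ lam, IsMul d (p.map (ev Om j)) (q.map (ev Om j)) n lam ↔
      IsMul d (u.map (ev Om j)) (w.map (ev Om j)) n lam := by
  classical
  by_contra hcon
  rw [← Ultrafilter.eventually_not] at hcon
  have h1 : ∀ j, ∃ lam : Om j, (¬ ∀ lam, IsMul d (p.map (ev Om j)) (q.map (ev Om j)) n lam ↔
      IsMul d (u.map (ev Om j)) (w.map (ev Om j)) n lam) →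
      ¬ (IsMul d (p.map (ev Om j)) (q.map (ev Om j)) n lam ↔
      IsMul d (u.map (ev Om j)) (w.map (ev Om j)) n lam) := by
    intro j
    by_cases h2 : ∀ lam, IsMul d (p.map (ev Om j)) (q.map (ev Om j)) n lam ↔
      IsMul d (u.map (ev Om j)) (w.map (ev Om j)) n lam
    · exact ⟨0, fun h => absurd h2 h⟩
    · have h3 := h2
      push Not at h3
      obtain ⟨lam, hlam⟩ := h3
      refine ⟨lam, fun _ h4 => ?_⟩
      rcases hlam with ⟨g1, g2⟩ | ⟨g1, g2⟩
      · exact g2 (h4.mp g1)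
      · exact g1 (h4.mpr g2)
  choose lam hlam using h1
  have h2 := h (mk Om U lam)
  rw [los_IsMul, los_IsMul] at h2
  by_cases h3 : ∀ᶠ j in (U : Filter ℕ), IsMul d (p.map (ev Om j)) (q.map (ev Om j)) n (lam j)
  · obtain ⟨j, g1, g2, g3⟩ := (h3.and ((h2.mp h3).and hcon)).exists
    exact hlam j g3 ⟨fun _ => g2, fun _ => g1⟩
  · have h4 := fun h' => h3 (h2.mpr h')
    have h5 := Ultrafilter.eventually_not.mpr h3
    have h6 := Ultrafilter.eventually_not.mpr h4
    obtain ⟨j, g1, g2, g3⟩ := (h5.and (h6.and hcon)).exists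
    exact hlam j g3 ⟨fun h => absurd h g1, fun h => absurd h g2⟩

lemma los_FewIso [∀ j, IsAlgClosed (Om j)] (d m r : ℕ) (hd : 1 ≤ d) (p q : (∀ j, Om j)[X])
    (h : ∀ᶠ j in (U : Filter ℕ), FewIso d m r (p.map (ev Om j)) (q.map (ev Om j))) :
    FewIso d m r (p.map (mk Om U)) (q.map (mk Om U)) := by
  classical
  intro P Q hPQ
  have hPd : ∀ i, (P i).natDegree ≤ d := fun i => (hPQ i).2.1 ▸ le_max_left _ _
  have hQd : ∀ i, (Q i).natDegree ≤ d := fun i => (hPQ i).2.1 ▸ le_max_right _ _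
  choose cP hcP using fun i => pack_lift U d (P i) (hPd i)
  choose cQ hcQ using fun i => pack_lift U d (Q i) (hQd i)
  have h1 : ∀ᶠ j in (U : Filter ℕ), ∀ i, Nz d ((pack Om d (cP i)).map (ev Om j))
      ((pack Om d (cQ i)).map (ev Om j)) := by
    rw [Filter.eventually_all]
    intro i
    rw [← los_Nz, hcP, hcQ]
    exact Nz_of_good d hd _ _ (hPQ i).1 (hPQ i).2.1
  have h2 : ∀ᶠ j in (U : Filter ℕ), ∀ i, ∀ n ∈ Finset.Icc 1 m, ∀ lam,
      IsMul d ((pack Om d (cP i)).map (ev Om j)) ((pack Om d (cQ i)).map (ev Om j)) n lam ↔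
      IsMul d (p.map (ev Om j)) (q.map (ev Om j)) n lam := by
    rw [Filter.eventually_all]
    intro i
    rw [Filter.eventually_all_finset]
    intro n hn
    rw [Finset.mem_Icc] at hn
    apply los_iso
    rw [hcP, hcQ]
    exact (hPQ i).2.2 n hn.1 hn.2
  have h3 : ∀ᶠ j in (U : Filter ℕ), ∃ x : Fin (r + 1) × Fin (r + 1), x.1 ≠ x.2 ∧
      CjF d ((pack Om d (cP x.1)).map (ev Om j)) ((pack Om d (cQ x.1)).map (ev Om j))
        ((pack Om d (cP x.2)).map (ev Om j)) ((pack Om d (cQ x.2)).map (ev Om j)) := by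
    filter_upwards [h, h1, h2] with j g g1 g2
    obtain ⟨i, i', hne, hc⟩ := g (fun i => (pack Om d (cP i)).map (ev Om j))
      (fun i => (pack Om d (cQ i)).map (ev Om j)) (fun i => by
        have g3 := good_of_Nz d _ _ (natDegree_map_le.trans (pack_deg d (cP i)))
          (natDegree_map_le.trans (pack_deg d (cQ i))) (g1 i)
        exact ⟨g3.1, g3.2, fun n hn1 hn2 lam => g2 i n (Finset.mem_Icc.mpr ⟨hn1, hn2⟩) lam⟩)
    exact ⟨(i, i'), hne, hc⟩
  rw [Ultrafilter.eventually_exists_iff] at h3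
  obtain ⟨⟨i, i'⟩, hx⟩ := h3
  obtain ⟨j, hne, -⟩ := hx.exists
  refine ⟨i, i', hne, ?_⟩
  have h4 := los_CjF d (pack Om d (cP i)) (pack Om d (cQ i)) (pack Om d (cP i'))
    (pack Om d (cQ i')) (hx.mono fun j hj => hj.2)
  rw [hcP, hcQ, hcP, hcQ] at h4
  exact h4

lemma los_Nrm (d n₁ n₂ : ℕ) (p q : (∀ j, Om j)[X])
    (h : ∀ j, Nrm d n₁ n₂ (p.map (ev Om j)) (q.map (ev Om j))) :
    Nrm d n₁ n₂ (p.map (mk Om U)) (q.map (mk Om U)) := by
  classical
  have key : ∀ Y : (∀ j, Om j) × (∀ j, Om j), (∀ j, wd ((FH d (p.map (ev Om j))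
      (q.map (ev Om j)))^[n₁] (vh (ev Om j) Y)) ((FH d (p.map (ev Om j))
      (q.map (ev Om j)))^[n₂] (vh (ev Om j) Y)) = 0) →
      wd ((FH d (p.map (mk Om U)) (q.map (mk Om U)))^[n₁] (vh (mk Om U) Y))
        ((FH d (p.map (mk Om U)) (q.map (mk Om U)))^[n₂] (vh (mk Om U) Y)) = 0 := by
    intro Y hY
    rw [FH_iter_hom, FH_iter_hom]
    have e1 : ∀ A B : (∀ j, Om j) × (∀ j, Om j), wd (vh (mk Om U) A) (vh (mk Om U) B) =
        mk Om U (A.1 * B.2 - A.2 * B.1) := by
      intro A B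
      unfold wd vh
      simp
    rw [e1, mk_eq_zero]
    apply Filter.Eventually.of_forall
    intro j
    have h1 := hY j
    rw [FH_iter_hom, FH_iter_hom] at h1
    unfold wd vh at h1
    simpa using h1
  have e01 : ∀ j, vh (ev Om j) (0, 1) = (0, 1) := fun j => by simp [vh]
  have e10 : ∀ j, vh (ev Om j) (1, 0) = (1, 0) := fun j => by simp [vh]
  have e11 : ∀ j, vh (ev Om j) (1, 1) = (1, 1) := fun j => by simp [vh]
  have m01 : vh (mk Om U) (0, 1) = (0, 1) := by simp [vh]
  have m10 : vh (mk Om U) (1, 0) = (1, 0) := by simp [vh]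
  have m11 : vh (mk Om U) (1, 1) = (1, 1) := by simp [vh]
  refine ⟨?_, ?_, ?_, ?_⟩
  · have h1 : ∀ᶠ j in (U : Filter ℕ), ∃ i ∈ (↑(Finset.range (d + 1)) : Set ℕ),
        (p.map (ev Om j)).coeff i = 1 ∨ (q.map (ev Om j)).coeff i = 1 := by
      apply Filter.Eventually.of_forall
      intro j
      obtain ⟨i, hi, h2⟩ := (h j).1
      exact ⟨i, by simpa [Nat.lt_succ_iff] using hi, h2⟩
    rw [Ultrafilter.eventually_exists_mem_iff (Finset.finite_toSet _)] at h1
    obtain ⟨i, hi, h2⟩ := h1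
    refine ⟨i, by simpa [Nat.lt_succ_iff] using hi, ?_⟩
    rw [Ultrafilter.eventually_or] at h2
    rcases h2 with h2 | h2
    · left
      rw [coeff_map, ← map_one (mk Om U), mk_eq]
      filter_upwards [h2] with j hj
      rw [coeff_map] at hj
      exact hj
    · right
      rw [coeff_map, ← map_one (mk Om U), mk_eq]
      filter_upwards [h2] with j hj
      rw [coeff_map] at hj
      exact hj
  · have := key (0, 1) (fun j => by rw [e01]; exact (h j).2.1)
    rwa [m01] at this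
  · have := key (1, 0) (fun j => by rw [e10]; exact (h j).2.2.1)
    rwa [m10] at this
  · have := key (1, 1) (fun j => by rw [e11]; exact (h j).2.2.2)
    rwa [m11] at this

end

end Pool.Agent.E8helper88.Mul
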